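import Pool.Agent.H164Z.BsptDefs

/-!
# Definability
-/

set_option autoImplicit false

namespace Pool.Agent.H164Z.Bspt

universe u

/-- Lifting a renaming under a binder. -/
def liftR (f : ℕ → ℕ) : ℕ → ℕ
  | 0 => 0
  | n + 1 => f n + 1

/-- Renaming of variables. -/
def Fml.ren : (ℕ → ℕ) → Fml → Fml
  | f, .mem i j => .mem (f i) (f j)
  | f, .eq i j => .eq (f i) (f j)
  | f, .neg φ => .neg (φ.ren f)
  | f, .and φ ψ => .and (φ.ren f) (ψ.ren f)
  | f, .all φ => .all (φ.ren (liftR f))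

theorem sat_ren {M : Type u} (E : M → M → Prop) (φ : Fml) :
    ∀ (f : ℕ → ℕ) (v : ℕ → M), Sat E (φ.ren f) v ↔ Sat E φ (fun i => v (f i)) := by
  induction φ with
  | mem i j => intro f v; rfl
  | eq i j => intro f v; rfl
  | neg φ ih => intro f v; simp only [Fml.ren, Sat, ih]
  | and φ ψ ih ih' => intro f v; simp only [Fml.ren, Sat, ih, ih']
  | all φ ih =>
    intro f v
    simp only [Fml.ren, Sat, ih]
    refine forall_congr' fun x => ?_
    have : (fun i => cons x v (liftR f i)) = cons x (fun i => v (f i)) := by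
      funext i; cases i <;> rfl
    rw [this]

theorem sat_supp (φ : Fml) : ∃ k, ∀ {M : Type u} (E : M → M → Prop) (v v' : ℕ → M),
    (∀ i < k, v i = v' i) → (Sat E φ v ↔ Sat E φ v') := by
  induction φ with
  | mem i j =>
    refine ⟨max i j + 1, fun E v v' h => ?_⟩
    simp only [Sat]; rw [h i (by omega), h j (by omega)]
  | eq i j =>
    refine ⟨max i j + 1, fun E v v' h => ?_⟩
    simp only [Sat]; rw [h i (by omega), h j (by omega)]
  | neg φ ih =>
    obtain ⟨k, hk⟩ := ih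
    exact ⟨k, fun E v v' h => by simp only [Sat, hk E v v' h]⟩
  | and φ ψ ih ih' =>
    obtain ⟨k, hk⟩ := ih
    obtain ⟨k', hk'⟩ := ih'
    refine ⟨max k k', fun E v v' h => ?_⟩
    simp only [Sat]
    rw [hk E v v' fun i hi => h i (by omega), hk' E v v' fun i hi => h i (by omega)]
  | all φ ih =>
    obtain ⟨k, hk⟩ := ih
    refine ⟨k, fun E v v' h => ?_⟩
    simp only [Sat]
    refine forall_congr' fun x => hk E _ _ fun i hi => ?_
    cases i with
    | zero => rfl
    | succ i => exact h i (by omega)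

/-- A code of a formula. -/
def Fml.code : Fml → ℕ
  | .mem i j => Nat.pair 0 (Nat.pair i j)
  | .eq i j => Nat.pair 1 (Nat.pair i j)
  | .neg φ => Nat.pair 2 φ.code
  | .and φ ψ => Nat.pair 3 (Nat.pair φ.code ψ.code)
  | .all φ => Nat.pair 4 φ.code

theorem Fml.code_inj : ∀ φ ψ : Fml, φ.code = ψ.code → φ = ψ := by
  intro φ
  induction φ with
  | mem i j => intro ψ h; cases ψ <;> simp_all [Fml.code]
  | eq i j => intro ψ h; cases ψ <;> simp_all [Fml.code]
  | neg φ ih =>
    intro ψ h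
    cases ψ <;> simp [Fml.code] at h
    rw [ih _ h]
  | and φ φ' ih ih' =>
    intro ψ h
    cases ψ <;> simp [Fml.code] at h
    rw [ih _ h.1, ih' _ h.2]
  | all φ ih =>
    intro ψ h
    cases ψ <;> simp [Fml.code] at h
    rw [ih _ h]

instance : Countable Fml := Function.Injective.countable (f := Fml.code) fun _ _ => Fml.code_inj _ _

/-! ### Uniform definability, without parameters -/

/-- The type of predicates on valuations in all structures. -/
abbrev UP := ∀ (M : Type u), (M → M → Prop) → (ℕ → M) → Prop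

/-- Uniformly definable predicates. -/
class UD (P : UP.{u}) : Prop where
  out : ∃ φ : Fml, ∀ M E v, P M E v ↔ Sat E φ v

/-- Variables. -/
class UT (t : ∀ (M : Type u), (ℕ → M) → M) : Prop where
  out : ∃ i, ∀ M v, t M v = v i

/-- Valuations made of variables. -/
class UV (t : ∀ (M : Type u), (ℕ → M) → ℕ → M) : Prop where
  out : ∃ f : ℕ → ℕ, ∀ M v, t M v = fun i => v (f i)

instance UT.var (i : ℕ) : UT.{u} (fun _ v => v i) := ⟨i, fun _ _ => rfl⟩

instance UV.ren (f : ℕ → ℕ) : UV.{u} (fun _ v i => v (f i)) := ⟨f, fun _ _ => rfl⟩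

instance UV.cons (s : ∀ (M : Type u), (ℕ → M) → M) (t : ∀ (M : Type u), (ℕ → M) → ℕ → M)
    [hs : UT s] [ht : UV t] : UV (fun M v => cons (s M v) (t M v)) := by
  obtain ⟨i, hi⟩ := hs.out
  obtain ⟨f, hf⟩ := ht.out
  refine ⟨Bspt.cons i f, fun M v => ?_⟩
  funext k
  cases k with
  | zero => exact hi M v
  | succ k => exact congrFun (hf M v) k

instance UD.sat (φ : Fml) (t : ∀ (M : Type u), (ℕ → M) → ℕ → M) [ht : UV t] :
    UD (fun M E v => Sat E φ (t M v)) := by
  obtain ⟨f, hf⟩ := ht.out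
  exact ⟨φ.ren f, fun M E v => by rw [sat_ren, hf]⟩

instance UD.mem (s t : ∀ (M : Type u), (ℕ → M) → M) [hs : UT s] [ht : UT t] :
    UD (fun M E v => E (s M v) (t M v)) := by
  obtain ⟨i, hi⟩ := hs.out
  obtain ⟨j, hj⟩ := ht.out
  exact ⟨.mem i j, fun M E v => by rw [hi, hj]; rfl⟩

instance UD.eq (s t : ∀ (M : Type u), (ℕ → M) → M) [hs : UT s] [ht : UT t] :
    UD (fun M _ v => s M v = t M v) := by
  obtain ⟨i, hi⟩ := hs.out
  obtain ⟨j, hj⟩ := ht.out
  exact ⟨.eq i j, fun M E v => by rw [hi, hj]; rfl⟩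

instance UD.not (P : UP.{u}) [h : UD P] : UD (fun M E v => ¬ P M E v) := by
  obtain ⟨φ, h⟩ := h.out
  exact ⟨.neg φ, fun M E v => by rw [h]; rfl⟩

instance UD.and (P Q : UP.{u}) [h : UD P] [h' : UD Q] : UD (fun M E v => P M E v ∧ Q M E v) := by
  obtain ⟨φ, h⟩ := h.out
  obtain ⟨ψ, h'⟩ := h'.out
  exact ⟨.and φ ψ, fun M E v => by rw [h, h']; rfl⟩

theorem UD.congr {P Q : UP.{u}} (h : UD P) (hPQ : ∀ M E v, Q M E v ↔ P M E v) : UD Q := by
  obtain ⟨φ, h⟩ := h.out
  exact ⟨φ, fun M E v => (hPQ M E v).trans (h M E v)⟩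

instance UD.or (P Q : UP.{u}) [UD P] [UD Q] : UD (fun M E v => P M E v ∨ Q M E v) :=
  UD.congr (P := fun M E v => ¬ (¬ P M E v ∧ ¬ Q M E v)) inferInstance fun _ _ _ => by tauto

instance UD.imp (P Q : UP.{u}) [UD P] [UD Q] : UD (fun M E v => P M E v → Q M E v) :=
  UD.congr (P := fun M E v => ¬ (P M E v ∧ ¬ Q M E v)) inferInstance fun _ _ _ => by tauto

instance UD.iff (P Q : UP.{u}) [UD P] [UD Q] : UD (fun M E v => (P M E v ↔ Q M E v)) :=
  UD.congr (P := fun M E v => (P M E v → Q M E v) ∧ (Q M E v → P M E v)) inferInstance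
    fun _ _ _ => iff_iff_implies_and_implies

instance UD.all (P : ∀ (M : Type u), (M → M → Prop) → (ℕ → M) → M → Prop)
    [h : UD (fun M E w => P M E (fun i => w (i + 1)) (w 0))] :
    UD (fun M E v => ∀ x, P M E v x) := by
  obtain ⟨φ, h⟩ := h.out
  exact ⟨.all φ, fun M E v => forall_congr' fun x => h M E (Bspt.cons x v)⟩

instance UD.ex (P : ∀ (M : Type u), (M → M → Prop) → (ℕ → M) → M → Prop)
    [h : UD (fun M E w => P M E (fun i => w (i + 1)) (w 0))] :
    UD (fun M E v => ∃ x, P M E v x) :=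
  UD.congr (P := fun M E v => ¬ ∀ x, ¬ P M E v x) inferInstance fun _ _ _ => by
    rw [not_forall_not]

instance UD.exu (P : ∀ (M : Type u), (M → M → Prop) → (ℕ → M) → M → Prop)
    [h : UD (fun M E w => P M E (fun i => w (i + 1)) (w 0))] :
    UD (fun M E v => ∃! x, P M E v x) := by
  obtain ⟨φ, h⟩ := h.out
  have h1 : ∀ M E v x, P M E v x ↔ Sat E φ (Bspt.cons x v) := fun M E v x => h M E (Bspt.cons x v)
  refine UD.congr (P := fun M E v => ∃ x, Sat E φ (Bspt.cons x (fun i => v i)) ∧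
    ∀ y, Sat E φ (Bspt.cons y (fun i => v i)) → y = x) inferInstance fun M E v => ?_
  simp only [h1]
  rfl

section
variable (s t r : ∀ (M : Type u), (ℕ → M) → M) [UT s] [UT t] [UT r]

instance UD.sub : UD (fun M E v => Sub E (s M v) (t M v)) := by
  obtain ⟨i, hi⟩ := UT.out (t := s)
  obtain ⟨j, hj⟩ := UT.out (t := t)
  simp only [hi, hj, Sub]
  infer_instance

instance UD.isSucc : UD (fun M E v => IsSucc E (s M v) (t M v)) := by
  obtain ⟨i, hi⟩ := UT.out (t := s)
  obtain ⟨j, hj⟩ := UT.out (t := t)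
  simp only [hi, hj, IsSucc]
  infer_instance

instance UD.isInductive : UD (fun M E v => IsInductive E (s M v)) := by
  obtain ⟨i, hi⟩ := UT.out (t := s)
  simp only [hi, IsInductive]
  infer_instance

instance UD.isNat : UD (fun M E v => IsNat E (s M v)) := by
  obtain ⟨i, hi⟩ := UT.out (t := s)
  simp only [hi, IsNat]
  infer_instance

instance UD.isOP : UD (fun M E v => IsOP E (s M v) (t M v) (r M v)) := by
  obtain ⟨i, hi⟩ := UT.out (t := s)
  obtain ⟨j, hj⟩ := UT.out (t := t)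
  obtain ⟨k, hk⟩ := UT.out (t := r)
  simp only [hi, hj, hk, IsOP]
  infer_instance

instance UD.rel : UD (fun M E v => Rel E (s M v) (t M v) (r M v)) := by
  obtain ⟨i, hi⟩ := UT.out (t := s)
  obtain ⟨j, hj⟩ := UT.out (t := t)
  obtain ⟨k, hk⟩ := UT.out (t := r)
  simp only [hi, hj, hk, Rel]
  infer_instance

instance UD.isBij : UD (fun M E v => IsBij E (s M v) (t M v) (r M v)) := by
  obtain ⟨i, hi⟩ := UT.out (t := s)
  obtain ⟨j, hj⟩ := UT.out (t := t)
  obtain ⟨k, hk⟩ := UT.out (t := r)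
  simp only [hi, hj, hk, IsBij]
  infer_instance

instance UD.isFin : UD (fun M E v => IsFin E (s M v)) := by
  obtain ⟨i, hi⟩ := UT.out (t := s)
  simp only [hi, IsFin]
  infer_instance

end

end Pool.Agent.H164Z.Bspt
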