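import Mathlib

/-!
# Models of ZF and of the nonstandard set theory BSPT'

A structure for the language of set theory is a type `M` with a binary relation `E`
(`E x y` means that `x` is an element of `y` in the structure).
-/

set_option autoImplicit false

namespace Pool.Agent.H164Z.Bspt

universe u

/-- Formulas of the language of set theory (membership and equality), with de Bruijn indices as
variables: `all φ` binds the variable `0` of `φ`. -/
inductive Fml : Type
  | mem : ℕ → ℕ → Fml
  | eq : ℕ → ℕ → Fml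
  | neg : Fml → Fml
  | and : Fml → Fml → Fml
  | all : Fml → Fml

variable {M : Type u}

/-- The valuation with value `x` at `0` and value `v n` at `n + 1`. -/
def cons (x : M) (v : ℕ → M) : ℕ → M
  | 0 => x
  | n + 1 => v n

/-- Satisfaction of a formula in the structure `(M, E)` under a valuation of the variables. -/
def Sat (E : M → M → Prop) : Fml → (ℕ → M) → Prop
  | .mem i j, v => E (v i) (v j)
  | .eq i j, v => v i = v j
  | .neg φ, v => ¬ Sat E φ v
  | .and φ ψ, v => Sat E φ v ∧ Sat E ψ v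
  | .all φ, v => ∀ x, Sat E φ (cons x v)

/-- `a` is a subset of `b`. -/
def Sub (E : M → M → Prop) (a b : M) : Prop := ∀ t, E t a → E t b

/-- `s` is the successor `x ∪ {x}` of `x`. -/
def IsSucc (E : M → M → Prop) (s x : M) : Prop := ∀ t, E t s ↔ E t x ∨ t = x

/-- `I` contains the empty set and is closed under successor. -/
def IsInductive (E : M → M → Prop) (I : M) : Prop :=
  (∃ e, E e I ∧ ∀ t, ¬ E t e) ∧ ∀ x, E x I → ∃ s, E s I ∧ IsSucc E s x

/-- `n` is a natural number of the structure: an element of every inductive set. -/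
def IsNat (E : M → M → Prop) (n : M) : Prop := ∀ I, IsInductive E I → E n I

/-- `p` is the Kuratowski pair `{{a}, {a, b}}`. -/
def IsOP (E : M → M → Prop) (p a b : M) : Prop :=
  ∀ t, E t p ↔ (∀ s, E s t ↔ s = a) ∨ (∀ s, E s t ↔ s = a ∨ s = b)

/-- The pair `(a, b)` is an element of `f`. -/
def Rel (E : M → M → Prop) (f a b : M) : Prop := ∃ p, E p f ∧ IsOP E p a b

/-- `f` is a bijection from `n` onto `a`. -/
def IsBij (E : M → M → Prop) (f n a : M) : Prop :=
  (∀ p, E p f → ∃ l y, E l n ∧ E y a ∧ IsOP E p l y) ∧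
    (∀ l, E l n → ∃! y, Rel E f l y) ∧ (∀ y, E y a → ∃! l, Rel E f l y)

/-- `a` is finite in the structure: it is in bijection with a natural number. -/
def IsFin (E : M → M → Prop) (a : M) : Prop := ∃ n f, IsNat E n ∧ IsBij E f n a

/-- `(M, E)` is a model of ZF: Extensionality, Foundation, Pairing, Union, Power Set, Infinity and
the schemes of Separation and Replacement for all formulas with parameters. -/
structure IsZF (E : M → M → Prop) : Prop where
  ext : ∀ x y, (∀ z, E z x ↔ E z y) → x = y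
  found : ∀ x, (∃ y, E y x) → ∃ y, E y x ∧ ∀ z, E z y → ¬ E z x
  pair : ∀ x y, ∃ p, ∀ z, E z p ↔ z = x ∨ z = y
  union : ∀ x, ∃ s, ∀ z, E z s ↔ ∃ y, E y x ∧ E z y
  power : ∀ x, ∃ p, ∀ z, E z p ↔ Sub E z x
  inf : ∃ I, IsInductive E I
  sep : ∀ (φ : Fml) (v : ℕ → M) (A : M), ∃ B, ∀ x, E x B ↔ E x A ∧ Sat E φ (cons x v)
  repl : ∀ (φ : Fml) (v : ℕ → M) (A : M),
    (∀ x, E x A → ∃! y, Sat E φ (cons y (cons x v))) →
      ∃ B, ∀ y, E y B ↔ ∃ x, E x A ∧ Sat E φ (cons y (cons x v))

/-- `(M, E, St)` is a model of BSPT', where `St` interprets the predicate of being standard. -/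
structure IsBSPT (E : M → M → Prop) (St : M → Prop) : Prop where
  zf : IsZF E
  transfer : ∀ (φ : Fml) (v : ℕ → M), (∀ i, St (v i)) →
    (∀ x, St x → Sat E φ (cons x v)) → ∀ x, Sat E φ (cons x v)
  nontrivial : ∃ ν, IsNat E ν ∧ ∀ n, St n → IsNat E n → n ≠ ν
  standardPart : ∀ A, (∀ t, E t A → IsNat E t) →
    ∃ B, St B ∧ (∀ t, E t B → IsNat E t) ∧ ∀ n, St n → IsNat E n → (E n B ↔ E n A)
  bounded : ∀ x, ∃ X, St X ∧ E x X
  idealization : ∀ (φ : Fml) (v : ℕ → M), (∀ i, St (v i)) → ∀ A X, St A → St X →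
    ((∀ a, St a → IsFin E a → Sub E a A →
        ∃ x, E x X ∧ ∀ y, E y a → Sat E φ (cons x (cons y v))) ↔
      ∃ x, E x X ∧ ∀ y, St y → E y A → Sat E φ (cons x (cons y v)))

end Pool.Agent.H164Z.Bspt
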