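import Pool.Agent.H164Z.BsptDef

/-!
# Definability with parameters in a countable model of ZF
-/

set_option autoImplicit false

namespace Pool.Agent.H164Z.Bspt

universe u

/-- A model of ZF with an enumeration. -/
structure Str (M : Type u) where
  /-- membership -/
  E : M → M → Prop
  /-- enumeration -/
  e : ℕ → M
  surj : Function.Surjective e
  zf : IsZF E

variable {M : Type u}

/-- Interleaving of two valuations. -/
def il (v w : ℕ → M) (i : ℕ) : M := if i % 2 = 0 then v (i / 2) else w (i / 2)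

theorem il_even (v w : ℕ → M) (i : ℕ) : il v w (2 * i) = v i := by
  rw [il, if_pos (by omega)]; congr 1; omega

theorem il_odd (v w : ℕ → M) (i : ℕ) : il v w (2 * i + 1) = w i := by
  rw [il, if_neg (by omega)]; congr 1; omega

variable (S : Str M)

/-- Definable with parameters. -/
class Df (p : (ℕ → M) → Prop) : Prop where
  out : ∃ φ : Fml, ∀ v, p v ↔ Sat S.E φ (il v S.e)

/-- Variables and parameters. -/
class Tm (t : (ℕ → M) → M) : Prop where
  out : ∃ i, ∀ v, t v = il v S.e i

/-- Valuations made of variables and parameters. -/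
class Vt (t : (ℕ → M) → ℕ → M) : Prop where
  out : ∀ i, Tm S (fun v => t v i)

instance Tm.var (i : ℕ) : Tm S (fun v => v i) := ⟨2 * i, fun v => (il_even v _ i).symm⟩

instance Tm.const (a : M) : Tm S (fun _ => a) := by
  obtain ⟨i, rfl⟩ := S.surj a
  exact ⟨2 * i + 1, fun v => (il_odd v _ i).symm⟩

instance Vt.const (w : ℕ → M) : Vt S (fun _ => w) := ⟨fun i => Tm.const S (w i)⟩

instance Vt.ren (f : ℕ → ℕ) : Vt S (fun v i => v (f i)) := ⟨fun i => Tm.var S (f i)⟩

instance Vt.cons (s : (ℕ → M) → M) (t : (ℕ → M) → ℕ → M) [hs : Tm S s] [ht : Vt S t] :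
    Vt S (fun v => cons (s v) (t v)) := by
  refine ⟨fun i => ?_⟩
  cases i with
  | zero => exact hs
  | succ i => exact ht.out i

variable {S}

theorem Df.congr {p q : (ℕ → M) → Prop} (h : Df S p) (hpq : ∀ v, q v ↔ p v) : Df S q := by
  obtain ⟨φ, h⟩ := h.out
  exact ⟨φ, fun v => (hpq v).trans (h v)⟩

theorem Df.subst {p : (ℕ → M) → Prop} (h : Df S p) (t : (ℕ → M) → ℕ → M) [ht : Vt S t] :
    Df S (fun v => p (t v)) := by
  obtain ⟨φ, h⟩ := h.out
  choose f hf using fun i => (ht.out i).out
  refine ⟨φ.ren (fun i => if i % 2 = 0 then f (i / 2) else i), fun v => ?_⟩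
  rw [h, sat_ren]
  have : il (t v) S.e = fun i => il v S.e (if i % 2 = 0 then f (i / 2) else i) := by
    funext i
    by_cases hi : i % 2 = 0
    · rw [if_pos hi, il, if_pos hi, hf]
    · rw [if_neg hi, il, if_neg hi, il, if_neg hi]
  rw [this]

theorem Df.ofUD (P : UP.{u}) [h : UD P] (t : (ℕ → M) → ℕ → M) [ht : Vt S t] :
    Df S (fun v => P M S.E (t v)) := by
  obtain ⟨φ, h⟩ := h.out
  have h1 : Df S (fun v => P M S.E v) := by
    refine ⟨φ.ren (fun i => 2 * i), fun v => ?_⟩
    rw [sat_ren, h]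
    simp only [il_even]
  exact h1.subst t

theorem Df.supp {p : (ℕ → M) → Prop} (h : Df S p) :
    ∃ k, ∀ v v' : ℕ → M, (∀ i < k, v i = v' i) → p v → p v' := by
  obtain ⟨φ, h⟩ := h.out
  obtain ⟨k, hk⟩ := sat_supp.{u} φ
  refine ⟨k, fun v v' hv => ?_⟩
  rw [h, h]
  refine (hk S.E _ _ fun i hi => ?_).1
  unfold il
  split_ifs
  · exact hv _ (by omega)
  · rfl

variable (S)

instance Df.sat (φ : Fml) (t : (ℕ → M) → ℕ → M) [Vt S t] : Df S (fun v => Sat S.E φ (t v)) :=
  Df.ofUD (fun _ E v => Sat E φ (fun i => v i)) t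

instance Df.not (p : (ℕ → M) → Prop) [h : Df S p] : Df S (fun v => ¬ p v) := by
  obtain ⟨φ, h⟩ := h.out
  exact ⟨.neg φ, fun v => by rw [h]; rfl⟩

instance Df.and (p q : (ℕ → M) → Prop) [h : Df S p] [h' : Df S q] :
    Df S (fun v => p v ∧ q v) := by
  obtain ⟨φ, h⟩ := h.out
  obtain ⟨ψ, h'⟩ := h'.out
  exact ⟨.and φ ψ, fun v => by rw [h, h']; rfl⟩

instance Df.or (p q : (ℕ → M) → Prop) [Df S p] [Df S q] : Df S (fun v => p v ∨ q v) :=
  Df.congr (p := fun v => ¬ (¬ p v ∧ ¬ q v)) inferInstance fun _ => by tauto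

instance Df.imp (p q : (ℕ → M) → Prop) [Df S p] [Df S q] : Df S (fun v => p v → q v) :=
  Df.congr (p := fun v => ¬ (p v ∧ ¬ q v)) inferInstance fun _ => by tauto

instance Df.iff (p q : (ℕ → M) → Prop) [Df S p] [Df S q] : Df S (fun v => (p v ↔ q v)) :=
  Df.congr (p := fun v => (p v → q v) ∧ (q v → p v)) inferInstance
    fun _ => iff_iff_implies_and_implies

instance Df.all (p : (ℕ → M) → M → Prop)
    [h : Df S (fun w => p (fun i => w (i + 1)) (w 0))] : Df S (fun v => ∀ x, p v x) := by
  obtain ⟨φ, h⟩ := h.out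
  refine ⟨.all (φ.ren fun i => if i = 0 then 0 else if i % 2 = 0 then i - 1 else i + 1),
    fun v => forall_congr' fun x => ?_⟩
  rw [sat_ren]
  refine (h (cons x v)).trans ?_
  have : il (cons x v) S.e = fun i => cons x (il v S.e)
      (if i = 0 then 0 else if i % 2 = 0 then i - 1 else i + 1) := by
    funext i
    by_cases h0 : i = 0
    · subst h0; rfl
    · rw [if_neg h0]
      by_cases hi : i % 2 = 0
      · obtain ⟨j, rfl⟩ : ∃ j, i = 2 * (j + 1) := ⟨i / 2 - 1, by omega⟩
        rw [if_pos hi, il_even, show 2 * (j + 1) - 1 = 2 * j + 1 by omega]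
        exact (il_even v S.e j).symm
      · rw [if_neg hi, il, if_neg hi]
        show _ = il v S.e i
        rw [il, if_neg hi]
  rw [this]

instance Df.ex (p : (ℕ → M) → M → Prop)
    [h : Df S (fun w => p (fun i => w (i + 1)) (w 0))] : Df S (fun v => ∃ x, p v x) :=
  Df.congr (p := fun v => ¬ ∀ x, ¬ p v x) inferInstance fun _ => by rw [not_forall_not]

section
variable (s t r : (ℕ → M) → M) [Tm S s] [Tm S t] [Tm S r]

instance Df.mem : Df S (fun v => S.E (s v) (t v)) :=
  Df.ofUD (fun _ E v => E (v 0) (v 1)) (fun v => cons (s v) (cons (t v) fun i => v i))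

instance Df.eq : Df S (fun v => s v = t v) :=
  Df.ofUD (fun _ _ v => v 0 = v 1) (fun v => cons (s v) (cons (t v) fun i => v i))

instance Df.sub : Df S (fun v => Sub S.E (s v) (t v)) :=
  Df.ofUD (fun _ E v => Sub E (v 0) (v 1)) (fun v => cons (s v) (cons (t v) fun i => v i))

instance Df.isSucc : Df S (fun v => IsSucc S.E (s v) (t v)) :=
  Df.ofUD (fun _ E v => IsSucc E (v 0) (v 1)) (fun v => cons (s v) (cons (t v) fun i => v i))

instance Df.isNat : Df S (fun v => IsNat S.E (s v)) :=
  Df.ofUD (fun _ E v => IsNat E (v 0)) (fun v => cons (s v) fun i => v i)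

instance Df.isFin : Df S (fun v => IsFin S.E (s v)) :=
  Df.ofUD (fun _ E v => IsFin E (v 0)) (fun v => cons (s v) fun i => v i)

instance Df.isOP : Df S (fun v => IsOP S.E (s v) (t v) (r v)) :=
  Df.ofUD (fun _ E v => IsOP E (v 0) (v 1) (v 2))
    (fun v => cons (s v) (cons (t v) (cons (r v) fun i => v i)))

instance Df.rel : Df S (fun v => Rel S.E (s v) (t v) (r v)) :=
  Df.ofUD (fun _ E v => Rel E (v 0) (v 1) (v 2))
    (fun v => cons (s v) (cons (t v) (cons (r v) fun i => v i)))

end

/-- Quantification over valuations. -/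
instance Df.exVal (q : (ℕ → M) → (ℕ → M) → Prop)
    [h : Df S (fun w => q (fun i => w (2 * i)) (fun i => w (2 * i + 1)))] :
    Df S (fun u => ∃ v, q u v) := by
  obtain ⟨k, hk⟩ := h.supp
  have h1 : ∀ m : ℕ, Df S (fun w => ∃ v, (∀ i, m ≤ i → v i = w (2 * i + 1)) ∧
      q (fun i => w (2 * i)) v) := by
    intro m
    induction m with
    | zero =>
      refine h.congr fun w => ⟨?_, fun h2 => ⟨_, fun _ _ => rfl, h2⟩⟩
      rintro ⟨v, hv, h2⟩
      have : v = fun i => w (2 * i + 1) := funext fun i => hv i (Nat.zero_le i)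
      rw [← this]; exact h2
    | succ m ih =>
      have h2 := ih.subst (fun w i => w (if i = 2 * m + 1 then 0 else i + 1))
        (ht := Vt.ren S fun i => if i = 2 * m + 1 then 0 else i + 1)
      have h3 := Df.ex S (fun w x => ∃ v, (∀ i, m ≤ i → v i = if i = m then x else w (2 * i + 1)) ∧
        q (fun i => w (2 * i)) v) (h := h2.congr fun w => by
          beta_reduce
          refine exists_congr fun v => and_congr (forall_congr' fun i => imp_congr_right
            fun _ => ?_) ?_
          · by_cases hi : i = m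
            · rw [if_pos hi, if_pos (by omega)]
            · rw [if_neg hi, if_neg (by omega)]
          · have : (fun i => w (if 2 * i = 2 * m + 1 then 0 else 2 * i + 1))
                = fun i => w (2 * i + 1) := by
              funext i; rw [if_neg (by omega)]
            rw [this])
      refine h3.congr fun w => ⟨?_, ?_⟩
      · rintro ⟨v, hv, h4⟩
        refine ⟨v m, v, fun i hi => ?_, h4⟩
        by_cases hi' : i = m
        · rw [if_pos hi', hi']
        · rw [if_neg hi', hv i (by omega)]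
      · rintro ⟨x, v, hv, h4⟩
        exact ⟨v, fun i hi => by rw [hv i (by omega), if_neg (by omega)], h4⟩
  refine ((h1 k).subst (fun u i => u (i / 2)) (ht := Vt.ren S fun i => i / 2)).congr fun u => ?_
  beta_reduce
  have e1 : (fun i => u (2 * i / 2)) = u := by
    funext i; congr 1; omega
  rw [e1]
  refine ⟨?_, fun ⟨v, _, h2⟩ => ⟨v, h2⟩⟩
  rintro ⟨v, hv⟩
  refine ⟨fun i => if i < k then v i else u ((2 * i + 1) / 2), fun i hi => if_neg (by omega), ?_⟩
  have h5 := hk (il u v) (il u fun i => if i < k then v i else u ((2 * i + 1) / 2)) (fun i hi => by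
    unfold il
    split_ifs with h6
    · rfl
    · show _ = ite _ _ _
      rw [if_pos (by omega)])
  simp only [il_even, il_odd] at h5
  exact h5 hv

instance Df.allVal (q : (ℕ → M) → (ℕ → M) → Prop)
    [h : Df S (fun w => q (fun i => w (2 * i)) (fun i => w (2 * i + 1)))] :
    Df S (fun u => ∀ v, q u v) :=
  Df.congr (p := fun u => ¬ ∃ v, ¬ q u v) inferInstance fun _ => by
    simp only [not_exists, not_not]

/-- Definable classes. -/
abbrev D1 (C : M → Prop) : Prop := ∀ (s : (ℕ → M) → M) [Tm S s], Df S (fun v => C (s v))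

/-- Definable binary relations. -/
abbrev D2 (R : M → M → Prop) : Prop :=
  ∀ (s t : (ℕ → M) → M) [Tm S s] [Tm S t], Df S (fun v => R (s v) (t v))

/-- Definable predicates on valuations. -/
abbrev DV0 (p : (ℕ → M) → Prop) : Prop :=
  ∀ (t : (ℕ → M) → ℕ → M) [Vt S t], Df S (fun v => p (t v))

/-- Definable families of predicates on valuations. -/
abbrev DV1 (θ : M → (ℕ → M) → Prop) : Prop :=
  ∀ (s : (ℕ → M) → M) (t : (ℕ → M) → ℕ → M) [Tm S s] [Vt S t], Df S (fun v => θ (s v) (t v))

variable {S}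

theorem D1.of (C : M → Prop) [h : Df S (fun v => C (v 0))] : D1 S C :=
  fun s _ => h.subst (fun v => cons (s v) fun i => v i)

theorem D2.of (R : M → M → Prop) [h : Df S (fun v => R (v 0) (v 1))] : D2 S R :=
  fun s t _ _ => h.subst (fun v => cons (s v) (cons (t v) fun i => v i))

theorem DV0.of (p : (ℕ → M) → Prop) [h : Df S p] : DV0 S p := fun t _ => h.subst t

theorem DV1.of (θ : M → (ℕ → M) → Prop) [h : Df S (fun w => θ (w 0) (fun i => w (i + 1)))] :
    DV1 S θ :=
  fun s t _ _ => h.subst (fun v => cons (s v) (t v))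

variable (S)

theorem Str.sep (C : M → Prop) [h : Df S (fun v => C (v 0))] (A : M) :
    ∃ B, ∀ x, S.E x B ↔ S.E x A ∧ C x := by
  obtain ⟨φ, h⟩ := h.out
  obtain ⟨B, hB⟩ := S.zf.sep (φ.ren fun i => if i % 2 = 0 then 0 else i / 2 + 1) S.e A
  refine ⟨B, fun x => (hB x).trans (and_congr_right fun _ => ?_)⟩
  rw [sat_ren]
  refine Iff.symm ((h fun _ => x).trans ?_)
  have : il (fun _ => x) S.e = fun i => cons x S.e (if i % 2 = 0 then 0 else i / 2 + 1) := by
    funext i
    unfold il
    split_ifs <;> rfl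
  rw [this]

theorem Str.repl (R : M → M → Prop) [h : Df S (fun v => R (v 0) (v 1))] (A : M)
    (hR : ∀ x, S.E x A → ∃! y, R x y) : ∃ B, ∀ y, S.E y B ↔ ∃ x, S.E x A ∧ R x y := by
  obtain ⟨φ, h⟩ := h.out
  have h1 : ∀ x y, R x y ↔ Sat S.E (φ.ren fun i => if i % 2 = 0 then
      (if i = 0 then 1 else 0) else i / 2 + 2) (cons y (cons x S.e)) := by
    intro x y
    rw [sat_ren]
    refine (h (cons x fun _ => y)).trans ?_
    have : il (cons x fun _ => y) S.e = fun i => cons y (cons x S.e) (if i % 2 = 0 then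
        (if i = 0 then 1 else 0) else i / 2 + 2) := by
      funext i
      unfold il
      split_ifs with h2 h3
      · subst h3; rfl
      · obtain ⟨j, hj⟩ : ∃ j, i / 2 = j + 1 := ⟨i / 2 - 1, by omega⟩
        rw [hj]; rfl
      · rfl
    rw [this]
  simp only [h1] at hR ⊢
  exact S.zf.repl _ S.e A hR

end Pool.Agent.H164Z.Bspt
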