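import Pool.Agent.H164Z.BsptZF

/-!
# Forcing with definable filter bases, and the generic ultrafilter
-/

set_option autoImplicit false

namespace Pool.Agent.H164Z.Bspt

universe u

variable {M : Type u} {S : Str M}

/-- Conditions: definable filter bases on valuations with finite support. -/
structure Cond (S : Str M) where
  /-- number of variables used -/
  k : ℕ
  /-- the filter base -/
  θ : M → (ℕ → M) → Prop
  df : DV1 S θ
  supp : ∀ z v v', (∀ i < k, v i = v' i) → θ z v → θ z v'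
  ne : ∀ z, ∃ v, θ z v
  dir : ∀ z1 z2, ∃ z, ∀ v, θ z v → θ z1 v ∧ θ z2 v
  small : ∃ Z, ∀ z, ∃ z', S.E z' Z ∧ ∀ v, θ z' v → θ z v
  bdd : ∀ i < k, ∃ B z, ∀ v, θ z v → S.E (v i) B

namespace Cond

/-- Membership in the filter. -/
def Forces (F : Cond S) (p : (ℕ → M) → Prop) : Prop := ∃ z, ∀ v, F.θ z v → p v

/-- Positive sets. -/
def Pos (F : Cond S) (p : (ℕ → M) → Prop) : Prop := ∀ z, ∃ v, F.θ z v ∧ p v

/-- Extension of conditions. -/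
def Le (F' F : Cond S) : Prop := F.k ≤ F'.k ∧ ∀ p, F.Forces p → F'.Forces p

theorem Le.refl (F : Cond S) : F.Le F := ⟨le_rfl, fun _ h => h⟩

theorem Le.trans {F F' F'' : Cond S} (h : F''.Le F') (h' : F'.Le F) : F''.Le F :=
  ⟨h'.1.trans h.1, fun p hp => h.2 p (h'.2 p hp)⟩

variable {F : Cond S} {p q : (ℕ → M) → Prop}

theorem Forces.mono (h : F.Forces p) (hpq : ∀ v, p v → q v) : F.Forces q := by
  obtain ⟨z, hz⟩ := h
  exact ⟨z, fun v hv => hpq v (hz v hv)⟩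

theorem Forces.and (h : F.Forces p) (h' : F.Forces q) : F.Forces fun v => p v ∧ q v := by
  obtain ⟨z, hz⟩ := h
  obtain ⟨z', hz'⟩ := h'
  obtain ⟨w, hw⟩ := F.dir z z'
  exact ⟨w, fun v hv => ⟨hz v (hw v hv).1, hz' v (hw v hv).2⟩⟩

theorem Pos.mono (h : F.Pos p) (hpq : ∀ v, p v → q v) : F.Pos q := fun z => by
  obtain ⟨v, hv, h1⟩ := h z
  exact ⟨v, hv, hpq v h1⟩

theorem not_pos : ¬ F.Pos p ↔ F.Forces fun v => ¬ p v := by
  simp only [Pos, Forces, not_forall, not_exists, not_and]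

theorem Forces.pos (h : F.Forces p) : F.Pos p := fun z => by
  obtain ⟨z', hz'⟩ := h
  obtain ⟨w, hw⟩ := F.dir z z'
  obtain ⟨v, hv⟩ := F.ne w
  exact ⟨v, (hw v hv).1, hz' v (hw v hv).2⟩

theorem Pos.or (h : F.Pos fun v => p v ∨ q v) : F.Pos p ∨ F.Pos q := by
  by_contra hn
  rw [not_or, not_pos, not_pos] at hn
  obtain ⟨z, hz⟩ := hn.1.and hn.2
  obtain ⟨v, hv, h1⟩ := h z
  exact h1.elim (hz v hv).1 (hz v hv).2

theorem ext (F : Cond S) (k : ℕ) (hk : F.k ≤ k) (ψ : M → (ℕ → M) → Prop) (df : DV1 S ψ)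
    (supp : ∀ z v v', (∀ i < k, v i = v' i) → ψ z v → ψ z v')
    (pos : ∀ z, F.Pos (ψ z))
    (dir : ∀ z1 z2, ∃ z, ∀ v, ψ z v → ψ z1 v ∧ ψ z2 v)
    (small : ∃ Z, ∀ z, ∃ z', S.E z' Z ∧ ∀ v, ψ z' v → ψ z v)
    (bdd : ∀ i, F.k ≤ i → i < k → ∃ B z, ∀ v, ψ z v → S.E (v i) B) :
    ∃ F' : Cond S, F'.Le F ∧ F'.k = k ∧ ∀ y, F'.Forces (ψ y) := by
  have := F.df
  let θ : M → (ℕ → M) → Prop := fun z v =>
    ∀ a b, (∀ t, S.E t z ↔ t = a ∨ t = b) → F.θ a v ∧ ψ b v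
  have h1 : ∀ z, ∃ a b, ∀ v, F.θ a v → ψ b v → θ z v := by
    intro z
    by_cases hz : ∃ a b, ∀ t, S.E t z ↔ t = a ∨ t = b
    · obtain ⟨a, b, hz⟩ := hz
      obtain ⟨a', ha'⟩ := F.dir a b
      obtain ⟨b', hb'⟩ := dir a b
      refine ⟨a', b', fun v h2 h3 a1 b1 h4 => ⟨?_, ?_⟩⟩
      · rcases (hz a1).1 ((h4 a1).2 (Or.inl rfl)) with rfl | rfl
        · exact (ha' v h2).1
        · exact (ha' v h2).2
      · rcases (hz b1).1 ((h4 b1).2 (Or.inr rfl)) with rfl | rfl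
        · exact (hb' v h3).1
        · exact (hb' v h3).2
    · exact ⟨z, z, fun v _ _ a b h => absurd ⟨a, b, h⟩ hz⟩
  have h2 : ∀ a b, ∃ z, ∀ v, θ z v → F.θ a v ∧ ψ b v := by
    intro a b
    obtain ⟨z, hz⟩ := S.zf.pair a b
    exact ⟨z, fun v h => h a b hz⟩
  refine ⟨⟨k, θ, DV1.of _ (h := by simp only [θ]; infer_instance), ?_, ?_, ?_, ?_, ?_⟩,
    ⟨hk, ?_⟩, rfl, ?_⟩
  · intro z v v' h h3 a b h4
    exact ⟨F.supp a v v' (fun i hi => h i (by omega)) (h3 a b h4).1, supp b v v' h (h3 a b h4).2⟩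
  · intro z
    obtain ⟨a, b, h⟩ := h1 z
    obtain ⟨v, hv, hv'⟩ := pos b a
    exact ⟨v, h v hv hv'⟩
  · intro z1 z2
    obtain ⟨a1, b1, h3⟩ := h1 z1
    obtain ⟨a2, b2, h4⟩ := h1 z2
    obtain ⟨a, ha⟩ := F.dir a1 a2
    obtain ⟨b, hb⟩ := dir b1 b2
    obtain ⟨z, hz⟩ := h2 a b
    exact ⟨z, fun v hv => ⟨h3 v (ha v (hz v hv).1).1 (hb v (hz v hv).2).1,
      h4 v (ha v (hz v hv).1).2 (hb v (hz v hv).2).2⟩⟩
  · obtain ⟨Z, hZ⟩ := F.small
    obtain ⟨Y, hY⟩ := small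
    obtain ⟨V, hV⟩ := S.ex_union2 Z Y
    obtain ⟨Pw, hP⟩ := S.zf.power V
    refine ⟨Pw, fun z => ?_⟩
    obtain ⟨a, b, h⟩ := h1 z
    obtain ⟨a', ha, ha'⟩ := hZ a
    obtain ⟨b', hb, hb'⟩ := hY b
    obtain ⟨z', hz'⟩ := S.zf.pair a' b'
    refine ⟨z', (hP z').2 fun t ht => (hV t).2 ?_, fun v hv =>
      h v (ha' v (hv a' b' hz').1) (hb' v (hv a' b' hz').2)⟩
    rcases (hz' t).1 ht with rfl | rfl
    · exact Or.inl ha
    · exact Or.inr hb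
  · intro i hi
    by_cases h : i < F.k
    · obtain ⟨B, z, hz⟩ := F.bdd i h
      obtain ⟨z', hz'⟩ := h2 z z
      exact ⟨B, z', fun v hv => hz v (hz' v hv).1⟩
    · obtain ⟨B, z, hz⟩ := bdd i (by omega) hi
      obtain ⟨z', hz'⟩ := h2 z z
      exact ⟨B, z', fun v hv => hz v (hz' v hv).2⟩
  · rintro p ⟨z, hz⟩
    obtain ⟨z', hz'⟩ := h2 z z
    exact ⟨z', fun v hv => hz v (hz' v hv).1⟩
  · intro y
    obtain ⟨z', hz'⟩ := h2 y y
    exact ⟨z', fun v hv => (hz' v hv).2⟩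

/-- Adding a new variable whose type is given by a definable filter base on a set `X`. -/
theorem extNew (F : Cond S) (ψ : M → (ℕ → M) → M → Prop)
    (df : DV1 S fun z v => ψ z v (v F.k))
    (supp : ∀ z v v' x, (∀ i < F.k, v i = v' i) → ψ z v x → ψ z v' x)
    (pos : ∀ z, F.Pos fun v => ∃ x, ψ z v x)
    (dir : ∀ z1 z2, ∃ z, ∀ v x, ψ z v x → ψ z1 v x ∧ ψ z2 v x)
    (small : ∃ Z, ∀ z, ∃ z', S.E z' Z ∧ ∀ v x, ψ z' v x → ψ z v x)
    (X : M) (bdd : ∀ z v x, ψ z v x → S.E x X) :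
    ∃ F' : Cond S, F'.Le F ∧ F'.k = F.k + 1 ∧ ∀ y, F'.Forces fun v => ψ y v (v F.k) := by
  refine F.ext (F.k + 1) (by omega) _ df (fun z v v' h h1 => ?_) (fun y z => ?_)
    (fun z1 z2 => ?_) ?_ fun i h1 h2 => ?_
  · rw [← h F.k (by omega)]
    exact supp z v v' _ (fun i hi => h i (by omega)) h1
  · obtain ⟨v, hv, x, hx⟩ := pos y z
    have h1 : ∀ i < F.k, v i = Function.update v F.k x i := fun i hi =>
      (Function.update_of_ne (by omega) _ _).symm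
    refine ⟨Function.update v F.k x, F.supp z _ _ h1 hv, ?_⟩
    rw [Function.update_self]
    exact supp y _ _ x h1 hx
  · obtain ⟨z, hz⟩ := dir z1 z2
    exact ⟨z, fun v => hz v _⟩
  · obtain ⟨Z, hZ⟩ := small
    refine ⟨Z, fun z => ?_⟩
    obtain ⟨z', h1, h2⟩ := hZ z
    exact ⟨z', h1, fun v => h2 v _⟩
  · obtain rfl : i = F.k := by omega
    exact ⟨X, X, fun v hv => bdd _ _ _ hv⟩

theorem ex_mem (S : Str M) : ∃ a B, S.E a B := by
  obtain ⟨p, hp⟩ := S.zf.pair (S.e 0) (S.e 0)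
  exact ⟨S.e 0, p, (hp _).2 (Or.inl rfl)⟩

theorem pos_true (F : Cond S) (h : ∀ v, p v) : F.Pos p := fun z => by
  obtain ⟨v, hv⟩ := F.ne z
  exact ⟨v, hv, h v⟩

theorem grow (F : Cond S) (k : ℕ) : ∃ F' : Cond S, F'.Le F ∧ k ≤ F'.k := by
  induction k with
  | zero => exact ⟨F, Le.refl F, Nat.zero_le _⟩
  | succ k ih =>
    obtain ⟨F', h1, h2⟩ := ih
    obtain ⟨a, B, hB⟩ := ex_mem S
    obtain ⟨F'', h3, h4, -⟩ := F'.extNew (fun _ _ x => S.E x B) (DV1.of _) (fun _ _ _ _ _ h => h)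
      (fun _ => F'.pos_true fun _ => ⟨a, hB⟩) (fun z _ => ⟨z, fun _ _ h => ⟨h, h⟩⟩)
      ⟨B, fun _ => ⟨a, hB, fun _ _ h => h⟩⟩ B fun _ _ _ h => h
    exact ⟨F'', h3.trans h1, by omega⟩

theorem henkin (F : Cond S) (r : M → (ℕ → M) → Prop) (hr : DV1 S r) :
    ∃ F' : Cond S, F'.Le F ∧
      ((F'.Forces fun v => ¬ ∃ y, r y v) ∨ ∃ i, F'.Forces fun v => r (v i) v) := by
  obtain ⟨k, hk⟩ := (inferInstance : Df S fun w => r (w 0) fun i => w (i + 1)).supp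
  obtain ⟨G, hG, hGk⟩ := F.grow k
  by_cases h : G.Pos fun v => ∃ y, r y v
  · have := G.df
    obtain ⟨Z, hZ⟩ := G.small
    obtain ⟨T, hT⟩ := S.collection (fun z y => ∃ v, G.θ z v ∧ r y v) (D2.of _) Z fun z _ => by
      obtain ⟨v, hv, y, hy⟩ := h z
      exact ⟨y, v, hv, hy⟩
    obtain ⟨a, B, hB⟩ := ex_mem S
    obtain ⟨F', h1, -, h2⟩ := G.extNew (fun _ v x => S.E x T ∧ r x v) (DV1.of _)
      (fun _ v v' x hv h => ⟨h.1, hk (cons x v) (cons x v') (fun i hi => by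
        cases i with
        | zero => rfl
        | succ i => exact hv i (by omega)) h.2⟩)
      (fun _ z => by
        obtain ⟨z', h1, h2⟩ := hZ z
        obtain ⟨y, hy, v, h3, h4⟩ := hT z' h1
        exact ⟨v, h2 v h3, y, hy, h4⟩)
      (fun z _ => ⟨z, fun _ _ h => ⟨h, h⟩⟩) ⟨B, fun _ => ⟨a, hB, fun _ _ h => h⟩⟩ T
      fun _ _ _ h => h.1
    exact ⟨F', h1.trans hG, Or.inr ⟨G.k, (h2 a).mono fun _ h => h.2⟩⟩
  · exact ⟨G, hG, Or.inl (not_pos.1 h)⟩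

theorem pick (F : Cond S) (i : ℕ) : ∃ F' : Cond S, F'.Le F ∧
    ((∃ b, F'.Forces fun v => v i = b) ∨ ∀ b, ¬ F'.Pos fun v => v i = b) := by
  obtain ⟨G, hG, hGk⟩ := F.grow (i + 1)
  by_cases h : ∃ b, G.Pos fun v => v i = b
  · obtain ⟨b, hb⟩ := h
    obtain ⟨a, B, hB⟩ := ex_mem S
    obtain ⟨F', h1, -, h2⟩ := G.ext G.k le_rfl (fun _ v => v i = b) (DV1.of _)
      (fun _ v v' hv h => by rw [← hv i (by omega)]; exact h) (fun _ => hb)
      (fun z _ => ⟨z, fun _ h => ⟨h, h⟩⟩) ⟨B, fun _ => ⟨a, hB, fun _ h => h⟩⟩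
      fun j h1 h2 => by omega
    exact ⟨F', h1.trans hG, Or.inl ⟨b, h2 a⟩⟩
  · exact ⟨G, hG, Or.inr fun b hb => h ⟨b, hb⟩⟩

theorem pos_fin (F : Cond S) (i : ℕ) {a : M} (ha : IsFin S.E a)
    (h : F.Pos fun v => S.E (v i) a) : ∃ b, F.Pos fun v => v i = b := by
  obtain ⟨n, f, hn, hf⟩ := ha
  by_contra hb
  have := F.df
  have h1 : ∀ m, IsNat S.E m → ¬ F.Pos fun v => ∃ l, S.E l m ∧ Rel S.E f l (v i) := by
    refine S.nat_ind (fun m => ¬ ∀ z, ∃ v, F.θ z v ∧ ∃ l, S.E l m ∧ Rel S.E f l (v i))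
      (fun e he h2 => ?_) fun m s _ h2 hs h3 => ?_
    · obtain ⟨_, _, l, hl, _⟩ := h2 e
      exact he l hl
    · have h4 : F.Pos fun v => (∃ l, S.E l m ∧ Rel S.E f l (v i)) ∨ Rel S.E f m (v i) := by
        refine Pos.mono h3 ?_
        rintro v ⟨l, hl, h5⟩
        rcases (hs l).1 hl with h6 | rfl
        · exact Or.inl ⟨l, h6, h5⟩
        · exact Or.inr h5
      rcases h4.or with h5 | h5
      · exact h2 h5
      · obtain ⟨v, _, hv⟩ := h5 m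
        obtain ⟨y, _, hu⟩ := hf.2.1 m (S.bij_rel hf hv).1
        exact hb ⟨y, h5.mono fun w hw => hu _ hw⟩
  refine h1 n hn (h.mono fun v hv => ?_)
  obtain ⟨l, hl, _⟩ := hf.2.2 _ hv
  exact ⟨l, (S.bij_rel hf hl).1, hl⟩

theorem nat_dir' (z1 z2 : M) : ∃ z, IsNat S.E z ∧ (IsNat S.E z1 → Sub S.E z1 z) ∧
    (IsNat S.E z2 → Sub S.E z2 z) := by
  by_cases h1 : IsNat S.E z1
  · by_cases h2 : IsNat S.E z2
    · obtain ⟨c, hc, h3, h4⟩ := S.nat_dir h1 h2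
      exact ⟨c, hc, fun _ => h3, fun _ => h4⟩
    · exact ⟨z1, h1, fun _ _ h => h, fun h => absurd h h2⟩
  · by_cases h2 : IsNat S.E z2
    · exact ⟨z2, h2, fun h => absurd h h1, fun _ _ h => h⟩
    · obtain ⟨e, he⟩ := S.ex_empty
      exact ⟨e, S.nat_empty he, fun h => absurd h h1, fun h => absurd h h2⟩

theorem stdPart (F : Cond S) (i : ℕ) : ∃ F' : Cond S, F'.Le F ∧
    ∃ B, (∀ t, S.E t B → IsNat S.E t) ∧
      ∀ n, IsNat S.E n → F'.Forces fun v => (S.E n (v i) ↔ S.E n B) := by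
  obtain ⟨G, hG, hGk⟩ := F.grow (i + 1)
  have := G.df
  let Step : M → M → Prop := fun m s => ∀ z, ∃ v, G.θ z v ∧
    (∀ l, S.E l m → (S.E l (v i) ↔ S.E l s)) ∧ ¬ S.E m (v i)
  have hStep : D2 S Step := D2.of _ (h := by simp only [Step]; infer_instance)
  have hc : ∀ m s s', (∀ l, S.E l m → (S.E l s ↔ S.E l s')) → (Step m s ↔ Step m s') := by
    intro m s s' h
    refine forall_congr' fun z => exists_congr fun v => and_congr_right fun _ =>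
      and_congr_left fun _ => forall_congr' fun l => imp_congr_right fun hl => ?_
    rw [h l hl]
  let R : M → M → Prop := fun n s => ∀ m, S.E m n → (S.E m s ↔ ¬ Step m s)
  have hR : D2 S R := D2.of _ (h := by simp only [R]; infer_instance)
  have h1 : ∀ n, IsNat S.E n → ∃ s, R n s ∧
      G.Pos fun v => ∀ m, S.E m n → (S.E m (v i) ↔ S.E m s) := by
    refine S.nat_ind (fun n => ∃ s, R n s ∧ ∀ z, ∃ v, G.θ z v ∧
      ∀ m, S.E m n → (S.E m (v i) ↔ S.E m s)) (fun e he => ?_) ?_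
    · exact ⟨e, fun m hm => absurd hm (he m), G.pos_true fun _ m hm => absurd hm (he m)⟩
    · rintro n n' hn ⟨s, hs, hp⟩ hn'
      obtain ⟨s', hs'⟩ := S.sep (fun m => (S.E m n ∧ S.E m s) ∨ (m = n ∧ ¬ Step n s)) n'
      have h2 : ∀ m, S.E m n → (S.E m s' ↔ S.E m s) := fun m hm => (hs' m).trans
        ⟨fun h => h.2.elim (fun h => h.2) fun h => absurd (h.1 ▸ hm) (S.irrefl n),
          fun h => ⟨(hn' m).2 (Or.inl hm), Or.inl ⟨hm, h⟩⟩⟩
      have h3 : S.E n s' ↔ ¬ Step n s := (hs' n).trans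
        ⟨fun h => h.2.elim (fun h => absurd h.1 (S.irrefl n)) fun h => h.2,
          fun h => ⟨(hn' n).2 (Or.inr rfl), Or.inr ⟨rfl, h⟩⟩⟩
      refine ⟨s', fun m hm => ?_, ?_⟩
      · rcases (hn' m).1 hm with h | rfl
        · rw [h2 m h, hs m h, hc m s' s fun l hl => h2 l ((S.nat_tr n hn).1 l m hl h)]
        · rw [h3, hc m s' s h2]
      · by_cases h4 : Step n s
        · refine Pos.mono (F := G) h4 fun v hv m hm => ?_
          rcases (hn' m).1 hm with h | rfl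
          · rw [h2 m h]; exact hv.1 m h
          · exact iff_of_false hv.2 fun h => h3.1 h h4
        · have h5 : G.Pos fun v => ((∀ l, S.E l n → (S.E l (v i) ↔ S.E l s)) ∧ ¬ S.E n (v i)) ∨
              ((∀ l, S.E l n → (S.E l (v i) ↔ S.E l s)) ∧ S.E n (v i)) :=
            Pos.mono (F := G) hp fun v hv => by
              by_cases h : S.E n (v i)
              · exact Or.inr ⟨hv, h⟩
              · exact Or.inl ⟨hv, h⟩
          rcases h5.or with h6 | h6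
          · exact absurd h6 h4
          · refine h6.mono fun v hv m hm => ?_
            rcases (hn' m).1 hm with h | rfl
            · rw [h2 m h]; exact hv.1 m h
            · exact iff_of_true hv.2 (h3.2 h4)
  have h2 : ∀ n s n' s', IsNat S.E n → IsNat S.E n' → R n s → R n' s' →
      ∀ m, S.E m n → S.E m n' → (S.E m s ↔ S.E m s') := by
    intro n s n' s' hn hn' hs hs'
    refine S.mem_ind (fun m => S.E m n → S.E m n' → (S.E m s ↔ S.E m s')) (D1.of _)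
      fun m ih hm hm' => ?_
    rw [hs m hm, hs' m hm', hc m s s' fun l hl =>
      ih l hl ((S.nat_tr n hn).1 l m hl hm) ((S.nat_tr n' hn').1 l m hl hm')]
  obtain ⟨w, hw⟩ := S.ex_omega
  obtain ⟨B, hB⟩ := S.sep (fun m => ∃ n s, IsNat S.E n ∧ R n s ∧ S.E m n ∧ S.E m s) w
  have h3 : ∀ n, IsNat S.E n → G.Pos fun v => ∀ m, S.E m n → (S.E m (v i) ↔ S.E m B) := by
    intro n hn
    obtain ⟨s, hs, hp⟩ := h1 n hn
    refine hp.mono fun v hv m hm => (hv m hm).trans ⟨fun h => (hB m).2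
      ⟨(hw m).2 ((S.nat_tr n hn).2 m hm), n, s, hn, hs, hm, h⟩, fun h => ?_⟩
    obtain ⟨_, n', s', hn', hs', hm', h4⟩ := (hB m).1 h
    exact (h2 n s n' s' hn hn' hs hs' m hm hm').2 h4
  obtain ⟨F', h4, -, h5⟩ := G.ext G.k le_rfl
    (fun n v => IsNat S.E n → ∀ m, S.E m n → (S.E m (v i) ↔ S.E m B)) (DV1.of _)
    (fun _ v v' hv h => by rw [← hv i (by omega)]; exact h)
    (fun n => by
      by_cases hn : IsNat S.E n
      · exact (h3 n hn).mono fun v hv _ => hv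
      · exact G.pos_true fun _ h => absurd h hn)
    (fun z1 z2 => by
      obtain ⟨z, hz, h6, h7⟩ := nat_dir' (S := S) z1 z2
      exact ⟨z, fun v hv => ⟨fun h m hm => hv hz m (h6 h m hm), fun h m hm => hv hz m (h7 h m hm)⟩⟩)
    ⟨w, fun z => by
      obtain ⟨z', hz, h6, -⟩ := nat_dir' (S := S) z z
      exact ⟨z', (hw z').2 hz, fun v hv h m hm => hv hz m (h6 h m hm)⟩⟩
    fun j h1 h2 => by omega
  refine ⟨F', h4.trans hG, B, fun t ht => (hw t).1 ((hB t).1 ht).1, fun n hn => ?_⟩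
  obtain ⟨s, hs⟩ := S.ex_succ n
  exact (h5 s).mono fun v hv => hv (S.nat_succ hn hs) n ((hs n).2 (Or.inr rfl))

theorem nontriv (F : Cond S) : ∃ F' : Cond S, F'.Le F ∧
    ∃ i, (F'.Forces fun v => IsNat S.E (v i)) ∧
      ∀ n, IsNat S.E n → F'.Forces fun v => ¬ v i = n := by
  obtain ⟨w, hw⟩ := S.ex_omega
  obtain ⟨F', h1, -, h2⟩ := F.extNew (fun n _ x => S.E x w ∧ (IsNat S.E n → ¬ S.E x n)) (DV1.of _)
    (fun _ _ _ _ _ h => h)
    (fun n => F.pos_true fun _ => by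
      obtain ⟨z, hz, h3, -⟩ := nat_dir' (S := S) n n
      exact ⟨z, (hw z).2 hz, fun h h4 => S.irrefl z (h3 h z h4)⟩)
    (fun z1 z2 => by
      obtain ⟨z, hz, h6, h7⟩ := nat_dir' (S := S) z1 z2
      exact ⟨z, fun _ x hx => ⟨⟨hx.1, fun h h8 => hx.2 hz (h6 h x h8)⟩,
        ⟨hx.1, fun h h8 => hx.2 hz (h7 h x h8)⟩⟩⟩)
    ⟨w, fun z => by
      obtain ⟨z', hz, h6, -⟩ := nat_dir' (S := S) z z
      exact ⟨z', (hw z').2 hz, fun _ x hx => ⟨hx.1, fun h h8 => hx.2 hz (h6 h x h8)⟩⟩⟩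
    w fun _ _ _ h => h.1
  refine ⟨F', h1, F.k, (h2 w).mono fun v hv => (hw _).1 hv.1, fun n hn => ?_⟩
  obtain ⟨s, hs⟩ := S.ex_succ n
  exact (h2 s).mono fun v hv h => hv.2 (S.nat_succ hn hs) ((hs _).2 (Or.inr h))

theorem ideal (F : Cond S) (r : M → M → Prop) (hr : D2 S r) (A X : M) :
    ∃ F' : Cond S, F'.Le F ∧
      ((∀ a, IsFin S.E a → Sub S.E a A → ∃ x, S.E x X ∧ ∀ y, S.E y a → r x y) →
        ∃ i, (F'.Forces fun v => S.E (v i) X) ∧ ∀ y, S.E y A → F'.Forces fun v => r (v i) y) := by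
  by_cases h : ∀ a, IsFin S.E a → Sub S.E a A → ∃ x, S.E x X ∧ ∀ y, S.E y a → r x y
  swap
  · exact ⟨F, Le.refl F, fun h' => absurd h' h⟩
  obtain ⟨e, he⟩ := S.ex_empty
  have hd : ∀ z1 z2, ∃ z, (S.KF z ∧ Sub S.E z A) ∧ (S.KF z1 ∧ Sub S.E z1 A → Sub S.E z1 z) ∧
      (S.KF z2 ∧ Sub S.E z2 A → Sub S.E z2 z) := by
    intro z1 z2
    by_cases h1 : S.KF z1 ∧ Sub S.E z1 A
    · by_cases h2 : S.KF z2 ∧ Sub S.E z2 A
      · obtain ⟨c, hc⟩ := S.ex_union2 z1 z2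
        exact ⟨c, ⟨S.KF_union h1.1 h2.1 hc, fun t ht => ((hc t).1 ht).elim (h1.2 t) (h2.2 t)⟩,
          fun _ t ht => (hc t).2 (Or.inl ht), fun _ t ht => (hc t).2 (Or.inr ht)⟩
      · exact ⟨z1, h1, fun _ _ h => h, fun h => absurd h h2⟩
    · by_cases h2 : S.KF z2 ∧ Sub S.E z2 A
      · exact ⟨z2, h2, fun h => absurd h h1, fun _ _ h => h⟩
      · exact ⟨e, ⟨S.KF_empty he, fun t ht => absurd ht (he t)⟩, fun h => absurd h h1,
          fun h => absurd h h2⟩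
  obtain ⟨Pw, hP⟩ := S.zf.power A
  obtain ⟨F', h1, -, h2⟩ := F.extNew
    (fun a _ x => S.E x X ∧ (S.KF a ∧ Sub S.E a A → ∀ y, S.E y a → r x y)) (DV1.of _)
    (fun _ _ _ _ _ h => h)
    (fun a => F.pos_true fun _ => by
      obtain ⟨z, hz, h3, -⟩ := hd a a
      obtain ⟨x, hx, h4⟩ := h z (S.KF_fin hz.1) hz.2
      exact ⟨x, hx, fun h5 y hy => h4 y (h3 h5 y hy)⟩)
    (fun z1 z2 => by
      obtain ⟨z, hz, h6, h7⟩ := hd z1 z2
      exact ⟨z, fun _ x hx => ⟨⟨hx.1, fun h y hy => hx.2 hz y (h6 h y hy)⟩,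
        ⟨hx.1, fun h y hy => hx.2 hz y (h7 h y hy)⟩⟩⟩)
    ⟨Pw, fun z => by
      obtain ⟨z', hz, h6, -⟩ := hd z z
      exact ⟨z', (hP z').2 hz.2, fun _ x hx => ⟨hx.1, fun h y hy => hx.2 hz y (h6 h y hy)⟩⟩⟩
    X fun _ _ _ h => h.1
  refine ⟨F', h1, fun _ => ⟨F.k, (h2 e).mono fun v hv => hv.1, fun y hy => ?_⟩⟩
  obtain ⟨a, ha⟩ := S.zf.pair y y
  have ha' : ∀ t, S.E t a ↔ t = y := fun t => by rw [ha, or_self]
  exact (h2 a).mono fun v hv => hv.2 ⟨S.KF_single ha', fun t ht => (ha' t).1 ht ▸ hy⟩ y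
    ((ha' y).2 rfl)

/-- The trivial condition. -/
def top (S : Str M) : Cond S where
  k := 0
  θ := fun z _ => z = z
  df := DV1.of _
  supp := fun _ _ _ _ _ => rfl
  ne := fun _ => ⟨S.e, rfl⟩
  dir := fun z _ => ⟨z, fun _ _ => ⟨rfl, rfl⟩⟩
  small := by
    obtain ⟨a, B, hB⟩ := ex_mem S
    exact ⟨B, fun _ => ⟨a, hB, fun _ _ => rfl⟩⟩
  bdd := fun _ h => absurd h (Nat.not_lt_zero _)

theorem chain {T : Type u} [Countable T] [Nonempty T] (G : T → Cond S → Prop)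
    (hG : ∀ t F, ∃ F' : Cond S, F'.Le F ∧ G t F') :
    ∃ C : ℕ → Cond S, (∀ m n, m ≤ n → (C n).Le (C m)) ∧ ∀ t, ∃ n, G t (C n) := by
  obtain ⟨f, hf⟩ := exists_surjective_nat T
  choose nx h1 h2 using hG
  let C : ℕ → Cond S := fun n => Nat.rec (top S) (fun n F => nx (f n) F) n
  refine ⟨C, fun m n h => ?_, fun t => ?_⟩
  · induction h with
    | refl => exact Le.refl _
    | step _ ih => exact (h1 _ _).trans ih
  · obtain ⟨n, rfl⟩ := hf t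
    exact ⟨n + 1, h2 _ _⟩

end Cond

/-- The properties of the generic ultrafilter. -/
structure Gen (S : Str M) (U : ((ℕ → M) → Prop) → Prop) : Prop where
  mono : ∀ {p q}, U p → (∀ v, p v → q v) → U q
  and : ∀ {p q}, U p → U q → U fun v => p v ∧ q v
  ne : ∀ {p}, U p → ∃ v, p v
  henkin : ∀ r : M → (ℕ → M) → Prop, DV1 S r →
    (U fun v => ¬ ∃ y, r y v) ∨ ∃ i, U fun v => r (v i) v
  bdd : ∀ i, ∃ B, U fun v => S.E (v i) B
  fin : ∀ i a, IsFin S.E a → (U fun v => S.E (v i) a) → ∃ b, U fun v => v i = b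
  sp : ∀ i, ∃ B, (∀ t, S.E t B → IsNat S.E t) ∧
    ∀ n, IsNat S.E n → U fun v => (S.E n (v i) ↔ S.E n B)
  nontriv : ∃ i, (U fun v => IsNat S.E (v i)) ∧ ∀ n, IsNat S.E n → U fun v => ¬ v i = n
  ideal : ∀ r : M → M → Prop, D2 S r → ∀ A X,
    (∀ a, IsFin S.E a → Sub S.E a A → ∃ x, S.E x X ∧ ∀ y, S.E y a → r x y) →
      ∃ i, (U fun v => S.E (v i) X) ∧ ∀ y, S.E y A → U fun v => r (v i) y

theorem il_vt (t : (ℕ → M) → ℕ → M) [ht : Vt S t] : Vt S fun v => il (t v) S.e := by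
  refine ⟨fun i => ?_⟩
  unfold il
  by_cases h : i % 2 = 0
  · simp only [if_pos h]; exact ht.out _
  · simp only [if_neg h]; exact Tm.const S _

theorem ex_gen (S : Str M) : ∃ U, Gen S U := by
  have : Countable M := S.surj.countable
  have : Nonempty (Fml × ℕ × M × M) := ⟨(.eq 0 0, 0, S.e 0, S.e 0)⟩
  let hk : Fml → M → (ℕ → M) → Prop := fun φ y v => Sat S.E φ (il (cons y v) S.e)
  let id : Fml → M → M → Prop := fun φ x y => Sat S.E φ (il (cons x (cons y S.e)) S.e)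
  have hkD : ∀ φ, DV1 S (hk φ) := fun φ s t _ _ =>
    @Df.sat M S φ _ (il_vt fun v => cons (s v) (t v))
  have idD : ∀ φ, D2 S (id φ) := fun φ s t _ _ =>
    @Df.sat M S φ _ (il_vt fun v => cons (s v) (cons (t v) S.e))
  obtain ⟨C, hC, hG⟩ := Cond.chain (S := S) (T := Fml × ℕ × M × M) (fun t F =>
    ((F.Forces fun v => ¬ ∃ y, hk t.1 y v) ∨ ∃ i, F.Forces fun v => hk t.1 (v i) v) ∧
    t.2.1 < F.k ∧
    ((∃ b, F.Forces fun v => v t.2.1 = b) ∨ ∀ b, ¬ F.Pos fun v => v t.2.1 = b) ∧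
    (∃ B, (∀ t, S.E t B → IsNat S.E t) ∧
      ∀ n, IsNat S.E n → F.Forces fun v => (S.E n (v t.2.1) ↔ S.E n B)) ∧
    (∃ i, (F.Forces fun v => IsNat S.E (v i)) ∧
      ∀ n, IsNat S.E n → F.Forces fun v => ¬ v i = n) ∧
    ((∀ a, IsFin S.E a → Sub S.E a t.2.2.1 → ∃ x, S.E x t.2.2.2 ∧ ∀ y, S.E y a → id t.1 x y) →
        ∃ i, (F.Forces fun v => S.E (v i) t.2.2.2) ∧
          ∀ y, S.E y t.2.2.1 → F.Forces fun v => id t.1 (v i) y))
    (by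
      rintro ⟨φ, i, A, X⟩ F
      obtain ⟨F1, l1, h1⟩ := F.henkin (hk φ) (hkD φ)
      obtain ⟨F2, l2, h2⟩ := F1.grow (i + 1)
      obtain ⟨F3, l3, h3⟩ := F2.stdPart i
      obtain ⟨F4, l4, h4⟩ := F3.nontriv
      obtain ⟨F5, l5, h5⟩ := F4.ideal (id φ) (idD φ) A X
      obtain ⟨F6, l6, h6⟩ := F5.pick i
      have l64 := l6.trans l5
      have l63 := l64.trans l4
      have l62 := l63.trans l3
      have l61 := l62.trans l2
      refine ⟨F6, l61.trans l1, ?_, ?_, h6, ?_, ?_, fun h => ?_⟩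
      · exact h1.imp (l61.2 _) fun ⟨j, h⟩ => ⟨j, l61.2 _ h⟩
      · exact lt_of_lt_of_le h2 l62.1
      · obtain ⟨B, h7, h8⟩ := h3
        exact ⟨B, h7, fun n hn => l63.2 _ (h8 n hn)⟩
      · obtain ⟨j, h7, h8⟩ := h4
        exact ⟨j, l64.2 _ h7, fun n hn => l64.2 _ (h8 n hn)⟩
      · obtain ⟨j, h7, h8⟩ := h5 h
        exact ⟨j, l6.2 _ h7, fun n hn => l6.2 _ (h8 n hn)⟩)
  have hand : ∀ {m n p q}, (C m).Forces p → (C n).Forces q →
      (C (max m n)).Forces fun v => p v ∧ q v := fun h h' =>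
    ((hC _ _ (le_max_left _ _)).2 _ h).and ((hC _ _ (le_max_right _ _)).2 _ h')
  refine ⟨fun p => ∃ n, (C n).Forces p, fun ⟨n, h⟩ h' => ⟨n, h.mono h'⟩,
    fun ⟨_, h⟩ ⟨_, h'⟩ => ⟨_, hand h h'⟩, fun ⟨n, h⟩ => ?_, fun r hr => ?_, fun i => ?_,
    fun i a ha ⟨m, hm⟩ => ?_, fun i => ?_, ?_, fun r hr A X h => ?_⟩
  · obtain ⟨v, _, hv⟩ := h.pos (S.e 0)
    exact ⟨v, hv⟩
  · obtain ⟨φ, hφ⟩ := (inferInstance : Df S fun w => r (w 0) fun i => w (i + 1)).out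
    have h1 : r = hk φ := by
      funext y v
      exact propext (hφ (cons y v))
    obtain ⟨n, h, -⟩ := hG (φ, 0, S.e 0, S.e 0)
    rw [h1]
    exact h.imp (fun h => ⟨n, h⟩) fun ⟨i, h⟩ => ⟨i, n, h⟩
  · obtain ⟨n, -, h, -⟩ := hG (.eq 0 0, i, S.e 0, S.e 0)
    obtain ⟨B, h1⟩ := (C n).bdd i h
    exact ⟨B, n, h1⟩
  · obtain ⟨n, -, -, h, -⟩ := hG (.eq 0 0, i, S.e 0, S.e 0)
    rcases h with ⟨b, hb⟩ | h
    · exact ⟨b, n, hb⟩
    · exfalso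
      have h1 : (C n).Pos fun v => S.E (v i) a := by
        by_contra h2
        obtain ⟨v, _, hv⟩ := (hand hm (Cond.not_pos.1 h2)).pos (S.e 0)
        exact hv.2 hv.1
      obtain ⟨b, hb⟩ := (C n).pos_fin i ha h1
      exact h b hb
  · obtain ⟨n, -, -, -, ⟨B, h1, h2⟩, -⟩ := hG (.eq 0 0, i, S.e 0, S.e 0)
    exact ⟨B, h1, fun m hm => ⟨n, h2 m hm⟩⟩
  · obtain ⟨n, -, -, -, -, ⟨i, h1, h2⟩, -⟩ := hG (.eq 0 0, 0, S.e 0, S.e 0)
    exact ⟨i, ⟨n, h1⟩, fun m hm => ⟨n, h2 m hm⟩⟩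
  · obtain ⟨φ, hφ⟩ := (inferInstance : Df S fun w => r (w 0) (w 1)).out
    have h1 : r = id φ := by
      funext x y
      exact propext (hφ (cons x (cons y S.e)))
    obtain ⟨n, -, -, -, -, -, h2⟩ := hG (φ, 0, A, X)
    rw [h1] at h ⊢
    obtain ⟨i, h3, h4⟩ := h2 h
    exact ⟨i, ⟨n, h3⟩, fun y hy => ⟨n, h4 y hy⟩⟩

end Pool.Agent.H164Z.Bspt
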