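import Pool.Agent.H164Z.BsptForce

/-!
# The generic extension
-/

set_option autoImplicit false

namespace Pool.Agent.H164Z.Bspt

universe u

variable {M : Type u} {S : Str M} {U : ((ℕ → M) → Prop) → Prop}

namespace Gen

variable (hU : Gen S U)
include hU

theorem univ {p : (ℕ → M) → Prop} (h : ∀ v, p v) : U p := by
  obtain ⟨B, hB⟩ := hU.bdd 0
  exact hU.mono hB fun v _ => h v

theorem not_iff (p : (ℕ → M) → Prop) [hp : Df S p] : (U fun v => ¬ p v) ↔ ¬ U p := by
  constructor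
  · intro h h'
    obtain ⟨v, h1, h2⟩ := hU.ne (hU.and h h')
    exact h1 h2
  · intro h
    rcases hU.henkin (fun _ v => p v) (fun _ t _ _ => hp.subst t) with h1 | ⟨_, h1⟩
    · exact hU.mono h1 fun v hv h2 => hv ⟨S.e 0, h2⟩
    · exact absurd h1 h

theorem congr {p q r : (ℕ → M) → Prop} (h : U r) (hpq : ∀ v, r v → (p v ↔ q v)) : U p ↔ U q :=
  ⟨fun h1 => hU.mono (hU.and h h1) fun v hv => (hpq v hv.1).1 hv.2,
    fun h1 => hU.mono (hU.and h h1) fun v hv => (hpq v hv.1).2 hv.2⟩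

theorem const (P : Prop) : (U fun _ => P) ↔ P :=
  ⟨fun h => (hU.ne h).elim fun _ h => h, fun h => hU.univ fun _ => h⟩

/-- Equality of names. -/
def setoid : Setoid (ULift.{u} ℕ) where
  r i j := U fun v => v i.down = v j.down
  iseqv := ⟨fun _ => hU.univ fun _ => rfl, fun h => hU.mono h fun _ h => h.symm,
    fun h h' => hU.mono (hU.and h h') fun _ h => h.1.trans h.2⟩

/-- The universe of the extension. -/
def N : Type u := Quotient hU.setoid

/-- The element named by a variable. -/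
def mk' (i : ℕ) : hU.N := Quotient.mk hU.setoid ⟨i⟩

/-- A name of an element. -/
noncomputable def idx (x : hU.N) : ℕ := (Quotient.out x).down

theorem mk_idx (x : hU.N) : hU.mk' (hU.idx x) = x := Quotient.out_eq x

theorem mk_eq (i j : ℕ) : hU.mk' i = hU.mk' j ↔ U fun v => v i = v j :=
  Quotient.eq (r := hU.setoid)

/-- Membership in the extension. -/
def E' (x y : hU.N) : Prop := U fun v => S.E (v (hU.idx x)) (v (hU.idx y))

theorem E'_mk (i j : ℕ) : hU.E' (hU.mk' i) (hU.mk' j) ↔ U fun v => S.E (v i) (v j) :=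
  hU.congr (hU.and ((hU.mk_eq _ _).1 (hU.mk_idx (hU.mk' i))) ((hU.mk_eq _ _).1
    (hU.mk_idx (hU.mk' j)))) fun v hv => by rw [hv.1, hv.2]

theorem truth (φ : Fml) : ∀ ρ : ℕ → ℕ, Sat hU.E' φ (fun i => hU.mk' (ρ i)) ↔
    U fun v => Sat S.E φ (fun i => v (ρ i)) := by
  induction φ with
  | mem i j => intro ρ; exact hU.E'_mk _ _
  | eq i j => intro ρ; exact hU.mk_eq _ _
  | neg φ ih =>
    intro ρ
    simp only [Sat]
    rw [ih, hU.not_iff]
  | and φ ψ ih ih' =>
    intro ρ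
    simp only [Sat]
    rw [ih, ih']
    exact ⟨fun h => hU.and h.1 h.2, fun h => ⟨hU.mono h fun _ h => h.1, hU.mono h fun _ h => h.2⟩⟩
  | all φ ih =>
    intro ρ
    simp only [Sat]
    have h1 : ∀ i, Sat hU.E' φ (cons (hU.mk' i) fun k => hU.mk' (ρ k)) ↔
        U fun v => Sat S.E φ (cons (v i) fun k => v (ρ k)) := by
      intro i
      have e1 : (cons (hU.mk' i) fun k => hU.mk' (ρ k)) = fun k => hU.mk' (cons i ρ k) := by
        funext k; cases k <;> rfl
      have e2 : ∀ v : ℕ → M, (cons (v i) fun k => v (ρ k)) = fun k => v (cons i ρ k) := by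
        intro v; funext k; cases k <;> rfl
      rw [e1, ih]
      simp only [e2]
    constructor
    · intro h
      rcases hU.henkin (fun y v => ¬ Sat S.E φ (cons y fun k => v (ρ k))) (DV1.of _)
        with h2 | ⟨i, h2⟩
      · exact hU.mono h2 fun v hv x => by
          by_contra h3
          exact hv ⟨x, h3⟩
      · obtain ⟨v, h3, h4⟩ := hU.ne (hU.and h2 ((h1 i).1 (h _)))
        exact absurd h4 h3
    · intro h x
      rw [← hU.mk_idx x, h1]
      exact hU.mono h fun v hv => hv _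

theorem valid (P : UP.{u}) [hP : UD P] (h : ∀ v, P M S.E v) (w : ℕ → hU.N) : P hU.N hU.E' w := by
  obtain ⟨φ, hφ⟩ := hP.out
  have : w = fun i => hU.mk' (hU.idx (w i)) := funext fun i => (hU.mk_idx _).symm
  rw [hφ, this, truth]
  exact hU.univ fun v => (hφ _ _ _).1 (h _)

theorem ex_name (a : M) : ∃ i, U fun v => v i = a := by
  rcases hU.henkin (fun y _ => y = a) (DV1.of _) with h | h
  · obtain ⟨_, h⟩ := hU.ne h
    exact absurd ⟨a, rfl⟩ h
  · exact h

/-- A name of a standard element. -/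
noncomputable def jx (a : M) : ℕ := (hU.ex_name a).choose

theorem jx_spec (a : M) : U fun v => v (hU.jx a) = a := (hU.ex_name a).choose_spec

/-- The embedding. -/
noncomputable def j (a : M) : hU.N := hU.mk' (hU.jx a)

theorem mix (φ : Fml) (i : ℕ) (w : ℕ → M) :
    Sat hU.E' φ (cons (hU.mk' i) fun k => hU.j (w k)) ↔ U fun v => Sat S.E φ (cons (v i) w) := by
  have e1 : (cons (hU.mk' i) fun k => hU.j (w k))
      = fun k => hU.mk' (cons i (fun k => hU.jx (w k)) k) := by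
    funext k; cases k <;> rfl
  obtain ⟨k, hk⟩ := sat_supp.{u} φ
  have h1 : ∀ m, U fun v => ∀ l < m, v (hU.jx (w l)) = w l := by
    intro m
    induction m with
    | zero => exact hU.univ fun _ l hl => absurd hl (Nat.not_lt_zero l)
    | succ m ih =>
      refine hU.mono (hU.and ih (hU.jx_spec (w m))) fun v hv l hl => ?_
      rcases Nat.lt_succ_iff_lt_or_eq.1 hl with h | rfl
      · exact hv.1 l h
      · exact hv.2
  rw [e1, truth]
  refine hU.congr (h1 k) fun v hv => hk _ _ _ fun l hl => ?_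
  cases l with
  | zero => rfl
  | succ l => exact hv l (by omega)

theorem mixU (P : UP.{u}) [hP : UD P] (i : ℕ) (w : ℕ → M) :
    P hU.N hU.E' (cons (hU.mk' i) fun k => hU.j (w k)) ↔ U fun v => P M S.E (cons (v i) w) := by
  obtain ⟨φ, hφ⟩ := hP.out
  simp only [hφ]
  exact hU.mix φ i w

theorem el (φ : Fml) (w : ℕ → M) : Sat hU.E' φ (fun k => hU.j (w k)) ↔ Sat S.E φ w := by
  have h := hU.mix (φ.ren fun i => i + 1) 0 w
  simp only [sat_ren] at h
  exact h.trans (hU.const (Sat S.E φ w))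

theorem elU (P : UP.{u}) [hP : UD P] (w : ℕ → M) :
    P hU.N hU.E' (fun k => hU.j (w k)) ↔ P M S.E w := by
  obtain ⟨φ, hφ⟩ := hP.out
  simp only [hφ]
  exact hU.el φ w

theorem j_inj : Function.Injective hU.j := fun a b h =>
  (hU.elU (fun _ _ v => v 0 = v 1) (cons a fun _ => b)).1 h

theorem j_mem (a b : M) : hU.E' (hU.j a) (hU.j b) ↔ S.E a b :=
  hU.elU (fun _ E v => E (v 0) (v 1)) (cons a fun _ => b)

theorem mk_mem (i : ℕ) (b : M) : hU.E' (hU.mk' i) (hU.j b) ↔ U fun v => S.E (v i) b :=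
  hU.mixU (fun _ E v => E (v 0) (v 1)) i fun _ => b

theorem mem_mk (i : ℕ) (b : M) : hU.E' (hU.j b) (hU.mk' i) ↔ U fun v => S.E b (v i) :=
  hU.mixU (fun _ E v => E (v 1) (v 0)) i fun _ => b

theorem mk_eq_j (i : ℕ) (b : M) : hU.mk' i = hU.j b ↔ U fun v => v i = b :=
  hU.mixU (fun _ _ v => v 0 = v 1) i fun _ => b

theorem zf : IsZF hU.E' where
  ext := hU.valid (fun _ E _ => ∀ x y, (∀ z, E z x ↔ E z y) → x = y) (fun _ => S.zf.ext)
    fun _ => hU.mk' 0
  found := hU.valid (fun _ E _ => ∀ x, (∃ y, E y x) → ∃ y, E y x ∧ ∀ z, E z y → ¬ E z x)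
    (fun _ => S.zf.found) fun _ => hU.mk' 0
  pair := hU.valid (fun _ E _ => ∀ x y, ∃ p, ∀ z, E z p ↔ z = x ∨ z = y) (fun _ => S.zf.pair)
    fun _ => hU.mk' 0
  union := hU.valid (fun _ E _ => ∀ x, ∃ s, ∀ z, E z s ↔ ∃ y, E y x ∧ E z y)
    (fun _ => S.zf.union) fun _ => hU.mk' 0
  power := hU.valid (fun _ E _ => ∀ x, ∃ p, ∀ z, E z p ↔ Sub E z x) (fun _ => S.zf.power)
    fun _ => hU.mk' 0
  inf := hU.valid (fun _ E _ => ∃ I, IsInductive E I) (fun _ => S.zf.inf) fun _ => hU.mk' 0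
  sep := fun φ => hU.valid (fun _ E v => ∀ A, ∃ B, ∀ x, E x B ↔ E x A ∧ Sat E φ (cons x v))
    (S.zf.sep φ)
  repl := fun φ => hU.valid (fun _ E v => ∀ A, (∀ x, E x A → ∃! y, Sat E φ (cons y (cons x v))) →
      ∃ B, ∀ y, E y B ↔ ∃ x, E x A ∧ Sat E φ (cons y (cons x v))) (S.zf.repl φ)

theorem cons_j (a : M) (w : ℕ → M) :
    (cons (hU.j a) fun k => hU.j (w k)) = fun k => hU.j (cons a w k) := by
  funext k; cases k <;> rfl

theorem bspt : IsBSPT hU.E' (fun x => x ∈ Set.range hU.j) where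
  zf := hU.zf
  transfer := by
    intro φ v hv h
    choose w hw using hv
    obtain rfl : v = fun k => hU.j (w k) := funext fun k => (hw k).symm
    refine (hU.el (.all φ) w).2 fun a => ?_
    have h1 := h (hU.j a) ⟨a, rfl⟩
    rw [cons_j, el] at h1
    exact h1
  nontrivial := by
    obtain ⟨i, h1, h2⟩ := hU.nontriv
    refine ⟨hU.mk' i, (hU.mixU (fun _ E v => IsNat E (v 0)) i S.e).2 h1, ?_⟩
    rintro _ ⟨a, rfl⟩ ha h
    have h3 := h2 a ((hU.elU (fun _ E v => IsNat E (v 0)) fun _ => a).1 ha)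
    obtain ⟨v, h4, h5⟩ := hU.ne (hU.and h3 ((hU.mk_eq_j i a).1 h.symm))
    exact h4 h5
  standardPart := by
    intro A _
    obtain ⟨B, h1, h2⟩ := hU.sp (hU.idx A)
    refine ⟨hU.j B, ⟨B, rfl⟩,
      (hU.elU (fun _ E v => ∀ t, E t (v 0) → IsNat E t) fun _ => B).2 h1, ?_⟩
    rintro _ ⟨a, rfl⟩ ha
    have h3 := h2 a ((hU.elU (fun _ E v => IsNat E (v 0)) fun _ => a).1 ha)
    rw [← hU.mk_idx A, mem_mk, j_mem, hU.congr h3 fun v hv => hv, hU.const]
  bounded := by
    intro x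
    obtain ⟨B, hB⟩ := hU.bdd (hU.idx x)
    refine ⟨hU.j B, ⟨B, rfl⟩, ?_⟩
    rw [← hU.mk_idx x, mk_mem]
    exact hB
  idealization := by
    rintro φ v hv _ _ ⟨A, rfl⟩ ⟨X, rfl⟩
    choose w hw using hv
    obtain rfl : v = fun k => hU.j (w k) := funext fun k => (hw k).symm
    constructor
    · intro h
      obtain ⟨i, h1, h2⟩ := hU.ideal (fun x y => Sat S.E φ (cons x (cons y w))) (D2.of _) A X
        fun a ha hs => (hU.elU (fun _ E v => ∃ x, E x (v 0) ∧ ∀ y, E y (v 1) →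
          Sat E φ (cons x (cons y fun i => v (i + 2)))) (hP := by infer_instance)
            (cons X (cons a w))).1
          (h (hU.j a) ⟨a, rfl⟩ ((hU.elU (fun _ E v => IsFin E (v 0)) fun _ => a).2 ha)
            ((hU.elU (fun _ E v => Sub E (v 0) (v 1)) (cons a fun _ => A)).2 hs))
      refine ⟨hU.mk' i, (hU.mk_mem i X).2 h1, ?_⟩
      rintro _ ⟨y, rfl⟩ hy
      rw [cons_j, mix]
      exact h2 y ((hU.j_mem _ _).1 hy)
    · rintro ⟨x, hx, h⟩ _ ⟨a, rfl⟩ ha hs
      refine ⟨x, hx, fun y hy => h y ?_ (hs y hy)⟩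
      rw [← hU.mk_idx y, mk_mem] at hy
      obtain ⟨b, hb⟩ := hU.fin _ a ((hU.elU (fun _ E v => IsFin E (v 0)) fun _ => a).1 ha) hy
      exact ⟨b, by rw [← hU.mk_idx y]; exact ((hU.mk_eq_j _ b).2 hb).symm⟩

end Gen

theorem main (M : Type u) [Countable M] (E : M → M → Prop) (hM : IsZF E) :
    ∃ (N : Type u) (E' : N → N → Prop) (j : M → N), Function.Injective j ∧
      (∀ a b, E' (j a) (j b) ↔ E a b) ∧ IsBSPT E' (fun x => x ∈ Set.range j) := by
  have : Nonempty M := ⟨hM.inf.choose⟩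
  obtain ⟨e, he⟩ := exists_surjective_nat M
  obtain ⟨U, hU⟩ := ex_gen (⟨E, e, he, hM⟩ : Str M)
  exact ⟨hU.N, hU.E', hU.j, hU.j_inj, hU.j_mem, hU.bspt⟩

end Pool.Agent.H164Z.Bspt
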