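import Pool.Agent.H164Z.BsptDf

/-!
# Some set theory inside a model of ZF: natural numbers, levels, Collection, finite sets
-/

set_option autoImplicit false

namespace Pool.Agent.H164Z.Bspt

universe u

variable {M : Type u} (S : Str M)

namespace Str

theorem asymm {x y : M} (h : S.E x y) : ¬ S.E y x := by
  intro h'
  obtain ⟨p, hp⟩ := S.zf.pair x y
  obtain ⟨z, hz, hm⟩ := S.zf.found p ⟨x, (hp x).2 (Or.inl rfl)⟩
  rcases (hp z).1 hz with rfl | rfl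
  · exact hm y h' ((hp y).2 (Or.inr rfl))
  · exact hm x h ((hp x).2 (Or.inl rfl))

theorem irrefl (x : M) : ¬ S.E x x := fun h => S.asymm h h

theorem ex_empty : ∃ e, ∀ t, ¬ S.E t e := by
  obtain ⟨I, ⟨e, _, he⟩, _⟩ := S.zf.inf
  exact ⟨e, he⟩

theorem ex_union2 (a b : M) : ∃ c, ∀ t, S.E t c ↔ S.E t a ∨ S.E t b := by
  obtain ⟨p, hp⟩ := S.zf.pair a b
  obtain ⟨c, hc⟩ := S.zf.union p
  refine ⟨c, fun t => (hc t).trans ⟨?_, ?_⟩⟩
  · rintro ⟨y, hy, ht⟩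
    rcases (hp y).1 hy with rfl | rfl
    · exact Or.inl ht
    · exact Or.inr ht
  · rintro (h | h)
    · exact ⟨a, (hp a).2 (Or.inl rfl), h⟩
    · exact ⟨b, (hp b).2 (Or.inr rfl), h⟩

theorem ex_insert (a y : M) : ∃ c, ∀ t, S.E t c ↔ S.E t a ∨ t = y := by
  obtain ⟨p, hp⟩ := S.zf.pair y y
  obtain ⟨c, hc⟩ := S.ex_union2 a p
  exact ⟨c, fun t => by rw [hc, hp, or_self]⟩

theorem ex_succ (x : M) : ∃ s, IsSucc S.E s x := S.ex_insert x x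

theorem succ_unique {s s' x : M} (h : IsSucc S.E s x) (h' : IsSucc S.E s' x) : s = s' :=
  S.zf.ext _ _ fun z => (h z).trans (h' z).symm

theorem succ_inj {s x y : M} (h : IsSucc S.E s x) (h' : IsSucc S.E s y) : x = y := by
  rcases (h' x).1 ((h x).2 (Or.inr rfl)) with h1 | h1
  · rcases (h y).1 ((h' y).2 (Or.inr rfl)) with h2 | h2
    · exact absurd h2 (S.asymm h1)
    · exact h2.symm
  · exact h1

theorem ex_op (a b : M) : ∃ p, IsOP S.E p a b := by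
  obtain ⟨s, hs⟩ := S.zf.pair a a
  obtain ⟨d, hd⟩ := S.zf.pair a b
  obtain ⟨p, hp⟩ := S.zf.pair s d
  refine ⟨p, fun t => (hp t).trans (or_congr ⟨?_, fun h => ?_⟩ ⟨?_, fun h => ?_⟩)⟩
  · rintro rfl z; rw [hs, or_self]
  · exact S.zf.ext _ _ fun z => by rw [h, hs, or_self]
  · rintro rfl; exact hd
  · exact S.zf.ext _ _ fun z => by rw [h, hd]

theorem op_unique {p p' a b : M} (h : IsOP S.E p a b) (h' : IsOP S.E p' a b) : p = p' :=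
  S.zf.ext _ _ fun z => (h z).trans (h' z).symm

theorem op_inj {p a b a' b' : M} (h : IsOP S.E p a b) (h' : IsOP S.E p a' b') :
    a = a' ∧ b = b' := by
  obtain ⟨s, hs⟩ := S.zf.pair a a
  obtain ⟨d, hd⟩ := S.zf.pair a b
  obtain ⟨d', hd'⟩ := S.zf.pair a' b'
  have h1 := (h' s).1 ((h s).2 (Or.inl fun z => by rw [hs, or_self]))
  have h2 := (h' d).1 ((h d).2 (Or.inr hd))
  have h3 := (h d').1 ((h' d').2 (Or.inr hd'))
  have ha : a = a' := by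
    rcases h1 with h1 | h1
    · exact (h1 a).1 ((hs a).2 (Or.inl rfl))
    · have := (hs a').1 ((h1 a').2 (Or.inl rfl))
      rw [or_self] at this; exact this.symm
  subst ha
  refine ⟨rfl, ?_⟩
  have h4 : b = a ∨ b = b' := by
    rcases h2 with h2 | h2
    · exact Or.inl ((h2 b).1 ((hd b).2 (Or.inr rfl)))
    · exact (h2 b).1 ((hd b).2 (Or.inr rfl))
  have h5 : b' = a ∨ b' = b := by
    rcases h3 with h3 | h3
    · exact Or.inl ((h3 b').1 ((hd' b').2 (Or.inr rfl)))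
    · exact (h3 b').1 ((hd' b').2 (Or.inr rfl))
  rcases h4 with h4 | h4
  · rcases h5 with h5 | h5
    · rw [h4, h5]
    · exact h5.symm
  · exact h4

theorem ex_omega : ∃ w, ∀ n, S.E n w ↔ IsNat S.E n := by
  obtain ⟨I, hI⟩ := S.zf.inf
  obtain ⟨w, hw⟩ := S.sep (fun n => IsNat S.E n) I
  exact ⟨w, fun n => (hw n).trans ⟨fun h => h.2, fun h => ⟨h I hI, h⟩⟩⟩

theorem nat_empty {e : M} (he : ∀ t, ¬ S.E t e) : IsNat S.E e := by
  rintro I ⟨⟨e', he', h⟩, _⟩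
  rw [S.zf.ext e e' fun z => iff_of_false (he z) (h z)]
  exact he'

theorem nat_succ {n s : M} (hn : IsNat S.E n) (hs : IsSucc S.E s n) : IsNat S.E s := by
  intro I hI
  obtain ⟨s', hs', h⟩ := hI.2 n (hn I hI)
  rw [S.succ_unique hs h]
  exact hs'

theorem nat_ind (C : M → Prop) [Df S (fun v => C (v 0))] (h0 : ∀ e, (∀ t, ¬ S.E t e) → C e)
    (hs : ∀ n s, IsNat S.E n → C n → IsSucc S.E s n → C s) : ∀ n, IsNat S.E n → C n := by
  obtain ⟨w, hw⟩ := S.ex_omega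
  obtain ⟨B, hB⟩ := S.sep C w
  intro n hn
  refine ((hB n).1 (hn B ⟨?_, fun x hx => ?_⟩)).2
  · obtain ⟨e, he⟩ := S.ex_empty
    exact ⟨e, (hB e).2 ⟨(hw e).2 (S.nat_empty he), h0 e he⟩, he⟩
  · obtain ⟨s, hs'⟩ := S.ex_succ x
    obtain ⟨h1, h2⟩ := (hB x).1 hx
    rw [hw] at h1
    exact ⟨s, (hB s).2 ⟨(hw s).2 (S.nat_succ h1 hs'), hs x s h1 h2 hs'⟩, hs'⟩

/-- Transitive sets. -/
def Tr (s : M) : Prop := ∀ x y, S.E x y → S.E y s → S.E x s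

instance (s : (ℕ → M) → M) [Tm S s] : Df S (fun v => S.Tr (s v)) :=
  D1.of S.Tr (h := by unfold Tr; infer_instance) s

theorem nat_tr : ∀ n, IsNat S.E n → S.Tr n ∧ ∀ m, S.E m n → IsNat S.E m := by
  refine S.nat_ind (fun n => S.Tr n ∧ ∀ m, S.E m n → IsNat S.E m) (fun e he => ?_)
    fun n s hn h hs => ?_
  · exact ⟨fun _ y _ hy => absurd hy (he y), fun m hm => absurd hm (he m)⟩
  · refine ⟨fun x y hxy hy => (hs x).2 (Or.inl ?_), fun m hm => ?_⟩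
    · rcases (hs y).1 hy with h1 | rfl
      · exact h.1 x y hxy h1
      · exact hxy
    · rcases (hs m).1 hm with h1 | rfl
      · exact h.2 m h1
      · exact hn

theorem class_min (C : M → Prop) [Df S (fun v => C (v 0))] (hT : ∀ s, C s → S.Tr s)
    (h : ∃ s, C s) : ∃ s, C s ∧ ∀ r, S.E r s → ¬ C r := by
  obtain ⟨s, hs⟩ := h
  obtain ⟨B, hB⟩ := S.sep C s
  by_cases h1 : ∃ y, S.E y B
  · obtain ⟨y, hy, hm⟩ := S.zf.found B h1
    obtain ⟨h2, h3⟩ := (hB y).1 hy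
    exact ⟨y, h3, fun r hr hC => hm r hr ((hB r).2 ⟨hT s hs r y hr h2, hC⟩)⟩
  · exact ⟨s, hs, fun r hr hC => h1 ⟨r, (hB r).2 ⟨hr, hC⟩⟩⟩

theorem tri (C : M → Prop) (hC : D1 S C) (hT : ∀ s, C s → S.Tr s)
    (hE : ∀ s t, C s → C t → (∀ r, C r → (S.E r s ↔ S.E r t)) → s = t) :
    ∀ s t, C s → C t → S.E s t ∨ s = t ∨ S.E t s := by
  by_contra hn
  push Not at hn
  obtain ⟨s, ⟨hs, hs'⟩, hm⟩ := S.class_min
    (fun s => C s ∧ ∃ t, C t ∧ ¬ S.E s t ∧ ¬ s = t ∧ ¬ S.E t s) (fun s h => hT s h.1)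
    (by obtain ⟨s, t, h1, h2, h3⟩ := hn; exact ⟨s, h1, t, h2, h3⟩)
  obtain ⟨t, ⟨ht, h1, h2, h3⟩, hm'⟩ := S.class_min
    (fun t => C t ∧ ¬ S.E s t ∧ ¬ s = t ∧ ¬ S.E t s) (fun s h => hT s h.1) hs'
  refine h2 (hE s t hs ht fun r hr => ⟨fun h => ?_, fun h => ?_⟩)
  · by_contra h4
    refine hm r h ⟨hr, t, ht, h4, ?_, fun h5 => h3 (hT s hs t r h5 h)⟩
    rintro rfl
    exact h3 h
  · by_contra h4
    refine hm' r h ⟨hr, fun h5 => h1 (hT t ht s r h5 h), ?_, h4⟩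
    rintro rfl
    exact h1 h

theorem nat_dir {a b : M} (ha : IsNat S.E a) (hb : IsNat S.E b) :
    ∃ c, IsNat S.E c ∧ Sub S.E a c ∧ Sub S.E b c := by
  have h := S.tri (IsNat S.E) (D1.of _) (fun s hs => (S.nat_tr s hs).1)
    (fun s t hs ht h => S.zf.ext _ _ fun z => ⟨fun hz => (h z ((S.nat_tr s hs).2 z hz)).1 hz,
      fun hz => (h z ((S.nat_tr t ht).2 z hz)).2 hz⟩) a b ha hb
  rcases h with h | rfl | h
  · exact ⟨b, hb, fun t ht => (S.nat_tr b hb).1 t a ht h, fun _ h => h⟩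
  · exact ⟨a, ha, fun _ h => h, fun _ h => h⟩
  · exact ⟨a, ha, fun _ h => h, fun t ht => (S.nat_tr a ha).1 t b ht h⟩

/-! ### Transitive closure and induction on membership -/

/-- `y` is the `n`-fold union of `x`. -/
def Iter (x n y : M) : Prop :=
  ∃ g, Rel S.E g n y ∧ ∀ m z, Rel S.E g m z → ((∀ t, ¬ S.E t m) ∧ z = x) ∨
    ∃ m' z', Rel S.E g m' z' ∧ IsSucc S.E m m' ∧ ∀ t, S.E t z ↔ ∃ w, S.E w z' ∧ S.E t w

theorem rel_insert {g g' p a b : M} (hp : IsOP S.E p a b)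
    (hg : ∀ t, S.E t g' ↔ S.E t g ∨ t = p) (m z : M) :
    Rel S.E g' m z ↔ Rel S.E g m z ∨ (m = a ∧ z = b) := by
  constructor
  · rintro ⟨q, hq, h⟩
    rcases (hg q).1 hq with h1 | rfl
    · exact Or.inl ⟨q, h1, h⟩
    · exact Or.inr (S.op_inj h hp)
  · rintro (⟨q, hq, h⟩ | ⟨rfl, rfl⟩)
    · exact ⟨q, (hg q).2 (Or.inl hq), h⟩
    · exact ⟨p, (hg p).2 (Or.inr rfl), hp⟩

theorem iter_zero {x e : M} (he : ∀ t, ¬ S.E t e) : S.Iter x e x := by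
  obtain ⟨p, hp⟩ := S.ex_op e x
  obtain ⟨g, hg⟩ := S.ex_insert e p
  refine ⟨g, (S.rel_insert hp hg _ _).2 (Or.inr ⟨rfl, rfl⟩), fun m z h => ?_⟩
  rcases (S.rel_insert hp hg _ _).1 h with ⟨q, hq, _⟩ | ⟨rfl, rfl⟩
  · exact absurd hq (he q)
  · exact Or.inl ⟨he, rfl⟩

theorem iter_succ {x n y s z : M} (h : S.Iter x n y) (hs : IsSucc S.E s n)
    (hz : ∀ t, S.E t z ↔ ∃ w, S.E w y ∧ S.E t w) : S.Iter x s z := by
  obtain ⟨g, hg, hg'⟩ := h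
  obtain ⟨p, hp⟩ := S.ex_op s z
  obtain ⟨g', h'⟩ := S.ex_insert g p
  refine ⟨g', (S.rel_insert hp h' _ _).2 (Or.inr ⟨rfl, rfl⟩), fun m w h => ?_⟩
  rcases (S.rel_insert hp h' _ _).1 h with h1 | ⟨rfl, rfl⟩
  · rcases hg' m w h1 with h2 | ⟨m', z', h2, h3⟩
    · exact Or.inl h2
    · exact Or.inr ⟨m', z', (S.rel_insert hp h' _ _).2 (Or.inl h2), h3⟩
  · exact Or.inr ⟨n, y, (S.rel_insert hp h' _ _).2 (Or.inl hg), hs, hz⟩

theorem iter_D2 (x : M) : D2 S (S.Iter x) := D2.of _ (h := by unfold Iter; infer_instance)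

theorem iter_exu (x : M) : ∀ n, IsNat S.E n → ∃! y, S.Iter x n y := by
  have := S.iter_D2 x
  refine S.nat_ind (fun n => ∃ y, S.Iter x n y ∧ ∀ y', S.Iter x n y' → y' = y)
    (fun e he => ⟨x, S.iter_zero he, ?_⟩) ?_
  · rintro y ⟨g, hg, hg'⟩
    rcases hg' e y hg with h | ⟨m', _, _, h, _⟩
    · exact h.2
    · exact absurd ((h m').2 (Or.inr rfl)) (he m')
  · rintro n s _ ⟨y, hy, hu⟩ hs
    obtain ⟨z, hz⟩ := S.zf.union y
    refine ⟨z, S.iter_succ hy hs hz, ?_⟩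
    rintro y' ⟨g, hg, hg'⟩
    rcases hg' s y' hg with h | ⟨m', z', h1, h2, h3⟩
    · exact absurd ((hs n).2 (Or.inr rfl)) (h.1 n)
    · rw [S.succ_inj h2 hs] at h1
      rw [hu z' ⟨g, h1, hg'⟩] at h3
      exact S.zf.ext _ _ fun t => (h3 t).trans (hz t).symm

theorem ex_tc (x : M) : ∃ T, S.Tr T ∧ Sub S.E x T := by
  have := S.iter_D2 x
  obtain ⟨w, hw⟩ := S.ex_omega
  obtain ⟨B, hB⟩ := S.repl (S.Iter x) w fun n hn => S.iter_exu x n ((hw n).1 hn)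
  obtain ⟨T, hT⟩ := S.zf.union B
  refine ⟨T, fun a b hab hb => ?_, fun t ht => ?_⟩
  · obtain ⟨y, hy, hb'⟩ := (hT b).1 hb
    obtain ⟨n, hn, h⟩ := (hB y).1 hy
    obtain ⟨s, hs⟩ := S.ex_succ n
    obtain ⟨z, hz⟩ := S.zf.union y
    exact (hT a).2 ⟨z, (hB z).2 ⟨s, (hw s).2 (S.nat_succ ((hw n).1 hn) hs),
      S.iter_succ h hs hz⟩, (hz a).2 ⟨b, hb', hab⟩⟩
  · obtain ⟨e, he⟩ := S.ex_empty
    exact (hT t).2 ⟨x, (hB x).2 ⟨e, (hw e).2 (S.nat_empty he), S.iter_zero he⟩, ht⟩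

theorem mem_ind (C : M → Prop) (hC : D1 S C) (h : ∀ x, (∀ y, S.E y x → C y) → C x) :
    ∀ x, C x := by
  intro x
  refine h x fun y hy => ?_
  by_contra hn
  obtain ⟨T, hT, hx⟩ := S.ex_tc x
  obtain ⟨B, hB⟩ := S.sep (fun t => ¬ C t) T
  obtain ⟨z, hz, hm⟩ := S.zf.found B ⟨y, (hB y).2 ⟨hx y hy, hn⟩⟩
  obtain ⟨h1, h2⟩ := (hB z).1 hz
  refine h2 (h z fun w hw => ?_)
  by_contra h3
  exact hm w hw ((hB w).2 ⟨hT w z hw h1, h3⟩)

/-! ### Levels -/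

/-- Histories. -/
def Hist (h : M) : Prop :=
  ∀ a, S.E a h → ∀ x, S.E x a ↔ ∃ c, S.E c a ∧ S.E c h ∧ Sub S.E x c

/-- Levels. -/
def Lev (s : M) : Prop := ∃ h, S.Hist h ∧ ∀ x, S.E x s ↔ ∃ c, S.E c h ∧ Sub S.E x c

instance (s : (ℕ → M) → M) [Tm S s] : Df S (fun v => S.Lev (s v)) :=
  D1.of S.Lev (h := by unfold Lev Hist; infer_instance) s

theorem hist_tr {h : M} (hh : S.Hist h) : ∀ a, S.E a h → S.Tr a := by
  refine S.mem_ind (fun a => S.E a h → S.Tr a) (D1.of _) fun a ih ha x y hxy hy => ?_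
  obtain ⟨c, hc, hch, hs⟩ := (hh a ha y).1 hy
  exact (hh a ha x).2 ⟨c, hc, hch, fun t ht => ih c hc hch t x ht (hs x hxy)⟩

theorem lev_tr {s : M} (hs : S.Lev s) : S.Tr s := by
  obtain ⟨h, hh, hs⟩ := hs
  intro x y hxy hy
  obtain ⟨c, hc, h1⟩ := (hs y).1 hy
  exact (hs x).2 ⟨c, hc, fun t ht => S.hist_tr hh c hc t x ht (h1 x hxy)⟩

theorem hist_lev {h a : M} (hh : S.Hist h) (ha : S.E a h) : S.Lev a := by
  obtain ⟨h', hh'⟩ := S.sep (fun t => S.E t h) a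
  refine ⟨h', fun b hb x => ?_, fun x => ?_⟩
  · obtain ⟨h1, h2⟩ := (hh' b).1 hb
    refine (hh b h2 x).trans (exists_congr fun c => and_congr_right fun hc => and_congr_left
      fun _ => ?_)
    rw [hh']
    exact ⟨fun h3 => ⟨S.hist_tr hh a ha c b hc h1, h3⟩, fun h3 => h3.2⟩
  · refine (hh a ha x).trans (exists_congr fun c => ?_)
    rw [hh', and_assoc]

theorem lev_iff {s : M} (hs : S.Lev s) (x : M) :
    S.E x s ↔ ∃ r, S.E r s ∧ S.Lev r ∧ Sub S.E x r := by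
  obtain ⟨h, hh, hs⟩ := hs
  constructor
  · intro hx
    obtain ⟨c, hc, h1⟩ := (hs x).1 hx
    exact ⟨c, (hs c).2 ⟨c, hc, fun _ h => h⟩, S.hist_lev hh hc, h1⟩
  · rintro ⟨r, hr, _, h1⟩
    obtain ⟨c, hc, h2⟩ := (hs r).1 hr
    exact (hs x).2 ⟨c, hc, fun t ht => h2 t (h1 t ht)⟩

theorem lev_tri : ∀ s t, S.Lev s → S.Lev t → S.E s t ∨ s = t ∨ S.E t s := by
  refine S.tri S.Lev (D1.of _) (fun _ => S.lev_tr) fun s t hs ht h => S.zf.ext _ _ fun z => ?_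
  rw [S.lev_iff hs, S.lev_iff ht]
  exact exists_congr fun r => ⟨fun h1 => ⟨(h r h1.2.1).1 h1.1, h1.2⟩,
    fun h1 => ⟨(h r h1.2.1).2 h1.1, h1.2⟩⟩

theorem coll0 (Q : M → M → Prop) (hQ : D2 S Q) (A : M)
    (h : ∀ a, S.E a A → ∃ r, S.Lev r ∧ Q a r) :
    ∃ Y, (∀ r, S.E r Y → S.Lev r) ∧ ∀ a, S.E a A → ∃ r, S.E r Y ∧ Q a r := by
  obtain ⟨Y, hY⟩ := S.repl (fun a r => (S.Lev r ∧ Q a r) ∧ ∀ r', S.E r' r → ¬ (S.Lev r' ∧ Q a r'))
    A fun a ha => by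
      obtain ⟨r, hr, hm⟩ := S.class_min (fun r => S.Lev r ∧ Q a r) (fun s hs => S.lev_tr hs.1)
        (h a ha)
      refine ⟨r, ⟨hr, hm⟩, fun r' hr' => ?_⟩
      rcases S.lev_tri r' r hr'.1.1 hr.1 with h1 | h1 | h1
      · exact absurd hr'.1 (hm r' h1)
      · exact h1
      · exact absurd hr (hr'.2 r h1)
  refine ⟨Y, fun r hr => ?_, fun a ha => ?_⟩
  · obtain ⟨a, _, h1⟩ := (hY r).1 hr
    exact h1.1.1
  · obtain ⟨r, hr, hm⟩ := S.class_min (fun r => S.Lev r ∧ Q a r) (fun s hs => S.lev_tr hs.1)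
      (h a ha)
    exact ⟨r, (hY r).2 ⟨a, ha, hr, hm⟩, hr.2⟩

theorem strat : ∀ x, ∃ r, S.Lev r ∧ Sub S.E x r := by
  refine S.mem_ind (fun x => ∃ r, S.Lev r ∧ Sub S.E x r) (D1.of _) fun x ih => ?_
  obtain ⟨Y, hY, hY'⟩ := S.coll0 (fun a r => Sub S.E a r) (D2.of _) x ih
  obtain ⟨U, hU⟩ := S.zf.union Y
  obtain ⟨V, hV⟩ := S.ex_union2 U Y
  obtain ⟨h, hh⟩ := S.sep S.Lev V
  obtain ⟨W, hW⟩ := S.zf.union h
  obtain ⟨Pw, hP⟩ := S.zf.power W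
  obtain ⟨s, hs⟩ := S.sep (fun t => ∃ c, S.E c h ∧ Sub S.E t c) Pw
  have hs' : ∀ t, S.E t s ↔ ∃ c, S.E c h ∧ Sub S.E t c := fun t => (hs t).trans
    ⟨fun h1 => h1.2, fun ⟨c, hc, h1⟩ => ⟨(hP t).2 fun z hz => (hW z).2 ⟨c, hc, h1 z hz⟩, c, hc, h1⟩⟩
  refine ⟨s, ⟨h, fun a ha t => ?_, hs'⟩, fun y hy => ?_⟩
  · obtain ⟨h1, h2⟩ := (hh a).1 ha
    refine (S.lev_iff h2 t).trans (exists_congr fun c => and_congr_right fun hc =>
      and_congr_left fun _ => ?_)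
    rw [hh]
    refine ⟨fun h3 => ⟨(hV c).2 (Or.inl ((hU c).2 ?_)), h3⟩, fun h3 => h3.2⟩
    rcases (hV a).1 h1 with h4 | h4
    · obtain ⟨y, hy, h5⟩ := (hU a).1 h4
      exact ⟨y, hy, S.lev_tr (hY y hy) c a hc h5⟩
    · exact ⟨a, h4, hc⟩
  · obtain ⟨r, hr, h1⟩ := hY' y hy
    exact (hs' y).2 ⟨r, (hh r).2 ⟨(hV r).2 (Or.inr hr), hY r hr⟩, h1⟩

theorem collection (R : M → M → Prop) (hR : D2 S R) (A : M) (h : ∀ a, S.E a A → ∃ y, R a y) :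
    ∃ T, ∀ a, S.E a A → ∃ y, S.E y T ∧ R a y := by
  obtain ⟨Y, _, hY'⟩ := S.coll0 (fun a r => ∃ y, Sub S.E y r ∧ R a y) (D2.of _) A fun a ha => by
    obtain ⟨y, hy⟩ := h a ha
    obtain ⟨r, hr, h1⟩ := S.strat y
    exact ⟨r, hr, y, h1, hy⟩
  obtain ⟨U, hU⟩ := S.zf.union Y
  obtain ⟨T, hT⟩ := S.zf.power U
  refine ⟨T, fun a ha => ?_⟩
  obtain ⟨r, hr, y, h1, h2⟩ := hY' a ha
  exact ⟨y, (hT y).2 fun t ht => (hU t).2 ⟨r, hr, h1 t ht⟩, h2⟩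

/-! ### Finite sets -/

theorem fin_empty {e : M} (he : ∀ t, ¬ S.E t e) : IsFin S.E e :=
  ⟨e, e, S.nat_empty he, fun p hp => absurd hp (he p), fun p hp => absurd hp (he p),
    fun p hp => absurd hp (he p)⟩

theorem bij_rel {f n a l y : M} (h : IsBij S.E f n a) (hr : Rel S.E f l y) :
    S.E l n ∧ S.E y a := by
  obtain ⟨p, hp, h1⟩ := hr
  obtain ⟨l', y', h2, h3, h4⟩ := h.1 p hp
  obtain ⟨rfl, rfl⟩ := S.op_inj h1 h4
  exact ⟨h2, h3⟩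

theorem fin_insert {b c y : M} (hb : IsFin S.E b) (hc : ∀ t, S.E t c ↔ S.E t b ∨ t = y) :
    IsFin S.E c := by
  by_cases hy : S.E y b
  · rw [S.zf.ext c b fun t => (hc t).trans ⟨fun h => h.elim id fun h => h ▸ hy, Or.inl⟩]
    exact hb
  obtain ⟨n, f, hn, hf⟩ := hb
  obtain ⟨s, hs⟩ := S.ex_succ n
  obtain ⟨p, hp⟩ := S.ex_op n y
  obtain ⟨g, hg⟩ := S.ex_insert f p
  have hr := S.rel_insert hp hg
  refine ⟨s, g, S.nat_succ hn hs, fun q hq => ?_, fun l hl => ?_, fun z hz => ?_⟩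
  · rcases (hg q).1 hq with h | rfl
    · obtain ⟨l, z, h1, h2, h3⟩ := hf.1 q h
      exact ⟨l, z, (hs l).2 (Or.inl h1), (hc z).2 (Or.inl h2), h3⟩
    · exact ⟨n, y, (hs n).2 (Or.inr rfl), (hc y).2 (Or.inr rfl), hp⟩
  · rcases (hs l).1 hl with h | rfl
    · obtain ⟨z, hz, hu⟩ := hf.2.1 l h
      refine ⟨z, (hr _ _).2 (Or.inl hz), fun z' hz' => ?_⟩
      rcases (hr _ _).1 hz' with h1 | ⟨rfl, _⟩
      · exact hu z' h1
      · exact absurd h (S.irrefl _)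
    · refine ⟨y, (hr _ _).2 (Or.inr ⟨rfl, rfl⟩), fun z' hz' => ?_⟩
      rcases (hr _ _).1 hz' with h1 | h1
      · exact absurd (S.bij_rel hf h1).1 (S.irrefl _)
      · exact h1.2
  · rcases (hc z).1 hz with h | rfl
    · obtain ⟨l, hl, hu⟩ := hf.2.2 z h
      refine ⟨l, (hr _ _).2 (Or.inl hl), fun l' hl' => ?_⟩
      rcases (hr _ _).1 hl' with h1 | ⟨_, rfl⟩
      · exact hu l' h1
      · exact absurd h hy
    · refine ⟨n, (hr _ _).2 (Or.inr ⟨rfl, rfl⟩), fun l' hl' => ?_⟩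
      rcases (hr _ _).1 hl' with h1 | h1
      · exact absurd (S.bij_rel hf h1).2 hy
      · exact h1.1

/-- Sets whose union with every finite set is finite. -/
def KF (a : M) : Prop :=
  ∀ b c, IsFin S.E b → (∀ t, S.E t c ↔ S.E t a ∨ S.E t b) → IsFin S.E c

instance (s : (ℕ → M) → M) [Tm S s] : Df S (fun v => S.KF (s v)) :=
  D1.of S.KF (h := by unfold KF; infer_instance) s

theorem KF_fin {a : M} (h : S.KF a) : IsFin S.E a := by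
  obtain ⟨e, he⟩ := S.ex_empty
  exact h e a (S.fin_empty he) fun t => ⟨Or.inl, fun h => h.elim id fun h => absurd h (he t)⟩

theorem KF_empty {e : M} (he : ∀ t, ¬ S.E t e) : S.KF e := by
  intro b c hb hc
  rw [S.zf.ext c b fun t => (hc t).trans ⟨fun h => h.elim (fun h => absurd h (he t)) id, Or.inr⟩]
  exact hb

theorem KF_single {a y : M} (h : ∀ t, S.E t a ↔ t = y) : S.KF a := fun _ _ hb hc =>
  S.fin_insert (y := y) hb fun t => by rw [hc, h, or_comm]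

theorem KF_union {a a' c : M} (h : S.KF a) (h' : S.KF a')
    (hc : ∀ t, S.E t c ↔ S.E t a ∨ S.E t a') : S.KF c := by
  intro b d hb hd
  obtain ⟨b', hb'⟩ := S.ex_union2 a' b
  exact h b' d (h' b b' hb hb') fun t => by rw [hd, hc, hb', or_assoc]

end Str

end Pool.Agent.H164Z.Bspt
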