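import Pool.Agent.H164Z.LoadGeo

/-!
# Three groups of steps: no monochromatic triple
-/

namespace Pool.Agent.H164Z.Load

open Real Finset

/-- The labels attached to a triple of groups of steps. -/
structure Lab (K : ℝ × ℝ → Prop) (P : ℝ × ℝ) {I J L : Type} (X : I → ℝ × ℝ) (Y : J → ℝ × ℝ)
    (Z : L → ℝ × ℝ) : Prop where
  base : K P
  nx : ∀ S : Finset I, S.Nonempty → ¬ K (P + ∑ i ∈ S, X i)
  ny : ∀ S : Finset J, S.Nonempty → ¬ K (P + ∑ i ∈ S, Y i)
  nz : ∀ S : Finset L, S.Nonempty → ¬ K (P + ∑ i ∈ S, Z i)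
  mix : ∀ (S : Finset I) (T : Finset J) (R : Finset L), S.Nonempty → T.Nonempty → R.Nonempty →
    K (P + ∑ i ∈ S, X i + ∑ i ∈ T, Y i + ∑ i ∈ R, Z i)

section

variable {K : ℝ × ℝ → Prop} {P : ℝ × ℝ} {I J L I' J' L' : Type} {X : I → ℝ × ℝ} {Y : J → ℝ × ℝ}
  {Z : L → ℝ × ℝ}

theorem Lab.comp (h : Lab K P X Y Z) {e : I' → I} {f : J' → J} {g : L' → L}
    (he : Function.Injective e) (hf : Function.Injective f) (hg : Function.Injective g) :
    Lab K P (fun i => X (e i)) (fun i => Y (f i)) (fun i => Z (g i)) where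
  base := h.base
  nx := fun S hS => by
    have := h.nx (S.map ⟨e, he⟩) (by simpa using hS)
    rwa [Finset.sum_map] at this
  ny := fun S hS => by
    have := h.ny (S.map ⟨f, hf⟩) (by simpa using hS)
    rwa [Finset.sum_map] at this
  nz := fun S hS => by
    have := h.nz (S.map ⟨g, hg⟩) (by simpa using hS)
    rwa [Finset.sum_map] at this
  mix := fun S T R hS hT hR => by
    have := h.mix (S.map ⟨e, he⟩) (T.map ⟨f, hf⟩) (R.map ⟨g, hg⟩) (by simpa using hS)
      (by simpa using hT) (by simpa using hR)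
    rwa [Finset.sum_map, Finset.sum_map, Finset.sum_map] at this

theorem Lab.swap12 (h : Lab K P X Y Z) : Lab K P Y X Z where
  base := h.base
  nx := h.ny
  ny := h.nx
  nz := h.nz
  mix := fun S T R hS hT hR => by
    have := h.mix T S R hT hS hR
    rwa [add_right_comm P] at this

theorem Lab.swap23 (h : Lab K P X Y Z) : Lab K P X Z Y where
  base := h.base
  nx := h.nx
  ny := h.nz
  nz := h.ny
  mix := fun S T R hS hT hR => by
    have := h.mix S R T hS hR hT
    rwa [add_right_comm] at this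

theorem Lab.swap (h : Lab K P X Y Z) :
    Lab (fun p => K p.swap) P.swap (fun i => (X i).swap) (fun i => (Y i).swap)
      (fun i => (Z i).swap) := by
  have e : ∀ {A : Type} (S : Finset A) (W : A → ℝ × ℝ),
      (∑ i ∈ S, (W i).swap).swap = ∑ i ∈ S, W i := by
    intro A S W
    ext
    · simp [Prod.snd_sum, Prod.fst_sum]
    · simp [Prod.snd_sum, Prod.fst_sum]
  refine ⟨h.base, fun S hS => ?_, fun S hS => ?_, fun S hS => ?_, fun S T R hS hT hR => ?_⟩
  · simpa only [Prod.swap_add, Prod.swap_swap, e] using h.nx S hS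
  · simpa only [Prod.swap_add, Prod.swap_swap, e] using h.ny S hS
  · simpa only [Prod.swap_add, Prod.swap_swap, e] using h.nz S hS
  · simpa only [Prod.swap_add, Prod.swap_swap, e] using h.mix S T R hS hT hR

end

theorem sgn_mul {ε a b : ℝ} (hε : ε * ε = 1) (ha : 0 ≤ ε * a) (hb : 0 ≤ ε * b) : 0 ≤ a * b := by
  have := mul_nonneg ha hb
  have e : ε * a * (ε * b) = (ε * ε) * (a * b) := by ring
  rwa [e, hε, one_mul] at this

section

variable {p q r s : ℝ} (hp : 0 < p) (hq : 0 < q) (hr : 0 < r) (hs : 0 < s) {P : ℝ × ℝ} {ε : ℝ}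
  (hε : ε * ε = 1)

include hp hq hr hs hε

theorem mixpos {a1 a2 z0 z1 : ℝ × ℝ} (h0 : Kc p q r s P)
    (h1 : Kc p q r s (P + (a1 + a2) + (z0 + z1))) (h2 : Kc p q r s (P + a1 + z0))
    (h3 : Kc p q r s (P + a2 + z1)) (h5 : ¬ Kc p q r s (P + (z0 + z1)))
    (g0 : 0 ≤ ε * z0.2) (g1 : 0 ≤ ε * z1.2) (g2 : ε * z1.2 ≤ ε * a1.2) (g3 : ε * z0.2 ≤ ε * a2.2) :
    Kc p q r s (P + (a1 + a2)) :=
  six hp hq hr hs h0 h1 h2 h3 h5 (sgn_mul hε (by rw [mul_add]; linarith) (by rw [mul_add]; linarith))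
    (sgn_mul hε (by rw [mul_sub]; linarith) (by rw [mul_sub]; linarith))

theorem core4 {X Y : Fin 4 → ℝ × ℝ} {Z : Fin 2 → ℝ × ℝ} (h : Lab (Kc p q r s) P X Y Z)
    (hz : ∀ l, 0 ≤ ε * (Z l).2) (hx : ∀ i l, ε * (Z l).2 ≤ ε * (X i).2)
    (hy : ∀ i l, ε * (Z l).2 ≤ ε * (Y i).2)
    (o : 0 ≤ ((X 0).2 + (X 1).2 - ((Y 2).2 + (Y 3).2)) *
      ((X 2).2 + (X 3).2 - ((Y 0).2 + (Y 1).2))) : False := by
  have hx0 : ∀ i, 0 ≤ ε * (X i).2 := fun i => (hz 0).trans (hx i 0)
  have hy0 : ∀ i, 0 ≤ ε * (Y i).2 := fun i => (hz 0).trans (hy i 0)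
  have nz : ¬ Kc p q r s (P + (Z 0 + Z 1)) := by
    have := h.nz Finset.univ Finset.univ_nonempty
    rwa [Fin.sum_univ_two] at this
  have two : ∀ i j : Fin 4, i ≠ j → Kc p q r s (P + (X i + X j) + (Y i + Y j)) := by
    intro i j hij
    have e1 := h.mix {i, j} {i, j} Finset.univ (by simp) (by simp) Finset.univ_nonempty
    have e2 := h.mix {i} {i} {0} (by simp) (by simp) (by simp)
    have e3 := h.mix {j} {j} {1} (by simp) (by simp) (by simp)
    rw [Finset.sum_pair hij, Finset.sum_pair hij, Fin.sum_univ_two] at e1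
    simp only [Finset.sum_singleton] at e2 e3
    have := mixpos hp hq hr hs hε (a1 := X i + Y i) (a2 := X j + Y j) (z0 := Z 0) (z1 := Z 1)
      h.base (by convert e1 using 1; abel) (by convert e2 using 1; abel)
      (by convert e3 using 1; abel) nz (hz 0) (hz 1)
      (by rw [Prod.snd_add, mul_add]; linarith [hx i 1, hy0 i])
      (by rw [Prod.snd_add, mul_add]; linarith [hx j 0, hy0 j])
    convert this using 1
    abel
  have four : Kc p q r s (P + ((X 0 + X 1) + (X 2 + X 3)) + ((Y 0 + Y 1) + (Y 2 + Y 3))) := by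
    have e1 := h.mix Finset.univ Finset.univ Finset.univ Finset.univ_nonempty Finset.univ_nonempty
      Finset.univ_nonempty
    have e2 := h.mix {0, 1} {0, 1} {0} (by simp) (by simp) (by simp)
    have e3 := h.mix {2, 3} {2, 3} {1} (by simp) (by simp) (by simp)
    rw [Fin.sum_univ_four, Fin.sum_univ_four, Fin.sum_univ_two] at e1
    rw [Finset.sum_pair (by decide), Finset.sum_pair (by decide), Finset.sum_singleton] at e2 e3
    have := mixpos hp hq hr hs hε (a1 := X 0 + X 1 + (Y 0 + Y 1))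
      (a2 := X 2 + X 3 + (Y 2 + Y 3)) (z0 := Z 0) (z1 := Z 1)
      h.base (by convert e1 using 1; abel) (by convert e2 using 1; abel)
      (by convert e3 using 1; abel) nz (hz 0) (hz 1)
      (by simp only [Prod.snd_add, mul_add]; linarith [hx 0 1, hx0 1, hy0 0, hy0 1])
      (by simp only [Prod.snd_add, mul_add]; linarith [hx 2 0, hx0 3, hy0 2, hy0 3])
    convert this using 1
    abel
  have nx := h.nx Finset.univ Finset.univ_nonempty
  have ny := h.ny Finset.univ Finset.univ_nonempty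
  rw [Fin.sum_univ_four] at nx ny
  refine nx ?_
  have := six hp hq hr hs (a1 := X 0 + X 1) (a2 := X 2 + X 3) (b1 := Y 0 + Y 1) (b2 := Y 2 + Y 3)
    h.base four (two 0 1 (by decide)) (two 2 3 (by decide)) (by convert ny using 3; abel)
    (sgn_mul hε (by simp only [Prod.snd_add, mul_add]; linarith [hx0 0, hx0 1, hx0 2, hx0 3])
      (by simp only [Prod.snd_add, mul_add]; linarith [hy0 0, hy0 1, hy0 2, hy0 3]))
    (by simpa only [Prod.snd_add] using o)
  convert this using 2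
  abel

theorem core7aux {X Y Z : Fin 7 → ℝ × ℝ} (h : Lab (Kc p q r s) P X Y Z)
    (hz : ∀ l, 0 ≤ ε * (Z l).2) (mx : Monotone (fun i => ε * (X i).2))
    (my : Monotone (fun i => ε * (Y i).2)) (mz : Monotone (fun i => ε * (Z i).2))
    (h1 : ε * (Z 1).2 ≤ ε * (X 1).2) (h2 : ε * (Z 1).2 ≤ ε * (Y 1).2) : False := by
  have key : ∀ f g : Fin 4 → Fin 7, Function.Injective f → Function.Injective g →
      (∀ i, 1 ≤ f i) → (∀ i, 1 ≤ g i) →
      0 ≤ ((X (f 0)).2 + (X (f 1)).2 - ((Y (g 2)).2 + (Y (g 3)).2)) *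
        ((X (f 2)).2 + (X (f 3)).2 - ((Y (g 0)).2 + (Y (g 1)).2)) → False := by
    intro f g hf hg f1 g1 o
    have hzl : ∀ l : Fin 2, ε * (Z (![0, 1] l)).2 ≤ ε * (Z 1).2 := by
      intro l
      refine mz ?_
      revert l
      decide
    refine core4 hp hq hr hs hε (h.comp hf hg (g := ![0, 1]) (by decide)) (fun l => hz _)
      (fun i l => ?_) (fun i l => ?_) o
    · exact (hzl l).trans (h1.trans (mx (f1 i)))
    · exact (hzl l).trans (h2.trans (my (g1 i)))
  have k1 := key ![1, 2, 3, 4] ![3, 4, 1, 2] (by decide) (by decide) (by decide) (by decide)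
  have k2 := key ![1, 2, 5, 6] ![5, 6, 1, 2] (by decide) (by decide) (by decide) (by decide)
  have k3 := key ![3, 4, 5, 6] ![5, 6, 3, 4] (by decide) (by decide) (by decide) (by decide)
  simp only [Matrix.cons_val_zero, Matrix.cons_val_one, Matrix.cons_val] at k1 k2 k3
  generalize (X 1).2 + (X 2).2 - ((Y 1).2 + (Y 2).2) = d0 at k1 k2
  generalize (X 3).2 + (X 4).2 - ((Y 3).2 + (Y 4).2) = d1 at k1 k3
  generalize (X 5).2 + (X 6).2 - ((Y 5).2 + (Y 6).2) = d2 at k2 k3
  rcases le_total 0 d0 with a | a <;> rcases le_total 0 d1 with b | b <;>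
    rcases le_total 0 d2 with c | c
  · exact k1 (mul_nonneg a b)
  · exact k1 (mul_nonneg a b)
  · exact k2 (mul_nonneg a c)
  · exact k3 (mul_nonneg_of_nonpos_of_nonpos b c)
  · exact k3 (mul_nonneg b c)
  · exact k2 (mul_nonneg_of_nonpos_of_nonpos a c)
  · exact k1 (mul_nonneg_of_nonpos_of_nonpos a b)
  · exact k1 (mul_nonneg_of_nonpos_of_nonpos a b)

theorem core7 {X Y Z : Fin 7 → ℝ × ℝ} (h : Lab (Kc p q r s) P X Y Z)
    (hx : ∀ l, 0 ≤ ε * (X l).2) (hy : ∀ l, 0 ≤ ε * (Y l).2) (hz : ∀ l, 0 ≤ ε * (Z l).2)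
    (mx : Monotone (fun i => ε * (X i).2))
    (my : Monotone (fun i => ε * (Y i).2)) (mz : Monotone (fun i => ε * (Z i).2)) : False := by
  rcases le_total (ε * (Z 1).2) (ε * (X 1).2) with a | a <;>
    rcases le_total (ε * (Z 1).2) (ε * (Y 1).2) with b | b <;>
    rcases le_total (ε * (X 1).2) (ε * (Y 1).2) with c | c
  · exact core7aux hp hq hr hs hε h hz mx my mz a b
  · exact core7aux hp hq hr hs hε h hz mx my mz a b
  · exact core7aux hp hq hr hs hε h hz mx my mz a (a.trans c)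
  · exact core7aux hp hq hr hs hε h.swap23 hy mx mz my c b
  · exact core7aux hp hq hr hs hε h.swap12.swap23 hx my mz mx c a
  · exact core7aux hp hq hr hs hε h.swap12.swap23 hx my mz mx (a.trans b) a
  · exact core7aux hp hq hr hs hε h.swap12.swap23 hx my mz mx c a
  · exact core7aux hp hq hr hs hε h.swap23 hy mx mz my c b

end

/-- The median of the second coordinates is nonnegative. -/
def MedPos (X : Fin 13 → ℝ × ℝ) : Prop := 0 ≤ (X (Tuple.sort (fun i => (X i).2) 6)).2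

theorem select_pos {X : Fin 13 → ℝ × ℝ} (h : MedPos X) : ∃ e : Fin 7 → Fin 13,
    Function.Injective e ∧ (∀ l, 0 ≤ (1 : ℝ) * (X (e l)).2) ∧
      Monotone (fun i => (1 : ℝ) * (X (e i)).2) := by
  have m := Tuple.monotone_sort (fun i => (X i).2)
  let ι : Fin 7 → Fin 13 := ![6, 7, 8, 9, 10, 11, 12]
  have hι : Function.Injective ι := by decide
  have hm : ∀ i j, i ≤ j → ι i ≤ ι j := by decide
  have h6 : ∀ i, 6 ≤ ι i := by decide
  refine ⟨fun i => Tuple.sort (fun i => (X i).2) (ι i), (Equiv.injective _).comp hι, fun l => ?_,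
    fun i j hij => ?_⟩
  · rw [one_mul]
    exact le_trans h (m (h6 l))
  · simp only [one_mul]
    exact m (hm i j hij)

theorem select_neg {X : Fin 13 → ℝ × ℝ} (h : ¬ MedPos X) : ∃ e : Fin 7 → Fin 13,
    Function.Injective e ∧ (∀ l, 0 ≤ (-1 : ℝ) * (X (e l)).2) ∧
      Monotone (fun i => (-1 : ℝ) * (X (e i)).2) := by
  have m := Tuple.monotone_sort (fun i => (X i).2)
  let ι : Fin 7 → Fin 13 := ![6, 5, 4, 3, 2, 1, 0]
  have hι : Function.Injective ι := by decide
  have hm : ∀ i j, i ≤ j → ι j ≤ ι i := by decide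
  have h6 : ∀ i, ι i ≤ 6 := by decide
  unfold MedPos at h
  push Not at h
  refine ⟨fun i => Tuple.sort (fun i => (X i).2) (ι i), (Equiv.injective _).comp hι, fun l => ?_,
    fun i j hij => ?_⟩
  · have := m (h6 l)
    simp only [Function.comp] at this
    linarith
  · have := m (hm i j hij)
    simp only [Function.comp] at this ⊢
    linarith

theorem core13 {p q r s : ℝ} (hp : 0 < p) (hq : 0 < q) (hr : 0 < r) (hs : 0 < s) {P : ℝ × ℝ}
    {X Y Z : Fin 13 → ℝ × ℝ} (h : Lab (Kc p q r s) P X Y Z) (h1 : MedPos X ↔ MedPos Y)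
    (h2 : MedPos Y ↔ MedPos Z) : False := by
  by_cases hX : MedPos X
  · obtain ⟨e, he, e1, e2⟩ := select_pos hX
    obtain ⟨f, hf, f1, f2⟩ := select_pos (h1.1 hX)
    obtain ⟨g, hg, g1, g2⟩ := select_pos (h2.1 (h1.1 hX))
    exact core7 hp hq hr hs (ε := 1) (by norm_num) (h.comp he hf hg) e1 f1 g1 e2 f2 g2
  · obtain ⟨e, he, e1, e2⟩ := select_neg hX
    obtain ⟨f, hf, f1, f2⟩ := select_neg (fun h => hX (h1.2 h))
    obtain ⟨g, hg, g1, g2⟩ := select_neg (fun h => hX (h1.2 (h2.2 h)))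
    exact core7 hp hq hr hs (ε := -1) (by norm_num) (h.comp he hf hg) e1 f1 g1 e2 f2 g2

theorem coreConv {K : ℝ × ℝ → Prop} (hK : ConvUp K) {P : ℝ × ℝ}
    {X Y Z : Fin 13 → ℝ × ℝ} (h : Lab K P X Y Z) (h1 : (X 0).1 < 0 ↔ (Y 0).1 < 0)
    (h2 : (Y 0).1 < 0 ↔ (Z 0).1 < 0) : False := by
  have nx := h.nx {0} (by simp)
  have ny := h.ny {0} (by simp)
  have nz := h.nz {0} (by simp)
  have mix := h.mix {0} {0} {0} (by simp) (by simp) (by simp)
  simp only [Finset.sum_singleton] at nx ny nz mix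
  by_cases hX : (X 0).1 < 0
  · exact hK.three1 h.base nx ny nz mix hX (h1.1 hX) (h2.1 (h1.1 hX))
  · exact hK.three2 h.base nx ny nz mix ((hK.neg_of_not h.base nx).resolve_left hX)
      ((hK.neg_of_not h.base ny).resolve_left (fun h => hX (h1.2 h)))
      ((hK.neg_of_not h.base nz).resolve_left (fun h => hX (h1.2 (h2.2 h))))

end Pool.Agent.H164Z.Load
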