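import Pool.Agent.NPC.Defs

/-!
# The loading problem for the three-neuron network with sigmoid hidden neurons
-/

namespace Pool.Agent.H164Z.Load

/-- The standard sigmoid `σ(t) = 1 / (1 + e^(-t))`. -/
noncomputable def sig (t : ℝ) : ℝ := 1 / (1 + Real.exp (-t))

open Classical in
/-- The threshold function: `η(t) = 1` if `t ≥ 0` and `η(t) = 0` if `t < 0`
(`true` stands for `1` and `false` for `0`). -/
noncomputable def eta (t : ℝ) : Bool := if 0 ≤ t then true else false

/-- The inner product `a · x` of a real weight vector and a Boolean input vector. -/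
noncomputable def dot {k : ℕ} (a : Fin k → ℝ) (x : Fin k → Bool) : ℝ :=
  ∑ j, a j * (if x j = true then 1 else 0)

/-- The output `N(x) = η(c₀ + c₁ σ(a₁ · x + b₁) + c₂ σ(a₂ · x + b₂))` of the network. -/
noncomputable def net {k : ℕ} (a₁ a₂ : Fin k → ℝ) (b₁ b₂ c₀ c₁ c₂ : ℝ) (x : Fin k → Bool) : Bool :=
  eta (c₀ + c₁ * sig (dot a₁ x + b₁) + c₂ * sig (dot a₂ x + b₂))

/-- The loading problem.  An input is a number `k` and a list of labelled examples `(x, y)`, where
`x` is a list of bits and `y` is a bit.  It is a yes-instance if `k ≥ 1`, every `x` has length `k`,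
and some choice of the `2 k + 5` real parameters gives `N(x) = y` for all examples. -/
def Loading (I : ℕ × List (List Bool × Bool)) : Prop :=
  1 ≤ I.1 ∧ (∀ e ∈ I.2, e.1.length = I.1) ∧
    ∃ (a₁ a₂ : Fin I.1 → ℝ) (b₁ b₂ c₀ c₁ c₂ : ℝ),
      ∀ e ∈ I.2, net a₁ a₂ b₁ b₂ c₀ c₁ c₂ (fun j => e.1.getD j false) = e.2

end Pool.Agent.H164Z.Load
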