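import Mathlib

/-!
# Plane geometry of the decision region of the three-neuron sigmoid network
-/

namespace Pool.Agent.H164Z.Load

open Real Finset

/-- Convex and upward closed regions of the plane. -/
structure ConvUp (K : ℝ × ℝ → Prop) : Prop where
  conv : ∀ p q : ℝ × ℝ, ∀ t : ℝ, K p → K q → 0 ≤ t → t ≤ 1 → K (p + t • (q - p))
  up : ∀ p q : ℝ × ℝ, K p → p.1 ≤ q.1 → p.2 ≤ q.2 → K q

theorem ConvUp.swap {K : ℝ × ℝ → Prop} (h : ConvUp K) : ConvUp (fun p => K p.swap) where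
  conv := fun p q t hp hq h0 h1 => by
    have := h.conv p.swap q.swap t hp hq h0 h1
    exact this
  up := fun p q hp h1 h2 => h.up p.swap q.swap hp h2 h1

theorem ConvUp.med1 {K : ℝ × ℝ → Prop} (h : ConvUp K) {P a b : ℝ × ℝ} (hP : K P)
    (hab : K (P + a + b)) (ha : a.1 < 0) (hb : b.1 < 0) : K (P + a) ∨ K (P + b) := by
  have hs : a.1 + b.1 < 0 := by linarith
  have hne : a.1 + b.1 ≠ 0 := hs.ne
  set t := a.1 / (a.1 + b.1) with ht
  have ht0 : 0 ≤ t := div_nonneg_of_nonpos ha.le hs.le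
  have ht1 : t ≤ 1 := by
    rw [ht, div_le_one_of_neg hs]; linarith
  have hta : t * (a.1 + b.1) = a.1 := by rw [ht]; field_simp
  by_cases hc : t * (a.2 + b.2) ≤ a.2
  · left
    refine h.up _ _ (h.conv P (P + a + b) t hP hab ht0 ht1) ?_ ?_
    · simp only [Prod.fst_add, Prod.smul_fst, Prod.fst_sub, smul_eq_mul]
      nlinarith
    · simp only [Prod.snd_add, Prod.smul_snd, Prod.snd_sub, smul_eq_mul]
      nlinarith
  · right
    refine h.up _ _ (h.conv P (P + a + b) (1 - t) hP hab (by linarith) (by linarith)) ?_ ?_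
    · simp only [Prod.fst_add, Prod.smul_fst, Prod.fst_sub, smul_eq_mul]
      nlinarith
    · simp only [Prod.snd_add, Prod.smul_snd, Prod.snd_sub, smul_eq_mul]
      nlinarith

theorem ConvUp.med2 {K : ℝ × ℝ → Prop} (h : ConvUp K) {P a b : ℝ × ℝ} (hP : K P)
    (hab : K (P + a + b)) (ha : a.2 < 0) (hb : b.2 < 0) : K (P + a) ∨ K (P + b) := by
  have := h.swap.med1 (P := P.swap) (a := a.swap) (b := b.swap) hP hab ha hb
  exact this

theorem ConvUp.neg_of_not {K : ℝ × ℝ → Prop} (h : ConvUp K) {P a : ℝ × ℝ} (hP : K P)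
    (ha : ¬ K (P + a)) : a.1 < 0 ∨ a.2 < 0 := by
  by_contra hc
  push Not at hc
  exact ha (h.up P _ hP (by simp [hc.1]) (by simp [hc.2]))

/-- Three steps leaving the region, while their pairwise sums stay inside: impossible. -/
theorem ConvUp.triangle {K : ℝ × ℝ → Prop} (h : ConvUp K) {P a b c : ℝ × ℝ} (hP : K P)
    (ha : ¬ K (P + a)) (hb : ¬ K (P + b)) (hc : ¬ K (P + c))
    (hab : K (P + a + b)) (hac : K (P + a + c)) (hbc : K (P + b + c)) : False := by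
  rcases h.neg_of_not hP ha with h1 | h1 <;> rcases h.neg_of_not hP hb with h2 | h2 <;>
    rcases h.neg_of_not hP hc with h3 | h3
  · exact (h.med1 hP hab h1 h2).elim ha hb
  · exact (h.med1 hP hab h1 h2).elim ha hb
  · exact (h.med1 hP hac h1 h3).elim ha hc
  · exact (h.med2 hP hbc h2 h3).elim hb hc
  · exact (h.med1 hP hbc h2 h3).elim hb hc
  · exact (h.med2 hP hac h1 h3).elim ha hc
  · exact (h.med2 hP hab h1 h2).elim ha hb
  · exact (h.med2 hP hab h1 h2).elim ha hb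

theorem ConvUp.three1 {K : ℝ × ℝ → Prop} (h : ConvUp K) {P a b c : ℝ × ℝ} (hP : K P)
    (ha : ¬ K (P + a)) (hb : ¬ K (P + b)) (hc : ¬ K (P + c)) (habc : K (P + a + b + c))
    (h1 : a.1 < 0) (h2 : b.1 < 0) (h3 : c.1 < 0) : False := by
  have h4 : K (P + (a + b) + c) := by rwa [← add_assoc]
  rcases h.med1 hP h4 (by simp only [Prod.fst_add]; linarith) h3 with h5 | h5
  · rw [← add_assoc] at h5
    exact (h.med1 hP h5 h1 h2).elim ha hb
  · exact hc h5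

theorem ConvUp.three2 {K : ℝ × ℝ → Prop} (h : ConvUp K) {P a b c : ℝ × ℝ} (hP : K P)
    (ha : ¬ K (P + a)) (hb : ¬ K (P + b)) (hc : ¬ K (P + c)) (habc : K (P + a + b + c))
    (h1 : a.2 < 0) (h2 : b.2 < 0) (h3 : c.2 < 0) : False :=
  h.swap.three1 (P := P.swap) (a := a.swap) (b := b.swap) (c := c.swap) hP ha hb hc habc h1 h2 h3

/-- A convex, decreasing function on the plane. -/
noncomputable def Hf (p q r : ℝ) (x : ℝ × ℝ) : ℝ :=
  p * exp (-x.1) + q * exp (-x.2) + r * exp (-(x.1 + x.2))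

theorem exp_conv (a b t : ℝ) (h0 : 0 ≤ t) (h1 : t ≤ 1) :
    exp (-(a + t * (b - a))) ≤ (1 - t) * exp (-a) + t * exp (-b) := by
  have := convexOn_exp.2 (Set.mem_univ (-a)) (Set.mem_univ (-b)) (show 0 ≤ 1 - t by linarith) h0
    (by ring)
  simp only [smul_eq_mul] at this
  rw [show -(a + t * (b - a)) = (1 - t) * -a + t * -b by ring]
  exact this

theorem Hf_conv {p q r : ℝ} (hp : 0 ≤ p) (hq : 0 ≤ q) (hr : 0 ≤ r) (x y : ℝ × ℝ) (t : ℝ)
    (h0 : 0 ≤ t) (h1 : t ≤ 1) :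
    Hf p q r (x + t • (y - x)) ≤ (1 - t) * Hf p q r x + t * Hf p q r y := by
  unfold Hf
  simp only [Prod.fst_add, Prod.smul_fst, Prod.fst_sub, smul_eq_mul, Prod.snd_add, Prod.smul_snd,
    Prod.snd_sub]
  have e1 := mul_le_mul_of_nonneg_left (exp_conv x.1 y.1 t h0 h1) hp
  have e2 := mul_le_mul_of_nonneg_left (exp_conv x.2 y.2 t h0 h1) hq
  have e3 := mul_le_mul_of_nonneg_left (exp_conv (x.1 + x.2) (y.1 + y.2) t h0 h1) hr
  have : x.1 + t * (y.1 - x.1) + (x.2 + t * (y.2 - x.2)) =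
      x.1 + x.2 + t * (y.1 + y.2 - (x.1 + x.2)) := by ring
  rw [this]
  nlinarith

theorem Hf_anti {p q r : ℝ} (hp : 0 ≤ p) (hq : 0 ≤ q) (hr : 0 ≤ r) (x y : ℝ × ℝ)
    (h1 : x.1 ≤ y.1) (h2 : x.2 ≤ y.2) : Hf p q r y ≤ Hf p q r x := by
  unfold Hf
  have e1 := mul_le_mul_of_nonneg_left (exp_le_exp.2 (neg_le_neg h1)) hp
  have e2 := mul_le_mul_of_nonneg_left (exp_le_exp.2 (neg_le_neg h2)) hq
  have e3 := mul_le_mul_of_nonneg_left (exp_le_exp.2 (neg_le_neg (add_le_add h1 h2))) hr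
  linarith

theorem convUp_le {p q r : ℝ} (hp : 0 ≤ p) (hq : 0 ≤ q) (hr : 0 ≤ r) (c : ℝ) :
    ConvUp (fun x => Hf p q r x ≤ c) where
  conv := fun x y t hx hy h0 h1 => by
    have := Hf_conv hp hq hr x y t h0 h1
    nlinarith
  up := fun x y hx h1 h2 => (Hf_anti hp hq hr x y h1 h2).trans hx

theorem convUp_lt {p q r : ℝ} (hp : 0 ≤ p) (hq : 0 ≤ q) (hr : 0 ≤ r) (c : ℝ) :
    ConvUp (fun x => Hf p q r x < c) where
  conv := fun x y t hx hy h0 h1 => by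
    have := Hf_conv hp hq hr x y t h0 h1
    rcases eq_or_lt_of_le h0 with h | h
    · subst h; simpa using hx
    · nlinarith
  up := fun x y hx h1 h2 => (Hf_anti hp hq hr x y h1 h2).trans_lt hx

/-- The region of the third kind. -/
def Kc (p q r s : ℝ) (x : ℝ × ℝ) : Prop := p * exp x.2 + q ≤ exp x.1 * (r * exp x.2 + s)

theorem six_alg {p q r s U0 V0 m1 m2 n1 n2 x1 x2 y1 y2 : ℝ} (hp : 0 < p) (hq : 0 < q)
    (hr : 0 < r) (hs : 0 < s) (hU : 0 < U0) (hV : 0 < V0) (hm1 : 0 < m1) (hm2 : 0 < m2)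
    (hn1 : 0 < n1) (hn2 : 0 < n2) (hx1 : 0 < x1) (hx2 : 0 < x2) (hy1 : 0 < y1) (hy2 : 0 < y2)
    (h0 : p * V0 + q ≤ U0 * (r * V0 + s))
    (h1 : p * (V0 * (x1 * x2 * y1 * y2)) + q ≤
      U0 * (m1 * m2 * n1 * n2) * (r * (V0 * (x1 * x2 * y1 * y2)) + s))
    (h2 : p * (V0 * (x1 * y1)) + q ≤ U0 * (m1 * n1) * (r * (V0 * (x1 * y1)) + s))
    (h3 : p * (V0 * (x2 * y2)) + q ≤ U0 * (m2 * n2) * (r * (V0 * (x2 * y2)) + s))
    (h4 : U0 * (m1 * m2) * (r * (V0 * (x1 * x2)) + s) < p * (V0 * (x1 * x2)) + q)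
    (h5 : U0 * (n1 * n2) * (r * (V0 * (y1 * y2)) + s) < p * (V0 * (y1 * y2)) + q)
    (o1 : 0 ≤ (1 - x1 * x2) * (1 - y1 * y2)) (o2 : 0 ≤ (x1 - y2) * (x2 - y1)) : False := by
  have A0 := mul_le_mul h0 h1 (by positivity) (by positivity)
  have A2 := mul_le_mul h2 h3 (by positivity) (by positivity)
  have A1 := mul_lt_mul'' h4 h5 (by positivity) (by positivity)
  obtain ⟨Ψ, hΨ⟩ : ∃ Ψ, Ψ = U0 * U0 * (m1 * m2 * n1 * n2) := ⟨_, rfl⟩
  obtain ⟨Pi, hPi⟩ : ∃ Pi, Pi = V0 * V0 * (x1 * x2 * y1 * y2) := ⟨_, rfl⟩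
  obtain ⟨S0, hS0⟩ : ∃ S0, S0 = V0 * (1 + x1 * x2 * y1 * y2) := ⟨_, rfl⟩
  obtain ⟨S1, hS1⟩ : ∃ S1, S1 = V0 * (x1 * x2 + y1 * y2) := ⟨_, rfl⟩
  obtain ⟨S2, hS2⟩ : ∃ S2, S2 = V0 * (x1 * y1 + x2 * y2) := ⟨_, rfl⟩
  have B0 : 0 ≤ (Ψ * (r * r * Pi + s * s) - (p * p * Pi + q * q)) + (Ψ * (r * s) - p * q) * S0 := by
    rw [← sub_nonneg] at A0
    refine A0.trans_eq ?_
    rw [hΨ, hPi, hS0]; ring
  have B2 : 0 ≤ (Ψ * (r * r * Pi + s * s) - (p * p * Pi + q * q)) + (Ψ * (r * s) - p * q) * S2 := by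
    rw [← sub_nonneg] at A2
    refine A2.trans_eq ?_
    rw [hΨ, hPi, hS2]; ring
  have B1 : (Ψ * (r * r * Pi + s * s) - (p * p * Pi + q * q)) + (Ψ * (r * s) - p * q) * S1 < 0 := by
    rw [← sub_neg] at A1
    refine Eq.trans_lt ?_ A1
    rw [hΨ, hPi, hS1]; ring
  have C0 : S1 ≤ S0 := by
    rw [hS0, hS1]
    refine mul_le_mul_of_nonneg_left ?_ hV.le
    rw [← sub_nonneg]
    refine o1.trans_eq ?_
    ring
  have C2 : S2 ≤ S1 := by
    rw [hS1, hS2]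
    refine mul_le_mul_of_nonneg_left ?_ hV.le
    rw [← sub_nonneg]
    refine o2.trans_eq ?_
    ring
  rcases le_total 0 (Ψ * (r * s) - p * q) with hd | hd
  · have := mul_le_mul_of_nonneg_left C2 hd
    linarith
  · have := mul_le_mul_of_nonpos_left C0 hd
    linarith

theorem exp_sub_mul_nonneg {a b c d : ℝ} (h : 0 ≤ (a - b) * (c - d)) :
    0 ≤ (exp a - exp b) * (exp c - exp d) := by
  rcases mul_nonneg_iff.1 h with ⟨h1, h2⟩ | ⟨h1, h2⟩
  · exact mul_nonneg (sub_nonneg.2 (exp_le_exp.2 (by linarith)))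
      (sub_nonneg.2 (exp_le_exp.2 (by linarith)))
  · exact mul_nonneg_of_nonpos_of_nonpos (sub_nonpos.2 (exp_le_exp.2 (by linarith)))
      (sub_nonpos.2 (exp_le_exp.2 (by linarith)))

/-- The six point lemma. -/
theorem six {p q r s : ℝ} (hp : 0 < p) (hq : 0 < q) (hr : 0 < r) (hs : 0 < s)
    {P a1 a2 b1 b2 : ℝ × ℝ} (h0 : Kc p q r s P) (h1 : Kc p q r s (P + (a1 + a2) + (b1 + b2)))
    (h2 : Kc p q r s (P + a1 + b1)) (h3 : Kc p q r s (P + a2 + b2))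
    (h5 : ¬ Kc p q r s (P + (b1 + b2)))
    (o1 : 0 ≤ (a1.2 + a2.2) * (b1.2 + b2.2)) (o2 : 0 ≤ (a1.2 - b2.2) * (a2.2 - b1.2)) :
    Kc p q r s (P + (a1 + a2)) := by
  by_contra h4
  unfold Kc at h0 h1 h2 h3 h4 h5
  push Not at h4 h5
  simp only [Prod.fst_add, Prod.snd_add, exp_add] at h1 h2 h3 h4 h5
  have o1' : 0 ≤ (exp 0 - exp (a1.2 + a2.2)) * (exp 0 - exp (b1.2 + b2.2)) :=
    exp_sub_mul_nonneg (by nlinarith)
  rw [exp_zero, exp_add, exp_add] at o1'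
  refine six_alg (U0 := exp P.1) (V0 := exp P.2) (m1 := exp a1.1) (m2 := exp a2.1)
    (n1 := exp b1.1) (n2 := exp b2.1) (x1 := exp a1.2) (x2 := exp a2.2) (y1 := exp b1.2)
    (y2 := exp b2.2) hp hq hr hs (exp_pos _) (exp_pos _) (exp_pos _) (exp_pos _) (exp_pos _)
    (exp_pos _) (exp_pos _) (exp_pos _) (exp_pos _) (exp_pos _) h0 ?_ ?_ ?_ h4 h5 o1'
    (exp_sub_mul_nonneg o2)
  · convert h1 using 2 <;> ring
  · convert h2 using 2 <;> ring
  · convert h3 using 2 <;> ring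

end Pool.Agent.H164Z.Load
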