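import Pool.Agent.H164Z.LoadRed

/-!
# From 3SAT to two-colouring of triples, and the hardness of loading
-/

namespace Pool.Agent.H164Z.Load

open Pool.Agent.NPC

/-- Clauses with three literals. -/
abbrev Cl : Type := Lit ℕ × Lit ℕ × Lit ℕ

/-- Vertices: a special vertex, and five vertices for each variable and each clause. -/
abbrev Vx : Type := Option ((ℕ ⊕ Cl) × ℕ)

/-- The vertex of a literal. -/
def litv (l : Lit ℕ) : Vx := some (Sum.inl l.2, bif l.1 then 0 else 1)

/-- The negation gadget. -/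
def negG (t : ℕ ⊕ Cl) : List (Vx × Vx × Vx) :=
  [(some (t, 0), some (t, 1), some (t, 2)), (some (t, 0), some (t, 1), some (t, 3)),
    (some (t, 0), some (t, 1), some (t, 4)), (some (t, 2), some (t, 3), some (t, 4))]

/-- The triples attached to a clause. -/
def clEdges (c : Cl) : List (Vx × Vx × Vx) :=
  (litv c.1, litv c.2.1, some (Sum.inr c, 0)) :: (some (Sum.inr c, 1), litv c.2.2, none) ::
    (negG (Sum.inl c.1.2) ++ (negG (Sum.inl c.2.1.2) ++ (negG (Sum.inl c.2.2.2) ++
      negG (Sum.inr c))))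

/-- The triples attached to a formula. -/
def toH (φ : List Cl) : List (Vx × Vx × Vx) := φ.flatMap clEdges

theorem negG_dist (t : ℕ ⊕ Cl) : Dist (negG t) := by
  intro e he
  simp only [negG, List.mem_cons, List.not_mem_nil, or_false] at he
  rcases he with rfl | rfl | rfl | rfl <;> simp

theorem toH_dist {φ : List Cl} (h : Distinct3 φ) : Dist (toH φ) := by
  intro e he
  obtain ⟨c, hc, he⟩ := List.mem_flatMap.1 he
  obtain ⟨h1, -, -⟩ := h c hc
  simp only [clEdges, List.mem_cons, List.mem_append] at he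
  rcases he with rfl | rfl | he | he | he | he
  · simp [litv, h1]
  · simp [litv]
  · exact negG_dist _ e he
  · exact negG_dist _ e he
  · exact negG_dist _ e he
  · exact negG_dist _ e he

theorem negG_col {χ : Vx → Bool} {t : ℕ ⊕ Cl}
    (h : ∀ e ∈ negG t, ¬ (χ e.1 = χ e.2.1 ∧ χ e.2.1 = χ e.2.2)) :
    χ (some (t, 1)) = !χ (some (t, 0)) := by
  simp only [negG, List.forall_mem_cons] at h
  obtain ⟨h1, h2, h3, h4, -⟩ := h
  revert h1 h2 h3 h4
  generalize χ (some (t, 0)) = a
  generalize χ (some (t, 1)) = b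
  generalize χ (some (t, 2)) = c
  generalize χ (some (t, 3)) = d
  generalize χ (some (t, 4)) = e
  cases a <;> cases b <;> cases c <;> cases d <;> cases e <;> simp

/-- The colouring attached to an assignment. -/
def colOf (val : ℕ ⊕ Cl → Bool) : Vx → Bool
  | none => false
  | some (t, n) => if n = 0 then val t else if n = 1 then !val t else decide (n = 2)

theorem colOf_negG (val : ℕ ⊕ Cl → Bool) (t : ℕ ⊕ Cl) :
    ∀ e ∈ negG t, ¬ (colOf val e.1 = colOf val e.2.1 ∧ colOf val e.2.1 = colOf val e.2.2) := by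
  intro e he
  simp only [negG, List.mem_cons, List.not_mem_nil, or_false] at he
  rcases he with rfl | rfl | rfl | rfl <;> simp [colOf]

theorem toH_correct (φ : List Cl) : SAT3 φ ↔ HCol (toH φ) := by
  constructor
  · rintro ⟨τ, hτ⟩
    let val : ℕ ⊕ Cl → Bool := fun t => match t with
      | Sum.inl v => τ v
      | Sum.inr c => !(decide (τ c.1.2 = c.1.1) || decide (τ c.2.1.2 = c.2.1.1))
    have hl : ∀ l : Lit ℕ, colOf val (litv l) = decide (τ l.2 = l.1) := by
      rintro ⟨b, v⟩
      cases b <;> simp [colOf, litv, val]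
    refine ⟨colOf val, fun e he => ?_⟩
    obtain ⟨c, hc, he⟩ := List.mem_flatMap.1 he
    have h := hτ c hc
    simp only [clEdges, List.mem_cons, List.mem_append] at he
    rcases he with rfl | rfl | he | he | he | he
    · simp only [hl]
      simp only [colOf, val, if_true]
      by_cases h1 : τ c.1.2 = c.1.1 <;> by_cases h2 : τ c.2.1.2 = c.2.1.1 <;> simp [h1, h2]
    · simp only [hl]
      simp only [colOf, val, if_true, one_ne_zero, if_false]
      by_cases h1 : τ c.1.2 = c.1.1 <;> by_cases h2 : τ c.2.1.2 = c.2.1.1 <;>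
        by_cases h3 : τ c.2.2.2 = c.2.2.1 <;> simp [h1, h2, h3] at h ⊢
    · exact colOf_negG val _ e he
    · exact colOf_negG val _ e he
    · exact colOf_negG val _ e he
    · exact colOf_negG val _ e he
  · rintro ⟨χ, hχ⟩
    refine ⟨fun v => xor (χ (some (Sum.inl v, 0))) (χ none), fun c hc => ?_⟩
    have hm : ∀ e ∈ clEdges c, ¬ (χ e.1 = χ e.2.1 ∧ χ e.2.1 = χ e.2.2) :=
      fun e he => hχ e (List.mem_flatMap.2 ⟨c, hc, he⟩)
    have n1 := negG_col (χ := χ) (t := Sum.inl c.1.2) (fun e he => hm e (by simp [clEdges, he]))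
    have n2 := negG_col (χ := χ) (t := Sum.inl c.2.1.2) (fun e he => hm e (by simp [clEdges, he]))
    have n3 := negG_col (χ := χ) (t := Sum.inl c.2.2.2) (fun e he => hm e (by simp [clEdges, he]))
    have n4 := negG_col (χ := χ) (t := Sum.inr c) (fun e he => hm e (by simp [clEdges, he]))
    have e1 := hm (litv c.1, litv c.2.1, some (Sum.inr c, 0)) (by simp [clEdges])
    have e2 := hm (some (Sum.inr c, 1), litv c.2.2, none) (by simp [clEdges])
    have hl : ∀ l : Lit ℕ, χ (some (Sum.inl l.2, 1)) = !χ (some (Sum.inl l.2, 0)) →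
        χ (litv l) = (χ (some (Sum.inl l.2, 0)) == l.1) := by
      rintro ⟨b, v⟩ h
      cases b
      · simp only [litv, cond_false] at h ⊢
        rw [h]; simp
      · simp [litv]
    simp only [hl _ n1, hl _ n2, hl _ n3, n4] at e1 e2
    beta_reduce
    revert e1 e2
    generalize χ (some (Sum.inl c.1.2, 0)) = a1
    generalize χ (some (Sum.inl c.2.1.2, 0)) = a2
    generalize χ (some (Sum.inl c.2.2.2, 0)) = a3
    generalize χ (some (Sum.inr c, 0)) = w
    generalize χ none = z
    generalize c.1.1 = b1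
    generalize c.2.1.1 = b2
    generalize c.2.2.1 = b3
    revert a1 a2 a3 w z b1 b2 b3
    decide

theorem toH_poly : NPC.Poly toH := by
  have hlit : ∀ {α : Type} [TEnc α] {l : α → Lit ℕ}, NPC.Poly l →
      NPC.Poly (fun a => litv (l a)) := by
    intro α _ l hl
    exact NPC.Poly.some (NPC.Poly.pair (NPC.Poly.inl (NPC.Poly.snd hl))
      (NPC.Poly.cond (NPC.Poly.fst hl) (NPC.Poly.const 0) (NPC.Poly.const 1)))
  have hv : ∀ {α : Type} [TEnc α] {t : α → ℕ ⊕ Cl} (n : ℕ), NPC.Poly t →
      NPC.Poly (fun a => (some (t a, n) : Vx)) := by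
    intro α _ t n ht
    exact NPC.Poly.some (NPC.Poly.pair ht (NPC.Poly.const n))
  have hneg : ∀ {α : Type} [TEnc α] {t : α → ℕ ⊕ Cl}, NPC.Poly t →
      NPC.Poly (fun a => negG (t a)) := by
    intro α _ t ht
    exact NPC.Poly.cons (NPC.Poly.pair (hv 0 ht) (NPC.Poly.pair (hv 1 ht) (hv 2 ht)))
      (NPC.Poly.cons (NPC.Poly.pair (hv 0 ht) (NPC.Poly.pair (hv 1 ht) (hv 3 ht)))
        (NPC.Poly.cons (NPC.Poly.pair (hv 0 ht) (NPC.Poly.pair (hv 1 ht) (hv 4 ht)))
          (NPC.Poly.cons (NPC.Poly.pair (hv 2 ht) (NPC.Poly.pair (hv 3 ht) (hv 4 ht)))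
            (NPC.Poly.const []))))
  have h1 : NPC.Poly (fun c : Cl => c.1) := NPC.Poly.fst NPC.Poly.id
  have h2 : NPC.Poly (fun c : Cl => c.2.1) := NPC.Poly.fst (NPC.Poly.snd NPC.Poly.id)
  have h3 : NPC.Poly (fun c : Cl => c.2.2) := NPC.Poly.snd (NPC.Poly.snd NPC.Poly.id)
  have h4 : NPC.Poly (fun c : Cl => (Sum.inr c : ℕ ⊕ Cl)) := NPC.Poly.inr NPC.Poly.id
  have hcl : NPC.Poly clEdges :=
    NPC.Poly.cons (NPC.Poly.pair (hlit h1) (NPC.Poly.pair (hlit h2) (hv 0 h4)))
      (NPC.Poly.cons (NPC.Poly.pair (hv 1 h4) (NPC.Poly.pair (hlit h3) (NPC.Poly.const none)))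
        (NPC.Poly.append (hneg (NPC.Poly.inl (NPC.Poly.snd h1)))
          (NPC.Poly.append (hneg (NPC.Poly.inl (NPC.Poly.snd h2)))
            (NPC.Poly.append (hneg (NPC.Poly.inl (NPC.Poly.snd h3))) (hneg h4)))))
  exact NPC.Poly.flatMap (F := fun _ (c : Cl) => clEdges c) NPC.Poly.id
    (hcl.comp (NPC.Poly.snd NPC.Poly.id))

theorem hardPr_HCol : HardPr (Dist (V := Vx)) HCol :=
  hardPr_SAT3.trans toH_poly (fun _ h => toH_dist h) (fun φ _ => toH_correct φ)

theorem hardPr_loading : HardPr (fun _ => True) Loading := by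
  classical
  exact hardPr_HCol.trans inst_poly (fun _ _ => trivial) (fun _ h => inst_correct h)

theorem npHard_loading : NPHardP Loading := hardPr_loading.toHardI.toNPHardP

end Pool.Agent.H164Z.Load
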