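import Pool.Agent.H164Z.LoadComb
import Pool.Agent.H164Z.LoadDefs

/-!
# A loaded network yields a proper two-colouring
-/

namespace Pool.Agent.H164Z.Load

open Real Finset

/-- The decision region of the output neuron in the plane of the two hidden activations. -/
def Reg (c0 c1 c2 : ℝ) (x : ℝ × ℝ) : Prop := 0 ≤ c0 + c1 * sig x.1 + c2 * sig x.2

theorem sig_eq (t : ℝ) : sig t = exp t / (1 + exp t) := by
  unfold sig
  rw [exp_neg]
  have := exp_pos t
  field_simp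
  ring

theorem sig_neg (t : ℝ) : sig (-t) = 1 - sig t := by
  rw [sig_eq t]
  unfold sig
  rw [neg_neg]
  have := exp_pos t
  field_simp
  ring

theorem reg_iff (c0 c1 c2 : ℝ) (x : ℝ × ℝ) : Reg c0 c1 c2 x ↔
    0 ≤ c0 + (c0 + c1) * exp x.1 + (c0 + c2) * exp x.2 + (c0 + c1 + c2) * (exp x.1 * exp x.2) := by
  unfold Reg
  rw [sig_eq, sig_eq]
  have h1 := exp_pos x.1
  have h2 := exp_pos x.2
  have e : c0 + c1 * (exp x.1 / (1 + exp x.1)) + c2 * (exp x.2 / (1 + exp x.2)) =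
      (c0 + (c0 + c1) * exp x.1 + (c0 + c2) * exp x.2 + (c0 + c1 + c2) * (exp x.1 * exp x.2)) /
        ((1 + exp x.1) * (1 + exp x.2)) := by
    field_simp
    ring
  rw [e, le_div_iff₀ (by positivity), zero_mul]

/-- Proper two-colourings of a list of triples. -/
def HCol {V : Type} (E : List (V × V × V)) : Prop :=
  ∃ χ : V → Bool, ∀ e ∈ E, ¬ (χ e.1 = χ e.2.1 ∧ χ e.2.1 = χ e.2.2)

/-- The labels of the whole instance are realised by the region `K`. -/
def Inst {V : Type} (E : List (V × V × V)) (K : ℝ × ℝ → Prop) : Prop :=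
  ∃ (P g0 g1 g2 : ℝ × ℝ) (w : V → Fin 13 → ℝ × ℝ),
    (K P ∧ K (P + g0 + g1) ∧ K (P + g0 + g2) ∧ ¬ K (P + g0) ∧ ¬ K (P + g1) ∧ ¬ K (P + g2) ∧
      ¬ K (P + g0 + g1 + g2)) ∧ ∀ e ∈ E, Lab K P (w e.1) (w e.2.1) (w e.2.2)

variable {V : Type} {E : List (V × V × V)}

theorem Inst.map {K K' : ℝ × ℝ → Prop} (φ : ℝ × ℝ →+ ℝ × ℝ) (hφ : ∀ x, K' (φ x) ↔ K x)
    (h : Inst E K) : Inst E K' := by
  obtain ⟨P, g0, g1, g2, w, ⟨a1, a2, a3, a4, a5, a6, a7⟩, hE⟩ := h
  refine ⟨φ P, φ g0, φ g1, φ g2, fun v i => φ (w v i), ?_, fun e he => ?_⟩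
  · simp only [← map_add, hφ]
    exact ⟨a1, a2, a3, a4, a5, a6, a7⟩
  · have h := hE e he
    refine ⟨(hφ _).2 h.base, fun S hS => ?_, fun S hS => ?_, fun S hS => ?_,
      fun S T R hS hT hR => ?_⟩
    · simpa only [← map_sum, ← map_add, hφ] using h.nx S hS
    · simpa only [← map_sum, ← map_add, hφ] using h.ny S hS
    · simpa only [← map_sum, ← map_add, hφ] using h.nz S hS
    · simpa only [← map_sum, ← map_add, hφ] using h.mix S T R hS hT hR

theorem Inst.congr {K K' : ℝ × ℝ → Prop} (hφ : ∀ x, K' x ↔ K x) (h : Inst E K) : Inst E K' :=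
  Inst.map (AddMonoidHom.id _) hφ h

theorem hcol_convUp {K : ℝ × ℝ → Prop} (hK : ConvUp K) (h : Inst E K) : HCol E := by
  classical
  obtain ⟨P, g0, g1, g2, w, -, hE⟩ := h
  refine ⟨fun v => decide ((w v 0).1 < 0), fun e he hc => ?_⟩
  simp only [decide_eq_decide] at hc
  exact coreConv hK (hE e he) hc.1 hc.2

theorem hcol_Kc {p q r s : ℝ} (hp : 0 < p) (hq : 0 < q) (hr : 0 < r) (hs : 0 < s)
    (h : Inst E (Kc p q r s)) : HCol E := by
  classical
  obtain ⟨P, g0, g1, g2, w, -, hE⟩ := h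
  refine ⟨fun v => decide (MedPos (w v)), fun e he hc => ?_⟩
  simp only [decide_eq_decide] at hc
  exact core13 hp hq hr hs (hE e he) hc.1 hc.2

theorem not_inst_conv {K : ℝ × ℝ → Prop} (hK : ConvUp (fun x => ¬ K (-x))) (h : Inst E K) :
    False := by
  obtain ⟨P, g0, g1, g2, w, ⟨a1, a2, a3, a4, a5, a6, a7⟩, -⟩ := h
  refine hK.triangle (P := -(P + g0)) (a := g0) (b := -g1) (c := -g2) ?_ ?_ ?_ ?_ ?_ ?_ ?_
  · simpa only [neg_neg] using a4
  · rw [not_not]; convert a1 using 1; abel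
  · rw [not_not]; convert a2 using 1; abel
  · rw [not_not]; convert a3 using 1; abel
  · convert a5 using 2; abel
  · convert a6 using 2; abel
  · convert a7 using 2; abel

theorem hcol_mixed {c0 c1 c2 : ℝ} (h1 : 0 ≤ c1) (h2 : 0 ≤ c2) (ha : 0 < c0 + c1)
    (hb : c0 + c2 < 0) (h : Inst E (Reg c0 c1 c2)) : HCol E := by
  refine hcol_Kc (p := -(c0 + c2)) (q := -c0) (r := c0 + c1 + c2) (s := c0 + c1) (by linarith)
    (by linarith) (by linarith) ha (h.congr fun x => ?_)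
  rw [reg_iff]
  unfold Kc
  constructor <;> intro h <;> nlinarith

theorem hcol_nonneg {c0 c1 c2 : ℝ} (h1 : 0 ≤ c1) (h2 : 0 ≤ c2) (h : Inst E (Reg c0 c1 c2)) :
    HCol E := by
  have caseA : c0 + c1 ≤ 0 → c0 + c2 ≤ 0 → HCol E := by
    intro ha hb
    refine hcol_convUp (convUp_le (p := -(c0 + c2)) (q := -(c0 + c1)) (r := -c0) (by linarith)
      (by linarith) (by linarith) (c0 + c1 + c2)) (h.congr fun x => ?_)
    rw [reg_iff]
    unfold Hf
    have u1 := exp_pos x.1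
    have u2 := exp_pos x.2
    rw [exp_neg, exp_neg, exp_neg, exp_add, ← sub_nonneg]
    have e : c0 + c1 + c2 - (-(c0 + c2) * (exp x.1)⁻¹ + -(c0 + c1) * (exp x.2)⁻¹ +
        -c0 * (exp x.1 * exp x.2)⁻¹) = (c0 + (c0 + c1) * exp x.1 + (c0 + c2) * exp x.2 +
          (c0 + c1 + c2) * (exp x.1 * exp x.2)) / (exp x.1 * exp x.2) := by
      field_simp
      ring
    rw [e, le_div_iff₀ (by positivity), zero_mul]
  have caseB : 0 ≤ c0 + c1 → 0 ≤ c0 + c2 → HCol E := by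
    intro ha hb
    exfalso
    have := convUp_lt (p := c0 + c1) (q := c0 + c2) (r := c0 + c1 + c2) ha hb (by linarith) (-c0)
    refine not_inst_conv (K := Reg c0 c1 c2) ?_ h
    convert this using 2 with x
    rw [reg_iff]
    unfold Hf
    rw [neg_add, exp_add]
    simp only [Prod.fst_neg, Prod.snd_neg, not_le]
    constructor <;> intro h <;> linarith
  rcases le_or_gt (c0 + c1) 0 with ha | ha <;> rcases le_or_gt (c0 + c2) 0 with hb | hb
  · exact caseA ha hb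
  · rcases eq_or_lt_of_le ha with ha' | ha'
    · exact caseB ha'.ge hb.le
    · refine hcol_mixed h2 h1 hb ha' (h.map (AddEquiv.prodComm : ℝ × ℝ ≃+ ℝ × ℝ).toAddMonoidHom
        fun x => ?_)
      unfold Reg
      simp only [AddEquiv.toAddMonoidHom_eq_coe, AddMonoidHom.coe_coe, AddEquiv.coe_prodComm,
        Prod.fst_swap, Prod.snd_swap]
      constructor <;> intro h <;> linarith
  · rcases eq_or_lt_of_le hb with hb' | hb'
    · exact caseB ha.le hb'.ge
    · exact hcol_mixed h1 h2 ha hb' h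
  · exact caseB ha.le hb.le

/-- Reflection of the first coordinate. -/
def refl1 : ℝ × ℝ →+ ℝ × ℝ where
  toFun x := (-x.1, x.2)
  map_zero' := by simp
  map_add' := fun x y => by ext <;> simp [add_comm]

/-- Reflection of the second coordinate. -/
def refl2 : ℝ × ℝ →+ ℝ × ℝ where
  toFun x := (x.1, -x.2)
  map_zero' := by simp
  map_add' := fun x y => by ext <;> simp [add_comm]

theorem hcol_of_inst {c0 c1 c2 : ℝ} (h : Inst E (Reg c0 c1 c2)) : HCol E := by
  have s1 : ∀ c0 c1 c2 : ℝ, Inst E (Reg c0 c1 c2) → Inst E (Reg (c0 + c1) (-c1) c2) := by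
    intro c0 c1 c2 h
    refine h.map refl1 fun x => ?_
    show 0 ≤ c0 + c1 + -c1 * sig (-x.1) + c2 * sig x.2 ↔ 0 ≤ c0 + c1 * sig x.1 + c2 * sig x.2
    rw [sig_neg]
    constructor <;> intro h <;> linarith
  have s2 : ∀ c0 c1 c2 : ℝ, Inst E (Reg c0 c1 c2) → Inst E (Reg (c0 + c2) c1 (-c2)) := by
    intro c0 c1 c2 h
    refine h.map refl2 fun x => ?_
    show 0 ≤ c0 + c2 + c1 * sig x.1 + -c2 * sig (-x.2) ↔ 0 ≤ c0 + c1 * sig x.1 + c2 * sig x.2
    rw [sig_neg]
    constructor <;> intro h <;> linarith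
  rcases le_total 0 c1 with h1 | h1 <;> rcases le_total 0 c2 with h2 | h2
  · exact hcol_nonneg h1 h2 h
  · exact hcol_nonneg h1 (neg_nonneg.2 h2) (s2 _ _ _ h)
  · exact hcol_nonneg (neg_nonneg.2 h1) h2 (s1 _ _ _ h)
  · exact hcol_nonneg (neg_nonneg.2 h1) (neg_nonneg.2 h2) (s2 _ _ _ (s1 _ _ _ h))

/-! ### The converse: values of the standard network -/

theorem sig_ge {t : ℝ} (h : 2 ≤ t) : 3 / 4 ≤ sig t := by
  rw [sig_eq]
  have h1 := add_one_le_exp t
  have h2 := exp_pos t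
  rw [le_div_iff₀ (by positivity)]
  linarith

theorem sig_lt_one (t : ℝ) : sig t < 1 := by
  rw [sig_eq]
  have h2 := exp_pos t
  rw [div_lt_one (by positivity)]
  linarith

theorem sig_lt_half {t : ℝ} (h : t < 0) : sig t < 1 / 2 := by
  rw [sig_eq]
  have h2 := exp_pos t
  have h3 : exp t < 1 := by rw [← exp_zero]; exact exp_lt_exp.2 h
  rw [div_lt_iff₀ (by positivity)]
  linarith

theorem reg_pos {x : ℝ × ℝ} (h1 : 2 ≤ x.1) (h2 : 2 ≤ x.2) : Reg (-3 / 2) 1 1 x := by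
  unfold Reg
  linarith [sig_ge h1, sig_ge h2]

theorem reg_neg {x : ℝ × ℝ} (h : x.1 < 0 ∨ x.2 < 0) : ¬ Reg (-3 / 2) 1 1 x := by
  unfold Reg
  rw [not_le]
  rcases h with h | h
  · linarith [sig_lt_half h, sig_lt_one x.2]
  · linarith [sig_lt_half h, sig_lt_one x.1]

end Pool.Agent.H164Z.Load
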