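import Pool.Agent.H164Z.LoadNet
import Pool.Agent.NPC.Sat

/-!
# The reduction from two-colouring of triples to the loading problem
-/

namespace Pool.Agent.H164Z.Load

open Pool.Agent.NPC

section Vec

variable {C : Type} [DecidableEq C]

/-- The characteristic vector of `S` along the list `L` of coordinates. -/
def vec (L S : List C) : List Bool := L.map (fun c => decide (c ∈ S))

/-- Loading in terms of named coordinates. -/
def AL (exs : List (List C × Bool)) : Prop :=
  ∃ (α : C → ℝ × ℝ) (P : ℝ × ℝ) (c0 c1 c2 : ℝ),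
    ∀ e ∈ exs, (Reg c0 c1 c2 (P + (e.1.map α).sum) ↔ e.2 = true)

theorem dot_vec (L S : List C) (hS : S.Nodup) (a : Fin L.length → ℝ) :
    dot a (fun j => (vec L S).getD j false) =
      (S.map (fun c => ∑ j : Fin L.length, if L[j] = c then a j else 0)).sum := by
  rw [← List.sum_toFinset _ hS, Finset.sum_comm]
  unfold dot
  refine Finset.sum_congr rfl fun j _ => ?_
  rw [Finset.sum_ite_eq]
  have : (vec L S).getD j false = decide (L[j] ∈ S) := by
    unfold vec
    rw [List.getD_eq_getElem _ _ (by simp)]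
    simp
  simp only [this, decide_eq_true_eq, List.mem_toFinset]
  split_ifs <;> simp

omit [DecidableEq C] in
theorem fst_sum_map (S : List C) (α : C → ℝ × ℝ) :
    (S.map α).sum.1 = (S.map (fun c => (α c).1)).sum := by
  induction S with
  | nil => simp
  | cons c S ih => simp [ih]

omit [DecidableEq C] in
theorem snd_sum_map (S : List C) (α : C → ℝ × ℝ) :
    (S.map α).sum.2 = (S.map (fun c => (α c).2)).sum := by
  induction S with
  | nil => simp
  | cons c S ih => simp [ih]

theorem net_iff {k : ℕ} (a₁ a₂ : Fin k → ℝ) (b₁ b₂ c₀ c₁ c₂ : ℝ) (x : Fin k → Bool) (y : Bool) :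
    net a₁ a₂ b₁ b₂ c₀ c₁ c₂ x = y ↔
      (Reg c₀ c₁ c₂ (b₁ + dot a₁ x, b₂ + dot a₂ x) ↔ y = true) := by
  unfold net eta Reg
  rw [add_comm (dot a₁ x), add_comm (dot a₂ x)]
  split_ifs with h
  · cases y <;> simp [h]
  · cases y <;> simp [h]

theorem exists_weights (L : List C) (β : C → ℝ) : ∃ a : Fin L.length → ℝ, ∀ c ∈ L,
    (∑ j : Fin L.length, if L[j] = c then a j else 0) = β c := by
  refine ⟨fun j => β L[j] / ((Finset.univ.filter (fun i : Fin L.length => L[i] = L[j])).card : ℝ),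
    fun c hc => ?_⟩
  rw [← Finset.sum_filter]
  have hne : (Finset.univ.filter (fun i : Fin L.length => L[i] = c)).Nonempty := by
    obtain ⟨i, hi, rfl⟩ := List.getElem_of_mem hc
    exact ⟨⟨i, hi⟩, by simp⟩
  rw [Finset.sum_congr rfl (g := fun _ =>
    β c / ((Finset.univ.filter (fun i : Fin L.length => L[i] = c)).card : ℝ))]
  · rw [Finset.sum_const, nsmul_eq_mul]
    have : ((Finset.univ.filter (fun i : Fin L.length => L[i] = c)).card : ℝ) ≠ 0 := by
      exact_mod_cast hne.card_pos.ne'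
    field_simp
  · intro j hj
    rw [Finset.mem_filter] at hj
    simp only [hj.2]

theorem loading_iff (L : List C) (exs : List (List C × Bool)) (hL : L ≠ [])
    (hnd : ∀ e ∈ exs, e.1.Nodup) (hsub : ∀ e ∈ exs, ∀ c ∈ e.1, c ∈ L) :
    Loading (L.length, exs.map (fun e => (vec L e.1, e.2))) ↔ AL exs := by
  constructor
  · rintro ⟨-, -, a₁, a₂, b₁, b₂, c₀, c₁, c₂, h⟩
    refine ⟨fun c => (∑ j : Fin L.length, if L[j] = c then a₁ j else 0,
      ∑ j : Fin L.length, if L[j] = c then a₂ j else 0), (b₁, b₂), c₀, c₁, c₂, fun e he => ?_⟩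
    have h1 := h _ (List.mem_map.2 ⟨e, he, rfl⟩)
    rw [net_iff] at h1
    simp only at h1
    rw [dot_vec L e.1 (hnd e he), dot_vec L e.1 (hnd e he)] at h1
    convert h1 using 2
    ext
    · rw [Prod.fst_add, fst_sum_map]
    · rw [Prod.snd_add, snd_sum_map]
  · rintro ⟨α, P, c0, c1, c2, h⟩
    obtain ⟨a₁, h₁⟩ := exists_weights L (fun c => (α c).1)
    obtain ⟨a₂, h₂⟩ := exists_weights L (fun c => (α c).2)
    refine ⟨List.length_pos_iff.2 hL, ?_, a₁, a₂, P.1, P.2, c0, c1, c2, ?_⟩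
    · intro e he
      obtain ⟨d, -, rfl⟩ := List.mem_map.1 he
      simp [vec]
    · intro e he
      obtain ⟨d, hd, rfl⟩ := List.mem_map.1 he
      rw [net_iff]
      simp only
      rw [dot_vec L d.1 (hnd d hd), dot_vec L d.1 (hnd d hd),
        List.map_congr_left (fun c hc => h₁ c (hsub d hd c hc)),
        List.map_congr_left (fun c hc => h₂ c (hsub d hd c hc))]
      convert h d hd using 2
      ext
      · rw [Prod.fst_add, fst_sum_map]
      · rw [Prod.snd_add, snd_sum_map]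

end Vec

section Red

variable {V : Type}

/-- Coordinates: three for the gadget, and thirteen copies of each vertex. -/
abbrev Co (V : Type) : Type := ℕ ⊕ (V × ℕ)

/-- The list of numbers of a set of copies. -/
noncomputable def nums (S : Finset (Fin 13)) : List ℕ := S.toList.map Fin.val

/-- The nonempty sets of copies. -/
noncomputable def subs : List (List ℕ) :=
  ((Finset.univ : Finset (Finset (Fin 13))).filter (fun S => S.Nonempty)).toList.map nums

theorem mem_subs {l : List ℕ} : l ∈ subs ↔ ∃ S : Finset (Fin 13), S.Nonempty ∧ nums S = l := by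
  unfold subs
  simp only [List.mem_map, Finset.mem_toList, Finset.mem_filter, Finset.mem_univ, true_and]

/-- Triples of nonempty sets of copies. -/
noncomputable def trips : List (List ℕ × List ℕ × List ℕ) :=
  subs.flatMap (fun S => subs.flatMap (fun T => subs.map (fun R => (S, T, R))))

theorem mem_trips {t : List ℕ × List ℕ × List ℕ} :
    t ∈ trips ↔ t.1 ∈ subs ∧ t.2.1 ∈ subs ∧ t.2.2 ∈ subs := by
  unfold trips
  simp only [List.mem_flatMap, List.mem_map]
  constructor
  · rintro ⟨S, hS, T, hT, R, hR, rfl⟩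
    exact ⟨hS, hT, hR⟩
  · rintro ⟨h1, h2, h3⟩
    exact ⟨_, h1, _, h2, _, h3, rfl⟩

/-- Copies of a vertex. -/
def grp (x : V) (l : List ℕ) : List (Co V) := l.map (fun i => Sum.inr (x, i))

/-- All coordinates. -/
def coords (E : List (V × V × V)) : List (Co V) :=
  [Sum.inl 0, Sum.inl 1, Sum.inl 2] ++ E.flatMap (fun e =>
    grp e.1 (List.range 13) ++ (grp e.2.1 (List.range 13) ++ grp e.2.2 (List.range 13)))

/-- The gadget examples. -/
def gad (V : Type) : List (List (Co V) × Bool) :=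
  [([], true), ([Sum.inl 0, Sum.inl 1], true), ([Sum.inl 0, Sum.inl 2], true),
    ([Sum.inl 0], false), ([Sum.inl 1], false), ([Sum.inl 2], false),
    ([Sum.inl 0, Sum.inl 1, Sum.inl 2], false)]

/-- The examples attached to a triple. -/
noncomputable def edgeEx (e : V × V × V) : List (List (Co V) × Bool) :=
  subs.flatMap (fun S => [(grp e.1 S, false), (grp e.2.1 S, false), (grp e.2.2 S, false)]) ++
    trips.map (fun t => (grp e.1 t.1 ++ (grp e.2.1 t.2.1 ++ grp e.2.2 t.2.2), true))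

/-- All examples. -/
noncomputable def exs (E : List (V × V × V)) : List (List (Co V) × Bool) :=
  gad V ++ E.flatMap edgeEx

/-- The three entries of each triple are different. -/
def Dist (E : List (V × V × V)) : Prop := ∀ e ∈ E, e.1 ≠ e.2.1 ∧ e.1 ≠ e.2.2 ∧ e.2.1 ≠ e.2.2

theorem mem_exs {E : List (V × V × V)} {d : List (Co V) × Bool} : d ∈ exs E ↔ d ∈ gad V ∨
    ∃ e ∈ E, (∃ S : Finset (Fin 13), S.Nonempty ∧ (d = (grp e.1 (nums S), false) ∨
      d = (grp e.2.1 (nums S), false) ∨ d = (grp e.2.2 (nums S), false))) ∨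
      ∃ S T R : Finset (Fin 13), S.Nonempty ∧ T.Nonempty ∧ R.Nonempty ∧
        d = (grp e.1 (nums S) ++ (grp e.2.1 (nums T) ++ grp e.2.2 (nums R)), true) := by
  unfold exs
  rw [List.mem_append, List.mem_flatMap]
  refine or_congr Iff.rfl (exists_congr fun e => and_congr Iff.rfl ?_)
  unfold edgeEx
  rw [List.mem_append, List.mem_flatMap, List.mem_map]
  refine or_congr ?_ ?_
  · constructor
    · rintro ⟨l, hl, hd⟩
      obtain ⟨S, hS, rfl⟩ := mem_subs.1 hl
      exact ⟨S, hS, by simpa using hd⟩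
    · rintro ⟨S, hS, hd⟩
      exact ⟨nums S, mem_subs.2 ⟨S, hS, rfl⟩, by simpa using hd⟩
  · constructor
    · rintro ⟨⟨l1, l2, l3⟩, ht, rfl⟩
      obtain ⟨h1, h2, h3⟩ := mem_trips.1 ht
      obtain ⟨S, hS, rfl⟩ := mem_subs.1 h1
      obtain ⟨T, hT, rfl⟩ := mem_subs.1 h2
      obtain ⟨R, hR, rfl⟩ := mem_subs.1 h3
      exact ⟨S, T, R, hS, hT, hR, rfl⟩
    · rintro ⟨S, T, R, hS, hT, hR, rfl⟩
      exact ⟨(nums S, nums T, nums R), mem_trips.2 ⟨mem_subs.2 ⟨S, hS, rfl⟩,
        mem_subs.2 ⟨T, hT, rfl⟩, mem_subs.2 ⟨R, hR, rfl⟩⟩, rfl⟩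

theorem sum_grp (α : Co V → ℝ × ℝ) (x : V) (S : Finset (Fin 13)) :
    ((grp x (nums S)).map α).sum = ∑ i ∈ S, α (Sum.inr (x, i.val)) := by
  unfold grp nums
  rw [List.map_map, List.map_map, Finset.sum_map_toList]
  rfl

theorem nodup_grp (x : V) (S : Finset (Fin 13)) : (grp x (nums S)).Nodup := by
  unfold grp nums
  refine List.Nodup.map ?_ (List.Nodup.map Fin.val_injective S.nodup_toList)
  intro i j h
  simpa using h

theorem mem_grp {x : V} {l : List ℕ} {c : Co V} : c ∈ grp x l ↔ ∃ i ∈ l, Sum.inr (x, i) = c := by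
  unfold grp
  rw [List.mem_map]

theorem grp_sub (x : V) (S : Finset (Fin 13)) : ∀ c ∈ grp x (nums S), c ∈ grp x (List.range 13) := by
  intro c hc
  obtain ⟨i, hi, rfl⟩ := mem_grp.1 hc
  refine mem_grp.2 ⟨i, ?_, rfl⟩
  unfold nums at hi
  obtain ⟨j, -, rfl⟩ := List.mem_map.1 hi
  exact List.mem_range.2 j.isLt

theorem grp_disj {x y : V} (h : x ≠ y) (l l' : List ℕ) : ∀ a ∈ grp x l, ∀ b ∈ grp y l', a ≠ b := by
  intro a ha b hb hab
  obtain ⟨i, -, rfl⟩ := mem_grp.1 ha
  obtain ⟨j, -, rfl⟩ := mem_grp.1 hb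
  simp only [Sum.inr.injEq, Prod.mk.injEq] at hab
  exact h hab.1

theorem exs_nodup {E : List (V × V × V)} (hE : Dist E) : ∀ d ∈ exs E, d.1.Nodup := by
  intro d hd
  rcases mem_exs.1 hd with hd | ⟨e, he, ⟨S, -, rfl | rfl | rfl⟩ | ⟨S, T, R, -, -, -, rfl⟩⟩
  · simp only [gad, List.mem_cons, List.not_mem_nil, or_false] at hd
    rcases hd with rfl | rfl | rfl | rfl | rfl | rfl | rfl <;> simp
  · exact nodup_grp _ _
  · exact nodup_grp _ _
  · exact nodup_grp _ _
  · obtain ⟨h1, h2, h3⟩ := hE e he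
    refine List.nodup_append.2 ⟨nodup_grp _ _, List.nodup_append.2 ⟨nodup_grp _ _, nodup_grp _ _,
      grp_disj h3 _ _⟩, fun a ha b hb => ?_⟩
    rcases List.mem_append.1 hb with hb | hb
    · exact grp_disj h1 _ _ a ha b hb
    · exact grp_disj h2 _ _ a ha b hb

theorem exs_sub {E : List (V × V × V)} : ∀ d ∈ exs E, ∀ c ∈ d.1, c ∈ coords E := by
  intro d hd c hc
  unfold coords
  rw [List.mem_append, List.mem_flatMap]
  rcases mem_exs.1 hd with hd | ⟨e, he, ⟨S, -, rfl | rfl | rfl⟩ | ⟨S, T, R, -, -, -, rfl⟩⟩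
  · left
    simp only [gad, List.mem_cons, List.not_mem_nil, or_false] at hd
    rcases hd with rfl | rfl | rfl | rfl | rfl | rfl | rfl <;>
      simp only [List.mem_cons, List.not_mem_nil, or_false] at hc ⊢ <;> tauto
  · exact Or.inr ⟨e, he, List.mem_append_left _ (grp_sub _ _ c hc)⟩
  · exact Or.inr ⟨e, he, List.mem_append_right _ (List.mem_append_left _ (grp_sub _ _ c hc))⟩
  · exact Or.inr ⟨e, he, List.mem_append_right _ (List.mem_append_right _ (grp_sub _ _ c hc))⟩
  · refine Or.inr ⟨e, he, ?_⟩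
    simp only [List.mem_append] at hc ⊢
    rcases hc with hc | hc | hc
    · exact Or.inl (grp_sub _ _ c hc)
    · exact Or.inr (Or.inl (grp_sub _ _ c hc))
    · exact Or.inr (Or.inr (grp_sub _ _ c hc))

theorem hcol_of_al {E : List (V × V × V)} (h : AL (exs E)) : HCol E := by
  obtain ⟨α, P, c0, c1, c2, h⟩ := h
  have hg : ∀ d ∈ gad V, (Reg c0 c1 c2 (P + (d.1.map α).sum) ↔ d.2 = true) :=
    fun d hd => h d (mem_exs.2 (Or.inl hd))
  simp only [gad, List.forall_mem_cons, List.map_cons, List.map_nil, List.sum_cons, List.sum_nil,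
    add_zero, iff_true, Bool.false_eq_true, iff_false, ← add_assoc] at hg
  obtain ⟨g1, g2, g3, g4, g5, g6, g7, -⟩ := hg
  refine hcol_of_inst (c0 := c0) (c1 := c1) (c2 := c2) ⟨P, α (Sum.inl 0), α (Sum.inl 1),
    α (Sum.inl 2), fun v i => α (Sum.inr (v, i.val)), ⟨g1, g2, g3, g4, g5, g6, g7⟩, fun e he => ?_⟩
  refine ⟨g1, fun S hS => ?_, fun S hS => ?_, fun S hS => ?_, fun S T R hS hT hR => ?_⟩
  · have := h _ (mem_exs.2 (Or.inr ⟨e, he, Or.inl ⟨S, hS, Or.inl rfl⟩⟩))
    simpa only [sum_grp, Bool.false_eq_true, iff_false] using this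
  · have := h _ (mem_exs.2 (Or.inr ⟨e, he, Or.inl ⟨S, hS, Or.inr (Or.inl rfl)⟩⟩))
    simpa only [sum_grp, Bool.false_eq_true, iff_false] using this
  · have := h _ (mem_exs.2 (Or.inr ⟨e, he, Or.inl ⟨S, hS, Or.inr (Or.inr rfl)⟩⟩))
    simpa only [sum_grp, Bool.false_eq_true, iff_false] using this
  · have := h _ (mem_exs.2 (Or.inr ⟨e, he, Or.inr ⟨S, T, R, hS, hT, hR, rfl⟩⟩))
    simpa only [List.map_append, List.sum_append, sum_grp, iff_true, ← add_assoc] using this

/-- The weights of the standard network. -/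
noncomputable def wt (χ : V → Bool) : Co V → ℝ × ℝ
  | Sum.inl g => if g = 0 then (-4, 4) else (4, -4)
  | Sum.inr p => if χ p.1 = true then (-3, 100) else (100, -3)

theorem sum_wt (χ : V → Bool) (x : V) (S : Finset (Fin 13)) (hS : S.Nonempty) :
    ∃ n : ℝ, 1 ≤ n ∧ n ≤ 13 ∧ ((grp x (nums S)).map (wt χ)).sum =
      if χ x = true then (-3 * n, 100 * n) else (100 * n, -3 * n) := by
  refine ⟨S.card, by exact_mod_cast hS.card_pos, ?_, ?_⟩
  · have := S.card_le_univ
    rw [Fintype.card_fin] at this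
    exact_mod_cast this
  · rw [sum_grp]
    simp only [wt]
    split_ifs <;> ext <;> simp [mul_comm]

theorem al_of_hcol {E : List (V × V × V)} (h : HCol E) : AL (exs E) := by
  obtain ⟨χ, hχ⟩ := h
  refine ⟨wt χ, (2, 2), -3 / 2, 1, 1, fun d hd => ?_⟩
  have single : ∀ (x : V) (S : Finset (Fin 13)), S.Nonempty →
      (Reg (-3 / 2) 1 1 ((2, 2) + ((grp x (nums S)).map (wt χ)).sum) ↔ false = true) := by
    intro x S hS
    obtain ⟨n, h1, h2, h3⟩ := sum_wt χ x S hS
    rw [h3]
    simp only [Bool.false_eq_true, iff_false]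
    refine reg_neg ?_
    split_ifs
    · left; simp only [Prod.fst_add]; linarith
    · right; simp only [Prod.snd_add]; linarith
  rcases mem_exs.1 hd with hd | ⟨e, he, ⟨S, hS, rfl | rfl | rfl⟩ | ⟨S, T, R, hS, hT, hR, rfl⟩⟩
  · simp only [gad, List.mem_cons, List.not_mem_nil, or_false] at hd
    rcases hd with rfl | rfl | rfl | rfl | rfl | rfl | rfl
    · simp only [iff_true]; exact reg_pos (by simp) (by simp)
    · simp only [iff_true]; exact reg_pos (by simp [wt]) (by simp [wt])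
    · simp only [iff_true]; exact reg_pos (by simp [wt]) (by simp [wt])
    · simp only [Bool.false_eq_true, iff_false]; exact reg_neg (Or.inl (by simp [wt]; norm_num))
    · simp only [Bool.false_eq_true, iff_false]; exact reg_neg (Or.inr (by simp [wt]; norm_num))
    · simp only [Bool.false_eq_true, iff_false]; exact reg_neg (Or.inr (by simp [wt]; norm_num))
    · simp only [Bool.false_eq_true, iff_false]; exact reg_neg (Or.inr (by simp [wt]; norm_num))
  · exact single _ S hS
  · exact single _ S hS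
  · exact single _ S hS
  · obtain ⟨n1, a1, b1, e1⟩ := sum_wt χ e.1 S hS
    obtain ⟨n2, a2, b2, e2⟩ := sum_wt χ e.2.1 T hT
    obtain ⟨n3, a3, b3, e3⟩ := sum_wt χ e.2.2 R hR
    simp only [List.map_append, List.sum_append, iff_true]
    rw [e1, e2, e3]
    have hc := hχ e he
    revert hc
    cases χ e.1 <;> cases χ e.2.1 <;> cases χ e.2.2 <;> intro hc <;>
      first
        | exact absurd ⟨rfl, rfl⟩ hc
        | exact reg_pos (by simp; linarith) (by simp; linarith)

variable [DecidableEq V]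

/-- The instance of the loading problem attached to a list of triples. -/
noncomputable def inst (E : List (V × V × V)) : ℕ × List (List Bool × Bool) :=
  ((coords E).length, (exs E).map (fun e => (vec (coords E) e.1, e.2)))

theorem inst_correct {E : List (V × V × V)} (hE : Dist E) : HCol E ↔ Loading (inst E) := by
  unfold inst
  rw [loading_iff _ _ (by simp [coords]) (exs_nodup hE) exs_sub]
  exact ⟨al_of_hcol, hcol_of_al⟩

theorem inst_poly [TEnc V] : NPC.Poly (inst (V := V)) := by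
  have hgrp : ∀ {α : Type} [TEnc α] {x : α → V} {l : α → List ℕ}, NPC.Poly x → NPC.Poly l →
      NPC.Poly (fun a => grp (x a) (l a)) := by
    intro α _ x l hx hl
    exact NPC.Poly.map (F := fun a (i : ℕ) => (Sum.inr (x a, i) : Co V)) hl
      (NPC.Poly.inr (NPC.Poly.pair (hx.comp (NPC.Poly.fst NPC.Poly.id)) (NPC.Poly.snd NPC.Poly.id)))
  have hco : NPC.Poly (coords (V := V)) :=
    NPC.Poly.append (NPC.Poly.const _) (NPC.Poly.flatMap (F := fun _ (e : V × V × V) =>
      grp e.1 (List.range 13) ++ (grp e.2.1 (List.range 13) ++ grp e.2.2 (List.range 13))) NPC.Poly.id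
      (NPC.Poly.append (hgrp (NPC.Poly.fst (NPC.Poly.snd NPC.Poly.id)) (NPC.Poly.const _))
        (NPC.Poly.append (hgrp (NPC.Poly.fst (NPC.Poly.snd (NPC.Poly.snd NPC.Poly.id))) (NPC.Poly.const _))
          (hgrp (NPC.Poly.snd (NPC.Poly.snd (NPC.Poly.snd NPC.Poly.id))) (NPC.Poly.const _)))))
  have hedge : NPC.Poly (edgeEx (V := V)) := by
    refine NPC.Poly.append (NPC.Poly.flatMap (F := fun (e : V × V × V) (S : List ℕ) =>
      [(grp e.1 S, false), (grp e.2.1 S, false), (grp e.2.2 S, false)]) (NPC.Poly.const subs) ?_)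
      (NPC.Poly.map (F := fun (e : V × V × V) (t : List ℕ × List ℕ × List ℕ) =>
        (grp e.1 t.1 ++ (grp e.2.1 t.2.1 ++ grp e.2.2 t.2.2), true)) (NPC.Poly.const trips) ?_)
    · exact CL.pList3
        (NPC.Poly.pair (hgrp (NPC.Poly.fst (NPC.Poly.fst NPC.Poly.id)) (NPC.Poly.snd NPC.Poly.id)) (NPC.Poly.const false))
        (NPC.Poly.pair (hgrp (NPC.Poly.fst (NPC.Poly.snd (NPC.Poly.fst NPC.Poly.id))) (NPC.Poly.snd NPC.Poly.id))
          (NPC.Poly.const false))
        (NPC.Poly.pair (hgrp (NPC.Poly.snd (NPC.Poly.snd (NPC.Poly.fst NPC.Poly.id))) (NPC.Poly.snd NPC.Poly.id))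
          (NPC.Poly.const false))
    · exact NPC.Poly.pair (NPC.Poly.append
        (hgrp (NPC.Poly.fst (NPC.Poly.fst NPC.Poly.id)) (NPC.Poly.fst (NPC.Poly.snd NPC.Poly.id)))
        (NPC.Poly.append (hgrp (NPC.Poly.fst (NPC.Poly.snd (NPC.Poly.fst NPC.Poly.id)))
          (NPC.Poly.fst (NPC.Poly.snd (NPC.Poly.snd NPC.Poly.id))))
          (hgrp (NPC.Poly.snd (NPC.Poly.snd (NPC.Poly.fst NPC.Poly.id)))
            (NPC.Poly.snd (NPC.Poly.snd (NPC.Poly.snd NPC.Poly.id)))))) (NPC.Poly.const true)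
  have hex : NPC.Poly (exs (V := V)) :=
    NPC.Poly.append (NPC.Poly.const _) (NPC.Poly.flatMap (F := fun _ (e : V × V × V) => edgeEx e) NPC.Poly.id
      (hedge.comp (NPC.Poly.snd NPC.Poly.id)))
  have hvec : ∀ {α C : Type} [TEnc α] [TEnc C] [DecidableEq C] {L S : α → List C}, NPC.Poly L →
      NPC.Poly S → NPC.Poly (fun a => vec (L a) (S a)) := by
    intro α C _ _ _ L S hL hS
    exact NPC.Poly.map (F := fun a (c : C) => decide (c ∈ S a)) hL
      (NPC.Poly.decide_mem (NPC.Poly.snd NPC.Poly.id) (hS.comp (NPC.Poly.fst NPC.Poly.id)))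
  exact NPC.Poly.pair (NPC.Poly.length hco) (NPC.Poly.map (F := fun E (e : List (Co V) × Bool) =>
    (vec (coords E) e.1, e.2)) hex (NPC.Poly.pair (hvec (hco.comp (NPC.Poly.fst NPC.Poly.id))
      (NPC.Poly.fst (NPC.Poly.snd NPC.Poly.id))) (NPC.Poly.snd (NPC.Poly.snd NPC.Poly.id))))

end Red

end Pool.Agent.H164Z.Load
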