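import Mathlib

/-!
# The equation `Δ u + p(|x|) q(e^u) = 4 π N δ` in the plane: hypotheses and solutions
-/

namespace Pool.Agent.H164Z.Rad

open MeasureTheory Laplacian InnerProductSpace Filter Topology Set

/-- The Euclidean plane. -/
abbrev Plane : Type := EuclideanSpace ℝ (Fin 2)

/-- The integral of `f(t) g(-M t)` over `t > 0`, with values in `[0, ∞]`. -/
noncomputable def tailInt (f g : ℝ → ℝ) (M : ℝ) : ENNReal :=
  ∫⁻ t in Ioi (0 : ℝ), ENNReal.ofReal (f t * g (-M * t))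

/-- The primitive `G₀(u)`, the integral of `g` over `(-∞, u]`. -/
noncomputable def G0 (g : ℝ → ℝ) (u : ℝ) : ℝ := ∫ s in Iic u, g s

/-- The hypotheses (H1) to (H8). -/
structure Hyp (f g : ℝ → ℝ) : Prop where
  h1_f : ContDiff ℝ 1 f
  h1_g : ContDiff ℝ 1 g
  h1_int : IntegrableOn (fun t => |t * f t|) (Iic 0)
  h1_bdd : ∃ C : ℝ, ∀ u, |g u| + |deriv g u| ≤ C
  h2_pos : ∀ t, 0 < f t
  h2_top : Tendsto f atTop atTop
  h2_zero : g 0 = 0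
  h2_g : ∀ u < 0, 0 < g u
  h3 : ∀ t, 0 ≤ deriv f t
  h4 : ∃ M > 0, (∀ u < -M, 0 < deriv g u) ∧ tailInt f g M < ⊤
  h5_inf : tailInt f g (sInf {M | 0 < M ∧ tailInt f g M < ⊤}) = ⊤
  h5_ratio : ∀ c > 0, ∃ ε > 0, ∀ t > 0, ε ≤ f (t - c) / f t
  h6_int : ∀ u, IntegrableOn g (Iic u)
  h6_h7 : ∃ f₁ g₁ : ℝ, Tendsto (fun t => deriv f t / f t) atTop (𝓝 f₁) ∧
    Tendsto (fun u => G0 g u / g u) atBot (𝓝 g₁) ∧
    (∀ t, f₁ ≤ deriv f t / f t) ∧ ∀ u < 0, g₁ ≤ G0 g u / g u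
  h8 : ∃ δ > 0, ∀ u ∈ Icc (-δ) 0, deriv g u ≤ 0

/-- `u` solves `Δ u + p(|x|) q(e^u) = 4 π N δ` in the sense of distributions on the plane, is
locally integrable, and is smooth away from the origin. -/
structure IsSolution (N : ℝ) (p q : ℝ → ℝ) (u : Plane → ℝ) : Prop where
  locInt : LocallyIntegrable u
  smooth : ContDiffOn ℝ ((⊤ : ℕ∞) : WithTop ℕ∞) u {x | x ≠ 0}
  locInt_nonlin : LocallyIntegrable (fun x : Plane => p ‖x‖ * q (Real.exp (u x)))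
  distrib : ∀ φ : Plane → ℝ, ContDiff ℝ ((⊤ : ℕ∞) : WithTop ℕ∞) φ → HasCompactSupport φ →
    (∫ x, u x * Δ φ x) + (∫ x, p ‖x‖ * q (Real.exp (u x)) * φ x) = 4 * Real.pi * N * φ 0

end Pool.Agent.H164Z.Rad
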