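import Pool.Agent.H164Z.RadDefs

/-!
# A nonlinearity that equals `e^u` for `u ≤ -1` and satisfies the hypotheses
-/

namespace Pool.Agent.H164Z.Rad

open MeasureTheory Filter Topology Set Real

theorem hasDerivAt_ite {f₁ f₂ d₁ d₂ : ℝ → ℝ} {a : ℝ} (h₁ : ∀ x, HasDerivAt f₁ (d₁ x) x)
    (h₂ : ∀ x, HasDerivAt f₂ (d₂ x) x) (e : f₁ a = f₂ a) (e' : d₁ a = d₂ a) (x : ℝ) :
    HasDerivAt (fun x => if x ≤ a then f₁ x else f₂ x) (if x ≤ a then d₁ x else d₂ x) x := by
  rcases lt_trichotomy x a with h | h | h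
  · rw [if_pos h.le]
    refine (h₁ x).congr_of_eventuallyEq ?_
    filter_upwards [Iio_mem_nhds h] with y hy
    rw [if_pos (le_of_lt hy)]
  · subst h
    rw [if_pos le_rfl]
    have l : HasDerivWithinAt (fun y => if y ≤ x then f₁ y else f₂ y) (d₁ x) (Iic x) x :=
      (h₁ x).hasDerivWithinAt.congr (fun y hy => if_pos hy) (if_pos le_rfl)
    have r : HasDerivWithinAt (fun y => if y ≤ x then f₁ y else f₂ y) (d₁ x) (Ici x) x := by
      rw [e']
      refine (h₂ x).hasDerivWithinAt.congr (fun y hy => ?_) (by rw [if_pos le_rfl, e])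
      rcases eq_or_lt_of_le (show x ≤ y from hy) with h | h
      · subst h; rw [if_pos le_rfl, e]
      · rw [if_neg (not_le.2 h)]
    have := l.union r
    rwa [Iic_union_Ici, hasDerivWithinAt_univ] at this
  · rw [if_neg (not_le.2 h)]
    refine (h₂ x).congr_of_eventuallyEq ?_
    filter_upwards [Ioi_mem_nhds h] with y hy
    rw [if_neg (not_le.2 hy)]

/-- The right branch. -/
noncomputable def rr (u : ℝ) : ℝ := exp (-1) * ((1 + (u + 1) - 2 * (u + 1) ^ 2) / (1 + (u + 1) ^ 2))

/-- Its derivative. -/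
noncomputable def rd (u : ℝ) : ℝ :=
  exp (-1) * ((1 - 6 * (u + 1) - (u + 1) ^ 2) / (1 + (u + 1) ^ 2) ^ 2)

theorem hasDerivAt_rr (u : ℝ) : HasDerivAt rr (rd u) u := by
  have h1 : HasDerivAt (fun u : ℝ => u + 1) 1 u := (hasDerivAt_id u).add_const 1
  have h2 := (((h1.const_add 1).sub ((h1.pow 2).const_mul 2)).div ((h1.pow 2).const_add 1)
    (show (1 : ℝ) + (u + 1) ^ 2 ≠ 0 by positivity)).const_mul (exp (-1))
  refine h2.congr_deriv ?_
  unfold rd
  congr 1
  simp only [Pi.sub_apply, Pi.pow_apply]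
  congr 1
  norm_num
  ring

/-- The nonlinearity. -/
noncomputable def gg (u : ℝ) : ℝ := if u ≤ -1 then exp u else rr u

/-- Its derivative. -/
noncomputable def gd (u : ℝ) : ℝ := if u ≤ -1 then exp u else rd u

theorem hasDerivAt_gg (u : ℝ) : HasDerivAt gg (gd u) u :=
  hasDerivAt_ite (a := -1) hasDerivAt_exp hasDerivAt_rr (by simp [rr]) (by simp [rd]) u

theorem deriv_gg : deriv gg = gd := funext fun u => (hasDerivAt_gg u).deriv

theorem continuous_gd : Continuous gd := by
  have : Continuous rd := by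
    unfold rd
    refine continuous_const.mul (Continuous.div (by fun_prop) (by fun_prop) fun u => ?_)
    positivity
  refine Continuous.if_le continuous_exp this continuous_id continuous_const ?_
  rintro x rfl
  simp [rd]

theorem contDiff_gg : ContDiff ℝ 1 gg := by
  rw [contDiff_one_iff_deriv, deriv_gg]
  exact ⟨fun u => (hasDerivAt_gg u).differentiableAt, continuous_gd⟩

theorem gg_of_le {u : ℝ} (h : u ≤ -1) : gg u = exp u := if_pos h

theorem gd_of_le {u : ℝ} (h : u ≤ -1) : gd u = exp u := if_pos h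

theorem gg_bdd (u : ℝ) : |gg u| + |gd u| ≤ 10 := by
  have e1 : exp (-1 : ℝ) ≤ 1 := exp_le_one_iff.2 (by norm_num)
  have e0 : 0 < exp (-1 : ℝ) := exp_pos _
  unfold gg gd
  split_ifs with h
  · have : exp u ≤ 1 := exp_le_one_iff.2 (by linarith)
    rw [abs_of_pos (exp_pos u)]
    linarith
  · unfold rr rd
    generalize u + 1 = t
    have h1 : |(1 + t - 2 * t ^ 2) / (1 + t ^ 2)| ≤ 3 := by
      rw [abs_div, abs_of_pos (show (0 : ℝ) < 1 + t ^ 2 by positivity),
        div_le_iff₀ (by positivity), abs_le]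
      constructor <;> nlinarith [sq_nonneg (t - 1), sq_nonneg (t + 1), sq_nonneg t]
    have h2 : |(1 - 6 * t - t ^ 2) / (1 + t ^ 2) ^ 2| ≤ 7 := by
      rw [abs_div, abs_of_pos (show (0 : ℝ) < (1 + t ^ 2) ^ 2 by positivity),
        div_le_iff₀ (by positivity), abs_le]
      constructor <;> nlinarith [sq_nonneg (t - 1), sq_nonneg (t + 1), sq_nonneg t,
        sq_nonneg (t ^ 2)]
    rw [abs_mul, abs_mul, abs_of_pos e0]
    nlinarith [abs_nonneg ((1 + t - 2 * t ^ 2) / (1 + t ^ 2)),
      abs_nonneg ((1 - 6 * t - t ^ 2) / (1 + t ^ 2) ^ 2)]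

theorem gg_zero : gg 0 = 0 := by
  unfold gg rr
  norm_num

theorem gg_pos {u : ℝ} (h : u < 0) : 0 < gg u := by
  unfold gg
  split_ifs with h1
  · exact exp_pos u
  · unfold rr
    refine mul_pos (exp_pos _) (div_pos ?_ (by positivity))
    push Not at h1
    nlinarith

theorem gg_le_exp (u : ℝ) : gg u ≤ exp u := by
  unfold gg
  split_ifs with h1
  · exact le_rfl
  · unfold rr
    push Not at h1
    have h2 : (1 + (u + 1) - 2 * (u + 1) ^ 2) / (1 + (u + 1) ^ 2) ≤ exp (u + 1) := by
      rw [div_le_iff₀ (by positivity)]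
      have := add_one_le_exp (u + 1)
      nlinarith [sq_nonneg (u + 1), exp_pos (u + 1)]
    calc _ ≤ exp (-1) * exp (u + 1) := mul_le_mul_of_nonneg_left h2 (exp_pos _).le
      _ = exp u := by rw [← exp_add]; ring_nf

theorem gd_le_gg {u : ℝ} (h : u ≤ 0) : gd u ≤ gg u := by
  unfold gg gd
  split_ifs with h1
  · exact le_rfl
  · unfold rr rd
    push Not at h1
    refine mul_le_mul_of_nonneg_left ?_ (exp_pos _).le
    have h2 : 0 ≤ u + 1 := by linarith
    have h3 : u + 1 ≤ 1 := by linarith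
    generalize u + 1 = t at h2 h3
    rw [div_le_div_iff₀ (by positivity) (by positivity)]
    have h4 : 1 - 6 * t - t ^ 2 ≤ (1 + t - 2 * t ^ 2) * (1 + t ^ 2) := by
      have : t ^ 4 ≤ t := by
        calc t ^ 4 ≤ t ^ 1 := pow_le_pow_of_le_one h2 h3 (by norm_num)
          _ = t := pow_one t
      nlinarith [pow_nonneg h2 3]
    have h5 : (0 : ℝ) ≤ 1 + t ^ 2 := by positivity
    nlinarith [mul_le_mul_of_nonneg_right h4 h5]

theorem gd_nonpos {u : ℝ} (h : -(1 / 2) ≤ u) : gd u ≤ 0 := by
  unfold gd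
  rw [if_neg (by linarith)]
  unfold rd
  refine mul_nonpos_of_nonneg_of_nonpos (exp_pos _).le (div_nonpos_of_nonpos_of_nonneg ?_
    (by positivity))
  nlinarith

theorem integrableOn_of_exp {h : ℝ → ℝ} (hc : Continuous h) (he : ∀ u ≤ -1, h u = exp u) (u : ℝ) :
    IntegrableOn h (Iic u) := by
  have h1 : IntegrableOn h (Iic (-1)) :=
    (integrableOn_exp_Iic (-1)).congr_fun (fun x hx => (he x hx).symm) measurableSet_Iic
  have h2 : IntegrableOn h (Icc (-1) u) := hc.integrableOn_Icc
  refine (h1.union h2).mono_set fun x hx => ?_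
  rcases le_total x (-1) with h | h
  · exact Or.inl h
  · exact Or.inr ⟨h, hx⟩

theorem integrableOn_gg (u : ℝ) : IntegrableOn gg (Iic u) :=
  integrableOn_of_exp contDiff_gg.continuous (fun _ h => gg_of_le h) u

theorem G0_of_le {u : ℝ} (h : u ≤ -1) : G0 gg u = exp u := by
  unfold G0
  rw [setIntegral_congr_fun measurableSet_Iic (g := exp) (fun x hx => gg_of_le (le_trans hx h)),
    integral_exp_Iic]

theorem gg_le_G0 {u : ℝ} (h : u ≤ 0) : gg u ≤ G0 gg u := by
  have hi : IntegrableOn gd (Iic u) := integrableOn_of_exp continuous_gd (fun _ h => gd_of_le h) u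
  have ht : Tendsto gg atBot (𝓝 0) := by
    refine tendsto_exp_atBot.congr' ?_
    filter_upwards [eventually_le_atBot (-1 : ℝ)] with x hx
    exact (gg_of_le hx).symm
  have := integral_Iic_of_hasDerivAt_of_tendsto' (fun x _ => hasDerivAt_gg x) hi ht
  rw [sub_zero] at this
  rw [← this]
  exact setIntegral_mono_on hi (integrableOn_gg u) measurableSet_Iic
    (fun x hx => gd_le_gg (le_trans hx h))

theorem tail_lt {A b M : ℝ} (hA : 0 < A) (hM : b < M) :
    tailInt (fun t => A * exp (b * t)) gg M < ⊤ := by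
  unfold tailInt
  have hi : IntegrableOn (fun t => A * exp ((b - M) * t)) (Ioi (0 : ℝ)) :=
    (integrableOn_exp_mul_Ioi (by linarith) 0).const_mul A
  refine lt_of_le_of_lt (lintegral_mono fun t => ?_) hi.lintegral_lt_top
  refine ENNReal.ofReal_le_ofReal ?_
  calc A * exp (b * t) * gg (-M * t) ≤ A * exp (b * t) * exp (-M * t) :=
        mul_le_mul_of_nonneg_left (gg_le_exp _) (by positivity)
    _ = A * exp ((b - M) * t) := by rw [mul_assoc, ← exp_add]; ring_nf

theorem tail_top {A b M : ℝ} (hA : 0 < A) (h0 : 0 < M) (hM : M ≤ b) :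
    tailInt (fun t => A * exp (b * t)) gg M = ⊤ := by
  unfold tailInt
  rw [eq_top_iff]
  have hsub : Ioi (1 / M) ⊆ Ioi (0 : ℝ) := Ioi_subset_Ioi (by positivity)
  refine le_trans ?_ (lintegral_mono_set hsub)
  have : ∫⁻ _ in Ioi (1 / M), ENNReal.ofReal A = ⊤ := by
    rw [setLIntegral_const, Real.volume_Ioi, ENNReal.mul_top]
    exact (ENNReal.ofReal_pos.2 hA).ne'
  rw [← this]
  refine setLIntegral_mono' measurableSet_Ioi fun t ht => ENNReal.ofReal_le_ofReal ?_
  have ht' : 1 / M < t := ht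
  rw [div_lt_iff₀ h0] at ht'
  have tpos : 0 < t := by
    by_contra hc
    push Not at hc
    nlinarith
  rw [gg_of_le (by linarith), mul_assoc, ← exp_add]
  have : 1 ≤ exp (b * t + -M * t) := one_le_exp (by nlinarith)
  nlinarith

theorem hyp_exp {A b : ℝ} (hA : 0 < A) (hb : 2 ≤ b) : Hyp (fun t => A * exp (b * t)) gg := by
  have hd : ∀ t, HasDerivAt (fun t => A * exp (b * t)) (A * exp (b * t) * b) t := by
    intro t
    have := (((hasDerivAt_id t).const_mul b).exp).const_mul A
    refine this.congr_deriv ?_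
    simp only [id]
    ring
  have hderiv : ∀ t, deriv (fun t => A * exp (b * t)) t = A * exp (b * t) * b :=
    fun t => (hd t).deriv
  have hratio : ∀ t, deriv (fun t => A * exp (b * t)) t / (A * exp (b * t)) = b := by
    intro t
    rw [hderiv]
    have := exp_pos (b * t)
    field_simp
  refine ⟨by fun_prop, contDiff_gg, ?_, ⟨10, fun u => by rw [deriv_gg]; exact gg_bdd u⟩,
    fun t => by positivity, ?_, gg_zero, fun u hu => gg_pos hu,
    fun t => by rw [hderiv]; positivity, ⟨b + 1, by linarith, fun u hu => ?_,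
      tail_lt hA (by linarith)⟩, ?_, fun c hc => ⟨exp (-(b * c)), exp_pos _, fun t _ => ?_⟩,
    integrableOn_gg, ⟨b, 1, ?_, ?_, fun t => (hratio t).ge, fun u hu => ?_⟩,
    ⟨1 / 2, by norm_num, fun u hu => by rw [deriv_gg]; exact gd_nonpos hu.1⟩⟩
  · refine Integrable.mono' ((integrableOn_exp_Iic 0).const_mul A)
      (Continuous.aestronglyMeasurable (by fun_prop)) ?_
    rw [ae_restrict_iff' measurableSet_Iic]
    refine Eventually.of_forall fun t (ht : t ≤ 0) => ?_
    rw [Real.norm_eq_abs, abs_abs, abs_mul, abs_of_nonpos ht, abs_of_pos (by positivity)]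
    have h1 : -t ≤ exp (-t) := by linarith [add_one_le_exp (-t)]
    have h2 : exp (-t) * exp (b * t) ≤ exp t := by
      rw [← exp_add]
      exact exp_le_exp.2 (by nlinarith)
    have h3 := mul_le_mul_of_nonneg_right h1 (exp_pos (b * t)).le
    nlinarith
  · exact (tendsto_exp_atTop.comp (tendsto_id.const_mul_atTop (by linarith))).const_mul_atTop hA
  · rw [deriv_gg, gd_of_le (by linarith)]
    exact exp_pos u
  · have : {M | 0 < M ∧ tailInt (fun t => A * exp (b * t)) gg M < ⊤} = Ioi b := by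
      ext M
      constructor
      · rintro ⟨h0, h1⟩
        by_contra hc
        exact h1.ne (tail_top hA h0 (not_lt.1 hc))
      · intro h
        have h' : b < M := h
        exact ⟨by linarith, tail_lt hA h'⟩
    rw [this, csInf_Ioi]
    exact tail_top hA (by linarith) le_rfl
  · have := exp_pos (b * t)
    rw [le_div_iff₀ (by positivity), show b * (t - c) = -(b * c) + b * t by ring, exp_add]
    exact le_of_eq (by ring)
  · simp only [hratio]
    exact tendsto_const_nhds
  · refine tendsto_const_nhds.congr' ?_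
    filter_upwards [eventually_le_atBot (-1 : ℝ)] with x hx
    rw [G0_of_le hx, gg_of_le hx, div_self (exp_pos x).ne']
  · rw [le_div_iff₀ (gg_pos hu), one_mul]
    exact gg_le_G0 hu.le

end Pool.Agent.H164Z.Rad
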