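import Pool.Agent.H164Z.RadHyp
import Pool.Agent.H314.CS.Holo
import Pool.Agent.H314.CS.Dist

/-!
# Non-radial negative solutions from Liouville's formula
-/

namespace Pool.Agent.H164Z.Rad

open MeasureTheory Laplacian InnerProductSpace Filter Topology Set Real
open Pool.Agent.H314.Dir Pool.Agent.H314.CS

theorem lapl_eq_lap (f : Eu 2 → ℝ) (x : Eu 2) : Δ f x = lap f x := by
  rw [laplacian_eq_iteratedFDeriv_orthonormalBasis f (EuclideanSpace.basisFun (Fin 2) ℝ)]
  unfold lap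
  refine Finset.sum_congr rfl fun i _ => ?_
  congr 1
  funext j
  fin_cases j <;> simp

theorem norm_cz (x : Eu 2) : ‖cz x‖ = ‖x‖ := by
  rw [EuclideanSpace.norm_eq, Fin.sum_univ_two, Complex.norm_eq_sqrt_sq_add_sq]
  simp [cz]

/-- The squared modulus of `z^(m+1) - 1`. -/
noncomputable def RR (m : ℕ) (x : Eu 2) : ℝ := Complex.normSq ((cz x) ^ (m + 1) - 1)

theorem RR_nonneg (m : ℕ) (x : Eu 2) : 0 ≤ RR m x := Complex.normSq_nonneg _

theorem contDiff_RR (m : ℕ) {n : WithTop ℕ∞} : ContDiff ℝ n (RR m) := by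
  have h0 : ∀ i : Fin 2, ContDiff ℝ n (fun x : Eu 2 => x i) := fun i =>
    (EuclideanSpace.proj (𝕜 := ℝ) i : Eu 2 →L[ℝ] ℝ).contDiff
  have hcz : ContDiff ℝ n (fun x : Eu 2 => cz x) := by
    have e : (fun x : Eu 2 => cz x) =
        fun x : Eu 2 => Complex.ofRealCLM (x 0) + Complex.ofRealCLM (x 1) * Complex.I := by
      funext x
      apply Complex.ext <;> simp [cz]
    rw [e]
    exact (Complex.ofRealCLM.contDiff.comp (h0 0)).add
      ((Complex.ofRealCLM.contDiff.comp (h0 1)).mul contDiff_const)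
  have h1 : ContDiff ℝ n (fun x : Eu 2 => (cz x) ^ (m + 1) - 1) :=
    (hcz.pow (m + 1)).sub contDiff_const
  have hre : ContDiff ℝ n (fun x : Eu 2 => ((cz x) ^ (m + 1) - 1).re) :=
    Complex.reCLM.contDiff.comp h1
  have him : ContDiff ℝ n (fun x : Eu 2 => ((cz x) ^ (m + 1) - 1).im) :=
    Complex.imCLM.contDiff.comp h1
  have e : RR m = fun x : Eu 2 => ((cz x) ^ (m + 1) - 1).re * ((cz x) ^ (m + 1) - 1).re +
      ((cz x) ^ (m + 1) - 1).im * ((cz x) ^ (m + 1) - 1).im := by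
    funext x
    rw [RR, Complex.normSq_apply]
  rw [e]
  exact (hre.mul hre).add (him.mul him)

/-- The smooth part of the solution. -/
noncomputable def WW (m : ℕ) (c : ℝ) (x : Eu 2) : ℝ := c - 2 * log (1 + RR m x)

theorem contDiff_WW (m : ℕ) (c : ℝ) {n : WithTop ℕ∞} : ContDiff ℝ n (WW m c) := by
  unfold WW
  refine contDiff_const.sub (contDiff_const.mul ((contDiff_const.add (contDiff_RR m)).log ?_))
  intro x
  have := RR_nonneg m x
  positivity

theorem lap_WW (m : ℕ) (c : ℝ) (x : Eu 2) :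
    Δ (WW m c) x = -(8 * ((m : ℝ) + 1) ^ 2 * ‖x‖ ^ (2 * m) / (1 + RR m x) ^ 2) := by
  rw [lapl_eq_lap]
  have hR := RR_nonneg m x
  have hF : ∀ z : ℂ, HasDerivAt (fun z : ℂ => z ^ (m + 1) - 1) (((m + 1 : ℕ) : ℂ) * z ^ m) z := by
    intro z
    simpa using (hasDerivAt_pow (m + 1) z).sub_const 1
  have hF' : ∀ z : ℂ, HasDerivAt (fun z : ℂ => ((m + 1 : ℕ) : ℂ) * z ^ m)
      (((m + 1 : ℕ) : ℂ) * ((m : ℂ) * z ^ (m - 1))) z := fun z =>
    (hasDerivAt_pow m z).const_mul _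
  have hg : ∀ r : ℝ, -1 < r → HasDerivAt (fun r : ℝ => c - 2 * log (1 + r)) (-2 / (1 + r)) r := by
    intro r hr
    have := ((((hasDerivAt_id r).const_add 1).log
      (show 1 + id r ≠ 0 by simp only [id]; linarith)).const_mul 2).const_sub c
    refine this.congr_deriv ?_
    simp only [id]
    ring
  have hg' : HasDerivAt (fun r : ℝ => -2 / (1 + r)) (2 / (1 + RR m x) ^ 2) (RR m x) := by
    have := (hasDerivAt_const (RR m x) (-2 : ℝ)).div ((hasDerivAt_id (RR m x)).const_add 1)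
      (show 1 + id (RR m x) ≠ 0 by simp only [id]; linarith)
    refine this.congr_deriv ?_
    simp only [id]
    ring
  have key := lap_holo hF hF' (g := fun r : ℝ => c - 2 * log (1 + r)) (g' := fun r => -2 / (1 + r))
    (g'' := fun r => 2 / (1 + r) ^ 2) x
    (by
      filter_upwards [Ioi_mem_nhds (show (-1 : ℝ) < RR m x by linarith)] with r hr
      exact hg r hr) hg' (contDiff_WW m c).contDiffAt
  have e : lap (WW m c) x = _ := key
  rw [e]
  have hn : Complex.normSq (((m + 1 : ℕ) : ℂ) * (cz x) ^ m) = ((m : ℝ) + 1) ^ 2 * ‖x‖ ^ (2 * m) := by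
    rw [Complex.normSq_eq_norm_sq, norm_mul, norm_pow, norm_cz, Complex.norm_natCast, mul_pow,
      ← pow_mul, mul_comm m 2]
    push_cast
    ring
  rw [hn]
  change 4 * (((m : ℝ) + 1) ^ 2 * ‖x‖ ^ (2 * m)) * (-2 / (1 + RR m x) + RR m x *
    (2 / (1 + RR m x) ^ 2)) = _
  field_simp
  ring

/-- The solution. -/
noncomputable def uu (N : ℝ) (m : ℕ) (c : ℝ) (x : Eu 2) : ℝ := 2 * N * log ‖x‖ + WW m c x

theorem exp_uu (N : ℝ) (m : ℕ) (c : ℝ) {x : Eu 2} (hx : x ≠ 0) :
    exp (uu N m c x) = ‖x‖ ^ (2 * N) * exp c / (1 + RR m x) ^ 2 := by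
  have hR := RR_nonneg m x
  have hn : 0 < ‖x‖ := norm_pos_iff.2 hx
  unfold uu WW
  rw [exp_add, exp_sub, rpow_def_of_pos hn, mul_comm (log ‖x‖),
    show 2 * log (1 + RR m x) = log (1 + RR m x) + log (1 + RR m x) by ring, exp_add,
    exp_log (by positivity)]
  ring

theorem ratio_le {N : ℝ} {m : ℕ} (h0 : 0 ≤ N) (hN : N ≤ m) (x : Eu 2) :
    ‖x‖ ^ (2 * N) / (1 + RR m x) ^ 2 ≤ 4 ^ m := by
  have hR := RR_nonneg m x
  have h4 : (1 : ℝ) ≤ 4 ^ m := one_le_pow₀ (by norm_num)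
  rw [div_le_iff₀ (by positivity)]
  rcases le_total ‖x‖ 2 with h | h
  · have h1 : ‖x‖ ^ (2 * N) ≤ 2 ^ (2 * N) := rpow_le_rpow (norm_nonneg _) h (by linarith)
    have h2 : (2 : ℝ) ^ (2 * N) ≤ 2 ^ (((2 * m : ℕ) : ℝ)) :=
      rpow_le_rpow_of_exponent_le (by norm_num) (by push_cast; linarith)
    rw [rpow_natCast, pow_mul] at h2
    have h3 : (1 : ℝ) ≤ (1 + RR m x) ^ 2 := one_le_pow₀ (by linarith)
    norm_num at h2
    nlinarith
  · have h1 : ‖x‖ ^ (2 * N) ≤ ‖x‖ ^ (((2 * m : ℕ) : ℝ)) :=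
      rpow_le_rpow_of_exponent_le (by linarith) (by push_cast; linarith)
    rw [rpow_natCast, mul_comm 2 m, pow_mul] at h1
    have h2 : ‖x‖ ^ (m + 1) - 1 ≤ ‖(cz x) ^ (m + 1) - 1‖ := by
      have := norm_sub_norm_le ((cz x) ^ (m + 1)) 1
      rwa [norm_pow, norm_cz, norm_one] at this
    have h5 : (1 : ℝ) ≤ ‖x‖ ^ m := one_le_pow₀ (by linarith)
    have h6 : ‖x‖ ^ m ≤ ‖(cz x) ^ (m + 1) - 1‖ := by
      rw [pow_succ] at h2
      nlinarith
    have h7 : (‖x‖ ^ m) ^ 2 ≤ RR m x := by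
      unfold RR
      rw [Complex.normSq_eq_norm_sq]
      exact pow_le_pow_left₀ (by linarith) h6 2
    have h8 : RR m x ≤ (1 + RR m x) ^ 2 := by nlinarith
    have h9 : (0 : ℝ) ≤ (1 + RR m x) ^ 2 := by positivity
    nlinarith

theorem main (N : ℝ) (hN : 0 ≤ N) : ∃ p q : ℝ → ℝ,
    Hyp (fun t => exp (2 * t) * p (exp t)) (fun u => q (exp u)) ∧
    ∃ u : Plane → ℝ, IsSolution N p q u ∧ (∀ x, x ≠ 0 → u x < 0) ∧
      ∃ x y : Plane, x ≠ 0 ∧ ‖x‖ = ‖y‖ ∧ u x ≠ u y := by
  obtain ⟨m, hm⟩ := exists_nat_gt N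
  set K : ℝ := 8 * ((m : ℝ) + 1) ^ 2 with hK
  have hK0 : 0 < K := by positivity
  set A : ℝ := K * 4 ^ m * exp 1 with hA
  have hA0 : 0 < A := by positivity
  set c : ℝ := log (K / A) with hc
  have hec : exp c = K / A := exp_log (by positivity)
  have hle : ∀ x : Eu 2, x ≠ 0 → uu N m c x ≤ -1 := by
    intro x hx
    rw [← exp_le_exp, exp_uu N m c hx, hec, mul_div_right_comm]
    have h1 := ratio_le hN hm.le x
    have h2 : K / A = exp (-1) / 4 ^ m := by
      rw [hA, exp_neg]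
      field_simp
    rw [h2]
    calc _ ≤ 4 ^ m * (exp (-1) / 4 ^ m) := mul_le_mul_of_nonneg_right h1 (by positivity)
      _ = exp (-1) := by field_simp
  have hnl : ∀ x : Eu 2, x ≠ 0 → A * ‖x‖ ^ (2 * (m - N)) * gg (log (exp (uu N m c x))) =
      -Δ (WW m c) x := by
    intro x hx
    have hn : 0 < ‖x‖ := norm_pos_iff.2 hx
    have hR := RR_nonneg m x
    rw [log_exp, gg_of_le (hle x hx), exp_uu N m c hx, hec, lap_WW, neg_neg]
    have : ‖x‖ ^ (2 * m) = ‖x‖ ^ (2 * ((m : ℝ) - N)) * ‖x‖ ^ (2 * N) := by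
      rw [← rpow_add hn, ← rpow_natCast]
      congr 1
      push_cast
      ring
    rw [this, ← hK]
    field_simp
  have hae : ∀ᵐ x : Eu 2, x ≠ 0 := by
    rw [ae_iff]
    simp
  have hW2 : ContDiff ℝ 2 (WW m c) := contDiff_WW m c
  refine ⟨fun r => A * r ^ (2 * (m - N)), fun s => gg (log s), ?_, uu N m c, ⟨?_, ?_, ?_, ?_⟩,
    fun x hx => by linarith [hle x hx], ?_⟩
  · have e1 : (fun t => exp (2 * t) * (A * exp t ^ (2 * ((m : ℝ) - N)))) =
        fun t => A * exp ((2 + 2 * ((m : ℝ) - N)) * t) := by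
      funext t
      rw [← exp_mul, show (2 + 2 * ((m : ℝ) - N)) * t = 2 * t + t * (2 * ((m : ℝ) - N)) by ring,
        exp_add]
      ring
    have e2 : (fun u => gg (log (exp u))) = gg := by
      funext u
      rw [log_exp]
    rw [e1, e2]
    exact hyp_exp hA0 (by linarith)
  · have h1 : LocallyIntegrable (fun x : Eu 2 => 2 * N * log ‖x‖) := by
      have := (locInt_log (0 : Eu 2)).smul (2 * N)
      simp only [sub_zero] at this
      exact this
    exact h1.add hW2.continuous.locallyIntegrable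
  · intro x hx
    refine ContDiffAt.contDiffWithinAt ?_
    exact (contDiffAt_const.mul ((contDiffAt_id.norm ℝ hx).log (norm_ne_zero_iff.2 hx))).add
      (contDiff_WW m c).contDiffAt
  · have h1 : LocallyIntegrable (fun x : Eu 2 => -Δ (WW m c) x) :=
      (LL.continuous_laplacian hW2).neg.locallyIntegrable
    refine h1.congr ?_
    filter_upwards [hae] with x hx
    exact (hnl x hx).symm
  · intro φ hφ hs
    have hφ2 : ContDiff ℝ 2 φ := by exact_mod_cast contDiff_infty.1 hφ 2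
    have h1 := dist_identity (N := 1) (fun _ => (0 : Eu 2)) (fun _ => 2 * N) (WW m c) φ hW2 hφ2 hs
    simp only [Finset.univ_unique, Finset.sum_singleton, sub_zero] at h1
    have h2 : ∫ x, A * ‖x‖ ^ (2 * (m - N)) * gg (log (exp (uu N m c x))) * φ x =
        -∫ x, Δ (WW m c) x * φ x := by
      rw [← integral_neg]
      refine integral_congr_ae ?_
      filter_upwards [hae] with x hx
      rw [hnl x hx]
      ring
    rw [h2]
    unfold uu
    rw [h1]
    ring
  · set θ : ℝ := π / ((m : ℝ) + 1) with hθ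
    let x : Eu 2 := !₂[1, 0]
    let y : Eu 2 := !₂[cos θ, sin θ]
    have hx : cz x = 1 := by apply Complex.ext <;> simp [cz, x]
    have hy : cz y = Complex.exp (θ * Complex.I) := by
      apply Complex.ext
      · simp [cz, y, Complex.exp_ofReal_mul_I_re]
      · simp [cz, y, Complex.exp_ofReal_mul_I_im]
    have nx : ‖x‖ = 1 := by rw [← norm_cz, hx, norm_one]
    have ny : ‖y‖ = 1 := by rw [← norm_cz, hy, Complex.norm_exp_ofReal_mul_I]
    have Rx : RR m x = 0 := by simp [RR, hx]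
    have Ry : RR m y = 4 := by
      unfold RR
      rw [hy, ← Complex.exp_nat_mul]
      have : ((m + 1 : ℕ) : ℂ) * ((θ : ℂ) * Complex.I) = π * Complex.I := by
        rw [hθ]
        push_cast
        have : ((m : ℂ) + 1) ≠ 0 := by exact_mod_cast Nat.succ_ne_zero m
        field_simp
      rw [this, Complex.exp_pi_mul_I, Complex.normSq_apply]
      norm_num
    refine ⟨x, y, fun h => by rw [h, norm_zero] at nx; exact zero_ne_one nx, by rw [nx, ny], ?_⟩
    unfold uu WW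
    rw [nx, ny, Rx, Ry]
    have : 0 < log (1 + 4 : ℝ) := log_pos (by norm_num)
    simp only [add_zero, log_one, mul_zero, zero_add, sub_zero]
    intro h
    linarith

end Pool.Agent.H164Z.Rad
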