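import Pool.Agent.H164Z.SpanSem

/-!
# Tree 3-spanners of chordal graphs: the algorithm
-/

namespace Pool.Agent.H164Z.Span

variable {α β γ : Type}

open Classical in
/-- Equality test. -/
noncomputable def eqb (x y : β) : Bool := decide (x = y)

@[simp] theorem eqb_iff {x y : β} : eqb x y = true ↔ x = y := by simp [eqb]

@[simp] theorem eqb_false {x y : β} : eqb x y = false ↔ x ≠ y := by simp [eqb]

/-- Membership test. -/
noncomputable def memb (x : β) (l : List β) : Bool := l.any (fun y => eqb x y)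

@[simp] theorem memb_iff {x : β} {l : List β} : memb x l = true ↔ x ∈ l := by simp [memb]

@[simp] theorem memb_false {x : β} {l : List β} : memb x l = false ↔ x ∉ l := by
  rw [← memb_iff, Bool.not_eq_true]

/-- Entries of the tables: two centres and an implication. -/
abbrev Q4 (α : Type) : Type := α × α × Node α × Node α

/-- A record: separator, component, table. -/
abbrev Rec (α : Type) : Type := List α × List α × List (Q4 α)

/-- All nodes. -/
def nodes (vs : List α) : List (Node α) := Sum.inr false :: Sum.inr true :: vs.map Sum.inl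

/-- Product of lists. -/
def prd (l : List β) (l' : List γ) : List (β × γ) := l.flatMap (fun x => l'.map (fun y => (x, y)))

@[simp] theorem mem_prd {l : List β} {l' : List γ} {x : β} {y : γ} :
    (x, y) ∈ prd l l' ↔ x ∈ l ∧ y ∈ l' := by
  simp [prd]

/-- All pairs of vertices. -/
def U2 (vs : List α) : List (α × α) := prd vs vs

/-- All entries. -/
def U4 (vs : List α) : List (Q4 α) := prd vs (prd vs (prd (nodes vs) (nodes vs)))

@[simp] theorem mem_U2 {vs : List α} {x y : α} : (x, y) ∈ U2 vs ↔ x ∈ vs ∧ y ∈ vs := mem_prd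

@[simp] theorem mem_U4 {vs : List α} {x y : α} {u v : Node α} :
    (x, y, u, v) ∈ U4 vs ↔ x ∈ vs ∧ y ∈ vs ∧ u ∈ nodes vs ∧ v ∈ nodes vs := by
  simp [U4]

@[simp] theorem inr_mem_nodes {vs : List α} {b : Bool} : Sum.inr b ∈ nodes vs := by
  cases b <;> simp [nodes]

@[simp] theorem inl_mem_nodes {vs : List α} {x : α} : Sum.inl x ∈ nodes vs ↔ x ∈ vs := by
  simp [nodes]

/-- The remaining neighbours. -/
noncomputable def fS (E : List (α × α)) (R : List α) (h : α) : List α :=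
  R.filter (fun v => memb (h, v) E)

/-- The records attached to `h`. -/
noncomputable def fCh (A : List (Rec α)) (h : α) : List (Rec α) := A.filter (fun r => memb h r.1)

/-- The new component. -/
noncomputable def fC (vs : List α) (ch : List (Rec α)) (h : α) : List α :=
  vs.filter (fun v => eqb v h || ch.any (fun r => memb v r.2.1))

/-- The union of the tables and the local constraints. -/
noncomputable def fD0 (vs : List α) (E : List (α × α)) (ch : List (Rec α)) (h : α) : List (Q4 α) :=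
  (U4 vs).filter (fun t => ch.any (fun r => memb t r.2.2) || (!eqb h t.1 && !eqb h t.2.1 &&
    ((eqb t.2.2 (Sum.inr true, Sum.inl h) && !memb (h, t.1) E) ||
      (eqb t.2.2 (Sum.inl h, Sum.inr false) && !memb (h, t.2.1) E))))

/-- Elimination of `h`. -/
noncomputable def fD1 (vs : List α) (D : List (Q4 α)) (h : α) : List (Q4 α) :=
  (U4 vs).filter (fun t => !eqb t.2.2.1 (Sum.inl h) && !eqb t.2.2.2 (Sum.inl h) &&
    (memb t D || (memb (t.1, t.2.1, t.2.2.1, Sum.inl h) D &&
      memb (t.1, t.2.1, Sum.inl h, t.2.2.2) D)))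

/-- The pairs for which the constant assignment satisfies the table. -/
noncomputable def fM0 (vs : List α) (D : List (Q4 α)) : List (α × α) :=
  (U2 vs).filter (fun x => (nodes vs).all (fun v =>
    !memb (x.1, x.2, Sum.inr true, v) D || eqb v (Sum.inr true)))

/-- One round of changing centres. -/
noncomputable def fMs (vs : List α) (E : List (α × α)) (S C : List α) (M : List (α × α)) :
    List (α × α) :=
  (U2 vs).filter (fun x => memb x M || ((!memb x.2 C && vs.any (fun z => memb (x.1, z) E &&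
    ((memb z C || memb z S) && memb (x.1, z) M))) ||
      (S.all (fun s => eqb s x.1 || eqb s x.2) && memb (x.2, x.1) M)))

/-- The node is a vertex of `S` other than the centres. -/
noncomputable def isX (S : List α) (p q : α) (u : Node α) : Bool :=
  S.any (fun s => eqb u (Sum.inl s) && (!eqb s p && !eqb s q))

/-- Adding the least assignment. -/
noncomputable def fD2 (vs S : List α) (M : List (α × α)) (D : List (Q4 α)) : List (Q4 α) :=
  (U4 vs).filter (fun t => bif memb (t.1, t.2.1) M then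
    ((!eqb t.2.2.1 (Sum.inr true) && memb t D) ||
      (isX S t.1 t.2.1 t.2.2.1 && memb (t.1, t.2.1, Sum.inr true, t.2.2.2) D)) else memb t D)

/-- Adding the greatest assignment. -/
noncomputable def fD3 (vs S : List α) (M : List (α × α)) (D : List (Q4 α)) : List (Q4 α) :=
  (U4 vs).filter (fun t => bif memb (t.2.1, t.1) M then
    ((!eqb t.2.2.2 (Sum.inr false) && memb t D) ||
      (isX S t.1 t.2.1 t.2.2.2 && memb (t.1, t.2.1, t.2.2.1, Sum.inr false) D)) else memb t D)

/-- The table after eliminating `h`. -/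
noncomputable def tD1 (vs : List α) (E : List (α × α)) (A : List (Rec α)) (h : α) : List (Q4 α) :=
  fD1 vs (fD0 vs E (fCh A h) h) h

/-- The pairs of centres with a star solution, after `k` rounds. -/
noncomputable def tM (vs : List α) (E : List (α × α)) (R : List α) (A : List (Rec α)) (h : α)
    (k : ℕ) : List (α × α) :=
  (fMs vs E (fS E R h) (fC vs (fCh A h) h))^[k] (fM0 vs (tD1 vs E A h))

/-- The new table. -/
noncomputable def tD (vs : List α) (E : List (α × α)) (R : List α) (A : List (Rec α)) (h : α) :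
    List (Q4 α) :=
  fD3 vs (fS E R h) (tM vs E R A h 5) (fD2 vs (fS E R h) (tM vs E R A h 5) (tD1 vs E A h))

/-- States: remaining vertices, active records, flag. -/
abbrev St (α : Type) : Type := List α × List (Rec α) × Bool

/-- Eliminating the vertex `h`. -/
noncomputable def stepAt (vs : List α) (E : List (α × α)) (st : St α) (h : α) : St α :=
  (st.1.filter (fun v => !eqb v h),
    (fS E st.1 h, fC vs (fCh st.2.1 h) h, tD vs E st.1 st.2.1 h) ::
      st.2.1.filter (fun r => !memb h r.1),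
    memb (h, h) (fM0 vs (tD1 vs E st.2.1 h)))

/-- Test for simplicial vertices. -/
noncomputable def simpl (E : List (α × α)) (R : List α) (h : α) : Bool :=
  R.all (fun a => R.all (fun b =>
    !memb (h, a) E || (!memb (h, b) E || (eqb a b || memb (a, b) E))))

/-- One step. -/
noncomputable def step (vs : List α) (E : List (α × α)) (st : St α) : St α :=
  match (st.1.filter (simpl E st.1)).head? with
  | none => st
  | some h => stepAt vs E st h

/-- The algorithm. -/
noncomputable def alg (vs : List α) (E : List (α × α)) : Bool :=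
  ((step vs E)^[vs.length] (vs, [], false)).2.2

/-! ### Membership lemmas -/

variable {vs : List α} {E : List (α × α)} {R S C : List α} {A ch : List (Rec α)} {h p q : α}
  {D : List (Q4 α)} {M : List (α × α)} {u v : Node α}

theorem mem_fS {x : α} : x ∈ fS E R h ↔ x ∈ R ∧ (h, x) ∈ E := by simp [fS]

theorem mem_fCh {r : Rec α} : r ∈ fCh A h ↔ r ∈ A ∧ h ∈ r.1 := by simp [fCh]

theorem mem_fC {x : α} : x ∈ fC vs ch h ↔ x ∈ vs ∧ (x = h ∨ ∃ r ∈ ch, x ∈ r.2.1) := by
  simp only [fC, List.mem_filter, Bool.or_eq_true, eqb_iff, List.any_eq_true, memb_iff]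

theorem mem_fD0 : (p, q, u, v) ∈ fD0 vs E ch h ↔ (p, q, u, v) ∈ U4 vs ∧
    ((∃ r ∈ ch, (p, q, u, v) ∈ r.2.2) ∨ ((h ≠ p ∧ h ≠ q) ∧
      ((u = Sum.inr true ∧ v = Sum.inl h ∧ (h, p) ∉ E) ∨
        (u = Sum.inl h ∧ v = Sum.inr false ∧ (h, q) ∉ E)))) := by
  simp only [fD0, List.mem_filter, Bool.or_eq_true, Bool.and_eq_true, eqb_iff, List.any_eq_true,
    memb_iff, Bool.not_eq_true', eqb_false, memb_false, Prod.mk.injEq, and_assoc]

theorem mem_fD1 : (p, q, u, v) ∈ fD1 vs D h ↔ (p, q, u, v) ∈ U4 vs ∧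
    u ≠ Sum.inl h ∧ v ≠ Sum.inl h ∧ ((p, q, u, v) ∈ D ∨
      ((p, q, u, Sum.inl h) ∈ D ∧ (p, q, Sum.inl h, v) ∈ D)) := by
  simp only [fD1, List.mem_filter, Bool.or_eq_true, Bool.and_eq_true, memb_iff,
    Bool.not_eq_true', eqb_false, and_assoc]

theorem mem_fM0 : (p, q) ∈ fM0 vs D ↔ (p ∈ vs ∧ q ∈ vs) ∧
    ∀ v ∈ nodes vs, (p, q, Sum.inr true, v) ∉ D ∨ v = Sum.inr true := by
  simp only [fM0, List.mem_filter, mem_U2, List.all_eq_true, Bool.or_eq_true, eqb_iff,
    Bool.not_eq_true', memb_false]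

theorem mem_fMs : (p, q) ∈ fMs vs E S C M ↔ (p ∈ vs ∧ q ∈ vs) ∧ ((p, q) ∈ M ∨
    (q ∉ C ∧ ∃ z ∈ vs, (p, z) ∈ E ∧ (z ∈ C ∨ z ∈ S) ∧ (p, z) ∈ M) ∨
      ((∀ s ∈ S, s = p ∨ s = q) ∧ (q, p) ∈ M)) := by
  simp only [fMs, List.mem_filter, mem_U2, List.all_eq_true, Bool.or_eq_true, Bool.and_eq_true,
    eqb_iff, Bool.not_eq_true', memb_false, memb_iff, List.any_eq_true]

/-- The vertices of `S` other than the centres. -/
def XX (S : List α) (p q s : α) : Prop := s ∈ S ∧ s ≠ p ∧ s ≠ q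

theorem isX_iff : isX S p q u = true ↔ ∃ s, XX S p q s ∧ u = Sum.inl s := by
  simp only [isX, List.any_eq_true, Bool.and_eq_true, eqb_iff, Bool.not_eq_true', eqb_false, XX]
  constructor
  · rintro ⟨s, h1, h2, h3, h4⟩
    exact ⟨s, ⟨h1, h3, h4⟩, h2⟩
  · rintro ⟨s, ⟨h1, h3, h4⟩, h2⟩
    exact ⟨s, h1, h2, h3, h4⟩

theorem mem_fD2_pos (hM : (p, q) ∈ M) : (p, q, u, v) ∈ fD2 vs S M D ↔ (p, q, u, v) ∈ U4 vs ∧
    ((u ≠ Sum.inr true ∧ (p, q, u, v) ∈ D) ∨
      ((∃ s, XX S p q s ∧ u = Sum.inl s) ∧ (p, q, Sum.inr true, v) ∈ D)) := by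
  simp only [fD2, List.mem_filter, memb_iff.2 hM, cond_true, Bool.or_eq_true, Bool.and_eq_true,
    memb_iff, Bool.not_eq_true', eqb_false, isX_iff]

theorem mem_fD2_neg (hM : (p, q) ∉ M) : (p, q, u, v) ∈ fD2 vs S M D ↔ (p, q, u, v) ∈ U4 vs ∧
    (p, q, u, v) ∈ D := by
  simp only [fD2, List.mem_filter, memb_false.2 hM, cond_false, memb_iff]

theorem mem_fD3_pos (hM : (q, p) ∈ M) : (p, q, u, v) ∈ fD3 vs S M D ↔ (p, q, u, v) ∈ U4 vs ∧
    ((v ≠ Sum.inr false ∧ (p, q, u, v) ∈ D) ∨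
      ((∃ s, XX S p q s ∧ v = Sum.inl s) ∧ (p, q, u, Sum.inr false) ∈ D)) := by
  simp only [fD3, List.mem_filter, memb_iff.2 hM, cond_true, Bool.or_eq_true, Bool.and_eq_true,
    memb_iff, Bool.not_eq_true', eqb_false, isX_iff]

theorem mem_fD3_neg (hM : (q, p) ∉ M) : (p, q, u, v) ∈ fD3 vs S M D ↔ (p, q, u, v) ∈ U4 vs ∧
    (p, q, u, v) ∈ D := by
  simp only [fD3, List.mem_filter, memb_false.2 hM, cond_false, memb_iff]

theorem simpl_iff : simpl E R h = true ↔
    ∀ a ∈ R, ∀ b ∈ R, (h, a) ∈ E → (h, b) ∈ E → a ≠ b → (a, b) ∈ E := by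
  simp only [simpl, List.all_eq_true, Bool.or_eq_true, Bool.not_eq_true', memb_false, eqb_iff,
    memb_iff]
  refine forall_congr' fun a => forall_congr' fun _ => forall_congr' fun b =>
    forall_congr' fun _ => ?_
  tauto

/-- The implication digraph for the centres `p`, `q`. -/
def DD (D : List (Q4 α)) (p q : α) (u v : Node α) : Prop := (p, q, u, v) ∈ D

/-- The table is supported on `S`. -/
def Supp (S : List α) (D : List (Q4 α)) : Prop :=
  ∀ p q u v, (p, q, u, v) ∈ D → OkN (XX S p q) u ∧ OkN (XX S p q) v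

theorem supp_fD2 (hD : Supp S D) : Supp S (fD2 vs S M D) := by
  intro p q u v huv
  by_cases hM : (p, q) ∈ M
  · rcases ((mem_fD2_pos hM).1 huv).2 with ⟨-, h⟩ | ⟨h1, h⟩
    · exact hD _ _ _ _ h
    · exact ⟨Or.inr h1, (hD _ _ _ _ h).2⟩
  · exact hD _ _ _ _ ((mem_fD2_neg hM).1 huv).2

theorem supp_fD3 (hD : Supp S D) : Supp S (fD3 vs S M D) := by
  intro p q u v huv
  by_cases hM : (q, p) ∈ M
  · rcases ((mem_fD3_pos hM).1 huv).2 with ⟨-, h⟩ | ⟨h1, h⟩
    · exact hD _ _ _ _ h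
    · exact ⟨(hD _ _ _ _ h).1, Or.inr h1⟩
  · exact hD _ _ _ _ ((mem_fD3_neg hM).1 huv).2

theorem OkN.mem (hS : ∀ s ∈ S, s ∈ vs) (h : OkN (XX S p q) u) : u ∈ nodes vs := by
  rcases h with ⟨b, rfl⟩ | ⟨s, h1, rfl⟩
  · exact inr_mem_nodes
  · exact inl_mem_nodes.2 (hS s h1.1)

theorem sol_fD2 (hD : Supp S D) (hS : ∀ s ∈ S, s ∈ vs) (hp : p ∈ vs) (hq : q ∈ vs)
    (a : α → Bool) : Sol (DD (fD2 vs S M D) p q) a ↔
      Sol (DD D p q) a ∨ ((p, q) ∈ M ∧ ∀ s, XX S p q s → a s = false) := by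
  by_cases hM : (p, q) ∈ M
  · simp only [hM, true_and]
    refine sol_addBot (fun u v => ?_) (fun u v h => (hD _ _ _ _ h).1) a
    unfold DD
    rw [mem_fD2_pos hM, and_iff_right_iff_imp]
    rintro (⟨-, h⟩ | ⟨h1, h⟩)
    · exact mem_U4.2 ⟨hp, hq, (hD _ _ _ _ h).1.mem hS, (hD _ _ _ _ h).2.mem hS⟩
    · exact mem_U4.2 ⟨hp, hq, OkN.mem hS (Or.inr h1), (hD _ _ _ _ h).2.mem hS⟩
  · simp only [hM, false_and, or_false]
    have : DD (fD2 vs S M D) p q = DD D p q := by
      funext u v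
      unfold DD
      rw [mem_fD2_neg hM, eq_iff_iff, and_iff_right_iff_imp]
      intro h
      exact mem_U4.2 ⟨hp, hq, (hD _ _ _ _ h).1.mem hS, (hD _ _ _ _ h).2.mem hS⟩
    rw [this]

theorem sol_fD3 (hD : Supp S D) (hS : ∀ s ∈ S, s ∈ vs) (hp : p ∈ vs) (hq : q ∈ vs)
    (a : α → Bool) : Sol (DD (fD3 vs S M D) p q) a ↔
      Sol (DD D p q) a ∨ ((q, p) ∈ M ∧ ∀ s, XX S p q s → a s = true) := by
  by_cases hM : (q, p) ∈ M
  · simp only [hM, true_and]
    refine sol_addTop (fun u v => ?_) (fun u v h => (hD _ _ _ _ h).2) a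
    unfold DD
    rw [mem_fD3_pos hM, and_iff_right_iff_imp]
    rintro (⟨-, h⟩ | ⟨h1, h⟩)
    · exact mem_U4.2 ⟨hp, hq, (hD _ _ _ _ h).1.mem hS, (hD _ _ _ _ h).2.mem hS⟩
    · exact mem_U4.2 ⟨hp, hq, (hD _ _ _ _ h).1.mem hS, OkN.mem hS (Or.inr h1)⟩
  · simp only [hM, false_and, or_false]
    have : DD (fD3 vs S M D) p q = DD D p q := by
      funext u v
      unfold DD
      rw [mem_fD3_neg hM, eq_iff_iff, and_iff_right_iff_imp]
      intro h
      exact mem_U4.2 ⟨hp, hq, (hD _ _ _ _ h).1.mem hS, (hD _ _ _ _ h).2.mem hS⟩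
    rw [this]

theorem fM0_iff (hD : Supp S D) (hS : ∀ s ∈ S, s ∈ vs) (hp : p ∈ vs) (hq : q ∈ vs) :
    (p, q) ∈ fM0 vs D ↔ Sol (DD D p q) (fun _ => false) := by
  rw [mem_fM0]
  constructor
  · rintro ⟨-, h⟩ u v huv hu
    obtain ⟨h1, h2⟩ := hD _ _ _ _ huv
    rcases h1 with ⟨b, rfl⟩ | ⟨s, -, rfl⟩
    · simp only [val_inr] at hu
      subst hu
      rcases h v (h2.mem hS) with e | e
      · exact absurd huv e
      · rw [e]; rfl
    · simp at hu
  · intro h
    refine ⟨⟨hp, hq⟩, fun v _ => ?_⟩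
    by_cases e : (p, q, Sum.inr true, v) ∈ D
    · right
      have := h _ _ e rfl
      cases v with
      | inl x => simp at this
      | inr b => simp only [val_inr] at this; rw [this]
    · exact Or.inl e

theorem Sol.congr_supp (hD : Supp S D) {a a' : α → Bool} (h : Sol (DD D p q) a)
    (e : ∀ s, XX S p q s → a s = a' s) : Sol (DD D p q) a' := by
  have hv : ∀ u, OkN (XX S p q) u → val a u = val a' u := by
    rintro u (⟨b, rfl⟩ | ⟨s, h1, rfl⟩)
    · rfl
    · exact e s h1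
  intro u v huv hu
  obtain ⟨h1, h2⟩ := hD _ _ _ _ huv
  rw [← hv v h2]
  exact h u v huv (by rw [hv u h1]; exact hu)

end Pool.Agent.H164Z.Span
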