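import Pool.Agent.NPC.Defs

/-!
# Tree 3-spanners of chordal graphs: definitions
-/

namespace Pool.Agent.H164Z.Span

/-- A graph is chordal if it has no induced cycle of length at least four. -/
def Chordal {V : Type} (G : SimpleGraph V) : Prop :=
  ∀ n : ℕ, 4 ≤ n → IsEmpty (SimpleGraph.cycleGraph n ↪g G)

/-- `T` is a tree 3-spanner of `G`: a spanning tree of `G` such that the distance of any two
vertices in `T` is at most three times their distance in `G`. -/
def IsTree3Spanner {V : Type} (G T : SimpleGraph V) : Prop :=
  T ≤ G ∧ T.IsTree ∧ ∀ x y : V, T.dist x y ≤ 3 * G.dist x y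

open Classical in
/-- The adjacency matrix of a graph, as a list of rows. -/
noncomputable def adjMat {n : ℕ} (G : SimpleGraph (Fin n)) : List (List Bool) :=
  List.ofFn fun i => List.ofFn fun j => decide (G.Adj i j)

end Pool.Agent.H164Z.Span
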