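import Pool.Agent.H164Z.SpanAlg

/-!
# Tree 3-spanners of chordal graphs: correctness of the algorithm
-/

namespace Pool.Agent.H164Z.Span

variable {α : Type}

/-- Adjacency given by a list of pairs. -/
def GE (E : List (α × α)) (x y : α) : Prop := (x, y) ∈ E

/-- The assumptions on the input. -/
structure Ctx (vs : List α) (E : List (α × α)) : Prop where
  symm : ∀ x y, (x, y) ∈ E → (y, x) ∈ E
  irr : ∀ x, (x, x) ∉ E
  mem : ∀ x y, (x, y) ∈ E → y ∈ vs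
  conn : ∀ P : α → Prop, (∃ u ∈ vs, P u) → (∀ u w, P u → (u, w) ∈ E → P w) → ∀ v ∈ vs, P v
  simp : ∀ R : List α, (∀ v ∈ R, v ∈ vs) → R ≠ [] →
    ∃ h ∈ R, ∀ a ∈ R, ∀ b ∈ R, (h, a) ∈ E → (h, b) ∈ E → a ≠ b → (a, b) ∈ E

/-- Correct records. -/
structure Good (vs : List α) (E : List (α × α)) (r : Rec α) : Prop where
  nb : ∀ u ∈ r.2.1, ∀ w, (u, w) ∈ E → w ∈ r.2.1 ∨ w ∈ r.1
  clique : ∀ s ∈ r.1, ∀ t ∈ r.1, s ≠ t → (s, t) ∈ E
  subC : ∀ c ∈ r.2.1, c ∈ vs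
  ne : ∃ c, c ∈ r.2.1
  supp : Supp r.1 r.2.2
  sound : ∀ p ∈ vs, ∀ q ∈ vs, ∀ a, Sol (DD r.2.2 p q) a → Feas (GE E) r.1 r.2.1 p q a
  complete : ∀ T d, TreeData (· ∈ vs) (GE E) T d → (∃ s, s ∈ r.1) → ∀ p ∈ vs, ∀ q ∈ vs,
    Adm T r.1 r.2.1 p q → Sol (DD r.2.2 p q) (aT T p)

/-- The loop invariant. -/
structure LI (vs : List α) (E : List (α × α)) (R : List α) (A : List (Rec α)) : Prop where
  sub : ∀ v ∈ R, v ∈ vs
  good : ∀ r ∈ A, Good vs E r
  inR : ∀ r ∈ A, ∀ s ∈ r.1, s ∈ R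
  out : ∀ r ∈ A, ∀ c ∈ r.2.1, c ∉ R
  cover : ∀ v ∈ vs, v ∈ R ∨ ∃ r ∈ A, v ∈ r.2.1
  pair : ∀ r ∈ A, ∀ r' ∈ A, ∀ v, v ∈ r.2.1 → v ∈ r'.2.1 → r = r'

section Step

variable {vs : List α} {E : List (α × α)} {R : List α} {A : List (Rec α)} {h : α}
  (hc : Ctx vs E) (hL : LI vs E R A) (hh : h ∈ R)
  (hs : ∀ a ∈ R, ∀ b ∈ R, (h, a) ∈ E → (h, b) ∈ E → a ≠ b → (a, b) ∈ E)

include hL in
theorem chS {r : Rec α} (hr : r ∈ fCh A h) {s : α} (hs : s ∈ r.1) : s = h ∨ s ∈ fS E R h := by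
  obtain ⟨h1, h2⟩ := mem_fCh.1 hr
  by_cases e : s = h
  · exact Or.inl e
  · exact Or.inr (mem_fS.2 ⟨hL.inR r h1 s hs, (hL.good r h1).clique h h2 s hs (Ne.symm e)⟩)

include hL in
theorem chC {r : Rec α} (hr : r ∈ fCh A h) {c : α} (hc : c ∈ r.2.1) : c ∈ fC vs (fCh A h) h :=
  mem_fC.2 ⟨(hL.good r (mem_fCh.1 hr).1).subC c hc, Or.inr ⟨r, hr, hc⟩⟩

include hL hh in
theorem hC : h ∈ fC vs (fCh A h) h := mem_fC.2 ⟨hL.sub h hh, Or.inl rfl⟩

include hL in
theorem subS : ∀ s ∈ fS E R h, s ∈ vs := fun s hs => hL.sub s (mem_fS.1 hs).1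

include hc hL hh in
theorem new_nb : ∀ u ∈ fC vs (fCh A h) h, ∀ w, (u, w) ∈ E →
    w ∈ fC vs (fCh A h) h ∨ w ∈ fS E R h := by
  intro u hu w huw
  rcases (mem_fC.1 hu).2 with rfl | ⟨r, hr, hur⟩
  · rcases hL.cover w (hc.mem _ _ huw) with e | ⟨r, hr, e⟩
    · exact Or.inr (mem_fS.2 ⟨e, huw⟩)
    · rcases (hL.good r hr).nb w e u (hc.symm _ _ huw) with e2 | e2
      · exact absurd hh (hL.out r hr u e2)
      · exact Or.inl (chC hL (mem_fCh.2 ⟨hr, e2⟩) e)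
  · rcases (hL.good r (mem_fCh.1 hr).1).nb u hur w huw with e | e
    · exact Or.inl (chC hL hr e)
    · rcases chS hL hr e with rfl | e2
      · exact Or.inl (hC hL hh)
      · exact Or.inr e2

include hc hL in
theorem new_disj : ∀ s ∈ fS E R h, s ∉ fC vs (fCh A h) h := by
  intro s hs hsC
  obtain ⟨h1, h2⟩ := mem_fS.1 hs
  rcases (mem_fC.1 hsC).2 with rfl | ⟨r, hr, e⟩
  · exact hc.irr _ h2
  · exact hL.out r (mem_fCh.1 hr).1 s e h1

include hL in
theorem supp_D1 : Supp (fS E R h) (tD1 vs E A h) := by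
  have key : ∀ p q u v, (p, q, u, v) ∈ fD0 vs E (fCh A h) h →
      (u = Sum.inl h ∨ OkN (XX (fS E R h) p q) u) ∧ (v = Sum.inl h ∨ OkN (XX (fS E R h) p q) v) := by
    intro p q u v huv
    rcases (mem_fD0.1 huv).2 with ⟨r, hr, e⟩ | ⟨-, ⟨rfl, rfl, -⟩ | ⟨rfl, rfl, -⟩⟩
    · have k : ∀ w, OkN (XX r.1 p q) w → w = Sum.inl h ∨ OkN (XX (fS E R h) p q) w := by
        rintro w (⟨b, rfl⟩ | ⟨s, ⟨a1, a2, a3⟩, rfl⟩)
        · exact Or.inr (Or.inl ⟨b, rfl⟩)
        · rcases chS hL hr a1 with rfl | e2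
          · exact Or.inl rfl
          · exact Or.inr (Or.inr ⟨s, ⟨e2, a2, a3⟩, rfl⟩)
      have := (hL.good r (mem_fCh.1 hr).1).supp p q u v e
      exact ⟨k u this.1, k v this.2⟩
    · exact ⟨Or.inr (Or.inl ⟨_, rfl⟩), Or.inl rfl⟩
    · exact ⟨Or.inl rfl, Or.inr (Or.inl ⟨_, rfl⟩)⟩
  intro p q u v huv
  obtain ⟨-, h1, h2, h3⟩ := mem_fD1.1 huv
  rcases h3 with e | ⟨e1, e2⟩
  · exact ⟨(key _ _ _ _ e).1.resolve_left h1, (key _ _ _ _ e).2.resolve_left h2⟩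
  · exact ⟨(key _ _ _ _ e1).1.resolve_left h1, (key _ _ _ _ e2).2.resolve_left h2⟩

include hL in
theorem ch_in_D0 {p q : α} (hp : p ∈ vs) (hq : q ∈ vs) {r : Rec α} (hr : r ∈ fCh A h)
    {u v : Node α} (e : (p, q, u, v) ∈ r.2.2) : (p, q, u, v) ∈ fD0 vs E (fCh A h) h := by
  have hA := (mem_fCh.1 hr).1
  have hS : ∀ s ∈ r.1, s ∈ vs := fun s hs => hL.sub s (hL.inR r hA s hs)
  have := (hL.good r hA).supp p q u v e
  exact mem_fD0.2 ⟨mem_U4.2 ⟨hp, hq, this.1.mem hS, this.2.mem hS⟩, Or.inl ⟨r, hr, e⟩⟩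

include hc hL hh in
theorem keep_sound {p q : α} (hp : p ∈ vs) (hq : q ∈ vs) {a : α → Bool}
    (ha : Sol (DD (tD1 vs E A h) p q) a) :
    Feas (GE E) (fS E R h) (fC vs (fCh A h) h) p q a := by
  classical
  have hhv := hL.sub h hh
  obtain ⟨b, hb⟩ := Sol.elim_down (D0 := DD (fD0 vs E (fCh A h) h) p q) (h := h) (by
    intro u v h1 h2 h3
    refine mem_fD1.2 ⟨?_, h1, h2, h3⟩
    rcases h3 with e | ⟨e1, e2⟩
    · exact (mem_fD0.1 e).1
    · exact mem_U4.2 ⟨hp, hq, (mem_U4.1 (mem_fD0.1 e1).1).2.2.1,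
        (mem_U4.1 (mem_fD0.1 e2).1).2.2.2⟩) ha
  have hch : ∀ r : Rec α, ∃ f : α → α, r ∈ fCh A h →
      (∀ v ∈ r.2.1, v ≠ p → v ≠ q → GE E v (f v)) ∧
      ∀ u ∈ r.2.1, ∀ w, GE E u w → Near (HE r.1 r.2.1 p q (Function.update a h b) f) u w := by
    intro r
    by_cases hr : r ∈ fCh A h
    · obtain ⟨f, hf⟩ := (hL.good r (mem_fCh.1 hr).1).sound p hp q hq (Function.update a h b)
        (fun u v e => hb u v (ch_in_D0 hL hp hq hr e))
      exact ⟨f, fun _ => hf⟩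
    · exact ⟨id, fun e => absurd e hr⟩
  choose F hF using hch
  let f : α → α := fun v => if v = h then (bif b then q else p) else
    if e : ∃ r ∈ fCh A h, v ∈ r.2.1 then F e.choose v else v
  have hfh : f h = bif b then q else p := if_pos rfl
  have hfr : ∀ r ∈ fCh A h, ∀ v ∈ r.2.1, f v = F r v := by
    intro r hr v hv
    have hA := (mem_fCh.1 hr).1
    have e1 : v ≠ h := fun e => hL.out r hA v hv (e ▸ hh)
    have e2 : ∃ r ∈ fCh A h, v ∈ r.2.1 := ⟨r, hr, hv⟩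
    simp only [f, if_neg e1, dif_pos e2]
    rw [hL.pair _ (mem_fCh.1 e2.choose_spec.1).1 r hA v e2.choose_spec.2 hv]
  have hincl : ∀ r ∈ fCh A h, ∀ x y, HE r.1 r.2.1 p q (Function.update a h b) (F r) x y →
      HE (fS E R h) (fC vs (fCh A h) h) p q a f x y := by
    intro r hr
    refine HE.mono ?_
    rintro x y (e | ⟨a1, a2, a3, a4⟩ | ⟨a1, a2, a3, a4⟩)
    · exact Or.inl (Or.inl e)
    · by_cases e : x = h
      · subst e
        rw [Function.update_self] at a4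
        exact Or.inl (Or.inr (Or.inr ⟨hC hL hh, a2, a3, by rw [hfh]; exact a4⟩))
      · rw [Function.update_of_ne e] at a4
        exact Or.inl (Or.inr (Or.inl ⟨(chS hL hr a1).resolve_left e, a2, a3, a4⟩))
    · exact Or.inl (Or.inr (Or.inr ⟨chC hL hr a1, a2, a3, by rw [hfr r hr x a1]; exact a4⟩))
  refine ⟨f, fun v hv h1 h2 => ?_, fun u hu w hw => ?_⟩
  · rcases (mem_fC.1 hv).2 with rfl | ⟨r, hr, e⟩
    · rw [hfh]
      cases b
      · by_contra hn
        have := hb (Sum.inr true) (Sum.inl v) (mem_fD0.2 ⟨mem_U4.2 ⟨hp, hq, inr_mem_nodes,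
          inl_mem_nodes.2 hhv⟩, Or.inr ⟨⟨h1, h2⟩, Or.inl ⟨rfl, rfl, hn⟩⟩⟩) rfl
        simp at this
      · by_contra hn
        have := hb (Sum.inl v) (Sum.inr false) (mem_fD0.2 ⟨mem_U4.2 ⟨hp, hq, inl_mem_nodes.2 hhv,
          inr_mem_nodes⟩, Or.inr ⟨⟨h1, h2⟩, Or.inr ⟨rfl, rfl, hn⟩⟩⟩) (by simp)
        simp at this
    · rw [hfr r hr v e]
      exact (hF r hr).1 v e h1 h2
  · rcases (mem_fC.1 hu).2 with rfl | ⟨r, hr, e⟩
    · rcases new_nb hc hL hh u hu w hw with e | e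
      · rcases (mem_fC.1 e).2 with rfl | ⟨r, hr, e2⟩
        · exact absurd hw (hc.irr _)
        · exact (((hF r hr).2 w e2 u (hc.symm _ _ hw)).mono (hincl r hr)).symm HE.symm
      · have cen : ∀ x, (x = u ∨ x ∈ fS E R u) → ∃ c, (c = p ∨ c = q) ∧
            (x = c ∨ HE (fS E R u) (fC vs (fCh A u) u) p q a f x c) := by
          intro x hx
          by_cases e1 : x = p
          · exact ⟨p, Or.inl rfl, Or.inl e1⟩
          by_cases e2 : x = q
          · exact ⟨q, Or.inr rfl, Or.inl e2⟩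
          rcases hx with rfl | hx
          · refine ⟨f x, ?_, Or.inr (Or.inl (Or.inr (Or.inr ⟨hu, e1, e2, rfl⟩)))⟩
            rw [hfh]
            cases b
            · exact Or.inl rfl
            · exact Or.inr rfl
          · refine ⟨bif a x then q else p, ?_, Or.inr (Or.inl (Or.inr (Or.inl ⟨hx, e1, e2, rfl⟩)))⟩
            cases a x
            · exact Or.inl rfl
            · exact Or.inr rfl
        obtain ⟨c1, k1, l1⟩ := cen u (Or.inl rfl)
        obtain ⟨c2, k2, l2⟩ := cen w (Or.inr e)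
        refine ⟨c1, c2, l1, ?_, l2.imp Eq.symm (HE.symm _ _)⟩
        rcases k1 with rfl | rfl <;> rcases k2 with rfl | rfl
        · exact Or.inl rfl
        · exact Or.inr (Or.inl (Or.inl ⟨rfl, rfl⟩))
        · exact Or.inr (Or.inr (Or.inl ⟨rfl, rfl⟩))
        · exact Or.inl rfl
    · exact ((hF r hr).2 u e w hw).mono (hincl r hr)

include hL hh in
theorem keep_complete {T : α → α → Prop} {d : α → α → ℕ} (hT : TreeData (· ∈ vs) (GE E) T d)
    {p q : α} (hp : p ∈ vs) (hq : q ∈ vs)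
    (he : T p q ∨ (p = q ∧ ∀ r ∈ fCh A h, p ∉ r.2.1))
    (hS : ∀ s ∈ fS E R h, InB T p q s) (hB : InB T p q h)
    (wp : p ∈ fC vs (fCh A h) h → p ≠ h → ∃ s, (s ∈ fS E R h ∨ s = h) ∧ s ≠ q ∧ T s p)
    (wq : q ∈ fC vs (fCh A h) h → q ≠ h → ∃ s, (s ∈ fS E R h ∨ s = h) ∧ s ≠ p ∧ T s q) :
    Sol (DD (tD1 vs E A h) p q) (aT T p) := by
  refine Sol.elim_up (D0 := DD (fD0 vs E (fCh A h) h) p q) (h := h)
    (fun u v e => (mem_fD1.1 e).2.2.2) ?_
  intro u v huv hu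
  rcases (mem_fD0.1 huv).2 with ⟨r, hr, e⟩ | ⟨⟨h1, h2⟩, ⟨rfl, rfl, e⟩ | ⟨rfl, rfl, e⟩⟩
  · obtain ⟨hA, hhr⟩ := mem_fCh.1 hr
    have hg := hL.good r hA
    have wit : ∀ c ∈ r.2.1, ∀ s, (s ∈ fS E R h ∨ s = h) → T s c → s ∈ r.1 := by
      intro c hcr s hs hsc
      refine (hg.nb c hcr s (hT.le _ _ (hT.symm _ _ hsc))).resolve_left fun e2 => ?_
      rcases hs with hs | rfl
      · exact hL.out r hA s e2 (mem_fS.1 hs).1
      · exact hL.out r hA s e2 hh
    refine hg.complete T d hT ⟨h, hhr⟩ p hp q hq ⟨?_, fun s hs => ?_, fun e2 => ?_, fun e2 => ?_⟩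
      u v e hu
    · exact he.imp_right fun k => ⟨k.1, k.2 r hr⟩
    · rcases chS hL hr hs with rfl | e2
      · exact hB
      · exact hS s e2
    · obtain ⟨s, a1, a2, a3⟩ := wp (chC hL hr e2) (fun k => hL.out r hA p e2 (k ▸ hh))
      exact ⟨s, wit p e2 s a1 a3, a2, a3⟩
    · obtain ⟨s, a1, a2, a3⟩ := wq (chC hL hr e2) (fun k => hL.out r hA q e2 (k ▸ hh))
      exact ⟨s, wit q e2 s a1 a3, a2, a3⟩
  · simp only [val_inl, aT, decide_eq_true_eq]
    exact fun k => e (hT.le _ _ k)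
  · exfalso
    simp only [val_inl, aT, decide_eq_true_eq] at hu
    rcases hB with k | k | k | k
    · exact h1 k
    · exact h2 k
    · exact hu k
    · exact e (hT.le _ _ k)

theorem tM_succ (k : ℕ) : tM vs E R A h (k + 1) =
    fMs vs E (fS E R h) (fC vs (fCh A h) h) (tM vs E R A h k) := by
  unfold tM
  rw [Function.iterate_succ_apply']

include hc hL hh in
theorem M_sound : ∀ k p q, (p, q) ∈ tM vs E R A h k →
    Feas (GE E) (fS E R h) (fC vs (fCh A h) h) p q (fun _ => false) := by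
  intro k
  induction k with
  | zero =>
    intro p q e
    have e' : (p, q) ∈ fM0 vs (tD1 vs E A h) := e
    obtain ⟨hp, hq⟩ := (mem_fM0.1 e').1
    exact keep_sound hc hL hh hp hq ((fM0_iff (supp_D1 hL) (subS hL) hp hq).1 e')
  | succ k ih =>
    intro p q e
    rw [tM_succ] at e
    rcases (mem_fMs.1 e).2 with e1 | ⟨e1, z, -, e2, e3, e4⟩ | ⟨e1, e2⟩
    · exact ih p q e1
    · exact (ih p z e4).recentre hc.symm hc.irr e1 e2 e3
    · refine (ih q p e2).swap.congr fun s hs a1 a2 => ?_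
      exact absurd (e1 s hs) (by tauto)

include hc hL hh in
theorem M_complete {T : α → α → Prop} {d : α → α → ℕ} (hT : TreeData (· ∈ vs) (GE E) T d)
    {p q : α} (hp : p ∈ vs) (hne : ∃ s, s ∈ fS E R h)
    (hA : Adm T (fS E R h) (fC vs (fCh A h) h) p q) (hB : ¬ InB T p q h) (hd : d h p ≤ d h q) :
    (p, q) ∈ tM vs E R A h 5 ∧ ∀ s ∈ fS E R h, s = p ∨ T s p := by
  refine mono_cases (M := fun k x y => (x, y) ∈ tM vs E R A h k) hT hc.mem (hL.sub h hh)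
    (hC hL hh) (new_nb hc hL hh) (new_disj hc hL) (fun s hs => (mem_fS.1 hs).2) hne hp hA hB hd
    ?_ ?_ ?_ ?_
  · intro x y hxy h1 h2 h3 h4 h5
    have hx : x ∈ vs := hc.mem _ _ (hT.le _ _ (hT.symm _ _ hxy))
    have hy : y ∈ vs := hc.mem _ _ (hT.le _ _ hxy)
    refine (fM0_iff (supp_D1 hL) (subS hL) hx hy).2 (Sol.congr_supp (supp_D1 hL)
      (keep_complete hL hh hT hx hy (Or.inl hxy) h1 h2 h3 h4) fun s hs => ?_)
    simp only [aT, decide_eq_false_iff_not, not_not]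
    exact h5 s hs.1 hs.2.1 hs.2.2
  · intro k x y hx hy e
    rw [tM_succ]
    exact mem_fMs.2 ⟨⟨hx, hy⟩, Or.inl e⟩
  · intro k x y z hx hy h1 h2 h3 e
    rw [tM_succ]
    exact mem_fMs.2 ⟨⟨hx, hy⟩, Or.inr (Or.inl ⟨h1, z, hc.mem _ _ h2, h2, h3, e⟩)⟩
  · intro k x y hx hy h1 e
    rw [tM_succ]
    exact mem_fMs.2 ⟨⟨hx, hy⟩, Or.inr (Or.inr ⟨h1, e⟩)⟩

include hL in
theorem sol_tD {p q : α} (hp : p ∈ vs) (hq : q ∈ vs) (a : α → Bool) :
    Sol (DD (tD vs E R A h) p q) a ↔ (Sol (DD (tD1 vs E A h) p q) a ∨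
      ((p, q) ∈ tM vs E R A h 5 ∧ ∀ s, XX (fS E R h) p q s → a s = false)) ∨
      ((q, p) ∈ tM vs E R A h 5 ∧ ∀ s, XX (fS E R h) p q s → a s = true) := by
  unfold tD
  rw [sol_fD3 (supp_fD2 (supp_D1 hL)) (subS hL) hp hq, sol_fD2 (supp_D1 hL) (subS hL) hp hq]

include hc hL hh hs in
theorem new_good : Good vs E (fS E R h, fC vs (fCh A h) h, tD vs E R A h) where
  nb := new_nb hc hL hh
  clique := fun s h1 t h2 e =>
    hs s (mem_fS.1 h1).1 t (mem_fS.1 h2).1 (mem_fS.1 h1).2 (mem_fS.1 h2).2 e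
  subC := fun c e => (mem_fC.1 e).1
  ne := ⟨h, hC hL hh⟩
  supp := supp_fD3 (supp_fD2 (supp_D1 hL))
  sound := by
    intro p hp q hq a ha
    rcases (sol_tD hL hp hq a).1 ha with (e | ⟨e1, e2⟩) | ⟨e1, e2⟩
    · exact keep_sound hc hL hh hp hq e
    · exact (M_sound hc hL hh 5 p q e1).congr fun s a1 a2 a3 => (e2 s ⟨a1, a2, a3⟩).symm
    · exact (M_sound hc hL hh 5 q p e1).swap.congr fun s a1 a2 a3 => (e2 s ⟨a1, a2, a3⟩).symm
  complete := by
    intro T d hT hne p hp q hq hA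
    refine (sol_tD hL hp hq _).2 ?_
    by_cases hB : InB T p q h
    · refine Or.inl (Or.inl (keep_complete hL hh hT hp hq ?_ hA.inB hB (fun e _ => ?_)
        (fun e _ => ?_)))
      · exact hA.edge.imp_right fun k => ⟨k.1, fun r hr e => k.2 (chC hL hr e)⟩
      · obtain ⟨s, a1, a2, a3⟩ := hA.wp e
        exact ⟨s, Or.inl a1, a2, a3⟩
      · obtain ⟨s, a1, a2, a3⟩ := hA.wq e
        exact ⟨s, Or.inl a1, a2, a3⟩
    · rcases le_or_gt (d h p) (d h q) with hd | hd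
      · obtain ⟨e1, e2⟩ := M_complete hc hL hh hT hp hne hA hB hd
        refine Or.inl (Or.inr ⟨e1, fun s hs => ?_⟩)
        simp only [aT, decide_eq_false_iff_not, not_not]
        exact (e2 s hs.1).resolve_left hs.2.1
      · have hpq : T p q := hA.edge.resolve_right fun k => by rw [k.1] at hd; omega
        obtain ⟨e1, e2⟩ := M_complete hc hL hh hT hq hne
          ⟨Or.inl (hT.symm _ _ hpq), fun s hs => (hA.inB s hs).swap, hA.wq, hA.wp⟩
          (fun k => hB k.swap) hd.le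
        refine Or.inr ⟨e1, fun s hs => ?_⟩
        simp only [aT, decide_eq_true_eq]
        intro k
        exact hT.no_tri hc.mem k (hT.symm _ _ hpq) ((e2 s hs.1).resolve_left hs.2.2)

theorem mem_R' {v : α} : v ∈ R.filter (fun v => !eqb v h) ↔ v ∈ R ∧ v ≠ h := by simp

theorem mem_A' {r : Rec α} : r ∈ A.filter (fun r => !memb h r.1) ↔ r ∈ A ∧ h ∉ r.1 := by simp

include hc hL hh hs in
theorem new_LI : LI vs E (R.filter (fun v => !eqb v h))
    ((fS E R h, fC vs (fCh A h) h, tD vs E R A h) :: A.filter (fun r => !memb h r.1)) where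
  sub := fun v e => hL.sub v (mem_R'.1 e).1
  good := by
    intro r hr
    rcases List.mem_cons.1 hr with rfl | hr
    · exact new_good hc hL hh hs
    · exact hL.good r (mem_A'.1 hr).1
  inR := by
    intro r hr s e
    rcases List.mem_cons.1 hr with rfl | hr
    · obtain ⟨h1, h2⟩ := mem_fS.1 e
      exact mem_R'.2 ⟨h1, fun k => hc.irr h (k ▸ h2)⟩
    · obtain ⟨h1, h2⟩ := mem_A'.1 hr
      exact mem_R'.2 ⟨hL.inR r h1 s e, fun k => h2 (k ▸ e)⟩
  out := by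
    intro r hr c e k
    obtain ⟨k1, k2⟩ := mem_R'.1 k
    rcases List.mem_cons.1 hr with rfl | hr
    · rcases (mem_fC.1 e).2 with e2 | ⟨r, hr, e2⟩
      · exact k2 e2
      · exact hL.out r (mem_fCh.1 hr).1 c e2 k1
    · exact hL.out r (mem_A'.1 hr).1 c e k1
  cover := by
    intro v hv
    by_cases e : v = h
    · exact Or.inr ⟨_, List.mem_cons_self, by rw [e]; exact hC hL hh⟩
    rcases hL.cover v hv with k | ⟨r, hr, k⟩
    · exact Or.inl (mem_R'.2 ⟨k, e⟩)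
    · by_cases e2 : h ∈ r.1
      · exact Or.inr ⟨_, List.mem_cons_self, chC hL (mem_fCh.2 ⟨hr, e2⟩) k⟩
      · exact Or.inr ⟨r, List.mem_cons_of_mem _ (mem_A'.2 ⟨hr, e2⟩), k⟩
  pair := by
    have key : ∀ r ∈ A.filter (fun r => !memb h r.1), ∀ v, v ∈ fC vs (fCh A h) h →
        v ∈ r.2.1 → False := by
      intro r hr v h1 h2
      obtain ⟨k1, k2⟩ := mem_A'.1 hr
      rcases (mem_fC.1 h1).2 with rfl | ⟨r', hr', e⟩
      · exact hL.out r k1 v h2 hh
      · obtain ⟨k3, k4⟩ := mem_fCh.1 hr'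
        exact k2 (hL.pair r' k3 r k1 v e h2 ▸ k4)
    intro r hr r' hr' v h1 h2
    rcases List.mem_cons.1 hr with rfl | hr <;> rcases List.mem_cons.1 hr' with rfl | hr'
    · rfl
    · exact (key r' hr' v h1 h2).elim
    · exact (key r hr v h2 h1).elim
    · exact hL.pair r (mem_A'.1 hr).1 r' (mem_A'.1 hr').1 v h1 h2

end Step

/-- A solution: a root and a parent function. -/
def Ans (vs : List α) (E : List (α × α)) : Prop :=
  ∃ ρ ∈ vs, ∃ f : α → α, (∀ v ∈ vs, v ≠ ρ → (v, f v) ∈ E) ∧ ∀ u w, (u, w) ∈ E →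
    Near (fun x y => (x ∈ vs ∧ x ≠ ρ ∧ y = f x) ∨ (y ∈ vs ∧ y ≠ ρ ∧ x = f y)) u w

/-- The flag is correct. -/
def Fin' (vs : List α) (E : List (α × α)) (b : Bool) : Prop :=
  (b = true → Ans vs E) ∧ ∀ T d, TreeData (· ∈ vs) (GE E) T d → b = true

theorem last_step {vs : List α} {E : List (α × α)} {R : List α} {A : List (Rec α)} {h : α}
    (hc : Ctx vs E) (hL : LI vs E R A) (hh : h ∈ R) (hR : R.filter (fun v => !eqb v h) = []) :
    Fin' vs E (memb (h, h) (fM0 vs (tD1 vs E A h))) := by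
  have hRh : ∀ v ∈ R, v = h := by
    intro v hv
    by_contra e
    have : v ∈ R.filter (fun v => !eqb v h) := mem_R'.2 ⟨hv, e⟩
    rw [hR] at this
    exact List.not_mem_nil this
  have hS : ∀ s, s ∉ fS E R h := by
    intro s hs
    obtain ⟨h1, h2⟩ := mem_fS.1 hs
    exact hc.irr h (hRh s h1 ▸ h2)
  have hhv := hL.sub h hh
  have hall : ∀ v ∈ vs, v ∈ fC vs (fCh A h) h :=
    hc.conn _ ⟨h, hhv, hC hL hh⟩ fun u w hu e => (new_nb hc hL hh u hu w e).resolve_right (hS w)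
  constructor
  · intro e
    obtain ⟨f, h1, h2⟩ := M_sound hc hL hh 0 h h (memb_iff.1 e)
    refine ⟨h, hhv, f, fun v hv k => h1 v (hall v hv) k k, fun u w huw => ?_⟩
    obtain ⟨x, y, a1, a2, a3⟩ := h2 u (hall u (hc.mem _ _ (hc.symm _ _ huw))) w huw
    have key : ∀ x y, (x = y ∨ HE (fS E R h) (fC vs (fCh A h) h) h h (fun _ => false) f x y) →
        (x = y ∨ ((x ∈ vs ∧ x ≠ h ∧ y = f x) ∨ (y ∈ vs ∧ y ≠ h ∧ x = f y))) := by
      rintro x y (k | (⟨rfl, rfl⟩ | ⟨k, -⟩ | ⟨k1, k2, -, k3⟩) | ⟨rfl, rfl⟩ | ⟨k, -⟩ |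
        ⟨k1, k2, -, k3⟩)
      · exact Or.inl k
      · exact Or.inl rfl
      · exact absurd k (hS x)
      · exact Or.inr (Or.inl ⟨(mem_fC.1 k1).1, k2, k3⟩)
      · exact Or.inl rfl
      · exact absurd k (hS y)
      · exact Or.inr (Or.inr ⟨(mem_fC.1 k1).1, k2, k3⟩)
    exact ⟨x, y, key _ _ a1, key _ _ a2, key _ _ a3⟩
  · intro T d hT
    refine memb_iff.2 ((fM0_iff (supp_D1 hL) (subS hL) hhv hhv).2 (Sol.congr_supp (supp_D1 hL)
      (keep_complete hL hh hT hhv hhv (Or.inr ⟨rfl, fun r hr e =>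
        hL.out r (mem_fCh.1 hr).1 h e hh⟩) (fun s hs => absurd hs (hS s)) (Or.inl rfl)
        (fun _ e => absurd rfl e) (fun _ e => absurd rfl e)) fun s hs => absurd hs.1 (hS s)))

/-- The invariant of the main loop. -/
def Inv (vs : List α) (E : List (α × α)) (k : ℕ) (st : St α) : Prop :=
  (st.1 ≠ [] ∧ LI vs E st.1 st.2.1 ∧ st.1.length + k ≤ vs.length) ∨ (st.1 = [] ∧ Fin' vs E st.2.2)

theorem inv_step {vs : List α} {E : List (α × α)} (hc : Ctx vs E) {k : ℕ} {st : St α}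
    (h : Inv vs E k st) : Inv vs E (k + 1) (step vs E st) := by
  unfold step
  rcases h with ⟨h1, h2, h3⟩ | ⟨h1, h2⟩
  · cases e : (st.1.filter (simpl E st.1)).head? with
    | none =>
      exfalso
      obtain ⟨x, hx, hx2⟩ := hc.simp st.1 h2.sub h1
      rw [List.head?_eq_none_iff] at e
      have : x ∈ st.1.filter (simpl E st.1) := List.mem_filter.2 ⟨hx, simpl_iff.2 hx2⟩
      rw [e] at this
      exact List.not_mem_nil this
    | some x =>
      obtain ⟨hx, hx2⟩ := List.mem_filter.1 (List.mem_of_head? e)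
      by_cases e2 : st.1.filter (fun v => !eqb v x) = []
      · exact Or.inr ⟨e2, last_step hc h2 hx e2⟩
      · refine Or.inl ⟨e2, new_LI hc h2 hx (simpl_iff.1 hx2), ?_⟩
        have : (st.1.filter (fun v => !eqb v x)).length < st.1.length :=
          List.length_filter_lt_length_iff_exists.2 ⟨x, hx, by simp⟩
        simp only [stepAt]
        omega
  · have e : (st.1.filter (simpl E st.1)).head? = none := by rw [h1]; rfl
    rw [e]
    exact Or.inr ⟨h1, h2⟩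

theorem alg_correct {vs : List α} {E : List (α × α)} (hc : Ctx vs E) (hne : vs ≠ []) :
    Fin' vs E (alg vs E) := by
  have key : ∀ k, Inv vs E k ((step vs E)^[k] (vs, [], false)) := by
    intro k
    induction k with
    | zero =>
      exact Or.inl ⟨hne, ⟨fun _ h => h, by simp, by simp, by simp, fun v hv => Or.inl hv,
        by simp⟩, le_rfl⟩
    | succ k ih =>
      rw [Function.iterate_succ_apply']
      exact inv_step hc ih
  rcases key vs.length with ⟨h1, -, h3⟩ | ⟨-, h2⟩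
  · exact absurd (List.length_eq_zero_iff.1 (by omega)) h1
  · exact h2

end Pool.Agent.H164Z.Span
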