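import Pool.Agent.H164Z.SpanAlg
import Pool.Agent.NPC.Dec

/-!
# Tree 3-spanners of chordal graphs: the algorithm runs in polynomial time
-/

namespace Pool.Agent.H164Z.Span

open Pool.Agent.NPC

variable {α β γ δ : Type} [TEnc α] [TEnc β] [TEnc γ] [TEnc δ]

theorem pf {f : γ → β × δ} (h : NPC.Poly f) : NPC.Poly (fun a => (f a).1) := NPC.Poly.fst h
theorem ps {f : γ → β × δ} (h : NPC.Poly f) : NPC.Poly (fun a => (f a).2) := NPC.Poly.snd h
theorem pi : NPC.Poly (fun a : γ => a) := NPC.Poly.id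
theorem pp {f : γ → β} {g : γ → δ} (h : NPC.Poly f) (h' : NPC.Poly g) :
    NPC.Poly (fun a => (f a, g a)) := NPC.Poly.pair h h'
theorem pc (b : β) : NPC.Poly (fun _ : γ => b) := NPC.Poly.const b
theorem pw {f : γ → β} (h : NPC.Poly f) : NPC.Poly (fun x : γ × δ => f x.1) :=
  h.comp (NPC.Poly.fst NPC.Poly.id)
theorem pv : NPC.Poly (fun x : γ × δ => x.2) := NPC.Poly.snd NPC.Poly.id
theorem pnot {b : γ → Bool} (h : NPC.Poly b) : NPC.Poly (fun a => !(b a)) := NPC.Poly.not h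
theorem pand {b c : γ → Bool} (h : NPC.Poly b) (h' : NPC.Poly c) :
    NPC.Poly (fun a => b a && c a) := NPC.Poly.and h h'
theorem por {b c : γ → Bool} (h : NPC.Poly b) (h' : NPC.Poly c) :
    NPC.Poly (fun a => b a || c a) := NPC.Poly.or h h'
theorem pinl {f : γ → α} (h : NPC.Poly f) : NPC.Poly (fun a => (Sum.inl (f a) : Node α)) :=
  NPC.Poly.inl h

theorem peq {f g : γ → β} (hf : NPC.Poly f) (hg : NPC.Poly g) :
    NPC.Poly (fun a => eqb (f a) (g a)) := by
  classical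
  exact (NPC.Poly.decide_eq hf hg).congr fun a => by unfold eqb; congr

theorem pmem {f : γ → β} {l : γ → List β} (hf : NPC.Poly f) (hl : NPC.Poly l) :
    NPC.Poly (fun a => memb (f a) (l a)) :=
  NPC.Poly.any (p := fun a y => eqb (f a) y) hl (peq (pw hf) pv)

theorem pprd {l : γ → List β} {l' : γ → List δ} (hl : NPC.Poly l) (hl' : NPC.Poly l') :
    NPC.Poly (fun a => prd (l a) (l' a)) :=
  NPC.Poly.flatMap (F := fun a x => (l' a).map (fun y => (x, y))) hl
    (NPC.Poly.map (F := fun (z : γ × β) (y : δ) => (z.2, y)) (pw hl') (pp (pw pv) pv))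

section

variable {vs R S C : γ → List α} {E M : γ → List (α × α)} {A ch : γ → List (Rec α)} {h p q : γ → α}
  {D : γ → List (Q4 α)} {u : γ → Node α}

theorem pnodes (hvs : NPC.Poly vs) : NPC.Poly (fun a => nodes (vs a)) :=
  NPC.Poly.cons (pc _) (NPC.Poly.cons (pc _)
    (NPC.Poly.map (F := fun _ (x : α) => (Sum.inl x : Node α)) hvs (pinl pv)))

theorem pU2 (hvs : NPC.Poly vs) : NPC.Poly (fun a => U2 (vs a)) := pprd hvs hvs

theorem pU4 (hvs : NPC.Poly vs) : NPC.Poly (fun a => U4 (vs a)) :=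
  pprd hvs (pprd hvs (pprd (pnodes hvs) (pnodes hvs)))

theorem pfS (hE : NPC.Poly E) (hR : NPC.Poly R) (hh : NPC.Poly h) :
    NPC.Poly (fun a => fS (E a) (R a) (h a)) :=
  NPC.Poly.filter (p := fun a v => memb (h a, v) (E a)) hR (pmem (pp (pw hh) pv) (pw hE))

theorem pfCh (hA : NPC.Poly A) (hh : NPC.Poly h) : NPC.Poly (fun a => fCh (A a) (h a)) :=
  NPC.Poly.filter (p := fun a (r : Rec α) => memb (h a) r.1) hA (pmem (pw hh) (pf pv))

theorem pfC (hvs : NPC.Poly vs) (hch : NPC.Poly ch) (hh : NPC.Poly h) :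
    NPC.Poly (fun a => fC (vs a) (ch a) (h a)) :=
  NPC.Poly.filter (p := fun a v => eqb v (h a) || (ch a).any (fun r => memb v r.2.1)) hvs
    (por (peq pv (pw hh)) (NPC.Poly.any (p := fun (z : γ × α) (r : Rec α) => memb z.2 r.2.1)
      (pw hch) (pmem (pw pv) (pf (ps pv)))))

theorem pfD0 (hvs : NPC.Poly vs) (hE : NPC.Poly E) (hch : NPC.Poly ch) (hh : NPC.Poly h) :
    NPC.Poly (fun a => fD0 (vs a) (E a) (ch a) (h a)) :=
  NPC.Poly.filter (p := fun a (t : Q4 α) => (ch a).any (fun r => memb t r.2.2) ||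
    (!eqb (h a) t.1 && !eqb (h a) t.2.1 &&
    ((eqb t.2.2 (Sum.inr true, Sum.inl (h a)) && !memb (h a, t.1) (E a)) ||
      (eqb t.2.2 (Sum.inl (h a), Sum.inr false) && !memb (h a, t.2.1) (E a))))) (pU4 hvs)
    (por (NPC.Poly.any (p := fun (z : γ × Q4 α) (r : Rec α) => memb z.2 r.2.2)
      (pw hch) (pmem (pw pv) (ps (ps pv))))
      (pand (pand (pnot (peq (pw hh) (pf pv))) (pnot (peq (pw hh) (pf (ps pv)))))
        (por (pand (peq (ps (ps pv)) (pp (pc _) (pinl (pw hh))))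
          (pnot (pmem (pp (pw hh) (pf pv)) (pw hE))))
          (pand (peq (ps (ps pv)) (pp (pinl (pw hh)) (pc _)))
            (pnot (pmem (pp (pw hh) (pf (ps pv))) (pw hE)))))))

theorem pfD1 (hvs : NPC.Poly vs) (hD : NPC.Poly D) (hh : NPC.Poly h) :
    NPC.Poly (fun a => fD1 (vs a) (D a) (h a)) :=
  NPC.Poly.filter (p := fun a (t : Q4 α) => !eqb t.2.2.1 (Sum.inl (h a)) &&
    !eqb t.2.2.2 (Sum.inl (h a)) &&
    (memb t (D a) || (memb (t.1, t.2.1, t.2.2.1, Sum.inl (h a)) (D a) &&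
      memb (t.1, t.2.1, Sum.inl (h a), t.2.2.2) (D a)))) (pU4 hvs)
    (pand (pand (pnot (peq (pf (ps (ps pv))) (pinl (pw hh))))
      (pnot (peq (ps (ps (ps pv))) (pinl (pw hh)))))
      (por (pmem pv (pw hD))
        (pand (pmem (pp (pf pv) (pp (pf (ps pv)) (pp (pf (ps (ps pv))) (pinl (pw hh))))) (pw hD))
          (pmem (pp (pf pv) (pp (pf (ps pv)) (pp (pinl (pw hh)) (ps (ps (ps pv)))))) (pw hD)))))

theorem pfM0 (hvs : NPC.Poly vs) (hD : NPC.Poly D) : NPC.Poly (fun a => fM0 (vs a) (D a)) :=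
  NPC.Poly.filter (p := fun a (x : α × α) => (nodes (vs a)).all (fun v =>
    !memb (x.1, x.2, Sum.inr true, v) (D a) || eqb v (Sum.inr true))) (pU2 hvs)
    (NPC.Poly.all (p := fun (z : γ × (α × α)) (v : Node α) =>
      !memb (z.2.1, z.2.2, Sum.inr true, v) (D z.1) || eqb v (Sum.inr true)) (pw (pnodes hvs))
      (por (pnot (pmem (pp (pw (pf pv)) (pp (pw (ps pv)) (pp (pc _) pv))) (pw (pw hD))))
        (peq pv (pc _))))

theorem pfMs (hvs : NPC.Poly vs) (hE : NPC.Poly E) (hS : NPC.Poly S) (hC : NPC.Poly C)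
    (hM : NPC.Poly M) : NPC.Poly (fun a => fMs (vs a) (E a) (S a) (C a) (M a)) :=
  NPC.Poly.filter (p := fun a (x : α × α) => memb x (M a) || ((!memb x.2 (C a) &&
    (vs a).any (fun z => memb (x.1, z) (E a) &&
    ((memb z (C a) || memb z (S a)) && memb (x.1, z) (M a)))) ||
      ((S a).all (fun s => eqb s x.1 || eqb s x.2) && memb (x.2, x.1) (M a)))) (pU2 hvs)
    (por (pmem pv (pw hM)) (por (pand (pnot (pmem (ps pv) (pw hC)))
      (NPC.Poly.any (p := fun (y : γ × (α × α)) (z : α) => memb (y.2.1, z) (E y.1) &&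
        ((memb z (C y.1) || memb z (S y.1)) && memb (y.2.1, z) (M y.1))) (pw hvs)
        (pand (pmem (pp (pw (pf pv)) pv) (pw (pw hE)))
          (pand (por (pmem pv (pw (pw hC))) (pmem pv (pw (pw hS))))
            (pmem (pp (pw (pf pv)) pv) (pw (pw hM)))))))
      (pand (NPC.Poly.all (p := fun (y : γ × (α × α)) (s : α) => eqb s y.2.1 || eqb s y.2.2)
        (pw hS) (por (peq pv (pw (pf pv))) (peq pv (pw (ps pv)))))
        (pmem (pp (ps pv) (pf pv)) (pw hM)))))

theorem pisX (hS : NPC.Poly S) (hp : NPC.Poly p) (hq : NPC.Poly q) (hu : NPC.Poly u) :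
    NPC.Poly (fun a => isX (S a) (p a) (q a) (u a)) :=
  NPC.Poly.any (p := fun a s => eqb (u a) (Sum.inl s) && (!eqb s (p a) && !eqb s (q a))) hS
    (pand (peq (pw hu) (pinl pv)) (pand (pnot (peq pv (pw hp))) (pnot (peq pv (pw hq)))))

theorem pfD2 (hvs : NPC.Poly vs) (hS : NPC.Poly S) (hM : NPC.Poly M) (hD : NPC.Poly D) :
    NPC.Poly (fun a => fD2 (vs a) (S a) (M a) (D a)) :=
  NPC.Poly.filter (p := fun a (t : Q4 α) => bif memb (t.1, t.2.1) (M a) then
    ((!eqb t.2.2.1 (Sum.inr true) && memb t (D a)) ||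
      (isX (S a) t.1 t.2.1 t.2.2.1 && memb (t.1, t.2.1, Sum.inr true, t.2.2.2) (D a)))
      else memb t (D a)) (pU4 hvs)
    (NPC.Poly.cond (pmem (pp (pf pv) (pf (ps pv))) (pw hM))
      (por (pand (pnot (peq (pf (ps (ps pv))) (pc _))) (pmem pv (pw hD)))
        (pand (pisX (pw hS) (pf pv) (pf (ps pv)) (pf (ps (ps pv))))
          (pmem (pp (pf pv) (pp (pf (ps pv)) (pp (pc _) (ps (ps (ps pv)))))) (pw hD))))
      (pmem pv (pw hD)))

theorem pfD3 (hvs : NPC.Poly vs) (hS : NPC.Poly S) (hM : NPC.Poly M) (hD : NPC.Poly D) :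
    NPC.Poly (fun a => fD3 (vs a) (S a) (M a) (D a)) :=
  NPC.Poly.filter (p := fun a (t : Q4 α) => bif memb (t.2.1, t.1) (M a) then
    ((!eqb t.2.2.2 (Sum.inr false) && memb t (D a)) ||
      (isX (S a) t.1 t.2.1 t.2.2.2 && memb (t.1, t.2.1, t.2.2.1, Sum.inr false) (D a)))
      else memb t (D a)) (pU4 hvs)
    (NPC.Poly.cond (pmem (pp (pf (ps pv)) (pf pv)) (pw hM))
      (por (pand (pnot (peq (ps (ps (ps pv))) (pc _))) (pmem pv (pw hD)))
        (pand (pisX (pw hS) (pf pv) (pf (ps pv)) (ps (ps (ps pv))))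
          (pmem (pp (pf pv) (pp (pf (ps pv)) (pp (pf (ps (ps pv))) (pc _)))) (pw hD))))
      (pmem pv (pw hD)))

theorem ptD1 (hvs : NPC.Poly vs) (hE : NPC.Poly E) (hA : NPC.Poly A) (hh : NPC.Poly h) :
    NPC.Poly (fun a => tD1 (vs a) (E a) (A a) (h a)) :=
  pfD1 hvs (pfD0 hvs hE (pfCh hA hh) hh) hh

theorem ptM (hvs : NPC.Poly vs) (hE : NPC.Poly E) (hR : NPC.Poly R) (hA : NPC.Poly A)
    (hh : NPC.Poly h) (k : ℕ) : NPC.Poly (fun a => tM (vs a) (E a) (R a) (A a) (h a) k) := by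
  induction k with
  | zero => exact pfM0 hvs (ptD1 hvs hE hA hh)
  | succ k ih =>
    refine (pfMs hvs hE (pfS hE hR hh) (pfC hvs (pfCh hA hh) hh) ih).congr fun a => ?_
    unfold tM
    rw [Function.iterate_succ_apply']

theorem ptD (hvs : NPC.Poly vs) (hE : NPC.Poly E) (hR : NPC.Poly R) (hA : NPC.Poly A)
    (hh : NPC.Poly h) : NPC.Poly (fun a => tD (vs a) (E a) (R a) (A a) (h a)) :=
  pfD3 hvs (pfS hE hR hh) (ptM hvs hE hR hA hh 5)
    (pfD2 hvs (pfS hE hR hh) (ptM hvs hE hR hA hh 5) (ptD1 hvs hE hA hh))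

theorem pstepAt {st : γ → St α} (hvs : NPC.Poly vs) (hE : NPC.Poly E) (hst : NPC.Poly st)
    (hh : NPC.Poly h) : NPC.Poly (fun a => stepAt (vs a) (E a) (st a) (h a)) :=
  pp (NPC.Poly.filter (p := fun a v => !eqb v (h a)) (pf hst) (pnot (peq pv (pw hh))))
    (pp (NPC.Poly.cons (pp (pfS hE (pf hst) hh) (pp (pfC hvs (pfCh (pf (ps hst)) hh) hh)
      (ptD hvs hE (pf hst) (pf (ps hst)) hh)))
      (NPC.Poly.filter (p := fun a (r : Rec α) => !memb (h a) r.1) (pf (ps hst))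
        (pnot (pmem (pw hh) (pf pv)))))
      (pmem (pp hh hh) (pfM0 hvs (ptD1 hvs hE (pf (ps hst)) hh))))

theorem psimpl (hE : NPC.Poly E) (hR : NPC.Poly R) (hh : NPC.Poly h) :
    NPC.Poly (fun a => simpl (E a) (R a) (h a)) :=
  NPC.Poly.all (p := fun c a => (R c).all (fun b =>
    !memb (h c, a) (E c) || (!memb (h c, b) (E c) || (eqb a b || memb (a, b) (E c))))) hR
    (NPC.Poly.all (p := fun (z : γ × α) b => !memb (h z.1, z.2) (E z.1) ||
      (!memb (h z.1, b) (E z.1) || (eqb z.2 b || memb (z.2, b) (E z.1)))) (pw hR)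
      (por (pnot (pmem (pp (pw (pw hh)) (pw pv)) (pw (pw hE))))
        (por (pnot (pmem (pp (pw (pw hh)) pv) (pw (pw hE))))
          (por (peq (pw pv) pv) (pmem (pp (pw pv) pv) (pw (pw hE)))))))

theorem pstep {st : γ → St α} (hvs : NPC.Poly vs) (hE : NPC.Poly E) (hst : NPC.Poly st) :
    NPC.Poly (fun a => step (vs a) (E a) (st a)) := by
  refine (NPC.Poly.optCases (g := st) (h := fun a x => stepAt (vs a) (E a) (st a) x)
    (NPC.Poly.head? (NPC.Poly.filter (p := fun a x => simpl (E a) (st a).1 x) (pf hst)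
      (psimpl (pw hE) (pw (pf hst)) pv))) hst
    (pstepAt (pw hvs) (pw hE) (pw hst) pv)).congr fun a => ?_
  unfold step
  cases (List.filter (simpl (E a) (st a).1) (st a).1).head? <;> rfl

end

theorem sz_filter_le (l : List β) (p : β → Bool) : sz (l.filter p) ≤ sz l := by
  induction l with
  | nil => simp
  | cons x l ih =>
    rw [List.filter_cons]
    split_ifs
    · simp; omega
    · simp; omega

theorem sz_iter (vs : List α) (E : List (α × α)) (k : ℕ) :
    sz ((step vs E)^[k] (vs, [], false)).1 ≤ sz vs ∧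
      sz ((step vs E)^[k] (vs, [], false)).2.1 ≤ k * (2 * sz vs + sz (U4 vs) + 3) + 1 := by
  induction k with
  | zero => simp
  | succ k ih =>
    rw [Function.iterate_succ_apply']
    generalize (step vs E)^[k] (vs, [], false) = st at ih ⊢
    unfold step
    cases (List.filter (simpl E st.1) st.1).head? with
    | none => exact ⟨ih.1, ih.2.trans (by nlinarith)⟩
    | some h =>
      have h1 := sz_filter_le st.1 (fun v => !eqb v h)
      have h2 : sz (fS E st.1 h) ≤ sz st.1 := sz_filter_le _ _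
      have h3 : sz (fC vs (fCh st.2.1 h) h) ≤ sz vs := sz_filter_le _ _
      have h4 : sz (tD vs E st.1 st.2.1 h) ≤ sz (U4 vs) := sz_filter_le _ _
      have h5 := sz_filter_le st.2.1 (fun r => !memb h r.1)
      simp only [stepAt, sz_list_cons, sz_pair]
      constructor
      · omega
      · nlinarith

theorem palg {vs : γ → List α} {E : γ → List (α × α)} (hvs : NPC.Poly vs) (hE : NPC.Poly E) :
    NPC.Poly (fun a => alg (vs a) (E a)) := by
  obtain ⟨r1, hr1⟩ := hvs.sz_le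
  obtain ⟨r2, hr2⟩ := (pU4 hvs).sz_le
  refine ps (ps (NPC.Poly.iterLen (s := fun a => ((vs a, [], false) : St α))
    (F := fun a st => step (vs a) (E a) st) hvs (pp hvs (pc _)) (pstep (pw hvs) (pw hE) pv)
    (r1 + r1 * (Polynomial.C 2 * r1 + r2 + Polynomial.C 3) + Polynomial.C 6) ?_))
  intro a k hk
  obtain ⟨h1, h2⟩ := sz_iter (vs a) (E a) k
  have h3 := length_lt_sz (vs a)
  have h4 := hr1 a
  have h5 := hr2 a
  generalize (step (vs a) (E a))^[k] (vs a, [], false) = st at h1 h2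
  obtain ⟨x, y, z⟩ := st
  have h6 := sz_bool_le z
  simp only [sz_pair, Polynomial.eval_add, Polynomial.eval_mul, Polynomial.eval_C] at h1 h2 ⊢
  have h7 : k * (2 * sz (vs a) + sz (U4 (vs a)) + 3) ≤
      r1.eval (sz a) * (2 * r1.eval (sz a) + r2.eval (sz a) + 3) :=
    Nat.mul_le_mul (by omega) (by omega)
  omega

end Pool.Agent.H164Z.Span
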