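import Pool.Agent.H164Z.SpanLoop
import Pool.Agent.H164Z.SpanPoly
import Pool.Agent.H164Z.SpanDefs
import Pool.Agent.H673R2.TsTree
import Pool.Agent.Results.MP_24e13c_co.ChordalNERD

/-!
# Tree 3-spanners of chordal graphs: the decision procedure
-/

namespace Pool.Agent.H164Z.Span

open Pool.Agent.NPC

/-- The list of edges of a matrix. -/
def edgesOf (M : List (List Bool)) : List (ℕ × ℕ) :=
  (U2 (List.range M.length)).filter (fun x => (M.getD x.1 []).getD x.2 false)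

/-- The decision procedure. -/
noncomputable def decAlg (M : List (List Bool)) : Bool := alg (List.range M.length) (edgesOf M)

theorem poly_decAlg : NPC.Poly decAlg := by
  have h1 : NPC.Poly (fun M : List (List Bool) => List.range M.length) := NPC.Poly.range_length pi
  refine palg h1 ?_
  exact NPC.Poly.filter (p := fun M x => (M.getD x.1 []).getD x.2 false) (pU2 h1)
    (NPC.Poly.getD (NPC.Poly.getD (pf pi) (pf pv) (pc _)) (ps pv) (pc _))

variable {n : ℕ}

theorem length_adjMat (G : SimpleGraph (Fin n)) : (adjMat G).length = n := by simp [adjMat]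

theorem mem_edgesOf (G : SimpleGraph (Fin n)) {u v : ℕ} :
    (u, v) ∈ edgesOf (adjMat G) ↔ ∃ (hu : u < n) (hv : v < n), G.Adj ⟨u, hu⟩ ⟨v, hv⟩ := by
  unfold edgesOf
  rw [List.mem_filter, mem_U2, length_adjMat, List.mem_range, List.mem_range]
  constructor
  · rintro ⟨⟨hu, hv⟩, h⟩
    refine ⟨hu, hv, ?_⟩
    simpa [adjMat, List.getD_eq_getElem?_getD, hu, hv] using h
  · rintro ⟨hu, hv, h⟩
    refine ⟨⟨hu, hv⟩, ?_⟩
    simpa [adjMat, List.getD_eq_getElem?_getD, hu, hv] using h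

theorem mem_edgesOf' (G : SimpleGraph (Fin n)) {u v : Fin n} :
    (u.1, v.1) ∈ edgesOf (adjMat G) ↔ G.Adj u v := by
  rw [mem_edgesOf]
  exact ⟨fun ⟨_, _, h⟩ => h, fun h => ⟨u.2, v.2, h⟩⟩

theorem ctx_of (G : SimpleGraph (Fin n)) (hG : G.Connected) (hc : Chordal G) :
    Ctx (List.range n) (edgesOf (adjMat G)) where
  symm := by
    intro x y h
    obtain ⟨hu, hv, h⟩ := (mem_edgesOf G).1 h
    exact (mem_edgesOf G).2 ⟨hv, hu, h.symm⟩
  irr := by
    intro x h
    obtain ⟨hu, hv, h⟩ := (mem_edgesOf G).1 h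
    exact h.ne rfl
  mem := by
    intro x y h
    obtain ⟨hu, hv, h⟩ := (mem_edgesOf G).1 h
    exact List.mem_range.2 hv
  conn := by
    rintro P ⟨u, hu, hP⟩ hstep v hv
    rw [List.mem_range] at hu hv
    obtain ⟨p⟩ := hG.preconnected ⟨u, hu⟩ ⟨v, hv⟩
    have key : ∀ (a b : Fin n) (_ : G.Walk a b), P a.1 → P b.1 := by
      intro a b p
      induction p with
      | nil => exact id
      | cons h _ ih => exact fun ha => ih (hstep _ _ ha ((mem_edgesOf' G).2 h))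
    exact key _ _ p hP
  simp := by
    classical
    intro R hR hne
    let s : Finset (Fin n) := Finset.univ.filter (fun i => i.1 ∈ R)
    have hs : ∀ i : Fin n, i ∈ s ↔ i.1 ∈ R := by simp [s]
    have : ∃ z ∈ s, ∀ a ∈ s, ∀ b ∈ s, G.Adj z a → G.Adj z b → a ≠ b → G.Adj a b := by
      by_cases h : ∃ x ∈ s, ∃ y ∈ s, y ≠ x ∧ ¬ G.Adj x y
      · obtain ⟨x, hx, y, hy, hyx, hxy⟩ := h
        obtain ⟨z, hz1, _, _, hz2⟩ :=
          Pool.Agent.Results.MP_24e13c_co.ChordalNERD.exists_simplicial hc s.card s le_rfl x hx y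
            hy hyx hxy
        exact ⟨z, hz1, hz2⟩
      · obtain ⟨z, hz⟩ := List.exists_mem_of_ne_nil R hne
        refine ⟨⟨z, List.mem_range.1 (hR z hz)⟩, (hs _).2 hz, ?_⟩
        intro a ha b hb _ _ hab
        by_contra hnab
        exact h ⟨a, ha, b, hb, hab.symm, hnab⟩
    obtain ⟨z, hz, h⟩ := this
    refine ⟨z.1, (hs _).1 hz, fun a ha b hb h1 h2 hab => ?_⟩
    obtain ⟨_, ha', h1⟩ := (mem_edgesOf G).1 h1
    obtain ⟨_, hb', h2⟩ := (mem_edgesOf G).1 h2
    exact (mem_edgesOf G).2 ⟨ha', hb', h _ ((hs _).2 ha) _ ((hs _).2 hb) h1 h2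
      (fun e => hab (congrArg Fin.val e))⟩

/-- A connected graph given by a parent function is a tree. -/
theorem isTree_of_conn {V : Type} [Fintype V] (r : V) (par : V → V)
    (hconn : (SimpleGraph.fromRel fun x y : V => x ≠ r ∧ y = par x).Connected) :
    (SimpleGraph.fromRel fun x y : V => x ≠ r ∧ y = par x).IsTree := by
  classical
  set T := SimpleGraph.fromRel fun x y : V => x ≠ r ∧ y = par x with hTdef
  rw [SimpleGraph.isTree_iff_connected_and_card]
  refine ⟨hconn, ?_⟩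
  have h1 := hconn.card_vert_le_card_edgeSet_add_one
  have h2 : T.edgeSet ⊆ (fun x => s(x, par x)) '' {x | x ≠ r} := by
    intro e
    induction e using Sym2.ind with
    | _ x y =>
      intro h
      rw [SimpleGraph.mem_edgeSet, hTdef, SimpleGraph.fromRel_adj] at h
      rcases h with ⟨-, ⟨h1, h2⟩ | ⟨h1, h2⟩⟩
      · exact ⟨x, h1, by simp [h2]⟩
      · exact ⟨y, h1, by simp [h2, Sym2.eq_swap]⟩
  have h3 : Nat.card T.edgeSet ≤ Fintype.card V - 1 := by
    rw [Nat.card_coe_set_eq]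
    calc T.edgeSet.ncard ≤ ((fun x => s(x, par x)) '' {x | x ≠ r}).ncard :=
          Set.ncard_le_ncard h2 (Set.toFinite _)
      _ ≤ ({x | x ≠ r} : Set V).ncard := Set.ncard_image_le (Set.toFinite _)
      _ = Fintype.card V - 1 := by
          have : ({x | x ≠ r} : Set V) = ((Finset.univ.erase r : Finset V) : Set V) := by
            ext z; simp
          rw [this, Set.ncard_coe_finset, Finset.card_erase_of_mem (Finset.mem_univ _),
            Finset.card_univ]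
  have h4 : 0 < Fintype.card V := Fintype.card_pos_iff.2 ⟨r⟩
  have h5 : Nat.card V = Fintype.card V := Nat.card_eq_fintype_card
  omega

theorem spanner_of_ans (G : SimpleGraph (Fin n)) (hG : G.Connected)
    (h : Ans (List.range n) (edgesOf (adjMat G))) : ∃ T, IsTree3Spanner G T := by
  classical
  obtain ⟨ρ, hρ, f, hf, hnear⟩ := h
  rw [List.mem_range] at hρ
  let par : Fin n → Fin n := fun x => if h : f x.1 < n then ⟨f x.1, h⟩ else x
  have hpar : ∀ x : Fin n, x ≠ ⟨ρ, hρ⟩ → (par x).1 = f x.1 ∧ G.Adj x (par x) := by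
    intro x hx
    obtain ⟨h1, h2, h3⟩ := (mem_edgesOf G).1 (hf x.1 (List.mem_range.2 x.2)
      (fun e => hx (Fin.ext e)))
    have : par x = ⟨f x.1, h2⟩ := dif_pos h2
    rw [this]
    exact ⟨rfl, h3⟩
  set T := SimpleGraph.fromRel fun x y : Fin n => x ≠ ⟨ρ, hρ⟩ ∧ y = par x with hTdef
  have hR : ∀ (x : Fin n) (y : ℕ), (x.1 = y ∨ ((x.1 ∈ List.range n ∧ x.1 ≠ ρ ∧ y = f x.1) ∨
      (y ∈ List.range n ∧ y ≠ ρ ∧ x.1 = f y))) → ∃ y' : Fin n, y'.1 = y ∧ (x = y' ∨ T.Adj x y') := by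
    rintro x y (h | ⟨_, h1, h2⟩ | ⟨h0, h1, h2⟩)
    · exact ⟨x, h, Or.inl rfl⟩
    · have hx : x ≠ ⟨ρ, hρ⟩ := fun e => h1 (congrArg Fin.val e)
      refine ⟨par x, by rw [(hpar x hx).1, h2], Or.inr ?_⟩
      rw [hTdef, SimpleGraph.fromRel_adj]
      exact ⟨(hpar x hx).2.ne, Or.inl ⟨hx, rfl⟩⟩
    · rw [List.mem_range] at h0
      have hy : (⟨y, h0⟩ : Fin n) ≠ ⟨ρ, hρ⟩ := fun e => h1 (congrArg Fin.val e)
      have e : x = par ⟨y, h0⟩ := Fin.ext (by rw [(hpar _ hy).1, h2])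
      refine ⟨⟨y, h0⟩, rfl, Or.inr ?_⟩
      rw [hTdef, SimpleGraph.fromRel_adj]
      exact ⟨e ▸ (hpar _ hy).2.ne', Or.inr ⟨hy, e⟩⟩
  have hw : ∀ u w : Fin n, G.Adj u w → ∃ x y : Fin n, (u = x ∨ T.Adj u x) ∧ (x = y ∨ T.Adj x y) ∧
      (y = w ∨ T.Adj y w) := by
    intro u w huw
    obtain ⟨x, y, h1, h2, h3⟩ := hnear u.1 w.1 ((mem_edgesOf' G).2 huw)
    obtain ⟨x', rfl, k1⟩ := hR u x h1
    obtain ⟨y', rfl, k2⟩ := hR x' y h2
    obtain ⟨w', e, k3⟩ := hR y' w.1 h3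
    obtain rfl : w' = w := Fin.ext e
    exact ⟨x', y', k1, k2, k3⟩
  have hr : ∀ u w : Fin n, (u = w ∨ T.Adj u w) → T.Reachable u w := by
    rintro u w (rfl | h)
    · rfl
    · exact h.reachable
  have hconn : T.Connected := by
    have : Nonempty (Fin n) := ⟨⟨ρ, hρ⟩⟩
    refine SimpleGraph.Connected.mk ?_
    intro a b
    obtain ⟨p⟩ := hG.preconnected a b
    induction p with
    | nil => rfl
    | cons h _ ih =>
      obtain ⟨x, y, h1, h2, h3⟩ := hw _ _ h
      exact (((hr _ _ h1).trans (hr _ _ h2)).trans (hr _ _ h3)).trans ih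
  have hd : ∀ u w : Fin n, (u = w ∨ T.Adj u w) → T.dist u w ≤ 1 := by
    rintro u w (rfl | h)
    · simp
    · exact (SimpleGraph.dist_eq_one_iff_adj.2 h).le
  refine ⟨T, ?_, isTree_of_conn _ _ hconn, Pool.Agent.H673R2.Ts.stretch_of_adj hG hconn ?_⟩
  · intro x y h
    rw [hTdef, SimpleGraph.fromRel_adj] at h
    rcases h with ⟨-, ⟨h1, rfl⟩ | ⟨h1, rfl⟩⟩
    · exact (hpar _ h1).2
    · exact (hpar _ h1).2.symm
  · intro u w h
    obtain ⟨x, y, h1, h2, h3⟩ := hw _ _ h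
    have a1 := hconn.dist_triangle (u := u) (v := x) (w := w)
    have a2 := hconn.dist_triangle (u := x) (v := y) (w := w)
    have := hd _ _ h1
    have := hd _ _ h2
    have := hd _ _ h3
    omega

theorem treeData_of (G T : SimpleGraph (Fin n)) (h : IsTree3Spanner G T) :
    TreeData (· ∈ List.range n) (GE (edgesOf (adjMat G)))
      (fun u v => ∃ (hu : u < n) (hv : v < n), T.Adj ⟨u, hu⟩ ⟨v, hv⟩)
      (fun u v => if h : u < n ∧ v < n then T.dist ⟨u, h.1⟩ ⟨v, h.2⟩ else 0) where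
  symm := fun _ _ ⟨hu, hv, h⟩ => ⟨hv, hu, h.symm⟩
  le := fun _ _ ⟨hu, hv, h'⟩ => (mem_edgesOf G).2 ⟨hu, hv, h.1 h'⟩
  step := by
    rintro x u v hx ⟨hu, hv, h'⟩
    rw [List.mem_range] at hx
    rw [dif_pos ⟨hx, hu⟩, dif_pos ⟨hx, hv⟩]
    exact h.2.1.dist_eq_dist_add_one_of_adj _ h'
  next := by
    rintro x u v w hx ⟨hu, hv, h1⟩ ⟨_, hw, h2⟩ hne
    rw [List.mem_range] at hx
    rw [dif_pos (And.intro hx hu), dif_pos (And.intro hx hv), dif_pos (And.intro hx hw)]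
    exact Pool.Agent.H673R2.Ts.dist_next h.2.1 h1 h2 (fun e => hne (congrArg Fin.val e))
  zero := by
    intro x y hx hy
    rw [List.mem_range] at hx hy
    rw [dif_pos ⟨hx, hy⟩, h.2.1.connected.dist_eq_zero_iff, Fin.ext_iff]
    exact eq_comm
  pred := by
    intro x y k hx hy
    rw [List.mem_range] at hx hy
    rw [dif_pos ⟨hx, hy⟩]
    intro hk
    obtain ⟨p, hp⟩ := h.2.1.connected.exists_walk_length_eq_dist ⟨y, hy⟩ ⟨x, hx⟩
    rw [SimpleGraph.dist_comm, hk] at hp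
    cases p with
    | nil => simp at hp
    | @cons _ z _ h1 q =>
      refine ⟨z.1, ⟨hy, z.2, h1⟩, ?_⟩
      rw [dif_pos ⟨hx, z.2⟩]
      have a1 := SimpleGraph.dist_le q
      rw [SimpleGraph.Walk.length_cons] at hp
      have a2 := h.2.1.dist_eq_dist_add_one_of_adj ⟨x, hx⟩ h1
      rw [SimpleGraph.dist_comm] at a1
      change T.dist ⟨x, hx⟩ z = k
      omega
  three := by
    intro x y hxy
    obtain ⟨hx, hy, h'⟩ := (mem_edgesOf G).1 hxy
    rw [dif_pos ⟨hx, hy⟩]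
    have := h.2.2 ⟨x, hx⟩ ⟨y, hy⟩
    rw [SimpleGraph.dist_eq_one_iff_adj.2 h'] at this
    exact this

theorem decAlg_correct (G : SimpleGraph (Fin n)) (hG : G.Connected) (hc : Chordal G) :
    decAlg (adjMat G) = true ↔ ∃ T, IsTree3Spanner G T := by
  have hne : List.range n ≠ [] := by
    obtain ⟨x⟩ := hG.nonempty
    exact List.ne_nil_of_mem (List.mem_range.2 x.2)
  have h := alg_correct (ctx_of G hG hc) hne
  unfold decAlg
  rw [length_adjMat]
  exact ⟨fun e => spanner_of_ans G hG (h.1 e), fun ⟨T, hT⟩ => h.2 _ _ (treeData_of G T hT)⟩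

end Pool.Agent.H164Z.Span
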