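import Mathlib

/-!
# Tree 3-spanners of chordal graphs: semantic lemmas
-/

namespace Pool.Agent.H164Z.Span

variable {α : Type}

/-- Nodes of implication digraphs: vertices and the two constants. -/
abbrev Node (α : Type) : Type := α ⊕ Bool

/-- The value of a node under an assignment. -/
def val (a : α → Bool) : Node α → Bool := Sum.elim a id

@[simp] theorem val_inl (a : α → Bool) (x : α) : val a (Sum.inl x) = a x := rfl
@[simp] theorem val_inr (a : α → Bool) (b : Bool) : val a (Sum.inr b) = b := rfl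

/-- The assignment satisfies all implications. -/
def Sol (D : Node α → Node α → Prop) (a : α → Bool) : Prop :=
  ∀ u v, D u v → val a u = true → val a v = true

theorem Sol.elim_up {D0 D1 : Node α → Node α → Prop} {h : α}
    (hD : ∀ u v, D1 u v → D0 u v ∨ (D0 u (Sum.inl h) ∧ D0 (Sum.inl h) v)) {a : α → Bool}
    (ha : Sol D0 a) : Sol D1 a := by
  intro u v huv hu
  rcases hD u v huv with h1 | ⟨h1, h2⟩
  · exact ha u v h1 hu
  · exact ha _ v h2 (ha u _ h1 hu)

open Classical in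
theorem Sol.elim_down {D0 D1 : Node α → Node α → Prop} {h : α}
    (hD : ∀ u v, u ≠ Sum.inl h → v ≠ Sum.inl h →
      (D0 u v ∨ (D0 u (Sum.inl h) ∧ D0 (Sum.inl h) v)) → D1 u v) {a : α → Bool}
    (ha : Sol D1 a) : ∃ b, Sol D0 (Function.update a h b) := by
  have hv : ∀ b u, u ≠ Sum.inl h → val (Function.update a h b) u = val a u := by
    intro b u hu
    cases u with
    | inl x =>
      have : x ≠ h := fun e => hu (by rw [e])
      simp [Function.update_of_ne this]
    | inr c => rfl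
  refine ⟨decide (∃ u, u ≠ Sum.inl h ∧ D0 u (Sum.inl h) ∧ val a u = true), fun u v huv hu => ?_⟩
  by_cases h1 : u = Sum.inl h <;> by_cases h2 : v = Sum.inl h
  · rw [h1] at hu; rw [h2]; exact hu
  · subst h1
    rw [hv _ v h2]
    simp only [val_inl, Function.update_self, decide_eq_true_eq] at hu
    obtain ⟨w, hw1, hw2, hw3⟩ := hu
    exact ha w v (hD w v hw1 h2 (Or.inr ⟨hw2, huv⟩)) hw3
  · subst h2
    rw [hv _ u h1] at hu
    simp only [val_inl, Function.update_self, decide_eq_true_eq]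
    exact ⟨u, h1, huv, hu⟩
  · rw [hv _ u h1] at hu
    rw [hv _ v h2]
    exact ha u v (hD u v h1 h2 (Or.inl huv)) hu

/-- A node is a constant or a vertex in `X`. -/
def OkN (X : α → Prop) (u : Node α) : Prop := (∃ b, u = Sum.inr b) ∨ ∃ s, X s ∧ u = Sum.inl s

theorem sol_addBot {D1 D2 : Node α → Node α → Prop} {X : α → Prop}
    (hD : ∀ u v, D2 u v ↔ (u ≠ Sum.inr true ∧ D1 u v) ∨
      ((∃ s, X s ∧ u = Sum.inl s) ∧ D1 (Sum.inr true) v))
    (hs : ∀ u v, D1 u v → OkN X u) (a : α → Bool) :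
    Sol D2 a ↔ Sol D1 a ∨ ∀ s, X s → a s = false := by
  constructor
  · intro ha
    by_cases hx : ∀ s, X s → a s = false
    · exact Or.inr hx
    · left
      push Not at hx
      obtain ⟨s, hs1, hs2⟩ := hx
      intro u v huv hu
      by_cases h1 : u = Sum.inr true
      · subst h1
        exact ha (Sum.inl s) v ((hD _ _).2 (Or.inr ⟨⟨s, hs1, rfl⟩, huv⟩)) (by simpa using hs2)
      · exact ha u v ((hD _ _).2 (Or.inl ⟨h1, huv⟩)) hu
  · rintro (ha | ha) u v huv hu
    · rcases (hD _ _).1 huv with ⟨-, h⟩ | ⟨-, h⟩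
      · exact ha u v h hu
      · exact ha _ v h rfl
    · exfalso
      rcases (hD _ _).1 huv with ⟨h1, h⟩ | ⟨⟨s, h1, rfl⟩, -⟩
      · rcases hs u v h with ⟨b, rfl⟩ | ⟨s, h2, rfl⟩
        · simp only [val_inr] at hu
          exact h1 (by rw [hu])
        · simp [ha s h2] at hu
      · simp [ha s h1] at hu

theorem sol_addTop {D1 D2 : Node α → Node α → Prop} {X : α → Prop}
    (hD : ∀ u v, D2 u v ↔ (v ≠ Sum.inr false ∧ D1 u v) ∨
      ((∃ s, X s ∧ v = Sum.inl s) ∧ D1 u (Sum.inr false)))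
    (hs : ∀ u v, D1 u v → OkN X v) (a : α → Bool) :
    Sol D2 a ↔ Sol D1 a ∨ ∀ s, X s → a s = true := by
  constructor
  · intro ha
    by_cases hx : ∀ s, X s → a s = true
    · exact Or.inr hx
    · left
      push Not at hx
      obtain ⟨s, hs1, hs2⟩ := hx
      intro u v huv hu
      by_cases h1 : v = Sum.inr false
      · subst h1
        exact absurd (ha u (Sum.inl s) ((hD _ _).2 (Or.inr ⟨⟨s, hs1, rfl⟩, huv⟩)) hu) hs2
      · exact ha u v ((hD _ _).2 (Or.inl ⟨h1, huv⟩)) hu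
  · rintro (ha | ha) u v huv hu
    · rcases (hD _ _).1 huv with ⟨-, h⟩ | ⟨-, h⟩
      · exact ha u v h hu
      · exact absurd (ha u _ h hu) (by simp)
    · rcases (hD _ _).1 huv with ⟨h1, h⟩ | ⟨⟨s, h1, rfl⟩, -⟩
      · rcases hs u v h with ⟨b, rfl⟩ | ⟨s, h2, rfl⟩
        · cases b
          · exact absurd rfl h1
          · rfl
        · exact ha s h2
      · exact ha s h1

/-- At most three steps along `R`. -/
def Near (R : α → α → Prop) (u w : α) : Prop :=
  ∃ x y, (u = x ∨ R u x) ∧ (x = y ∨ R x y) ∧ (y = w ∨ R y w)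

theorem Near.mono {R R' : α → α → Prop} (h : ∀ x y, R x y → R' x y) {u w : α} (hn : Near R u w) :
    Near R' u w := by
  obtain ⟨x, y, h1, h2, h3⟩ := hn
  exact ⟨x, y, h1.imp_right (h _ _), h2.imp_right (h _ _), h3.imp_right (h _ _)⟩

theorem Near.symm {R : α → α → Prop} (h : ∀ x y, R x y → R y x) {u w : α} (hn : Near R u w) :
    Near R w u := by
  obtain ⟨x, y, h1, h2, h3⟩ := hn
  exact ⟨y, x, h3.imp Eq.symm (h _ _), h2.imp Eq.symm (h _ _), h1.imp Eq.symm (h _ _)⟩

/-- The directed edges of a partial solution. -/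
def PE (S C : List α) (p q : α) (a : α → Bool) (f : α → α) (x y : α) : Prop :=
  (x = p ∧ y = q) ∨ (x ∈ S ∧ x ≠ p ∧ x ≠ q ∧ y = bif a x then q else p) ∨
    (x ∈ C ∧ x ≠ p ∧ x ≠ q ∧ y = f x)

/-- The edges of a partial solution. -/
def HE (S C : List α) (p q : α) (a : α → Bool) (f : α → α) (x y : α) : Prop :=
  PE S C p q a f x y ∨ PE S C p q a f y x

theorem HE.symm {S C : List α} {p q : α} {a : α → Bool} {f : α → α} (x y : α)
    (h : HE S C p q a f x y) : HE S C p q a f y x := Or.symm h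

theorem HE.mono {S C S' C' : List α} {p q p' q' : α} {a a' : α → Bool} {f f' : α → α}
    (h : ∀ x y, PE S C p q a f x y → HE S' C' p' q' a' f' x y) (x y : α)
    (hxy : HE S C p q a f x y) : HE S' C' p' q' a' f' x y :=
  hxy.elim (h x y) (fun e => (h y x e).symm)

/-- The component `C` can be attached to the double star with centres `p`, `q` on `S`. -/
def Feas (G : α → α → Prop) (S C : List α) (p q : α) (a : α → Bool) : Prop :=
  ∃ f : α → α, (∀ v ∈ C, v ≠ p → v ≠ q → G v (f v)) ∧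
    ∀ u ∈ C, ∀ w, G u w → Near (HE S C p q a f) u w

variable {G : α → α → Prop} {S C : List α} {p q : α}

theorem Feas.congr {a a' : α → Bool} (h : Feas G S C p q a)
    (e : ∀ s ∈ S, s ≠ p → s ≠ q → a s = a' s) : Feas G S C p q a' := by
  obtain ⟨f, h1, h2⟩ := h
  refine ⟨f, h1, fun u hu w hw => (h2 u hu w hw).mono (HE.mono ?_)⟩
  rintro x y (h | ⟨a1, a2, a3, a4⟩ | h)
  · exact Or.inl (Or.inl h)
  · exact Or.inl (Or.inr (Or.inl ⟨a1, a2, a3, by rw [← e x a1 a2 a3]; exact a4⟩))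
  · exact Or.inl (Or.inr (Or.inr h))

theorem Feas.swap {a : α → Bool} (h : Feas G S C q p a) : Feas G S C p q (fun s => !a s) := by
  obtain ⟨f, h1, h2⟩ := h
  refine ⟨f, fun v hv a b => h1 v hv b a, fun u hu w hw => (h2 u hu w hw).mono (HE.mono ?_)⟩
  rintro x y (⟨a1, a2⟩ | ⟨a1, a2, a3, a4⟩ | ⟨a1, a2, a3, a4⟩)
  · exact Or.inr (Or.inl ⟨a2, a1⟩)
  · refine Or.inl (Or.inr (Or.inl ⟨a1, a3, a2, ?_⟩))
    rw [a4]
    beta_reduce
    cases a x <;> rfl
  · exact Or.inl (Or.inr (Or.inr ⟨a1, a3, a2, a4⟩))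

open Classical in
theorem Feas.recentre (hsymm : ∀ x y, G x y → G y x) (hirr : ∀ x, ¬ G x x) {x : α}
    (h : Feas G S C p x (fun _ => false)) (hq : q ∉ C) (hpx : G p x) (hx : x ∈ C ∨ x ∈ S) :
    Feas G S C p q (fun _ => false) := by
  obtain ⟨f, h1, h2⟩ := h
  have hxp : x ≠ p := fun e => hirr p (by rw [e] at hpx; exact hpx)
  refine ⟨Function.update f x p, fun v hv a1 a2 => ?_,
    fun u hu w hw => (h2 u hu w hw).mono (HE.mono ?_)⟩
  · by_cases e : v = x
    · subst e
      rw [Function.update_self]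
      exact hsymm _ _ hpx
    · rw [Function.update_of_ne e]
      exact h1 v hv a1 e
  · rintro y z (⟨rfl, rfl⟩ | ⟨a1, a2, a3, a4⟩ | ⟨a1, a2, a3, a4⟩)
    · by_cases e : z = q
      · exact Or.inl (Or.inl ⟨rfl, e⟩)
      · rcases hx with hx | hx
        · exact Or.inr (Or.inr (Or.inr ⟨hx, hxp, e, by rw [Function.update_self]⟩))
        · exact Or.inr (Or.inr (Or.inl ⟨hx, hxp, e, rfl⟩))
    · by_cases e : y = q
      · exact Or.inr (Or.inl ⟨a4, e⟩)
      · exact Or.inl (Or.inr (Or.inl ⟨a1, a2, e, a4⟩))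
    · refine Or.inl (Or.inr (Or.inr ⟨a1, a2, fun e => hq (e ▸ a1), ?_⟩))
      rw [Function.update_of_ne a3]
      exact a4

/-- The facts on a tree 3-spanner that are used. -/
structure TreeData (W : α → Prop) (G T : α → α → Prop) (d : α → α → ℕ) : Prop where
  symm : ∀ u v, T u v → T v u
  le : ∀ u v, T u v → G u v
  step : ∀ h u v, W h → T u v → d h u = d h v + 1 ∨ d h v = d h u + 1
  next : ∀ h u v w, W h → T u v → T v w → u ≠ w → d h v = d h u + 1 → d h w = d h v + 1
  zero : ∀ h x, W h → W x → (d h x = 0 ↔ x = h)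
  pred : ∀ h x k, W h → W x → d h x = k + 1 → ∃ y, T x y ∧ d h y = k
  three : ∀ h s, G h s → d h s ≤ 3

/-- Membership in the double star of the tree with centres `p`, `q`. -/
def InB (T : α → α → Prop) (p q s : α) : Prop := s = p ∨ s = q ∨ T s p ∨ T s q

theorem InB.swap {T : α → α → Prop} {p q s : α} (h : InB T p q s) : InB T q p s := by
  unfold InB at *
  tauto

/-- Admissible pairs of centres. -/
structure Adm (T : α → α → Prop) (S C : List α) (p q : α) : Prop where
  edge : T p q ∨ (p = q ∧ p ∉ C)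
  inB : ∀ s ∈ S, InB T p q s
  wp : p ∈ C → ∃ s ∈ S, s ≠ q ∧ T s p
  wq : q ∈ C → ∃ s ∈ S, s ≠ p ∧ T s q

open Classical in
/-- The assignment of sides given by the tree. -/
noncomputable def aT (T : α → α → Prop) (p : α) (s : α) : Bool := decide (¬ T s p)

section Tree

variable {W : α → Prop} {T : α → α → Prop} {d : α → α → ℕ}

theorem TreeData.one (hT : TreeData W G T d) {h x : α} (hh : W h) (hx : T x h) : d h x = 1 := by
  have h0 := (hT.zero h h hh hh).2 rfl
  rcases hT.step h x h hh hx with e | e <;> omega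

theorem TreeData.adj_of_one (hT : TreeData W G T d) {h x : α} (hh : W h) (hx : W x)
    (hW : ∀ u v, G u v → W v) (e : d h x = 1) : T x h := by
  obtain ⟨y, h1, h2⟩ := hT.pred h x 0 hh hx e
  rwa [(hT.zero h y hh (hW _ _ (hT.le _ _ h1))).1 h2] at h1

theorem TreeData.no_tri (hT : TreeData W G T d) (hW : ∀ u v, G u v → W v) {x y z : α}
    (h1 : T y x) (h2 : T z x) (h3 : T y z) : False := by
  have hx : W x := hW _ _ (hT.le _ _ h1)
  have a := hT.one hx h1
  have b := hT.one hx h2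
  rcases hT.step x y z hx h3 with e | e <;> omega

/-- The case analysis for a vertex `h` outside the double star. -/
theorem mono_cases (hT : TreeData W G T d) (hW : ∀ u v, G u v → W v) {h : α} (hh : W h)
    (hhC : h ∈ C) (hnb : ∀ u ∈ C, ∀ w, G u w → w ∈ C ∨ w ∈ S) (hdisj : ∀ s ∈ S, s ∉ C)
    (hS : ∀ s ∈ S, G h s) (hne : ∃ s, s ∈ S) (hp : W p) (hA : Adm T S C p q)
    (hB : ¬ InB T p q h) (hd : d h p ≤ d h q)
    {M : ℕ → α → α → Prop}
    (M0 : ∀ x y, T x y → (∀ s ∈ S, InB T x y s) → InB T x y h →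
      (x ∈ C → x ≠ h → ∃ s, (s ∈ S ∨ s = h) ∧ s ≠ y ∧ T s x) →
      (y ∈ C → y ≠ h → ∃ s, (s ∈ S ∨ s = h) ∧ s ≠ x ∧ T s y) →
      (∀ s ∈ S, s ≠ x → s ≠ y → T s x) → M 0 x y)
    (Mk : ∀ k x y, W x → W y → M k x y → M (k + 1) x y)
    (Mr : ∀ k x y z, W x → W y → y ∉ C → G x z → (z ∈ C ∨ z ∈ S) → M k x z → M (k + 1) x y)
    (Ms : ∀ k x y, W x → W y → (∀ s ∈ S, s = x ∨ s = y) → M k y x → M (k + 1) x y) :
    M 5 p q ∧ ∀ s ∈ S, s = p ∨ T s p := by
  have hq : W q := by
    rcases hA.edge with e | e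
    · exact hW _ _ (hT.le _ _ e)
    · exact e.1 ▸ hp
  have hhp : h ≠ p := fun e => hB (Or.inl e)
  have dp2 : 2 ≤ d h p := by
    have a : d h p ≠ 0 := fun e => hhp ((hT.zero h p hh hp).1 e).symm
    have b : d h p ≠ 1 := fun e =>
      hB (Or.inr (Or.inr (Or.inl (hT.symm _ _ (hT.adj_of_one hh hp hW e)))))
    omega
  have hSN : ∀ s ∈ S, s = p ∨ T s p := by
    intro s hs
    rcases hA.inB s hs with e | e | e | e
    · exact Or.inl e
    · rcases hA.edge with e' | e'
      · exact Or.inr (e ▸ hT.symm _ _ e')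
      · exact Or.inl (e.trans e'.1.symm)
    · exact Or.inr e
    · rcases hA.edge with e' | e'
      · by_cases e2 : s = p
        · exact Or.inl e2
        · exfalso
          have a : d h q = d h p + 1 := by
            rcases hT.step h p q hh e' with a | a <;> omega
          have b := hT.next h p q s hh e' (hT.symm _ _ e) (Ne.symm e2) a
          have c := hT.three h s (hS s hs)
          omega
      · exact Or.inr (e'.1 ▸ e)
  have hqC : q ∉ C := by
    intro hc
    obtain ⟨s, hs, h1, h2⟩ := hA.wq hc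
    rcases hA.edge with e' | e'
    · rcases hSN s hs with e | e
      · exact h1 e
      · exact hT.no_tri hW e (hT.symm _ _ e') h2
    · exact e'.2 (e'.1 ▸ hc)
  refine ⟨?_, hSN⟩
  have hqS : p ∈ C → q ∈ S ∧ T q p := by
    intro hc
    rcases hA.edge with e' | e'
    · exact ⟨(hnb p hc q (hT.le _ _ e')).resolve_left hqC, hT.symm _ _ e'⟩
    · exact absurd hc e'.2
  obtain ⟨x, hpx, dx⟩ := hT.pred h p (d h p - 1) hh hp (by omega)
  have hx : W x := hW _ _ (hT.le _ _ hpx)
  by_cases d2 : d h p = 2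
  · have hxh : T x h := hT.adj_of_one hh hx hW (by omega)
    have hxCS : x ∈ C ∨ x ∈ S := hnb h hhC x (hT.le _ _ (hT.symm _ _ hxh))
    have m0 : M 0 p x := by
      refine M0 p x hpx (fun s hs => ?_) (Or.inr (Or.inr (Or.inr (hT.symm _ _ hxh))))
        (fun hc _ => ?_) (fun _ _ => ⟨h, Or.inr rfl, hhp, hT.symm _ _ hxh⟩) (fun s hs a _ => ?_)
      · rcases hSN s hs with e | e
        · exact Or.inl e
        · exact Or.inr (Or.inr (Or.inl e))
      · obtain ⟨s, hs, h1, h2⟩ := hA.wp hc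
        by_cases e : s = x
        · exact ⟨q, Or.inl (hqS hc).1, fun e' => h1 (e.trans e'.symm), (hqS hc).2⟩
        · exact ⟨s, Or.inl hs, e, h2⟩
      · exact (hSN s hs).resolve_left a
    exact Mk _ _ _ hp hq (Mk _ _ _ hp hq (Mk _ _ _ hp hq (Mk _ _ _ hp hq
      (Mr _ _ _ _ hp hq hqC (hT.le _ _ hpx) hxCS m0))))
  have hSx : ∀ s ∈ S, s = p ∨ s = x := by
    intro s hs
    rcases hSN s hs with e | e
    · exact Or.inl e
    · right
      by_contra e2
      have b := hT.next h x p s hh (hT.symm _ _ hpx) (hT.symm _ _ e) (Ne.symm e2) (by omega)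
      have c := hT.three h s (hS s hs)
      omega
  have hpC : p ∉ C := by
    intro hc
    obtain ⟨s, hs, h1, h2⟩ := hA.wp hc
    have a : s = x := (hSx s hs).resolve_left (fun e => hdisj s hs (e ▸ hc))
    have b : q = x := (hSx q (hqS hc).1).resolve_left (fun e => hqC (e ▸ hc))
    exact h1 (a.trans b.symm)
  obtain ⟨y, hxy, dy⟩ := hT.pred h x (d h p - 2) hh hx (by omega)
  have hy : W y := hW _ _ (hT.le _ _ hxy)
  have hyp : y ≠ p := fun e => by rw [e] at dy; omega
  have hyx : y ≠ x := fun e => by rw [e] at dy; omega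
  have hhx : h ≠ x := fun e => by
    have := (hT.zero h x hh hx).2 e.symm
    omega
  by_cases d3 : d h p = 3
  · have hyh : T y h := hT.adj_of_one hh hy hW (by omega)
    have hyC : y ∈ C := by
      rcases hnb h hhC y (hT.le _ _ (hT.symm _ _ hyh)) with e | e
      · exact e
      · exact absurd (hSx y e) (by tauto)
    have hxCS : x ∈ C ∨ x ∈ S := hnb y hyC x (hT.le _ _ (hT.symm _ _ hxy))
    have m0 : M 0 x y := by
      refine M0 x y hxy (fun s hs => ?_) (Or.inr (Or.inr (Or.inr (hT.symm _ _ hyh))))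
        (fun hc _ => ?_) (fun _ _ => ⟨h, Or.inr rfl, hhx, hT.symm _ _ hyh⟩) (fun s hs a _ => ?_)
      · rcases hSx s hs with e | e
        · exact Or.inr (Or.inr (Or.inl (e ▸ hpx)))
        · exact Or.inl e
      · obtain ⟨s, hs⟩ := hne
        have e : s = p := (hSx s hs).resolve_right (fun e => hdisj s hs (e ▸ hc))
        exact ⟨p, Or.inl (e ▸ hs), hyp.symm, hpx⟩
      · have e : s = p := (hSx s hs).resolve_right a
        exact e ▸ hpx
    have m1 := Mr _ _ _ _ hx hp hpC (hT.le _ _ hxy) (Or.inl hyC) m0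
    have m2 := Ms _ _ _ hp hx hSx m1
    exact Mk _ _ _ hp hq (Mk _ _ _ hp hq (Mr _ _ _ _ hp hq hqC (hT.le _ _ hpx) hxCS m2))
  have hSx' : ∀ s ∈ S, s = x := by
    intro s hs
    refine (hSx s hs).resolve_left fun e => ?_
    have c := hT.three h s (hS s hs)
    rw [e] at c
    omega
  obtain ⟨s0, hs0⟩ := hne
  have hxS : x ∈ S := hSx' s0 hs0 ▸ hs0
  have d4 : d h p = 4 := by
    have c := hT.three h x (hS x hxS)
    omega
  obtain ⟨z, hyz, dz⟩ := hT.pred h y 1 hh hy (by omega)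
  have hz : W z := hW _ _ (hT.le _ _ hyz)
  have hzh : T z h := hT.adj_of_one hh hz hW dz
  have hzx : z ≠ x := fun e => by rw [e] at dz; omega
  have hhy : h ≠ y := fun e => by
    have := (hT.zero h y hh hy).2 e.symm
    omega
  have hzC : z ∈ C := (hnb h hhC z (hT.le _ _ (hT.symm _ _ hzh))).resolve_right
    (fun e => hzx (hSx' z e))
  have hyC : y ∈ C := (hnb z hzC y (hT.le _ _ (hT.symm _ _ hyz))).resolve_right
    (fun e => hyx (hSx' y e))
  have m0 : M 0 y z := by
    refine M0 y z hyz (fun s hs => ?_) (Or.inr (Or.inr (Or.inr (hT.symm _ _ hzh))))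
      (fun _ _ => ⟨x, Or.inl hxS, hzx.symm, hxy⟩)
      (fun _ _ => ⟨h, Or.inr rfl, hhy, hT.symm _ _ hzh⟩) (fun s hs _ _ => ?_)
    · exact Or.inr (Or.inr (Or.inl (hSx' s hs ▸ hxy)))
    · exact hSx' s hs ▸ hxy
  have m1 := Mr _ _ _ _ hy hx (hdisj x hxS) (hT.le _ _ hyz) (Or.inl hzC) m0
  have m2 := Ms _ _ _ hx hy (fun s hs => Or.inl (hSx' s hs)) m1
  have m3 := Mr _ _ _ _ hx hp hpC (hT.le _ _ hxy) (Or.inl hyC) m2
  have m4 := Ms _ _ _ hp hx hSx m3
  exact Mr _ _ _ _ hp hq hqC (hT.le _ _ hpx) (Or.inr hxS) m4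

end Tree

end Pool.Agent.H164Z.Span
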