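import Pool.Agent.H655Z.TD.Walk

/-! The frame of a halting computation: geometry. -/

set_option autoImplicit false
set_option linter.unusedVariables false

namespace Pool.Agent.H164Z.Src

open Pool.Agent.H431Z.LD Pool.Agent.H655Z.TD

/-- time, height, word -/
abbrev Raw : Type := ℕ × ℕ × List Bool

/-- admissible nodes -/
def Ok (τ K : ℕ) (x : Raw) : Prop :=
  x.1 ≤ τ ∧ x.2.1 ≤ K ∧ x.2.2.length ≤ x.2.1 ∧ x.2.2.length < K

/-- nodes -/
abbrev Nd (τ K : ℕ) : Type := {x : Raw // Ok τ K x}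

instance (τ K : ℕ) : Finite (Nd τ K) := by
  have h : ({x : Raw | Ok τ K x}).Finite := by
    refine ((Set.finite_Iic τ).prod ((Set.finite_Iic K).prod (List.finite_length_le Bool K))).subset ?_
    rintro ⟨a, b, c⟩ ⟨h1, h2, h3, h4⟩
    exact ⟨h1, h2, le_trans h3 h2⟩
  exact h

lemma fin8 (d : Fin 8) : d = 0 ∨ d = 1 ∨ d = 2 ∨ d = 3 ∨ d = 4 ∨ d = 5 ∨ d = 6 ∨ d = 7 := by
  revert d; decide

/-- steps -/
def Step (d : Fin 8) (x y : Raw) : Prop :=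
  ![x.2.2 = [] ∧ y = (x.1 + 1, x.2.1, []), y.2.2 = [] ∧ x = (y.1 + 1, y.2.1, []),
    y = (x.1, x.2.1 + 1, x.2.2), x = (y.1, y.2.1 + 1, y.2.2),
    y = (x.1, x.2.1, false :: x.2.2), x = (y.1, y.2.1, false :: y.2.2),
    y = (x.1, x.2.1, true :: x.2.2), x = (y.1, y.2.1, true :: y.2.2)] d

variable {x y : Raw}
lemma step0 : Step 0 x y ↔ x.2.2 = [] ∧ y = (x.1 + 1, x.2.1, []) := Iff.rfl
lemma step1 : Step 1 x y ↔ y.2.2 = [] ∧ x = (y.1 + 1, y.2.1, []) := Iff.rfl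
lemma step2 : Step 2 x y ↔ y = (x.1, x.2.1 + 1, x.2.2) := Iff.rfl
lemma step3 : Step 3 x y ↔ x = (y.1, y.2.1 + 1, y.2.2) := Iff.rfl
lemma step4 : Step 4 x y ↔ y = (x.1, x.2.1, false :: x.2.2) := Iff.rfl
lemma step5 : Step 5 x y ↔ x = (y.1, y.2.1, false :: y.2.2) := Iff.rfl
lemma step6 : Step 6 x y ↔ y = (x.1, x.2.1, true :: x.2.2) := Iff.rfl
lemma step7 : Step 7 x y ↔ x = (y.1, y.2.1, true :: y.2.2) := Iff.rfl

lemma Step.opp {d : Fin 8} (h : Step d x y) : Step (opp d) y x := by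
  rcases fin8 d with rfl | rfl | rfl | rfl | rfl | rfl | rfl | rfl <;> exact h

/-- the directions present at a node -/
def Pres (τ K : ℕ) (d : Fin 8) (x : Raw) : Prop :=
  ![x.2.2.head? = none ∧ x.1 < τ, x.2.2.head? = none ∧ 0 < x.1, x.2.1 < K, x.2.2.length < x.2.1,
    x.2.2.length < x.2.1 ∧ x.2.2.length + 1 < K, x.2.2.head? = some false,
    x.2.2.length < x.2.1 ∧ x.2.2.length + 1 < K, x.2.2.head? = some true] d

variable {τ K : ℕ}
lemma pres0 : Pres τ K 0 x ↔ x.2.2.head? = none ∧ x.1 < τ := Iff.rfl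
lemma pres1 : Pres τ K 1 x ↔ x.2.2.head? = none ∧ 0 < x.1 := Iff.rfl
lemma pres2 : Pres τ K 2 x ↔ x.2.1 < K := Iff.rfl
lemma pres3 : Pres τ K 3 x ↔ x.2.2.length < x.2.1 := Iff.rfl
lemma pres4 : Pres τ K 4 x ↔ x.2.2.length < x.2.1 ∧ x.2.2.length + 1 < K := Iff.rfl
lemma pres5 : Pres τ K 5 x ↔ x.2.2.head? = some false := Iff.rfl
lemma pres6 : Pres τ K 6 x ↔ x.2.2.length < x.2.1 ∧ x.2.2.length + 1 < K := Iff.rfl
lemma pres7 : Pres τ K 7 x ↔ x.2.2.head? = some true := Iff.rfl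

/-- moves -/
def mv (d : Fin 8) (x : Raw) : Raw :=
  ![(x.1 + 1, x.2.1, x.2.2), (x.1 - 1, x.2.1, x.2.2), (x.1, x.2.1 + 1, x.2.2),
    (x.1, x.2.1 - 1, x.2.2), (x.1, x.2.1, false :: x.2.2), (x.1, x.2.1, x.2.2.tail),
    (x.1, x.2.1, true :: x.2.2), (x.1, x.2.1, x.2.2.tail)] d

lemma mv0 : mv 0 x = (x.1 + 1, x.2.1, x.2.2) := rfl
lemma mv1 : mv 1 x = (x.1 - 1, x.2.1, x.2.2) := rfl
lemma mv2 : mv 2 x = (x.1, x.2.1 + 1, x.2.2) := rfl
lemma mv3 : mv 3 x = (x.1, x.2.1 - 1, x.2.2) := rfl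
lemma mv4 : mv 4 x = (x.1, x.2.1, false :: x.2.2) := rfl
lemma mv5 : mv 5 x = (x.1, x.2.1, x.2.2.tail) := rfl
lemma mv6 : mv 6 x = (x.1, x.2.1, true :: x.2.2) := rfl
lemma mv7 : mv 7 x = (x.1, x.2.1, x.2.2.tail) := rfl

lemma ok_mv {d : Fin 8} (h : Ok τ K x) (hp : Pres τ K d x) : Ok τ K (mv d x) := by
  obtain ⟨t, j, w⟩ := x
  rcases fin8 d with rfl | rfl | rfl | rfl | rfl | rfl | rfl | rfl <;>
    simp only [Ok, pres0, pres1, pres2, pres3, pres4, pres5, pres6, pres7, mv0, mv1, mv2, mv3, mv4,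
      mv5, mv6, mv7, List.length_cons, List.length_tail] at h hp ⊢ <;> omega

lemma step_iff {d : Fin 8} (hx : Ok τ K x) (hy : Ok τ K y) :
    Step d x y ↔ Pres τ K d x ∧ y = mv d x := by
  obtain ⟨t, j, w⟩ := x
  obtain ⟨t', j', w'⟩ := y
  rcases fin8 d with rfl | rfl | rfl | rfl | rfl | rfl | rfl | rfl <;>
    simp only [Ok, pres0, pres1, pres2, pres3, pres4, pres5, pres6, pres7, mv0, mv1, mv2, mv3, mv4,
      mv5, mv6, mv7, step0, step1, step2, step3, step4, step5, step6, step7, Prod.mk.injEq,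
      List.head?_eq_none_iff] at hx hy ⊢
  · constructor
    · rintro ⟨rfl, rfl, rfl, rfl⟩; exact ⟨⟨rfl, by omega⟩, rfl, rfl, rfl⟩
    · rintro ⟨⟨rfl, -⟩, rfl, rfl, rfl⟩; exact ⟨rfl, rfl, rfl, rfl⟩
  · constructor
    · rintro ⟨rfl, rfl, rfl, rfl⟩; exact ⟨⟨rfl, by omega⟩, by omega, rfl, rfl⟩
    · rintro ⟨⟨rfl, h⟩, rfl, rfl, rfl⟩; exact ⟨rfl, by omega, rfl, rfl⟩
  · constructor
    · rintro ⟨rfl, rfl, rfl⟩; exact ⟨by omega, rfl, rfl, rfl⟩
    · rintro ⟨-, h⟩; exact h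
  · constructor
    · rintro ⟨rfl, rfl, rfl⟩; exact ⟨by omega, rfl, by omega, rfl⟩
    · rintro ⟨h, rfl, rfl, rfl⟩; exact ⟨rfl, by omega, rfl⟩
  · constructor
    · rintro ⟨rfl, rfl, rfl⟩
      simp only [List.length_cons] at hy
      exact ⟨by omega, rfl, rfl, rfl⟩
    · rintro ⟨-, h⟩; exact h
  · constructor
    · rintro ⟨rfl, rfl, rfl⟩; exact ⟨rfl, rfl, rfl, rfl⟩
    · rintro ⟨h, rfl, rfl, rfl⟩
      cases w <;> simp_all
  · constructor
    · rintro ⟨rfl, rfl, rfl⟩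
      simp only [List.length_cons] at hy
      exact ⟨by omega, rfl, rfl, rfl⟩
    · rintro ⟨-, h⟩; exact h
  · constructor
    · rintro ⟨rfl, rfl, rfl⟩; exact ⟨rfl, rfl, rfl, rfl⟩
    · rintro ⟨h, rfl, rfl, rfl⟩
      cases w <;> simp_all

open Classical in
/-- neighbours -/
noncomputable def nbF (n : Nd τ K) (d : Fin 8) : Option (Nd τ K) :=
  if h : Pres τ K d n.1 then some ⟨mv d n.1, ok_mv n.2 h⟩ else none

lemma nbF_iff {n m : Nd τ K} {d : Fin 8} : nbF n d = some m ↔ Step d n.1 m.1 := by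
  rw [step_iff n.2 m.2]
  unfold nbF
  split_ifs with h
  · simp only [Option.some.injEq, h, true_and]
    exact ⟨fun e => by rw [← e], fun e => Subtype.ext e.symm⟩
  · simp [h]

lemma nbF_isSome {n : Nd τ K} {d : Fin 8} : (nbF n d).isSome ↔ Pres τ K d n.1 := by
  unfold nbF
  split_ifs with h <;> simp [h]

/-- shapes -/
abbrev Sh : Type := Fin 11 × Fin 11 × Fin 11 × (Fin 5 → Option Bool) × (Fin 5 → Bool)

/-- residue -/
def m11 (n : ℕ) : Fin 11 := ⟨n % 11, Nat.mod_lt _ (by norm_num)⟩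

/-- the shape of a node -/
def sh (τ K : ℕ) (x : Raw) : Sh :=
  (m11 x.1, m11 x.2.1, m11 x.2.2.length, fun i => x.2.2[i.val]?,
    ![decide (x.1 < τ), decide (0 < x.1), decide (x.2.1 < K), decide (x.2.2.length < x.2.1),
      decide (x.2.2.length + 1 = x.2.1)])

lemma sh_eq (h : sh τ K x = sh τ K y) : x.1 % 11 = y.1 % 11 ∧ x.2.1 % 11 = y.2.1 % 11 ∧
    x.2.2.length % 11 = y.2.2.length % 11 ∧ (∀ i < 5, x.2.2[i]? = y.2.2[i]?) ∧
    (x.1 < τ ↔ y.1 < τ) ∧ (0 < x.1 ↔ 0 < y.1) ∧ (x.2.1 < K ↔ y.2.1 < K) ∧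
    (x.2.2.length < x.2.1 ↔ y.2.2.length < y.2.1) ∧
    (x.2.2.length + 1 = x.2.1 ↔ y.2.2.length + 1 = y.2.1) := by
  simp only [sh, m11, Prod.mk.injEq, Fin.mk.injEq] at h
  obtain ⟨h1, h2, h3, h4, h5⟩ := h
  refine ⟨h1, h2, h3, fun i hi => congrFun h4 ⟨i, hi⟩, ?_, ?_, ?_, ?_, ?_⟩
  · simpa using congrFun h5 0
  · simpa using congrFun h5 1
  · simpa using congrFun h5 2
  · simpa using congrFun h5 3
  · simpa using congrFun h5 4

lemma pres_sh {d : Fin 8} (hx : Ok τ K x) (hy : Ok τ K y) (h : sh τ K x = sh τ K y)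
    (hp : Pres τ K d x) : Pres τ K d y := by
  obtain ⟨-, -, -, h4, h5, h6, h7, h8, h9⟩ := sh_eq h
  have h0 : x.2.2.head? = y.2.2.head? := by
    rw [List.head?_eq_getElem?, List.head?_eq_getElem?]; exact h4 0 (by norm_num)
  unfold Ok at hx hy
  rcases fin8 d with rfl | rfl | rfl | rfl | rfl | rfl | rfl | rfl <;>
    simp only [pres0, pres1, pres2, pres3, pres4, pres5, pres6, pres7, h0] at hp ⊢
  · exact ⟨hp.1, h5.1 hp.2⟩
  · exact ⟨hp.1, h6.1 hp.2⟩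
  · exact h7.1 hp
  · exact h8.1 hp
  · omega
  · exact hp
  · omega
  · exact hp

variable {X : Type} (ex : Raw → X)

variable (τ K) in
/-- the frame -/
noncomputable def frame : Frame (Nd τ K) (X × Sh) where
  col n := (ex n.1, sh τ K n.1)
  nb := nbF
  nb_opp n d m h := nbF_iff.2 (nbF_iff.1 h).opp

lemma sq_symm {N Col : Type} {F : Frame N Col} {n : N} {d1 d2 : Fin 8} (h : F.Sq n d1 d2) :
    F.Sq n d2 d1 := by
  obtain ⟨h0, m1, m2, z, h1, h2, h3, h4⟩ := h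
  exact ⟨by rw [h0, not_not], m2, m1, z, h2, h1, h4, h3⟩

lemma sq_raw {n : Nd τ K} {d1 d2 : Fin 8} : (frame τ K ex).Sq n d1 d2 ↔ (isV d1 ↔ ¬ isV d2) ∧
    Pres τ K d1 n.1 ∧ Pres τ K d2 n.1 ∧ Pres τ K d2 (mv d1 n.1) ∧ Pres τ K d1 (mv d2 n.1) ∧
      mv d2 (mv d1 n.1) = mv d1 (mv d2 n.1) := by
  constructor
  · rintro ⟨h0, m1, m2, z, h1, h2, h3, h4⟩
    obtain ⟨a1, b1⟩ := (step_iff n.2 m1.2).1 (nbF_iff.1 h1)
    obtain ⟨a2, b2⟩ := (step_iff n.2 m2.2).1 (nbF_iff.1 h2)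
    obtain ⟨a3, b3⟩ := (step_iff m1.2 z.2).1 (nbF_iff.1 h3)
    obtain ⟨a4, b4⟩ := (step_iff m2.2 z.2).1 (nbF_iff.1 h4)
    rw [b1] at a3 b3
    rw [b2] at a4 b4
    exact ⟨h0, a1, a2, a3, a4, b3.symm.trans b4⟩
  · rintro ⟨h0, a1, a2, a3, a4, e⟩
    have o1 := ok_mv n.2 a1
    have o2 := ok_mv n.2 a2
    have o3 := ok_mv o1 a3
    exact ⟨h0, ⟨_, o1⟩, ⟨_, o2⟩, ⟨_, o3⟩, nbF_iff.2 ((step_iff n.2 o1).2 ⟨a1, rfl⟩),
      nbF_iff.2 ((step_iff n.2 o2).2 ⟨a2, rfl⟩), nbF_iff.2 ((step_iff o1 o3).2 ⟨a3, rfl⟩),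
      nbF_iff.2 ((step_iff o2 o3).2 ⟨a4, e⟩)⟩

lemma sq_V {n : Nd τ K} {d1 d2 : Fin 8} (h1 : isV d1) (h2 : ¬ isV d2) :
    (frame τ K ex).Sq n d1 d2 ↔ Pres τ K d1 n.1 ∧ Pres τ K d2 n.1 ∧
      ¬ (d1 = 3 ∧ (d2 = 4 ∨ d2 = 6) ∧ n.1.2.2.length + 1 = n.1.2.1) := by
  rw [sq_raw]
  obtain ⟨⟨t, j, w⟩, hn⟩ := n
  simp only [h1, h2, not_false_eq_true, true_and]
  unfold Ok at hn
  rcases h1 with rfl | rfl <;>
  rcases fin8 d2 with rfl | rfl | rfl | rfl | rfl | rfl | rfl | rfl <;>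
    first
    | exact absurd (by decide) h2
    | (simp only [pres0, pres1, pres2, pres3, pres4, pres5, pres6, pres7, mv0, mv1, mv2, mv3, mv4,
        mv5, mv6, mv7, List.length_cons, List.length_tail, Fin.reduceEq, and_true, true_and,
        false_and, or_false, false_or, or_self, and_false, not_false_eq_true, true_or,
        or_true] at hn ⊢
       first | tauto | omega | (constructor <;> intro h <;> simp only [h, true_and, and_true] <;> omega))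

/-! ### offsets -/

/-- time offset -/
def dT (d : Fin 8) : ℕ := ![1, 10, 0, 0, 0, 0, 0, 0] d
/-- height offset -/
def dJ (d : Fin 8) : ℕ := ![0, 0, 1, 10, 0, 0, 0, 0] d
/-- length offset -/
def dL (d : Fin 8) : ℕ := ![0, 0, 0, 0, 1, 10, 1, 10] d

/-- shapes along an edge -/
def RS (d : Fin 8) (a b : Sh) : Prop :=
  b.1.val = (a.1.val + dT d) % 11 ∧ b.2.1.val = (a.2.1.val + dJ d) % 11 ∧
    b.2.2.1.val = (a.2.2.1.val + dL d) % 11 ∧ (isV d → b.2.2.2.1 0 = a.2.2.2.1 0) ∧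
    (d = 4 → b.2.2.2.1 0 = some false) ∧ (d = 6 → b.2.2.2.1 0 = some true) ∧
    (d = 5 → a.2.2.2.1 0 = some false) ∧ (d = 7 → a.2.2.2.1 0 = some true)

lemma rs_of_step {d : Fin 8} (h : Step d x y) : RS d (sh τ K x) (sh τ K y) := by
  obtain ⟨t, j, w⟩ := x
  obtain ⟨t', j', w'⟩ := y
  rcases fin8 d with rfl | rfl | rfl | rfl | rfl | rfl | rfl | rfl <;>
    simp only [step0, step1, step2, step3, step4, step5, step6, step7, Prod.mk.injEq] at h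
  · obtain ⟨rfl, rfl, rfl, rfl⟩ := h
    simp [RS, sh, m11, dT, dJ, dL, isV]
  · obtain ⟨rfl, rfl, rfl, rfl⟩ := h
    simp [RS, sh, m11, dT, dJ, dL, isV]; omega
  · obtain ⟨rfl, rfl, rfl⟩ := h
    simp [RS, sh, m11, dT, dJ, dL, isV]
  · obtain ⟨rfl, rfl, rfl⟩ := h
    simp [RS, sh, m11, dT, dJ, dL, isV]; omega
  · obtain ⟨rfl, rfl, rfl⟩ := h
    simp [RS, sh, m11, dT, dJ, dL, isV]
  · obtain ⟨rfl, rfl, rfl⟩ := h
    simp [RS, sh, m11, dT, dJ, dL, isV]; omega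
  · obtain ⟨rfl, rfl, rfl⟩ := h
    simp [RS, sh, m11, dT, dJ, dL, isV]
  · obtain ⟨rfl, rfl, rfl⟩ := h
    simp [RS, sh, m11, dT, dJ, dL, isV]; omega

lemma rs_of_rel {d : Fin 8} {a b : X × Sh} (h : (frame τ K ex).rel d a b) : RS d a.2 b.2 := by
  obtain ⟨n, m, rfl, rfl, h⟩ := h
  exact rs_of_step (nbF_iff.1 h)

lemma dec_dbl : ∀ d d' : Fin 8, dT d % 11 = dT d' % 11 → dJ d % 11 = dJ d' % 11 →
    dL d % 11 = dL d' % 11 →
    d = d' ∨ (d = 4 ∧ d' = 6) ∨ (d = 6 ∧ d' = 4) ∨ (d = 5 ∧ d' = 7) ∨ (d = 7 ∧ d' = 5) := by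
  decide

lemma dec_V : ∀ d : Fin 8, (isV d → dT d = 0 ∧ dL d = 0) ∧ (¬ isV d → dJ d = 0) := by decide

lemma dec_VV : ∀ d d' : Fin 8, isV d → isV d' → (dJ d + dJ d') % 11 = 0 → d' = opp d := by decide

/-! ### local injectivity -/

/-- invariant of short walks -/
def Inv (r : ℕ) (x y : Raw) : Prop :=
  (x.1 ≤ y.1 + r ∧ y.1 ≤ x.1 + r) ∧ (x.2.1 ≤ y.2.1 + r ∧ y.2.1 ≤ x.2.1 + r) ∧
    ∃ a b, a + b ≤ r ∧ a ≤ x.2.2.length ∧ b ≤ y.2.2.length ∧ x.2.2.drop a = y.2.2.drop b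

lemma Inv.step {r : ℕ} {z : Raw} {d : Fin 8} (h : Inv r x y) (hs : Step d y z) :
    Inv (r + 1) x z := by
  obtain ⟨t, j, w⟩ := y
  obtain ⟨t', j', w'⟩ := z
  obtain ⟨h1, h2, a, b, h3, h4, h5, h6⟩ := h
  have up : ∀ s, w = s :: w' → ∃ a b, a + b ≤ r + 1 ∧ a ≤ x.2.2.length ∧ b ≤ w'.length ∧
      x.2.2.drop a = w'.drop b := by
    rintro s rfl
    simp only [List.length_cons] at h5 h6
    rcases b with _ | b
    · refine ⟨a + 1, 0, by omega, ?_, Nat.zero_le _, ?_⟩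
      · have := congrArg List.length h6
        simp only [List.length_drop, List.drop_zero, List.length_cons] at this
        omega
      · rw [← List.drop_drop, h6]
        simp
    · exact ⟨a, b, by omega, h4, by omega, by simpa using h6⟩
  simp only at h1 h2 h5 h6
  rcases fin8 d with rfl | rfl | rfl | rfl | rfl | rfl | rfl | rfl <;>
    simp only [step0, step1, step2, step3, step4, step5, step6, step7, Prod.mk.injEq] at hs
  · obtain ⟨rfl, rfl, rfl, rfl⟩ := hs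
    exact ⟨by simp only; omega, by simp only; omega, a, b, by omega, h4, h5, h6⟩
  · obtain ⟨rfl, rfl, rfl, rfl⟩ := hs
    exact ⟨by simp only; omega, by simp only; omega, a, b, by omega, h4, h5, h6⟩
  · obtain ⟨rfl, rfl, rfl⟩ := hs
    exact ⟨by simp only; omega, by simp only; omega, a, b, by omega, h4, h5, h6⟩
  · obtain ⟨rfl, rfl, rfl⟩ := hs
    exact ⟨by simp only; omega, by simp only; omega, a, b, by omega, h4, h5, h6⟩
  · obtain ⟨rfl, rfl, rfl⟩ := hs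
    exact ⟨by simp only; omega, by simp only; omega, a, b + 1, by omega, h4, by simpa using h5,
      by simpa using h6⟩
  · obtain ⟨rfl, rfl, e⟩ := hs
    exact ⟨by simp only; omega, by simp only; omega, up _ e⟩
  · obtain ⟨rfl, rfl, rfl⟩ := hs
    exact ⟨by simp only; omega, by simp only; omega, a, b + 1, by omega, h4, by simpa using h5,
      by simpa using h6⟩
  · obtain ⟨rfl, rfl, e⟩ := hs
    exact ⟨by simp only; omega, by simp only; omega, up _ e⟩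

lemma inv_of_near {n : Nd τ K} : ∀ (r : ℕ) {m : Nd τ K}, Near (frame τ K ex).adj r n m →
    Inv r n.1 m.1 := by
  intro r
  induction r with
  | zero =>
    intro m h
    obtain rfl : n = m := h
    exact ⟨⟨le_rfl, le_rfl⟩, ⟨le_rfl, le_rfl⟩, 0, 0, le_rfl, Nat.zero_le _, Nat.zero_le _, rfl⟩
  | succ r ih =>
    rintro m (h | ⟨z, h1, d, h2⟩)
    · obtain ⟨h1, h2, a, b, h3, h4⟩ := ih h
      exact ⟨by omega, by omega, a, b, by omega, h4⟩
    · exact (ih h1).step (nbF_iff.1 h2)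

/-- the weak coordinates agree -/
def Key (x y : Raw) : Prop := x.1 % 11 = y.1 % 11 ∧ x.2.1 % 11 = y.2.1 % 11 ∧
  x.2.2.length % 11 = y.2.2.length % 11 ∧ ∀ i < 4, x.2.2[i]? = y.2.2[i]?

lemma eq_of_key (h : Inv 9 x y) (hk : Key x y) : x = y := by
  obtain ⟨t, j, w⟩ := x
  obtain ⟨t', j', w'⟩ := y
  obtain ⟨h1, h2, a, b, h3, h4, h5, h6⟩ := h
  obtain ⟨k1, k2, k3, k4⟩ := hk
  simp only at h1 h2 h4 h5 h6 k1 k2 k3 k4
  have hl := congrArg List.length h6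
  simp only [List.length_drop] at hl
  obtain rfl : a = b := by omega
  refine Prod.ext (by simp only; omega) (Prod.ext (by simp only; omega) ?_)
  refine List.ext_getElem? fun i => ?_
  by_cases hi : i < 4
  · exact k4 i hi
  · have := congrArg (fun l => l[i - a]?) h6
    simp only [List.getElem?_drop] at this
    rwa [show a + (i - a) = i by omega] at this

lemma key_of_sh (h : sh τ K x = sh τ K y) : Key x y := by
  obtain ⟨h1, h2, h3, h4, -⟩ := sh_eq h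
  exact ⟨h1, h2, h3, fun i hi => h4 i (by omega)⟩

lemma key_step {d : Fin 8} {x' y' : Raw} (h : Step d x y) (h' : Step d x' y')
    (e : sh τ K x = sh τ K x') : Key y y' := by
  obtain ⟨h1, h2, h3, h4, -⟩ := sh_eq e
  obtain ⟨t, j, w⟩ := x
  obtain ⟨t', j', w'⟩ := y
  obtain ⟨u, k, v⟩ := x'
  obtain ⟨u', k', v'⟩ := y'
  simp only at h1 h2 h3 h4
  rcases fin8 d with rfl | rfl | rfl | rfl | rfl | rfl | rfl | rfl <;>
    simp only [step0, step1, step2, step3, step4, step5, step6, step7, Prod.mk.injEq] at h h'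
  · obtain ⟨rfl, rfl, rfl, rfl⟩ := h
    obtain ⟨rfl, rfl, rfl, rfl⟩ := h'
    exact ⟨by simp only; omega, h2, rfl, fun _ _ => rfl⟩
  · obtain ⟨rfl, rfl, rfl, rfl⟩ := h
    obtain ⟨rfl, rfl, rfl, rfl⟩ := h'
    exact ⟨by simp only; omega, h2, rfl, fun _ _ => rfl⟩
  · obtain ⟨rfl, rfl, rfl⟩ := h
    obtain ⟨rfl, rfl, rfl⟩ := h'
    exact ⟨h1, by simp only; omega, h3, fun i hi => h4 i (by omega)⟩
  · obtain ⟨rfl, rfl, rfl⟩ := h
    obtain ⟨rfl, rfl, rfl⟩ := h'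
    exact ⟨h1, by simp only; omega, h3, fun i hi => h4 i (by omega)⟩
  · obtain ⟨rfl, rfl, rfl⟩ := h
    obtain ⟨rfl, rfl, rfl⟩ := h'
    refine ⟨h1, h2, by simp only [List.length_cons]; omega, fun i hi => ?_⟩
    rcases i with _ | i
    · rfl
    · simpa using h4 i (by omega)
  · obtain ⟨rfl, rfl, rfl⟩ := h
    obtain ⟨rfl, rfl, rfl⟩ := h'
    refine ⟨h1, h2, by simp only [List.length_cons] at h3 ⊢; omega, fun i hi => ?_⟩
    simpa using h4 (i + 1) (by omega)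
  · obtain ⟨rfl, rfl, rfl⟩ := h
    obtain ⟨rfl, rfl, rfl⟩ := h'
    refine ⟨h1, h2, by simp only [List.length_cons]; omega, fun i hi => ?_⟩
    rcases i with _ | i
    · rfl
    · simpa using h4 i (by omega)
  · obtain ⟨rfl, rfl, rfl⟩ := h
    obtain ⟨rfl, rfl, rfl⟩ := h'
    refine ⟨h1, h2, by simp only [List.length_cons] at h3 ⊢; omega, fun i hi => ?_⟩
    simpa using h4 (i + 1) (by omega)

/-! ### short cycles -/

/-- the letter of a direction -/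
def wd (d : Fin 8) : List (Fin 3 × Bool) :=
  ![[(0, true)], [(0, false)], [], [], [(1, true)], [(1, false)], [(2, true)], [(2, false)]] d

/-- integer height offset -/
def zJ (d : Fin 8) : ℤ := ![0, 0, 1, -1, 0, 0, 0, 0] d

/-- the image of a word in the free group -/
def phiW (t : ℕ) : List Bool → FreeGroup (Fin 3)
  | [] => FreeGroup.of 0 ^ t
  | s :: w => phiW t w * FreeGroup.of (if s then 2 else 1)

lemma mk_false (i : Fin 3) : FreeGroup.mk [(i, false)] = (FreeGroup.of i)⁻¹ := by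
  rw [FreeGroup.of, FreeGroup.inv_mk]; rfl

lemma phi_step {d : Fin 8} (h : Step d x y) :
    phiW y.1 y.2.2 = phiW x.1 x.2.2 * FreeGroup.mk (wd d) ∧ (y.2.1 : ℤ) = x.2.1 + zJ d := by
  obtain ⟨t, j, w⟩ := x
  obtain ⟨t', j', w'⟩ := y
  rcases fin8 d with rfl | rfl | rfl | rfl | rfl | rfl | rfl | rfl <;>
    simp only [step0, step1, step2, step3, step4, step5, step6, step7, Prod.mk.injEq] at h
  · obtain ⟨rfl, rfl, rfl, rfl⟩ := h
    exact ⟨pow_succ _ _, by simp [zJ]⟩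
  · obtain ⟨rfl, rfl, rfl, rfl⟩ := h
    refine ⟨?_, by simp [zJ]⟩
    change _ = _ * FreeGroup.mk [(0, false)]
    simp [mk_false, phiW, pow_succ]
  · obtain ⟨rfl, rfl, rfl⟩ := h
    exact ⟨(mul_one _).symm, by simp [zJ]⟩
  · obtain ⟨rfl, rfl, rfl⟩ := h
    exact ⟨(mul_one _).symm, by simp [zJ]⟩
  · obtain ⟨rfl, rfl, rfl⟩ := h
    exact ⟨rfl, by simp [zJ]⟩
  · obtain ⟨rfl, rfl, rfl⟩ := h
    refine ⟨?_, by simp [zJ]⟩
    change _ = _ * FreeGroup.mk [(1, false)]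
    simp [mk_false, phiW]
  · obtain ⟨rfl, rfl, rfl⟩ := h
    exact ⟨rfl, by simp [zJ]⟩
  · obtain ⟨rfl, rfl, rfl⟩ := h
    refine ⟨?_, by simp [zJ]⟩
    change _ = _ * FreeGroup.mk [(2, false)]
    simp [mk_false, phiW]

lemma red_nil {L : List (Fin 3 × Bool)} (h : FreeGroup.mk L = 1) : FreeGroup.reduce L = [] := by
  have := congrArg FreeGroup.toWord h
  rwa [FreeGroup.toWord_mk, FreeGroup.toWord_one] at this

lemma dec_c1 : ∀ d : Fin 8, FreeGroup.reduce (wd d) = [] → zJ d ≠ 0 := by decide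

lemma dec_c3 : ∀ d1 d2 d3 : Fin 8, FreeGroup.reduce (wd d1 ++ wd d2 ++ wd d3) = [] →
    zJ d1 + zJ d2 + zJ d3 ≠ 0 := by decide +kernel

lemma dec_c4 : ∀ d1 d2 d3 d4 : Fin 8, d2 ≠ opp d1 → d3 ≠ opp d2 → d4 ≠ opp d3 →
    zJ d1 + zJ d2 + zJ d3 + zJ d4 = 0 → FreeGroup.reduce (wd d1 ++ wd d2 ++ wd d3 ++ wd d4) = [] →
    d3 = opp d1 ∧ d4 = opp d2 ∧ (isV d1 ↔ ¬ isV d2) := by decide +kernel

end Pool.Agent.H164Z.Src
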