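import Pool.Agent.H164Z.SrcFrame

/-! The frame of a halting computation is good. -/

set_option autoImplicit false
set_option linter.unusedVariables false

namespace Pool.Agent.H164Z.Src

open Pool.Agent.H431Z.LD Pool.Agent.H655Z.TD

variable {τ K : ℕ} {X : Type} (ex : Raw → X)

lemma anchor (hτ : 0 < τ) (n : Nd τ K) :
    ∃ e, (e = 0 ∨ e = 1 ∨ e = 5 ∨ e = 7) ∧ Pres τ K e n.1 := by
  obtain ⟨⟨t, j, w⟩, hn⟩ := n
  rcases w with _ | ⟨_ | _, w⟩
  · by_cases h : t < τ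
    · exact ⟨0, by simp, rfl, h⟩
    · exact ⟨1, by simp, rfl, by simp only; omega⟩
  · exact ⟨5, by simp, rfl⟩
  · exact ⟨7, by simp, rfl⟩

lemma sq_anchor {n : Nd τ K} {e v : Fin 8} (he : e = 0 ∨ e = 1 ∨ e = 5 ∨ e = 7) (hv : isV v)
    (h1 : Pres τ K e n.1) (h2 : Pres τ K v n.1) : (frame τ K ex).Sq n v e := by
  refine (sq_V ex hv (by rcases he with rfl | rfl | rfl | rfl <;> decide)).2 ⟨h2, h1, ?_⟩
  rcases he with rfl | rfl | rfl | rfl <;> simp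

lemma partner (n : Nd τ K) {d : Fin 8} (hd : ¬ isV d) (h : Pres τ K d n.1) :
    ∃ v, isV v ∧ (frame τ K ex).Sq n v d := by
  have hn := n.2
  unfold Ok at hn
  by_cases hj : n.1.2.1 < K
  · exact ⟨2, by decide, (sq_V ex (by decide) hd).2 ⟨hj, h, by simp⟩⟩
  · refine ⟨3, by decide, (sq_V ex (by decide) hd).2 ⟨show n.1.2.2.length < n.1.2.1 by omega, h, ?_⟩⟩
    rintro ⟨-, rfl | rfl, h2⟩
    · have := (pres4.1 h).2; omega
    · have := (pres6.1 h).2; omega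

lemma sq_pres {n : Nd τ K} {d1 d2 : Fin 8} (h : (frame τ K ex).Sq n d1 d2) :
    Pres τ K d1 n.1 ∧ Pres τ K d2 n.1 := ⟨((sq_raw ex).1 h).2.1, ((sq_raw ex).1 h).2.2.1⟩

lemma sq_sh {n n' : Nd τ K} {d1 d2 : Fin 8} (e : sh τ K n.1 = sh τ K n'.1) (h1 : isV d1)
    (h : (frame τ K ex).Sq n d1 d2) : (frame τ K ex).Sq n' d1 d2 := by
  have h2 : ¬ isV d2 := h.1.1 h1
  rw [sq_V ex h1 h2] at h ⊢
  refine ⟨pres_sh n.2 n'.2 e h.1, pres_sh n.2 n'.2 e h.2.1, fun g => h.2.2 ⟨g.1, g.2.1, ?_⟩⟩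
  exact (sh_eq e).2.2.2.2.2.2.2.2.2 g.2.2

theorem frame_good (hτ : 0 < τ) : (frame τ K ex).Good where
  pres := fun n n' d e h =>
    nbF_isSome.2 (pres_sh n.2 n'.2 (congrArg Prod.snd e) (nbF_isSome.1 h))
  sq := by
    intro n n' d1 d2 e h
    by_cases h1 : isV d1
    · exact sq_sh ex (congrArg Prod.snd e) h1 h
    · have h2 : isV d2 := by
        by_contra h2
        exact h1 (h.1.2 h2)
      exact sq_symm (sq_sh ex (congrArg Prod.snd e) h2 (sq_symm h))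
  inj := fun n n' h e => Subtype.ext (eq_of_key (inv_of_near ex 9 h.succ)
    (key_of_sh (congrArg Prod.snd e)))
  adjd := by
    rintro n m d h ⟨n0, m0, e1, e2, h0⟩
    have e1' : sh τ K n0.1 = sh τ K n.1 := congrArg Prod.snd e1
    have e2' : sh τ K m0.1 = sh τ K m.1 := congrArg Prod.snd e2
    have s0 := nbF_iff.1 h0
    have hp : Pres τ K d n.1 := pres_sh n0.2 n.2 e1' ((step_iff n0.2 m0.2).1 s0).1
    have o := ok_mv n.2 hp
    have s1 : Step d n.1 (mv d n.1) := (step_iff n.2 o).2 ⟨hp, rfl⟩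
    have hn : Near (frame τ K ex).adj 9 ⟨_, o⟩ m :=
      ((Near.refl 0 _).step (show (frame τ K ex).adj ⟨_, o⟩ n from ⟨_, nbF_iff.2 s1.opp⟩)).trans h
    have k1 := key_step s1 s0 e1'.symm
    have k2 := key_of_sh e2'
    have : mv d n.1 = m.1 := eq_of_key (inv_of_near ex 9 hn) ⟨k1.1.trans k2.1, k1.2.1.trans k2.2.1,
      k1.2.2.1.trans k2.2.2.1, fun i hi => (k1.2.2.2 i hi).trans (k2.2.2.2 i hi)⟩
    exact nbF_iff.2 (this ▸ s1)
  c1 := by
    intro n d h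
    obtain ⟨a, b⟩ := phi_step (nbF_iff.1 h)
    exact dec_c1 d (red_nil (by simpa using a)) (by omega)
  c3 := by
    intro n m1 m2 d1 d2 d3 h1 h2 h3
    obtain ⟨a1, b1⟩ := phi_step (nbF_iff.1 h1)
    obtain ⟨a2, b2⟩ := phi_step (nbF_iff.1 h2)
    obtain ⟨a3, b3⟩ := phi_step (nbF_iff.1 h3)
    refine dec_c3 d1 d2 d3 (red_nil ?_) (by omega)
    rw [a2, a1, mul_assoc, mul_assoc, left_eq_mul] at a3
    rw [← FreeGroup.mul_mk, ← FreeGroup.mul_mk, mul_assoc, a3]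
  c4 := by
    intro n m1 m2 m3 d1 d2 d3 d4 h1 h2 h3 h4 n1 n2 n3
    obtain ⟨a1, b1⟩ := phi_step (nbF_iff.1 h1)
    obtain ⟨a2, b2⟩ := phi_step (nbF_iff.1 h2)
    obtain ⟨a3, b3⟩ := phi_step (nbF_iff.1 h3)
    obtain ⟨a4, b4⟩ := phi_step (nbF_iff.1 h4)
    refine dec_c4 d1 d2 d3 d4 n1 n2 n3 (by omega) (red_nil ?_)
    rw [a3, a2, a1, mul_assoc, mul_assoc, mul_assoc, left_eq_mul] at a4
    rw [← FreeGroup.mul_mk, ← FreeGroup.mul_mk, ← FreeGroup.mul_mk, mul_assoc, mul_assoc, a4]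
  link := by
    rintro n Q ⟨d0, h0, q0⟩ hQ d hd
    obtain ⟨e, he, hp⟩ := anchor hτ n
    have hV : ∀ v, isV v → Pres τ K v n.1 → (Q v ↔ Q e) := fun v hv h =>
      ⟨hQ _ _ (sq_anchor ex he hv hp h), hQ _ _ (sq_symm (sq_anchor ex he hv hp h))⟩
    have hall : ∀ d, Pres τ K d n.1 → (Q d ↔ Q e) := by
      intro d h
      by_cases hv : isV d
      · exact hV d hv h
      · obtain ⟨v, h1, h2⟩ := partner ex n hv h
        rw [← hV v h1 (sq_pres ex h2).1]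
        exact ⟨hQ _ _ (sq_symm h2), hQ _ _ h2⟩
    exact (hall d (nbF_isSome.1 hd)).2 ((hall d0 (nbF_isSome.1 h0)).1 q0)
  part := by
    intro n d hd
    by_cases hv : isV d
    · obtain ⟨e, he, hp⟩ := anchor hτ n
      exact ⟨e, sq_anchor ex he hv hp (nbF_isSome.1 hd)⟩
    · obtain ⟨v, -, h2⟩ := partner ex n hv (nbF_isSome.1 hd)
      exact ⟨v, sq_symm h2⟩
  ex := by
    intro n
    obtain ⟨e, -, hp⟩ := anchor hτ n
    exact ⟨e, nbF_isSome.2 hp⟩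
  dbl := by
    intro d d' a b h h'
    obtain ⟨a1, a2, a3, -, a4, a5, a6, a7⟩ := rs_of_rel ex h
    obtain ⟨b1, b2, b3, -, b4, b5, b6, b7⟩ := rs_of_rel ex h'
    rcases dec_dbl d d' (by omega) (by omega) (by omega) with
      e | ⟨e, e'⟩ | ⟨e, e'⟩ | ⟨e, e'⟩ | ⟨e, e'⟩
    · exact e
    · exact absurd ((a4 e).symm.trans (b5 e')) (by decide)
    · exact absurd ((a5 e).symm.trans (b4 e')) (by decide)
    · exact absurd ((a6 e).symm.trans (b7 e')) (by decide)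
    · exact absurd ((a7 e).symm.trans (b6 e')) (by decide)
  par := by
    intro d1 d2 e e' a b b' z h1 h2 h3 h4 v1 v2 v3 v4
    obtain ⟨a1, a2, a3, a0, -⟩ := rs_of_rel ex h1
    obtain ⟨b1, b2, b3, -, b4, b5, b6, b7⟩ := rs_of_rel ex h2
    obtain ⟨c1, c2, c3, -, c4, c5, c6, c7⟩ := rs_of_rel ex h3
    obtain ⟨f1, f2, f3, f0, -⟩ := rs_of_rel ex h4
    obtain ⟨g1, g2⟩ := (dec_V d1).1 v1
    obtain ⟨g3, g4⟩ := (dec_V e').1 v4
    have g5 := (dec_V d2).2 v2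
    have g6 := (dec_V e).2 v3
    have a0' := a0 v1
    have f0' := f0 v4
    constructor
    · rcases dec_dbl e d2 (by omega) (by omega) (by omega) with
        q | ⟨q, q'⟩ | ⟨q, q'⟩ | ⟨q, q'⟩ | ⟨q, q'⟩
      · exact q
      · exact absurd ((c4 q).symm.trans (f0'.trans (b5 q'))) (by decide)
      · exact absurd ((c5 q).symm.trans (f0'.trans (b4 q'))) (by decide)
      · exact absurd ((c6 q).symm.trans (a0'.trans (b7 q'))) (by decide)
      · exact absurd ((c7 q).symm.trans (a0'.trans (b6 q'))) (by decide)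
    · rcases dec_dbl e' d1 (by omega) (by omega) (by omega) with
        q | ⟨q, q'⟩ | ⟨q, q'⟩ | ⟨q, q'⟩ | ⟨q, q'⟩
      · exact q
      all_goals exact absurd (q ▸ v4) (by decide)
  par2 := by
    intro d1 d2 e e' a b b' z h1 h2 h3 h4 v1 v2 v3 v4
    obtain ⟨-, a2, -⟩ := rs_of_rel ex h1
    obtain ⟨-, b2, -⟩ := rs_of_rel ex h2
    obtain ⟨-, c2, -⟩ := rs_of_rel ex h3
    obtain ⟨-, f2, -⟩ := rs_of_rel ex h4
    have g5 := (dec_V d2).2 v2
    have g6 := (dec_V e').2 v4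
    exact dec_VV d1 e v1 v3 (by omega)

end Pool.Agent.H164Z.Src
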