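import Pool.Agent.H431Z.LD.Source

/-! Soundness of the local rules for frames, with a bound on the halting time
(adapted from `H431Z/LD/Source`). -/

set_option autoImplicit false
set_option linter.unusedVariables false

namespace Pool.Agent.H164Z.Src

open Pool.Agent.Helper948.Erode Pool.Agent.H431Z.LD

variable {P J : Type} {D : ℕ} (M : DM P J) (p0 : P) (j0 : J) (N : ℕ)

/-- three kinds of arcs -/
structure Arcs (V : Type) where
  aT : V → V → Prop
  aV : V → V → Prop
  aC : Bool → V → V → Prop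

variable {V : Type} (G : Arcs V) (c : V → K0 P J D × ℕ)

/-- time edge in the model -/
def ET (x y : V) : Prop := G.aT x y ∧ relT M (c x).1 (c y).1
/-- vertical edge in the model -/
def EV (x y : V) : Prop := G.aV x y ∧ relV (c x).1 (c y).1 ∧ (c y).2 = min ((c x).2 + 1) N
/-- tree edge in the model -/
def EC (s : Bool) (x y : V) : Prop := G.aC s x y ∧ relC s (c x).1 (c y).1

/-- the local rules -/
structure Loc : Prop where
  un : ∀ x, un0 M p0 (c x).1 ∧ True ∧ ((c x).1.hV' = false ∧ (c x).1.side = none → (c x).2 = 0) ∧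
    ini0 j0 ((c x).2 < N) (c x).1
  uV : ∀ {x y y' : V}, EV N G c x y → EV N G c x y' → y = y'
  uV' : ∀ {x y y' : V}, EV N G c y x → EV N G c y' x → y = y'
  uC : ∀ {s : Bool} {x y y' : V}, EC G c s x y → EC G c s x y' → y = y'
  uC' : ∀ {s s' : Bool} {x y y' : V}, EC G c s y x → EC G c s' y' x → y = y'
  xT : ∀ {x : V}, (c x).1.side = none → (c x).1.hT = true → ∃ y, ET M G c x y
  xT' : ∀ {x : V}, (c x).1.side = none → (c x).1.hT' = true → ∃ y, ET M G c y x
  xV : ∀ {x : V}, (c x).1.hV = true → ∃ y, EV N G c x y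
  xV' : ∀ {x : V}, (c x).1.hV' = true → ∃ y, EV N G c y x
  xC : ∀ (s : Bool) {x : V}, (c x).1.hV' = true → ((c x).1.hV = true ∨ (c x).1.h1 = false) →
    ∃ y, EC G c s x y
  xC' : ∀ {x : V}, (c x).1.side ≠ none → ∃ y s, EC G c s y x
  sqC : ∀ {s : Bool} {x y y' : V}, EV N G c x y → EC G c s x y' →
    ∃ z, EC G c s y z ∧ EV N G c y' z
  sqT : ∀ {x y y' : V}, ET M G c x y → EV N G c x y' → ∃ z, EV N G c y z ∧ ET M G c y' z

/-- height -/
inductive Ht : V → ℕ → Prop
  | bot (x : V) : (c x).1.hV' = false → Ht x 0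
  | up (x y : V) (n : ℕ) : Ht x n → EV N G c x y → Ht y (n + 1)

/-- column above `b` -/
inductive Up (b : V) : ℕ → V → Prop
  | bot : Up b 0 b
  | up (x y : V) (n : ℕ) : Up b n x → EV N G c x y → Up b (n + 1) y

variable {M p0 j0 N G c} (h : Loc M p0 j0 N G c)
include h

lemma Ht_unique {x : V} {n : ℕ} (a : Ht N G c x n) : ∀ {m : ℕ}, Ht N G c x m → n = m := by
  induction a with
  | bot x hx =>
    intro m b
    cases b with
    | bot => rfl
    | up y _ k _ e => have := e.2.1.2.2.2.2.2.1; simp [hx] at this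
  | up x y n _ e ih =>
    intro m b
    cases b with
    | bot _ hx => have := e.2.1.2.2.2.2.2.1; simp [hx] at this
    | up x' _ k b e' =>
      obtain rfl := h.uV' e e'
      rw [ih b]

lemma Ht_child {v : V} {n : ℕ} (a : Ht N G c v n) : ∀ {u : V} {s : Bool}, EC G c s u v →
    Ht N G c u (n + 1) := by
  induction a with
  | bot x hx =>
    intro u s e
    obtain ⟨y, hy⟩ := h.xV' e.2.2.2.2.2.1
    exact Ht.up y u 0 (Ht.bot y (hy.2.1.2.2.2.2.2.2.2.2.2.2.1.1 (e.2.2.2.2.2.2.2 hx))) hy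
  | up q v n _ e' ih =>
    intro u s e
    obtain ⟨y, hy⟩ := h.xV' e.2.2.2.2.2.1
    have h1 : (c y).1.hV' = true := by
      by_contra h0
      have := e.2.2.2.2.2.2.1 (hy.2.1.2.2.2.2.2.2.2.2.2.2.1.2 (by simpa using h0))
      have h2 := e'.2.1.2.2.2.2.2.1
      simp [this] at h2
    obtain ⟨ys, hys⟩ := h.xC s h1 (Or.inl hy.2.1.2.2.2.2.1)
    obtain ⟨z, z1, z2⟩ := h.sqC hy hys
    obtain rfl := h.uC z1 e
    obtain rfl := h.uV' z2 e'
    exact Ht.up y u _ (ih hys) hy

lemma Ht_exists [Finite V] (x : V) : ∃ n, Ht N G c x n := by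
  classical
  by_contra hx
  let S := {x : V // ¬ ∃ n, Ht N G c x n}
  have key : ∀ (s : Bool) (u : S), ∃ v : S, EC G c s u.1 v.1 := by
    intro s u
    have h1 : (c u.1).1.hV' = true := by
      by_contra h0
      exact u.2 ⟨0, Ht.bot _ (by simpa using h0)⟩
    have h2 : (c u.1).1.h1 = false := by
      by_contra h0
      obtain ⟨y, hy⟩ := h.xV' h1
      exact u.2 ⟨_, Ht.up y _ 0 (Ht.bot y (hy.2.1.2.2.2.2.2.2.2.2.2.2.1.1 (by simpa using h0))) hy⟩
    obtain ⟨v, hv⟩ := h.xC s h1 (Or.inr h2)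
    exact ⟨⟨v, fun ⟨n, hn⟩ => u.2 ⟨_, Ht_child h hn hv⟩⟩, hv⟩
  choose f hf using key
  have hinj : Function.Injective fun p : Bool × S => f p.1 p.2 := by
    rintro ⟨s, u⟩ ⟨s', u'⟩ e
    simp only at e
    have a := hf s u
    have b := hf s' u'
    rw [e] at a
    have e1 : u = u' := Subtype.ext (h.uC' a b)
    have e2 : s = s' := by
      have := a.2.2.2.2.1.symm.trans b.2.2.2.2.1
      simpa using this
    rw [e1, e2]
  have := Nat.card_le_card_of_injective _ hinj
  have hpos : 0 < Nat.card S := by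
    have : Nonempty S := ⟨⟨x, hx⟩⟩
    exact Nat.card_pos
  simp at this
  omega

lemma Ht_bound [Finite V] : ∃ B, ∀ x n, Ht N G c x n → n ≤ B := by
  choose f hf using Ht_exists h
  obtain ⟨B, hB⟩ := (Set.finite_range f).bddAbove
  exact ⟨B, fun x n hn => by rw [Ht_unique h hn (hf x)]; exact hB ⟨x, rfl⟩⟩

lemma exists_bot [Finite V] [Nonempty V] :
    ∃ b, (c b).1.side = none ∧ (c b).1.hV' = false := by
  have h1 : ∃ x, (c x).1.side = none := by
    by_contra h0
    push Not at h0
    obtain ⟨B, hB⟩ := Ht_bound h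
    have : ∀ k, ∃ x n, k ≤ n ∧ Ht N G c x n := by
      intro k
      induction k with
      | zero =>
        obtain ⟨n, hn⟩ := Ht_exists h (Classical.arbitrary V)
        exact ⟨_, n, Nat.zero_le _, hn⟩
      | succ k ih =>
        obtain ⟨x, n, a, b⟩ := ih
        obtain ⟨y, s, e⟩ := h.xC' (h0 x)
        exact ⟨y, n + 1, by omega, Ht_child h b e⟩
    obtain ⟨x, n, a, b⟩ := this (B + 1)
    have := hB x n b
    omega
  obtain ⟨x, hx⟩ := h1
  obtain ⟨n, hn⟩ := Ht_exists h x
  induction hn with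
  | bot x a => exact ⟨x, hx, a⟩
  | up x y n _ e ih => exact ih (e.2.1.2.2.2.1.symm.trans hx)

omit h in
lemma Up_same {b x : V} {n : ℕ} (a : Up N G c b n x) : (c x).1.side = (c b).1.side ∧
    (c x).1.hT = (c b).1.hT ∧ (c x).1.hT' = (c b).1.hT' ∧ (c x).1.st = (c b).1.st ∧
    (c x).1.br = (c b).1.br := by
  induction a with
  | bot => simp
  | up x y n _ e ih =>
    obtain ⟨-, ⟨-, -, -, e1, -, -, e2, e3, e4, e5, -⟩, -⟩ := e
    rw [e1, e2, e3, e4, e5]; exact ih

omit h in
lemma Up_Ht {b x : V} {n : ℕ} (hb : (c b).1.hV' = false) (a : Up N G c b n x) : Ht N G c x n := by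
  induction a with
  | bot => exact Ht.bot _ hb
  | up x y n _ e ih => exact Ht.up _ _ _ ih e

lemma exists_top [Finite V] {b : V} (hb : (c b).1.hV' = false) :
    ∃ n x, Up N G c b n x ∧ (c x).1.hV = false := by
  by_contra h0
  push Not at h0
  obtain ⟨B, hB⟩ := Ht_bound h
  have : ∀ n, ∃ x, Up N G c b n x := by
    intro n
    induction n with
    | zero => exact ⟨b, Up.bot⟩
    | succ n ih =>
      obtain ⟨x, hx⟩ := ih
      obtain ⟨y, hy⟩ := h.xV (x := x) (by simpa using h0 n x hx)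
      exact ⟨y, Up.up _ _ _ hx hy⟩
  obtain ⟨x, hx⟩ := this (B + 1)
  have := hB _ _ (Up_Ht hb hx)
  omega

lemma Up_par {b b' : V} (e : ET M G c b b') {n : ℕ} {x' : V} (a : Up N G c b' n x') :
    ∃ x, Up N G c b n x ∧ ET M G c x x' := by
  induction a with
  | bot => exact ⟨b, Up.bot, e⟩
  | up x' y' n _ e' ih =>
    obtain ⟨x, h1, h2⟩ := ih
    obtain ⟨y, hy⟩ := h.xV (x := x) (h2.2.2.2.2.2.2.2.2.1.symm.trans e'.2.1.2.2.2.2.1)
    obtain ⟨z, z1, z2⟩ := h.sqT h2 hy
    obtain rfl := h.uV z1 e'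
    exact ⟨y, Up.up _ _ _ h1 hy, z2⟩

variable (N G c) in
/-- the clock flag is set below height `n` -/
def AllTrue (b : V) (n : ℕ) : Prop := ∀ j < n, ∀ x, Up N G c b j x → (c x).1.g none 1 = true

variable (N G c) in
/-- value of the clock -/
noncomputable def gam (b : V) : ℕ := sInf {n | ¬ AllTrue N G c b n}

lemma gam_lt [Finite V] {b b' : V} (hb : (c b).1.hV' = false) (e : ET M G c b b') :
    gam N G c b < gam N G c b' := by
  have hb' : (c b').1.hV' = false := e.2.2.2.2.2.2.2.2.2.1.trans hb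
  have hne : {n | ¬ AllTrue N G c b' n}.Nonempty := by
    obtain ⟨n, x, h1, h2⟩ := exists_top h hb'
    refine ⟨n + 1, fun h3 => ?_⟩
    have a := h3 n (Nat.lt_succ_self n) x h1
    have b := (((h.un x).1 ((Up_same h1).1.trans e.2.2.2.2.2.1)).2.2.1 h2 none).2
    simp [a] at b
  have h1 : ¬ AllTrue N G c b' (gam N G c b') := Nat.sInf_mem hne
  rcases hg : gam N G c b' with _ | m
  · rw [hg] at h1
    exact absurd (fun j hj => absurd hj (Nat.not_lt_zero _)) h1
  · rw [hg] at h1
    refine Nat.lt_succ_of_le (Nat.sInf_le fun h2 => h1 fun j hj x' hx' => ?_)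
    obtain ⟨x, a1, a2⟩ := Up_par h e hx'
    obtain ⟨p, -, -, a3⟩ := a2.2.2.2.2.2.2.2.2.2.2
    rw [a3 none]
    change (c x).1.g none 2 = true
    cases a1 with
    | bot => exact (((h.un b).1 e.2.2.2.2.1).2.1 hb).1 none 2 le_rfl
    | up x0 _ n a4 a5 =>
      rw [a5.2.1.2.2.2.2.2.2.2.2.2.2.2 none 1 (by omega)]
      exact h2 n (by omega) x0 a4

variable (N G c) in
/-- the column above `b` represents a configuration -/
def Rep (b : V) (o : Option P) (cc : Option J → ℤ) : Prop :=
  (c b).1.side = none ∧ (c b).1.hV' = false ∧ (c b).1.st = o ∧ (∀ i, 0 ≤ cc i) ∧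
    ∀ j x, Up N G c b j x → ∀ i, ((c x).1.g i 1 = true ↔ (j : ℤ) < cc i)

lemma Rep_window {b : V} {o : Option P} {cc : Option J → ℤ} (r : Rep N G c b o cc) {j : ℕ} {x : V}
    (a : Up N G c b j x) (i : Option J) (e : ℕ) (he : e ≤ D + 2) :
    (c x).1.g i e = true ↔ (j : ℤ) + 1 - e < cc i := by
  have key : ∀ e, 1 ≤ e → e ≤ D + 2 → ((c x).1.g i e = true ↔ (j : ℤ) + 1 - e < cc i) := by
    induction a with
    | bot =>
      intro e h1 h2
      rcases h1.eq_or_lt with rfl | h1
      · simpa using r.2.2.2.2 0 b Up.bot i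
      · have := r.2.2.2.1 i
        refine iff_of_true ((((h.un b).1 r.1).2.1 r.2.1).1 i e h1) ?_
        push_cast; omega
    | up x y n a e' ih =>
      intro e h1 h2
      rcases h1.eq_or_lt with rfl | h1
      · simpa using r.2.2.2.2 _ y (Up.up _ _ _ a e') i
      · obtain ⟨e, rfl⟩ : ∃ e', e = e' + 1 := ⟨e - 1, by omega⟩
        rw [e'.2.1.2.2.2.2.2.2.2.2.2.2.2 i e (by omega), ih e (by omega) (by omega)]
        push_cast
        constructor <;> intro <;> omega
  rcases Nat.eq_zero_or_pos e with rfl | he'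
  · by_cases hv : (c x).1.hV = true
    · obtain ⟨y, hy⟩ := h.xV hv
      rw [← hy.2.1.2.2.2.2.2.2.2.2.2.2.2 i 0 (by omega)]
      simpa using r.2.2.2.2 _ y (Up.up _ _ _ a hy) i
    · have t := ((h.un x).1 ((Up_same a).1.trans r.1)).2.2.1 (by simpa using hv) i
      have t2 := r.2.2.2.2 j x a i
      rw [t.2] at t2
      rw [t.1]
      simp only [Bool.false_eq_true, false_iff, not_lt] at t2 ⊢
      push_cast; omega
  · exact key e he' he

lemma Rep_step (hD : ∀ p b i, vec' M p b i ≤ D + 1) {b : V} {p : P} {cc : Option J → ℤ}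
    (r : Rep N G c b (some p) cc) : ∃ b', ET M G c b b' ∧
      Rep N G c b' (M.nxt p (M.br p (cc ∘ some))) (cc + vec' M p (M.br p (cc ∘ some))) := by
  have hu := (h.un b).1 r.1
  obtain ⟨b', e⟩ := h.xT r.1 (hu.1.2 (by rw [r.2.2.1]; simp))
  have hbr : (c b).1.br = M.br p (cc ∘ some) := by
    rw [(hu.2.1 r.2.1).2 p r.2.2.1]
    have := r.2.2.2.2 0 b Up.bot (some (M.reg p))
    rw [Bool.eq_iff_iff, this]
    simp [DM.br]
  have hnn : ∀ i, 0 ≤ (cc + vec' M p (M.br p (cc ∘ some))) i := by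
    rintro (_ | j)
    · have := r.2.2.2.1 none
      simp only [Pi.add_apply, vec']; omega
    · exact M.st_nonneg (some p, cc ∘ some) (fun j => r.2.2.2.1 (some j)) j
  have hge : ∀ bb i, -1 ≤ vec' M p bb i := by
    rintro bb (_ | j)
    · simp [vec']
    · cases bb
      · have := M.hz p j; simp only [vec']; omega
      · by_cases hj : j = M.reg p
        · subst hj; simp only [vec']; rw [M.hp']
        · have := M.hp p j hj; simp only [vec']; omega
  refine ⟨b', e, e.2.2.2.2.2.1, e.2.2.2.2.2.2.2.2.2.1.trans r.2.1, ?_, hnn, fun j x' hx' i => ?_⟩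
  · obtain ⟨p', a1, a2, -⟩ := e.2.2.2.2.2.2.2.2.2.2
    rw [r.2.2.1] at a1
    obtain rfl : p = p' := Option.some.inj a1
    rw [a2, hbr]
  · obtain ⟨x, a1, a2⟩ := Up_par h e hx'
    obtain ⟨p', a3, -, a4⟩ := a2.2.2.2.2.2.2.2.2.2.2
    rw [(Up_same a1).2.2.2.1, r.2.2.1] at a3
    obtain rfl : p = p' := Option.some.inj a3
    have b1 := hD p (M.br p (cc ∘ some)) i
    have b2 := hge (M.br p (cc ∘ some)) i
    rw [a4 i, (Up_same a1).2.2.2.2, hbr, Rep_window h r a1 i _ (by omega)]
    simp only [Pi.add_apply]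
    constructor <;> intro <;> omega

lemma sound [DecidableEq J] [Finite V] [Nonempty V] (hD : ∀ p b i, vec' M p b i ≤ D + 1) :
    (M.st^[Nat.card V] (some p0, Pi.single j0 (N : ℤ))).1 = none := by
  classical
  have key : ∀ n b o cc, Rep N G c b o cc → {x | gam N G c b < gam N G c x}.ncard ≤ n →
      (M.st^[n] (o, cc ∘ some)).1 = none := by
    intro n
    induction n with
    | zero =>
      intro b o cc r hn
      rcases o with _ | p
      · rfl
      · obtain ⟨b', e, r'⟩ := Rep_step h hD r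
        have h1 := gam_lt h r.2.1 e
        have : 0 < {x | gam N G c b < gam N G c x}.ncard :=
          (Set.ncard_pos (Set.toFinite _)).2 ⟨b', h1⟩
        omega
    | succ n ih =>
      intro b o cc r hn
      rcases o with _ | p
      · rw [M.st_iter_none]
      · obtain ⟨b', e, r'⟩ := Rep_step h hD r
        have h1 := gam_lt h r.2.1 e
        have h2 : {x | gam N G c b' < gam N G c x}.ncard < {x | gam N G c b < gam N G c x}.ncard := by
          refine Set.ncard_lt_ncard ⟨fun x hx => lt_trans h1 hx, fun hs => ?_⟩ (Set.toFinite _)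
          exact lt_irrefl (gam N G c b') (hs h1)
        have := ih b' _ _ r' (by omega)
        rw [Function.iterate_succ_apply]
        exact this
  obtain ⟨b, hb, hmin⟩ := Set.exists_min_image {b | (c b).1.side = none ∧ (c b).1.hV' = false}
    (gam N G c) (Set.toFinite _) (exists_bot h)
  have hT' : (c b).1.hT' = false := by
    by_contra h0
    obtain ⟨b0, e⟩ := h.xT' hb.1 (by simpa using h0)
    have h1 : (c b0).1.hV' = false := e.2.2.2.2.2.2.2.2.2.1.symm.trans hb.2
    have := gam_lt h h1 e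
    have := hmin b0 ⟨e.2.2.2.2.1, h1⟩
    omega
  have hidx : ∀ j x, Up N G c b j x → (c x).2 = min j N := by
    intro j x a
    induction a with
    | bot => rw [(h.un b).2.2.1 ⟨hb.2, hb.1⟩]; simp
    | up x y n _ e ih => rw [e.2.2, ih]; omega
  have r : Rep N G c b (some p0) (fun i => if i = some j0 then N else 0) := by
    refine ⟨hb.1, hb.2, ((h.un b).1 hb.1).2.2.2 hT', fun i => by dsimp only; split_ifs <;> omega,
      fun j x a i => ?_⟩
    rw [(h.un x).2.2.2 ((Up_same a).1.trans hb.1) ((Up_same a).2.2.1.trans hT') i, hidx j x a]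
    by_cases hi : i = some j0
    · simp only [hi, true_and, if_true]; omega
    · simp only [hi, false_and, if_false, false_iff]; omega
  have := key (Nat.card V) b _ _ r (Set.ncard_le_card _)
  convert this using 4
  funext j
  by_cases hj : j = j0
  · subst hj; simp
  · simp [hj]

end Pool.Agent.H164Z.Src
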