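import Pool.Agent.H164Z.SrcGood
import Pool.Agent.H164Z.SrcSound
import Pool.Agent.H431Z.LD.Complete

/-! Frames modelled on the frame of a halting computation satisfy the local rules. -/

set_option autoImplicit false
set_option linter.unusedVariables false

namespace Pool.Agent.H164Z.Src

open Pool.Agent.Helper948.Erode Pool.Agent.H431Z.LD Pool.Agent.H655Z.TD

variable {P J : Type} (D : ℕ) (M : DM P J) (p0 : P) (j0 : J) (N : ℕ)
  (x0 : Option P × (J → ℤ)) (τ K : ℕ)

/-- the machine part of the colours -/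
def exc (x : Raw) : K0 P J D × Fin (N + 1) :=
  ((ncol D M N x0 τ K x).1, ⟨min x.2.1 N, Nat.lt_succ_of_le (min_le_right _ _)⟩)

/-- the direction of a tree edge -/
def dC (s : Bool) : Fin 8 := if s then 6 else 4

variable {V : Type} (F' : Frame V ((K0 P J D × Fin (N + 1)) × Sh))

/-- arcs of a frame -/
def arcs : Arcs V where
  aT x y := F'.nb x 0 = some y
  aV x y := F'.nb x 2 = some y
  aC s x y := F'.nb x (dC s) = some y

/-- colours of a frame -/
def cc (x : V) : K0 P J D × ℕ := ((F'.col x).1.1, (F'.col x).1.2.val)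

variable {D M p0 j0 N x0 τ K F'}

lemma un_node [DecidableEq J] (hx0 : x0 = (some p0, Pi.single j0 (N : ℤ)))
    (hτ1 : (M.st^[τ] x0).1 = none) (hτ : ∀ t < τ, (M.st^[t] x0).1 ≠ none)
    (hK : ∀ t ≤ τ, ∀ i, regs M x0 t i ≤ K) {x : Raw} (hx : Ok τ K x) :
    un0 M p0 (ncol D M N x0 τ K x).1 ∧ True ∧
      ((ncol D M N x0 τ K x).1.hV' = false ∧ (ncol D M N x0 τ K x).1.side = none →
        (ncol D M N x0 τ K x).2 = 0) ∧
      ini0 j0 ((ncol D M N x0 τ K x).2 < N) (ncol D M N x0 τ K x).1 := by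
  have hnn : ∀ t i, 0 ≤ regs M x0 t i := by
    rintro t (_ | j)
    · simp [regs]
    · induction t generalizing j with
      | zero =>
        by_cases hj : j = j0
        · subst hj; simp [regs, hx0]
        · simp [regs, hx0, hj]
      | succ t ih =>
        simp only [regs] at ih ⊢
        rw [Function.iterate_succ_apply']
        exact M.st_nonneg _ ih j
  obtain ⟨t, j, w⟩ := x
  obtain ⟨h1, h2, h3, h4⟩ := hx
  simp only at h1 h2 h3 h4
  refine ⟨fun hs => ⟨?_, fun hv => ⟨fun i e he => ?_, fun p hp => ?_⟩, fun hv i => ?_, fun ht => ?_⟩,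
    trivial, ?_, fun hs ht i => ?_⟩
  · simp only [ncol, decide_eq_true_eq]
    refine ⟨hτ t, fun h => lt_of_le_of_ne h1 fun e => h (e ▸ hτ1)⟩
  · have hw : w = [] := by simpa [ncol] using hs
    subst hw
    have hj : j = 0 := by simpa [ncol] using hv
    subst hj
    by_cases he' : e ≤ D + 2
    · rw [ncol_g _ _ _ _ _ _ _ he']
      have := hnn t i
      simp only [decide_eq_true_eq]
      omega
    · unfold K0.g
      rw [dif_neg (by omega)]
  · have hw : w = [] := by simpa [ncol] using hs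
    subst hw
    have hj : j = 0 := by simpa [ncol] using hv
    subst hj
    rw [ncol_g _ _ _ _ _ _ _ (by omega)]
    have hp' : (M.st^[t] x0).1 = some p := hp
    change brt M x0 t = _
    simp [brt, hp', DM.br, regs]
  · have hj : j = K := by
      have : ¬ j < K := by simpa [ncol] using hv
      omega
    rw [ncol_g _ _ _ _ _ _ _ (by omega), ncol_g _ _ _ _ _ _ _ (by omega)]
    have := hK t h1 i
    simp only [decide_eq_false_iff_not]
    omega
  · have : t = 0 := by simpa [ncol] using ht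
    subst this
    rw [hx0]
    rfl
  · rintro ⟨hv, hs⟩
    have hw : w = [] := by simpa [ncol] using hs
    subst hw
    have hj : j = 0 := by simpa [ncol] using hv
    subst hj
    simp [ncol]
  · have : t = 0 := by simpa [ncol] using ht
    subst this
    rw [ncol_g _ _ _ _ _ _ _ (by omega)]
    simp only [decide_eq_true_eq, ncol]
    rcases i with _ | i
    · simp [regs]
    · by_cases hi : i = j0
      · subst hi
        simp only [regs, hx0, Function.iterate_zero, id_eq, Pi.single_eq_same, true_and]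
        omega
      · simp only [regs, hx0, Function.iterate_zero, id_eq, Pi.single_eq_of_ne hi,
          Option.some.injEq, hi, false_and, iff_false]
        omega

section

variable (hm : F'.Modelled (frame τ K (exc D M N x0 τ K)))
include hm

lemma node_of (x : V) : ∃ n : Nd τ K, (frame τ K (exc D M N x0 τ K)).col n = F'.col x ∧
    cc D N F' x = ncol D M N x0 τ K n.1 ∧ ∀ d, (∃ y, F'.nb x d = some y) ↔ Pres τ K d n.1 := by
  obtain ⟨n, h1, h2⟩ := hm.m1 x
  refine ⟨n, h1, ?_, fun d => ?_⟩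
  · unfold cc
    rw [← h1]
    rfl
  · rw [← Option.isSome_iff_exists, h2]
    exact nbF_isSome

lemma edge_of {x y : V} {d : Fin 8} (h : F'.nb x d = some y) : ∃ u v : Nd τ K,
    cc D N F' x = ncol D M N x0 τ K u.1 ∧ cc D N F' y = ncol D M N x0 τ K v.1 ∧ Step d u.1 v.1 := by
  obtain ⟨u, v, h1, h2, h3⟩ := hm.m2 x d y h
  refine ⟨u, v, ?_, ?_, nbF_iff.1 h3⟩
  · unfold cc
    rw [← h1]
    rfl
  · unfold cc
    rw [← h2]
    rfl

lemma eT (hD : ∀ p b i, vec' M p b i ≤ D + 1) (hτ : ∀ t < τ, (M.st^[t] x0).1 ≠ none) {x y : V}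
    (h : F'.nb x 0 = some y) : ET M (arcs D N F') (cc D N F') x y := by
  obtain ⟨⟨⟨t, j, w⟩, hu⟩, ⟨v, hv⟩, h1, h2, h3, h4⟩ := edge_of hm h
  refine ⟨h, ?_⟩
  simp only at h3 h4
  subst h3 h4
  rw [h1, h2]
  exact isT hD hτ hv.1

lemma eV {x y : V} (h : F'.nb x 2 = some y) : EV N (arcs D N F') (cc D N F') x y := by
  obtain ⟨⟨⟨t, j, w⟩, hu⟩, ⟨v, hv⟩, h1, h2, h3⟩ := edge_of hm h
  refine ⟨h, ?_⟩
  rw [step2] at h3
  simp only at h3
  subst h3
  rw [h1, h2]
  exact (relN2 ..).1 (H431Z.LD.isV hv.2.1 hu.2.2.1)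

lemma eC {s : Bool} {x y : V} (h : F'.nb x (dC s) = some y) :
    EC (arcs D N F') (cc D N F') s x y := by
  obtain ⟨⟨⟨t, j, w⟩, hu⟩, ⟨v, hv⟩, h1, h2, h3⟩ := edge_of hm h
  refine ⟨h, ?_⟩
  have h4 : v = (t, j, s :: w) := by cases s <;> exact h3
  subst h4
  rw [h1, h2]
  exact isC s hv.2.2.1

theorem loc_of [DecidableEq J] (hD : ∀ p b i, vec' M p b i ≤ D + 1)
    (hx0 : x0 = (some p0, Pi.single j0 (N : ℤ)))
    (hτ1 : (M.st^[τ] x0).1 = none) (hτ : ∀ t < τ, (M.st^[t] x0).1 ≠ none)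
    (hK : ∀ t ≤ τ, ∀ i, regs M x0 t i ≤ K) : Loc M p0 j0 N (arcs D N F') (cc D N F') where
  un := by
    intro x
    obtain ⟨n, -, h, -⟩ := node_of hm x
    rw [h]
    exact un_node hx0 hτ1 hτ hK n.2
  uV := fun a b => Option.some.inj (Eq.trans (Eq.symm a.1) b.1)
  uV' := fun a b => Option.some.inj ((F'.nb_opp _ _ _ a.1).symm.trans (F'.nb_opp _ _ _ b.1))
  uC := fun a b => Option.some.inj (Eq.trans (Eq.symm a.1) b.1)
  uC' := by
    intro s s' x y y' a b
    obtain rfl : s = s' := Option.some.inj (a.2.2.2.2.1.symm.trans b.2.2.2.2.1)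
    exact Option.some.inj ((F'.nb_opp _ _ _ a.1).symm.trans (F'.nb_opp _ _ _ b.1))
  xT := by
    intro x a b
    obtain ⟨n, -, h, hp⟩ := node_of hm x
    rw [h] at a b
    obtain ⟨y, hy⟩ := (hp 0).2 ⟨a, by simpa [ncol] using b⟩
    exact ⟨y, eT hm hD hτ hy⟩
  xT' := by
    intro x a b
    obtain ⟨n, -, h, hp⟩ := node_of hm x
    rw [h] at a b
    obtain ⟨y, hy⟩ := (hp 1).2 ⟨a, by simpa [ncol] using b⟩
    exact ⟨y, eT hm hD hτ (F'.nb_opp _ _ _ hy)⟩
  xV := by
    intro x b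
    obtain ⟨n, -, h, hp⟩ := node_of hm x
    rw [h] at b
    obtain ⟨y, hy⟩ := (hp 2).2 (pres2.2 (by simpa [ncol] using b))
    exact ⟨y, eV hm hy⟩
  xV' := by
    intro x b
    obtain ⟨n, -, h, hp⟩ := node_of hm x
    rw [h] at b
    obtain ⟨y, hy⟩ := (hp 3).2 (pres3.2 (by simpa [ncol] using b))
    exact ⟨y, eV hm (F'.nb_opp _ _ _ hy)⟩
  xC := by
    intro s x a b
    obtain ⟨n, -, h, hp⟩ := node_of hm x
    rw [h] at a b
    have a' : n.1.2.2.length < n.1.2.1 := by simpa [ncol] using a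
    have b' : n.1.2.1 < K ∨ n.1.2.2.length + 1 ≠ n.1.2.1 := by simpa [ncol] using b
    have := n.2.2.1
    have q : n.1.2.2.length < n.1.2.1 ∧ n.1.2.2.length + 1 < K := ⟨a', by omega⟩
    obtain ⟨y, hy⟩ := (hp (dC s)).2 (by cases s <;> exact q)
    exact ⟨y, eC hm hy⟩
  xC' := by
    intro x a
    obtain ⟨n, -, h, hp⟩ := node_of hm x
    rw [h] at a
    obtain ⟨s, hs⟩ := Option.ne_none_iff_exists'.1 a
    obtain ⟨y, hy⟩ := (hp (opp (dC s))).2 (by cases s <;> exact hs)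
    refine ⟨y, s, eC hm ?_⟩
    have := F'.nb_opp _ _ _ hy
    cases s <;> exact this
  sqC := by
    intro s x y y' a b
    obtain ⟨n, hc, -, hp⟩ := node_of hm x
    obtain ⟨-, m1, m2, z, h1, h2, h3, h4⟩ := hm.m3 x n 2 (dC s) hc
      ((sq_V _ (by decide) (by cases s <;> decide)).2 ⟨(hp 2).1 ⟨_, a.1⟩, (hp _).1 ⟨_, b.1⟩, by simp⟩)
    obtain rfl : m1 = y := Option.some.inj (h1.symm.trans a.1)
    obtain rfl : m2 = y' := Option.some.inj (h2.symm.trans b.1)
    exact ⟨z, eC hm h3, eV hm h4⟩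
  sqT := by
    intro x y y' a b
    obtain ⟨n, hc, -, hp⟩ := node_of hm x
    obtain ⟨-, m1, m2, z, h1, h2, h3, h4⟩ := hm.m3 x n 2 0 hc
      ((sq_V _ (by decide) (by decide)).2 ⟨(hp 2).1 ⟨_, b.1⟩, (hp _).1 ⟨_, a.1⟩, by simp⟩)
    obtain rfl : m1 = y' := Option.some.inj (h1.symm.trans b.1)
    obtain rfl : m2 = y := Option.some.inj (h2.symm.trans a.1)
    exact ⟨z, eV hm h4, eT hm hD hτ h3⟩

end

variable (D M p0 j0 N) in
theorem frame_of_halts [DecidableEq J] [Finite J] (hD : ∀ p b i, vec' M p b i ≤ D + 1)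
    (hh : M.Halts (some p0, Pi.single j0 (N : ℤ))) :
    ∃ (τ K : ℕ) (_ : Nonempty (Nd τ K)) (F : Frame (Nd τ K) ((K0 P J D × Fin (N + 1)) × Sh)),
      F.Good ∧ ∀ (V : Type) [Finite V] [Nonempty V] (F' : Frame V ((K0 P J D × Fin (N + 1)) × Sh)),
        F'.Modelled F → (M.st^[Nat.card V] (some p0, Pi.single j0 (N : ℤ))).1 = none := by
  classical
  set x0 : Option P × (J → ℤ) := (some p0, Pi.single j0 (N : ℤ)) with hx0
  let τ := Nat.find hh
  have hτ1 : (M.st^[τ] x0).1 = none := Nat.find_spec hh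
  have hτ : ∀ t < τ, (M.st^[t] x0).1 ≠ none := fun t ht => Nat.find_min hh ht
  have hpos : 0 < τ := by
    by_contra h
    have : τ = 0 := by omega
    rw [this] at hτ1
    simp [hx0] at hτ1
  obtain ⟨K, hK⟩ : ∃ K : ℕ, ∀ t ≤ τ, ∀ i, regs M x0 t i ≤ K := by
    obtain ⟨B, hB⟩ := (Set.finite_range
      (fun q : Fin (τ + 1) × Option J => (regs M x0 q.1 q.2).toNat)).bddAbove
    refine ⟨B, fun t ht i => ?_⟩
    have := hB ⟨(⟨t, by omega⟩, i), rfl⟩
    simp only at this
    omega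
  have hK0 : 0 < K := by
    have := hK τ le_rfl none
    simp only [regs] at this
    omega
  refine ⟨τ, K, ⟨⟨(0, 0, []), by simp [Ok, hK0]⟩⟩, frame τ K (exc D M N x0 τ K),
    frame_good _ hpos, fun V _ _ F' hm => ?_⟩
  exact sound (loc_of hm hD hx0 hτ1 hτ hK) hD

end Pool.Agent.H164Z.Src
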