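import Pool.Agent.H164Z.ToepOps

/-!
# A sequence in the finite section algebra with both limits zero that is not in the ideal
-/

set_option autoImplicit false
open MeasureTheory Filter Topology AddCircle
open scoped ComplexConjugate InnerProductSpace

namespace Pool.Agent.H164Z.Toep

/-- Multiplication by the symbol. -/
noncomputable def opA : L2 →L[ℂ] L2 := mulOp symb memLp_symb

/-- Multiplication by the conjugate symbol. -/
noncomputable def opB : L2 →L[ℂ] L2 := mulOp (fun x => conj (symb x)) (memLp_conj memLp_symb)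

theorem entryA (i j : ℤ) : ⟪e i, opA (e j)⟫_ℂ = fourierCoeff symb (i - j) :=
  entry_mulOp _ _ i j

theorem entryB (i j : ℤ) : ⟪e i, opB (e j)⟫_ℂ = conj (fourierCoeff symb (j - i)) := by
  rw [opB, entry_mulOp, coeff_conj, neg_sub]

/-- The counterexample. -/
noncomputable def Z (n : ℕ) : H →L[ℂ] H := D injP opA n * D injP opB n * D injP opA n

theorem SC_Z : SC Z 0 := by
  have h1 := SC_D injP opA
  rw [lim_zero injP opA] at h1
  · have := (h1.mul (SC_D injP opB)).mul h1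
    rw [mul_zero] at this
    exact this
  · intro m hm k
    have : m < 0 := by
      by_contra h
      exact hm m.toNat (Int.toNat_of_nonneg (by omega))
    rw [entryA, coeff_symb_neg _ (by omega)]

theorem SC_WZW : SC (fun n => W n * Z n * W n) 0 := by
  have h1 := SC_D injM opB
  rw [lim_zero injM opB] at h1
  · have h2 := ((SC_D injM opA).mul h1).mul (SC_D injM opA)
    have h3 : (fun n => W n * Z n * W n)
        = fun n => D injM opA n * D injM opB n * D injM opA n := by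
      funext n
      rw [← flip_D (sym_mulOp _ _) (sym_adj _ _) (sym_adj_mul _ _) (A := opA),
        ← flip_D (sym_mulOp _ _) (sym_adj _ _) (sym_adj_mul _ _) (A := opB), Z]
      ext1 x
      simp only [mul_apply_eq_comp, WW, D, sub_apply, map_sub, PP]
    rw [h3]
    simpa using h2
  · intro m hm k
    have : 0 < m := by
      by_contra h
      exact hm (-m).toNat (by rw [Int.toNat_of_nonneg (by omega)]; ring)
    rw [entryB, coeff_symb_neg _ (by omega), map_zero]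

theorem cnt (a lo M N : ℕ) (h1 : a ≤ lo) (h2 : lo + M ≤ a + N) (x : ℂ) :
    ∑ i ∈ Finset.range N, (if lo ≤ a + i ∧ a + i < lo + M then x else 0) = M * x := by
  rw [← Finset.sum_filter]
  have : (Finset.range N).filter (fun i => lo ≤ a + i ∧ a + i < lo + M)
      = Finset.Ico (lo - a) (lo - a + M) := by
    ext i
    simp only [Finset.mem_filter, Finset.mem_range, Finset.mem_Ico]
    omega
  rw [this]
  simp

theorem window (k m : ℕ) (h1 : 8 ^ k ≤ m) (h2 : m < 6 * 8 ^ k) :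
    fourierCoeff symb m
      = if 3 * 8 ^ k ≤ m ∧ m < 3 * 8 ^ k + 8 ^ k then ((8 : ℂ) ^ k)⁻¹ else 0 := by
  rw [coeff_symb_window k m (by exact_mod_cast h1) (by exact_mod_cast h2)]
  refine if_congr ?_ rfl rfl
  have : 3 * 8 ^ k + 8 ^ k = 4 * 8 ^ k := by ring
  rw [this]
  norm_cast

theorem norm_sum_e (f : ℕ → ℤ) (hf : Function.Injective f) (N : ℕ) :
    ‖∑ i ∈ Finset.range N, e (f i)‖ ^ 2 = N := by
  rw [← inner_self_eq_norm_sq (𝕜 := ℂ), sum_inner]
  have : ∀ i ∈ Finset.range N, ⟪e (f i), ∑ j ∈ Finset.range N, e (f j)⟫_ℂ = 1 := by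
    intro i hi
    rw [inner_sum, Finset.sum_eq_single i]
    · rw [inner_e, if_pos rfl]
    · intro j _ hj
      rw [inner_e, if_neg fun h => hj (hf h).symm]
    · intro h; exact absurd hi h
  rw [Finset.sum_congr rfl this]
  simp

/-- First test function. -/
noncomputable def w1 (k : ℕ) : L2 := ∑ t ∈ Finset.range (8 ^ k), e (-((8 ^ k + 1 + t : ℕ) : ℤ))

/-- Second test function. -/
noncomputable def w2 (k : ℕ) : L2 := ∑ s ∈ Finset.range (3 * 8 ^ k), e ((4 * 8 ^ k + s : ℕ) : ℤ)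

/-- The index of the section. -/
def nn (k : ℕ) : ℕ := 4 * 8 ^ k - 1

/-- The test vector. -/
noncomputable def u1 (k : ℕ) : H := ContinuousLinearMap.adjoint (R injP opB (nn k)) (w1 k)

/-- The second test vector. -/
noncomputable def u2 (k : ℕ) : H := ContinuousLinearMap.adjoint (R injP opA (nn k)) (w2 k)

theorem norm_w1 (k : ℕ) : ‖w1 k‖ ^ 2 = 8 ^ k := by
  rw [w1, norm_sum_e (fun t => -((8 ^ k + 1 + t : ℕ) : ℤ)) fun a b h => by simpa using h]
  simp

theorem norm_w2 (k : ℕ) : ‖w2 k‖ ^ 2 = 3 * 8 ^ k := by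
  rw [w2, norm_sum_e (fun s => ((4 * 8 ^ k + s : ℕ) : ℤ)) fun a b h => by simpa using h]
  simp

theorem u1_apply (k j : ℕ) : u1 k j = if j ≤ nn k then ∑ t ∈ Finset.range (8 ^ k),
    (if 3 * 8 ^ k ≤ 8 ^ k + 1 + t + j ∧ 8 ^ k + 1 + t + j < 3 * 8 ^ k + 8 ^ k
      then ((8 : ℂ) ^ k)⁻¹ else 0) else 0 := by
  have hM : 0 < 8 ^ k := by positivity
  rw [u1, adjR_apply]
  · split_ifs with hj
    · rw [w1, inner_sum]
      refine Finset.sum_congr rfl fun t ht => ?_
      rw [Finset.mem_range] at ht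
      rw [← inner_conj_symm, entryB, RCLike.conj_conj, ← window k _ (by omega)
        (by unfold nn at hj; omega)]
      congr 1
      push_cast; ring
    · rfl
  · intro i _
    rw [w1, inner_sum]
    refine Finset.sum_eq_zero fun t _ => ?_
    rw [inner_e, if_neg (by omega)]

theorem u1_zero (k j : ℕ) (h : j < 8 ^ k ∨ 3 * 8 ^ k ≤ j) : u1 k j = 0 := by
  rw [u1_apply]
  split_ifs
  · refine Finset.sum_eq_zero fun t ht => ?_
    rw [Finset.mem_range] at ht
    rw [if_neg (by omega)]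
  · rfl

theorem u2_apply (k j : ℕ) (h1 : 8 ^ k ≤ j) (h2 : j < 3 * 8 ^ k) : conj (u2 k j) = 1 := by
  have hM : 0 < 8 ^ k := by positivity
  rw [u2, adjR_apply]
  · rw [if_pos (by unfold nn; omega), inner_conj_symm, w2, sum_inner]
    have : ∀ s ∈ Finset.range (3 * 8 ^ k),
        ⟪e ((4 * 8 ^ k + s : ℕ) : ℤ), opA (e (j : ℤ))⟫_ℂ =
        if 3 * 8 ^ k ≤ 4 * 8 ^ k - j + s ∧ 4 * 8 ^ k - j + s < 3 * 8 ^ k + 8 ^ k
          then ((8 : ℂ) ^ k)⁻¹ else 0 := by
      intro s hs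
      rw [Finset.mem_range] at hs
      rw [entryA, ← window k _ (by omega) (by omega)]
      congr 1
      omega
    rw [Finset.sum_congr rfl this, cnt _ _ _ _ (by omega) (by omega)]
    push_cast
    exact mul_inv_cancel₀ (pow_ne_zero _ (by norm_num))
  · intro i hi
    rw [w2, inner_sum]
    refine Finset.sum_eq_zero fun t _ => ?_
    rw [inner_e, if_neg (by unfold nn at hi; omega)]

theorem P_u1 (k : ℕ) : P (nn k) (u1 k) = u1 k := by
  ext j
  rw [P_apply]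
  split_ifs with h
  · rfl
  · rw [u1_apply, if_neg h]

theorem inner_u2_u1 (k : ℕ) : ⟪u2 k, u1 k⟫_ℂ = 8 ^ k := by
  have hM : 0 < 8 ^ k := by positivity
  rw [← P_u1, inner_P]
  have h1 : ∀ j ∈ Finset.range (nn k + 1), conj (u2 k j) * u1 k j = ∑ t ∈ Finset.range (8 ^ k),
      (if 3 * 8 ^ k ≤ 8 ^ k + 1 + t + j ∧ 8 ^ k + 1 + t + j < 3 * 8 ^ k + 8 ^ k
        then ((8 : ℂ) ^ k)⁻¹ else 0) := by
    intro j hj
    rw [Finset.mem_range] at hj
    have h2 := u1_apply k j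
    rw [if_pos (by omega)] at h2
    rw [← h2]
    by_cases h : j < 8 ^ k ∨ 3 * 8 ^ k ≤ j
    · rw [u1_zero k j h, mul_zero]
    · rw [u2_apply k j (by omega) (by omega), one_mul]
  rw [Finset.sum_congr rfl h1, Finset.sum_comm]
  have h3 : ∀ t ∈ Finset.range (8 ^ k), ∑ j ∈ Finset.range (nn k + 1),
      (if 3 * 8 ^ k ≤ 8 ^ k + 1 + t + j ∧ 8 ^ k + 1 + t + j < 3 * 8 ^ k + 8 ^ k
        then ((8 : ℂ) ^ k)⁻¹ else 0) = 1 := by
    intro t ht
    rw [Finset.mem_range] at ht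
    rw [cnt _ _ _ _ (by omega) (by unfold nn; omega)]
    push_cast
    exact mul_inv_cancel₀ (pow_ne_zero _ (by norm_num))
  rw [Finset.sum_congr rfl h3]
  simp

theorem D_symm (A : L2 →L[ℂ] L2) (n : ℕ) (x y : H) :
    ⟪x, D injP A n y⟫_ℂ = ⟪D injP A n x, y⟫_ℂ := by
  rw [← inner_conj_symm (D injP A n x) y, inner_D, inner_D, inner_conj_symm]

theorem lower (k : ℕ) : (8 : ℝ) ^ k / 9 ≤ ‖⟪u1 k, Z (nn k) (u1 k)⟫_ℂ‖ := by
  have hM : (0 : ℝ) < 8 ^ k := by positivity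
  set n := nn k
  set u := u1 k with hu
  set a := ‖R injP opA n u‖ with ha
  set b := ‖R injP opB n (D injP opA n u)‖ with hb
  have h1 : (8 : ℝ) ^ k ≤ ‖w2 k‖ * a := by
    have h2 : ⟪w2 k, R injP opA n u⟫_ℂ = 8 ^ k := by
      rw [← ContinuousLinearMap.adjoint_inner_left]; exact inner_u2_u1 k
    have h3 := norm_inner_le_norm (𝕜 := ℂ) (w2 k) (R injP opA n u)
    rw [h2] at h3
    simpa using h3
  have h4 : a ^ 2 ≤ ‖w1 k‖ * b := by
    have h5 : ⟪w1 k, R injP opB n (D injP opA n u)⟫_ℂ = ⟪R injP opA n u, R injP opA n u⟫_ℂ := by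
      rw [← ContinuousLinearMap.adjoint_inner_left, ← inner_D]; rfl
    have h6 := norm_inner_le_norm (𝕜 := ℂ) (w1 k) (R injP opB n (D injP opA n u))
    rw [h5, inner_self_eq_norm_sq_to_K] at h6
    simpa using h6
  have h7 : ‖⟪u, Z n u⟫_ℂ‖ = b ^ 2 := by
    rw [Z, mul_apply_eq_comp, mul_apply_eq_comp, D_symm, inner_D, inner_self_eq_norm_sq_to_K]
    simp [hb]
  rw [h7]
  have n1 := norm_w1 k
  have n2 := norm_w2 k
  have ha0 : 0 ≤ a := norm_nonneg _
  have hb0 : 0 ≤ b := norm_nonneg _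
  have h8 : ((8 : ℝ) ^ k) ^ 2 ≤ (‖w2 k‖ * a) ^ 2 := by gcongr
  rw [mul_pow, n2] at h8
  have h9 : (8 : ℝ) ^ k / 3 ≤ a ^ 2 := by
    rw [div_le_iff₀ (by norm_num)]
    nlinarith
  have h10 : ((8 : ℝ) ^ k / 3) ^ 2 ≤ (‖w1 k‖ * b) ^ 2 := by
    gcongr
    exact h9.trans h4
  rw [mul_pow, n1] at h10
  rw [div_le_iff₀ (by norm_num)]
  nlinarith

theorem upper : ∃ C : ℝ, 0 ≤ C ∧ ∀ k, ‖u1 k‖ ^ 2 ≤ C * 8 ^ k := by
  obtain ⟨C, hC⟩ := (SC_D injP opB).bdd
  have hC0 : 0 ≤ C := (norm_nonneg _).trans (hC 0)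
  refine ⟨C, hC0, fun k => ?_⟩
  set n := nn k
  set u := u1 k with hu
  set r := ‖R injP opB n u‖ with hr
  have h1 : ‖u‖ ^ 2 ≤ ‖w1 k‖ * r := by
    have h2 : ⟪w1 k, R injP opB n u⟫_ℂ = ⟪u, u⟫_ℂ := by
      rw [← ContinuousLinearMap.adjoint_inner_left]; rfl
    have h3 := norm_inner_le_norm (𝕜 := ℂ) (w1 k) (R injP opB n u)
    rw [h2, inner_self_eq_norm_sq_to_K] at h3
    simpa using h3
  have h4 : r ^ 2 ≤ C * ‖u‖ ^ 2 := by
    have h5 := norm_inner_le_norm (𝕜 := ℂ) u (D injP opB n u)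
    rw [inner_D, inner_self_eq_norm_sq_to_K] at h5
    have h6 : r ^ 2 ≤ ‖u‖ * ‖D injP opB n u‖ := by simpa using h5
    have h7 : ‖D injP opB n u‖ ≤ C * ‖u‖ :=
      ((D injP opB n).le_opNorm u).trans (mul_le_mul_of_nonneg_right (hC n) (norm_nonneg _))
    calc r ^ 2 ≤ ‖u‖ * ‖D injP opB n u‖ := h6
      _ ≤ ‖u‖ * (C * ‖u‖) := by gcongr
      _ = C * ‖u‖ ^ 2 := by ring
  have h8 : (‖u‖ ^ 2) ^ 2 ≤ (‖w1 k‖ * r) ^ 2 := by gcongr
  rw [mul_pow, norm_w1] at h8
  have hM : (0 : ℝ) < 8 ^ k := by positivity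
  rcases (sq_nonneg ‖u‖).eq_or_lt with h | h
  · rw [← h]; positivity
  · have : ‖u‖ ^ 2 * ‖u‖ ^ 2 ≤ (C * 8 ^ k) * ‖u‖ ^ 2 := by nlinarith
    exact le_of_mul_le_mul_right this h

theorem not_mem_J {K K' : H →L[ℂ] H} (hK : IsCompactOperator K) (hK' : IsCompactOperator K')
    {C : ℕ → H →L[ℂ] H} (hC : Tendsto (fun n => ‖C n‖) atTop (𝓝 0))
    (hZ : ∀ n, Z n = P n * K * P n + W n * K' * W n + C n) : False := by
  obtain ⟨c, hc0, hc⟩ := upper
  set x : ℕ → H := fun k => ((Real.sqrt (8 ^ k))⁻¹ : ℂ) • u1 k with hx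
  have hs : ∀ k : ℕ, 0 < Real.sqrt (8 ^ k) := fun k => Real.sqrt_pos.2 (by positivity)
  have hsq : ∀ k : ℕ, Real.sqrt (8 ^ k) ^ 2 = 8 ^ k := fun k => Real.sq_sqrt (by positivity)
  have hxn : ∀ k, ‖x k‖ ≤ Real.sqrt c := fun k => by
    apply Real.le_sqrt_of_sq_le
    simp only [hx]
    rw [norm_smul, norm_inv, Complex.norm_real, Real.norm_of_nonneg (hs k).le, mul_pow, inv_pow,
      hsq, inv_mul_le_iff₀ (by positivity), mul_comm]
    exact hc k
  have hlt : ∀ m : ℕ, ∀ᶠ k in atTop, m < 8 ^ k := fun m => by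
    filter_upwards [eventually_ge_atTop m] with k hk
    exact lt_of_le_of_lt hk (Nat.lt_pow_self (by norm_num))
  have h1 := compact_tendsto hK x _ hxn fun m => by
    filter_upwards [hlt m] with k hk
    ext j
    rw [P_apply]
    split_ifs with hj
    · simp only [hx]
      rw [lp.coeFn_smul, Pi.smul_apply, u1_zero k j (Or.inl (by omega))]; simp
    · rfl
  have h2 := compact_tendsto hK' (fun k => W (nn k) (x k)) _
    (fun k => (norm_W_le _ _).trans (hxn k)) fun m => by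
    filter_upwards [hlt m] with k hk
    ext j
    rw [P_apply, W_apply]
    split_ifs with hj hj2
    · simp only [hx]
      rw [lp.coeFn_smul, Pi.smul_apply, u1_zero k _ (Or.inr (by unfold nn; omega))]; simp
    · rfl
    · rfl
  have hnn : Tendsto nn atTop atTop := by
    refine tendsto_atTop.2 fun m => ?_
    filter_upwards [hlt m] with k hk
    unfold nn; omega
  have h3 := hC.comp hnn
  have h4 : Tendsto (fun k => Real.sqrt c * (‖K (x k)‖ + ‖K' (W (nn k) (x k))‖ +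
      ‖C (nn k)‖ * Real.sqrt c)) atTop (𝓝 0) := by
    have := ((h1.norm.add h2.norm).add (h3.mul_const (Real.sqrt c))).const_mul (Real.sqrt c)
    simpa using this
  obtain ⟨k, hk⟩ := (h4.eventually (gt_mem_nhds (show (0 : ℝ) < 1 / 9 by norm_num))).exists
  have h5 : (1 : ℝ) / 9 ≤ ‖⟪x k, Z (nn k) (x k)⟫_ℂ‖ := by
    have h6 := lower k
    simp only [hx]
    rw [map_smul, inner_smul_left, inner_smul_right, norm_mul, norm_mul, RCLike.norm_conj,
      norm_inv, Complex.norm_real, Real.norm_of_nonneg (hs k).le, ← mul_assoc, ← sq, inv_pow, hsq,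
      le_inv_mul_iff₀ (by positivity)]
    linarith
  have h7 : P (nn k) (x k) = x k := by simp only [hx]; rw [map_smul, P_u1]
  have h8 : ‖Z (nn k) (x k)‖ ≤ ‖K (x k)‖ + ‖K' (W (nn k) (x k))‖ + ‖C (nn k)‖ * Real.sqrt c := by
    rw [hZ, add_apply, add_apply]
    simp only [mul_apply_eq_comp]
    rw [h7]
    refine (norm_add₃_le).trans (add_le_add (add_le_add (norm_P_le _ _) (norm_W_le _ _)) ?_)
    exact ((C (nn k)).le_opNorm _).trans (mul_le_mul_of_nonneg_left (hxn k) (norm_nonneg _))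
  have h9 := norm_inner_le_norm (𝕜 := ℂ) (x k) (Z (nn k) (x k))
  have h10 : ‖x k‖ * ‖Z (nn k) (x k)‖ ≤ Real.sqrt c * (‖K (x k)‖ + ‖K' (W (nn k) (x k))‖ +
      ‖C (nn k)‖ * Real.sqrt c) := mul_le_mul (hxn k) h8 (norm_nonneg _) (Real.sqrt_nonneg _)
  linarith

theorem compact_zero : IsCompactOperator (0 : H →L[ℂ] H) := by
  have h : ⇑(0 : H →L[ℂ] H) = 0 := by
    funext x
    simp
  rw [h]
  exact isCompactOperator_zero

/-- The generators of the finite section algebra. -/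
def Gen : Set (ℕ → (H →L[ℂ] H)) :=
  {G | ∃ a : Lp ℂ ⊤ (volume : Measure (AddCircle (1 : ℝ))), ∃ T : H →L[ℂ] H,
    (∀ j k : ℕ, (T (lp.single 2 k (1 : ℂ) : H)) j
      = fourierCoeff (⇑a : AddCircle (1 : ℝ) → ℂ) ((j : ℤ) - (k : ℤ))) ∧
    ∀ n, G n = P n * T * P n}

theorem gen_mem {A : L2 →L[ℂ] L2} (hA : Sym A) :
    (fun n => P n * T injP A * P n) ∈ NonUnitalAlgebra.adjoin ℂ Gen := by
  obtain ⟨a, ha⟩ := hA
  have h : (fun n => P n * T injP A * P n) ∈ Gen :=
    ⟨a, T injP A, fun j k => by rw [T_entry, ha], fun _ => rfl⟩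
  exact NonUnitalAlgebra.subset_adjoin ℂ h

theorem D_mem (c : AddCircle (1 : ℝ) → ℂ) (hc : MemLp c ⊤ mu) :
    D injP (mulOp c hc) ∈ NonUnitalAlgebra.adjoin ℂ Gen :=
  sub_mem (gen_mem (sym_adj_mul c hc)) (mul_mem (gen_mem (sym_adj c hc)) (gen_mem (sym_mulOp c hc)))

theorem Z_mem : Z ∈ NonUnitalAlgebra.adjoin ℂ Gen :=
  mul_mem (mul_mem (D_mem _ memLp_symb) (D_mem _ (memLp_conj memLp_symb))) (D_mem _ memLp_symb)

end Pool.Agent.H164Z.Toep
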