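import Pool.Agent.H164Z.ToepSym

/-!
# Finite sections, flips and defect operators
-/

set_option autoImplicit false
open MeasureTheory Filter Topology AddCircle
open scoped ComplexConjugate InnerProductSpace

namespace Pool.Agent.H164Z.Toep

/-- Square summable sequences. -/
noncomputable abbrev H := lp (fun _ : ℕ => ℂ) 2

/-- Unit vectors. -/
noncomputable abbrev dl (k : ℕ) : H := lp.single 2 k (1 : ℂ)

theorem inner_dl (j : ℕ) (x : H) : ⟪dl j, x⟫_ℂ = x j := by
  rw [lp.inner_single_left]; simp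

theorem dl_apply (k j : ℕ) : dl k j = if j = k then 1 else 0 := by
  rw [lp.single_apply, Pi.single_apply]

theorem single_eq (k : ℕ) (a : ℂ) : (lp.single 2 k a : H) = a • dl k := by
  rw [← lp.single_smul]; simp

theorem hasSum_dl (x : H) : HasSum (fun k => x k • dl k) x := by
  have := lp.hasSum_single (p := 2) (by simp) x
  have h : (fun k => x k • dl k) = fun k => (lp.single 2 k (x k) : H) :=
    funext fun k => (single_eq k (x k)).symm
  rw [h]
  exact this

theorem ext_dl {F : Type} [NormedAddCommGroup F] [NormedSpace ℂ F] {A B : H →L[ℂ] F}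
    (h : ∀ k, A (dl k) = B (dl k)) : A = B := by
  ext x
  have h1 := (hasSum_dl x).mapL A
  have h2 := (hasSum_dl x).mapL B
  simp only [map_smul, h] at h1 h2
  exact h1.unique h2

/-- The projection. -/
noncomputable def P (n : ℕ) : H →L[ℂ] H :=
  ∑ j ∈ Finset.range (n + 1), (innerSL ℂ (dl j)).smulRight (dl j)

/-- The flip. -/
noncomputable def W (n : ℕ) : H →L[ℂ] H :=
  ∑ j ∈ Finset.range (n + 1), (innerSL ℂ (dl (n - j))).smulRight (dl j)

theorem P_eq (n : ℕ) (x : H) : P n x = ∑ j ∈ Finset.range (n + 1), x j • dl j := by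
  rw [P, sum_apply]
  refine Finset.sum_congr rfl fun j _ => ?_
  rw [ContinuousLinearMap.smulRight_apply, innerSL_apply_apply, inner_dl]

theorem W_eq (n : ℕ) (x : H) : W n x = ∑ j ∈ Finset.range (n + 1), x (n - j) • dl j := by
  rw [W, sum_apply]
  refine Finset.sum_congr rfl fun j _ => ?_
  rw [ContinuousLinearMap.smulRight_apply, innerSL_apply_apply, inner_dl]

theorem sum_dl_apply (n : ℕ) (f : ℕ → ℂ) (j : ℕ) :
    (∑ i ∈ Finset.range (n + 1), f i • dl i : H) j = if j ≤ n then f j else 0 := by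
  rw [← inner_dl, inner_sum]
  simp only [inner_smul_right, inner_dl, dl_apply, mul_ite, mul_one, mul_zero]
  rw [Finset.sum_ite_eq]
  simp only [Finset.mem_range, Nat.lt_succ_iff]

theorem P_apply (n : ℕ) (x : H) (j : ℕ) : P n x j = if j ≤ n then x j else 0 := by
  rw [P_eq, sum_dl_apply]

theorem W_apply (n : ℕ) (x : H) (j : ℕ) : W n x j = if j ≤ n then x (n - j) else 0 := by
  rw [W_eq, sum_dl_apply n (fun j => x (n - j))]

theorem PP (n : ℕ) (x : H) : P n (P n x) = P n x := by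
  ext j; simp only [P_apply]; split_ifs <;> rfl

theorem PW (n : ℕ) (x : H) : P n (W n x) = W n x := by
  ext j; simp only [P_apply, W_apply]; split_ifs <;> rfl

theorem WP (n : ℕ) (x : H) : W n (P n x) = W n x := by
  ext j; simp only [P_apply, W_apply]
  split_ifs with h1 h2
  · rfl
  · omega
  · rfl

theorem WW (n : ℕ) (x : H) : W n (W n x) = P n x := by
  ext j; simp only [P_apply, W_apply]
  split_ifs with h1 h2
  · rw [Nat.sub_sub_self h1]
  · omega
  · rfl

theorem inner_P (n : ℕ) (x y : H) :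
    ⟪x, P n y⟫_ℂ = ∑ j ∈ Finset.range (n + 1), conj (x j) * y j := by
  rw [P_eq, inner_sum]
  refine Finset.sum_congr rfl fun j _ => ?_
  rw [inner_smul_right, ← inner_conj_symm, inner_dl, mul_comm]

theorem P_symm (n : ℕ) (x y : H) : ⟪P n x, y⟫_ℂ = ⟪x, P n y⟫_ℂ := by
  rw [← inner_conj_symm, inner_P, inner_P, map_sum]
  refine Finset.sum_congr rfl fun j _ => ?_
  rw [map_mul, RCLike.conj_conj, mul_comm]

theorem W_symm (n : ℕ) (x y : H) : ⟪W n x, y⟫_ℂ = ⟪x, W n y⟫_ℂ := by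
  rw [← PW n x, P_symm, ← PW n y, inner_P, inner_P, ← Finset.sum_range_reflect]
  refine Finset.sum_congr rfl fun j hj => ?_
  rw [Finset.mem_range] at hj
  rw [W_apply, W_apply, if_pos (by omega), if_pos (by omega)]
  have h1 : n - (n + 1 - 1 - j) = j := by omega
  have h2 : n + 1 - 1 - j = n - j := by omega
  rw [h1, h2]

theorem norm_P_le (n : ℕ) (x : H) : ‖P n x‖ ≤ ‖x‖ := by
  have h1 : ‖P n x‖ ^ 2 ≤ ‖x‖ * ‖P n x‖ := by
    have : ⟪P n x, P n x⟫_ℂ = ⟪x, P n x⟫_ℂ := by rw [P_symm, PP]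
    rw [← inner_self_eq_norm_sq (𝕜 := ℂ), this]
    exact re_inner_le_norm _ _
  rcases (norm_nonneg (P n x)).eq_or_lt with h | h
  · rw [← h]; exact norm_nonneg _
  · nlinarith

theorem norm_W_le (n : ℕ) (x : H) : ‖W n x‖ ≤ ‖x‖ := by
  have h1 : ‖W n x‖ ^ 2 ≤ ‖x‖ * ‖P n x‖ := by
    have : ⟪W n x, W n x⟫_ℂ = ⟪x, P n x⟫_ℂ := by rw [W_symm, WW]
    rw [← inner_self_eq_norm_sq (𝕜 := ℂ), this]
    exact re_inner_le_norm _ _
  have h2 := norm_P_le n x
  have h3 : ‖W n x‖ ^ 2 ≤ ‖x‖ ^ 2 := by nlinarith [norm_nonneg x]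
  exact (pow_le_pow_iff_left₀ (norm_nonneg _) (norm_nonneg _) two_ne_zero).1 h3

theorem P_dl (n k : ℕ) : P n (dl k) = if k ≤ n then dl k else 0 := by
  ext j
  rw [P_apply]
  split_ifs with h1 h2 h2
  · rfl
  · rw [dl_apply, if_neg (by omega)]; rfl
  · rw [dl_apply, if_neg (by omega)]
  · rfl

theorem W_dl (n k : ℕ) : W n (dl k) = if k ≤ n then dl (n - k) else 0 := by
  ext j
  rw [W_apply]
  split_ifs with h1 h2 h2
  · rw [dl_apply, dl_apply]
    by_cases h : n - j = k
    · rw [if_pos h, if_pos (by omega)]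
    · rw [if_neg h, if_neg (by omega)]
  · rw [dl_apply, if_neg (by omega)]; rfl
  · rw [dl_apply, if_neg (by omega)]
  · rfl

/-- Strong convergence. -/
def SC (A : ℕ → H →L[ℂ] H) (B : H →L[ℂ] H) : Prop :=
  ∀ x, Tendsto (fun n => A n x) atTop (𝓝 (B x))

theorem SC.bdd {A : ℕ → H →L[ℂ] H} {B : H →L[ℂ] H} (h : SC A B) : ∃ C, ∀ n, ‖A n‖ ≤ C := by
  refine banach_steinhaus fun x => ?_
  obtain ⟨C, hC⟩ := (h x).norm.bddAbove_range
  exact ⟨C, fun n => hC ⟨n, rfl⟩⟩

theorem SC.mul {A A' : ℕ → H →L[ℂ] H} {B B' : H →L[ℂ] H} (h : SC A B) (h' : SC A' B') :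
    SC (fun n => A n * A' n) (B * B') := by
  intro x
  obtain ⟨C, hC⟩ := h.bdd
  have h1 : Tendsto (fun n => A n (A' n x - B' x)) atTop (𝓝 0) := by
    have h2 : Tendsto (fun n => C * ‖A' n x - B' x‖) atTop (𝓝 0) := by
      have := (tendsto_iff_norm_sub_tendsto_zero.1 (h' x)).const_mul C
      simpa using this
    refine squeeze_zero_norm (fun n => ?_) h2
    exact ((A n).le_opNorm _).trans (mul_le_mul_of_nonneg_right (hC n) (norm_nonneg _))
  have h3 := h1.add (h (B' x))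
  simp only [map_sub, sub_add_cancel, zero_add] at h3
  exact h3

theorem SC.sub {A A' : ℕ → H →L[ℂ] H} {B B' : H →L[ℂ] H} (h : SC A B) (h' : SC A' B') :
    SC (fun n => A n - A' n) (B - B') := fun x => (h x).sub (h' x)

theorem SC.const (B : H →L[ℂ] H) : SC (fun _ => B) B := fun _ => tendsto_const_nhds

theorem SC_P : SC P 1 := by
  intro x
  have := (hasSum_dl x).tendsto_sum_nat.comp (tendsto_add_atTop_nat 1)
  simp only [P_eq]
  exact this

theorem SC_sec (T : H →L[ℂ] H) : SC (fun n => P n * T * P n) T := by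
  have := (SC_P.mul (SC.const T)).mul SC_P
  simpa using this

/-- The embedding of sequences as functions with frequencies `σ k`. -/
noncomputable def U (σ : ℕ → ℤ) (hσ : Function.Injective σ) : H →L[ℂ] L2 :=
  ((orthonormal_fourier (T := 1)).comp σ hσ).orthogonalFamily.linearIsometry.toContinuousLinearMap

section
variable {σ : ℕ → ℤ} (hσ : Function.Injective σ)

theorem U_dl (k : ℕ) : U σ hσ (dl k) = e (σ k) := by
  simp only [U, LinearIsometry.coe_toContinuousLinearMap]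
  rw [OrthogonalFamily.linearIsometry_apply_single]
  simp

theorem U_inner (x y : H) : ⟪U σ hσ x, U σ hσ y⟫_ℂ = ⟪x, y⟫_ℂ :=
  LinearIsometry.inner_map_map _ x y

theorem adjU_apply (v : L2) (j : ℕ) :
    ContinuousLinearMap.adjoint (U σ hσ) v j = ⟪e (σ j), v⟫_ℂ := by
  rw [← inner_dl, ContinuousLinearMap.adjoint_inner_right, U_dl]

theorem inner_e (i j : ℤ) : ⟪e i, e j⟫_ℂ = if i = j then 1 else 0 :=
  orthonormal_iff_ite.1 (orthonormal_fourier (T := 1)) i j

theorem inner_U_off (m : ℤ) (hm : ∀ k, σ k ≠ m) (y : H) : ⟪e m, U σ hσ y⟫_ℂ = 0 := by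
  have : (innerSL ℂ (e m)).comp (U σ hσ) = 0 := by
    refine ext_dl fun k => ?_
    rw [ContinuousLinearMap.comp_apply, U_dl, innerSL_apply_apply, inner_e,
      if_neg (hm k).symm]
    rfl
  exact DFunLike.congr_fun this y

theorem ext_e {v w : L2} (h : ∀ m, ⟪e m, v⟫_ℂ = ⟪e m, w⟫_ℂ) : v = w := by
  apply (fourierBasis (T := 1)).repr.injective
  ext m
  rw [HilbertBasis.repr_apply_apply, HilbertBasis.repr_apply_apply, coe_fourierBasis]
  exact h m

/-- Compression. -/
noncomputable def T (A : L2 →L[ℂ] L2) : H →L[ℂ] H :=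
  (ContinuousLinearMap.adjoint (U σ hσ)).comp (A.comp (U σ hσ))

theorem T_apply (A : L2 →L[ℂ] L2) (x : H) :
    T hσ A x = ContinuousLinearMap.adjoint (U σ hσ) (A (U σ hσ x)) := rfl

theorem T_entry (A : L2 →L[ℂ] L2) (j k : ℕ) :
    T hσ A (dl k) j = ⟪e (σ j), A (e (σ k))⟫_ℂ := by
  rw [T_apply, adjU_apply, U_dl]

/-- The defect sequence. -/
noncomputable def D (A : L2 →L[ℂ] L2) (n : ℕ) : H →L[ℂ] H :=
  P n * T hσ (ContinuousLinearMap.adjoint A * A) * P n -
    (P n * T hσ (ContinuousLinearMap.adjoint A) * P n) * (P n * T hσ A * P n)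

theorem SC_D (A : L2 →L[ℂ] L2) : SC (D hσ A)
    (T hσ (ContinuousLinearMap.adjoint A * A) - T hσ (ContinuousLinearMap.adjoint A) * T hσ A) :=
  (SC_sec _).sub ((SC_sec _).mul (SC_sec _))

theorem lim_zero (A : L2 →L[ℂ] L2)
    (hA : ∀ m, (∀ k, σ k ≠ m) → ∀ k, ⟪e m, A (e (σ k))⟫_ℂ = 0) :
    T hσ (ContinuousLinearMap.adjoint A * A) - T hσ (ContinuousLinearMap.adjoint A) * T hσ A
      = 0 := by
  refine ext_dl fun k => ?_
  have h1 : U σ hσ (ContinuousLinearMap.adjoint (U σ hσ) (A (e (σ k)))) = A (e (σ k)) := by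
    refine ext_e fun m => ?_
    by_cases hm : ∀ j, σ j ≠ m
    · rw [inner_U_off hσ m hm, hA m hm]
    · push Not at hm
      obtain ⟨j, rfl⟩ := hm
      rw [← U_dl hσ j, U_inner, inner_dl, adjU_apply, U_dl]
  rw [sub_apply, mul_apply_eq_comp, T_apply, T_apply, T_apply, U_dl, h1,
    mul_apply_eq_comp, sub_self]
  rfl

/-- The square root of the defect. -/
noncomputable def R (A : L2 →L[ℂ] L2) (n : ℕ) : H →L[ℂ] L2 :=
  (1 - (U σ hσ).comp ((P n).comp (ContinuousLinearMap.adjoint (U σ hσ)))).comp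
    (A.comp ((U σ hσ).comp (P n)))

theorem R_apply (A : L2 →L[ℂ] L2) (n : ℕ) (x : H) :
    R hσ A n x = A (U σ hσ (P n x)) -
      U σ hσ (P n (ContinuousLinearMap.adjoint (U σ hσ) (A (U σ hσ (P n x))))) := rfl

theorem inner_D (A : L2 →L[ℂ] L2) (n : ℕ) (x y : H) :
    ⟪x, D hσ A n y⟫_ℂ = ⟪R hσ A n x, R hσ A n y⟫_ℂ := by
  rw [R_apply, R_apply, D, sub_apply]
  simp only [mul_apply_eq_comp, T_apply, PP]
  rw [inner_sub_right, ← P_symm, ← P_symm, ContinuousLinearMap.adjoint_inner_right,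
    ContinuousLinearMap.adjoint_inner_right, ContinuousLinearMap.adjoint_inner_right,
    ContinuousLinearMap.adjoint_inner_right]
  set a := A (U σ hσ (P n x))
  set b := A (U σ hσ (P n y))
  rw [inner_sub_left, inner_sub_right, inner_sub_right, U_inner,
    ← ContinuousLinearMap.adjoint_inner_right (U σ hσ) (P n _) b, P_symm, P_symm, PP]
  ring

theorem adjR_apply (A : L2 →L[ℂ] L2) (n : ℕ) (v : L2) (hv : ∀ i ≤ n, ⟪e (σ i), v⟫_ℂ = 0)
    (j : ℕ) : ContinuousLinearMap.adjoint (R hσ A n) v j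
      = if j ≤ n then ⟪A (e (σ j)), v⟫_ℂ else 0 := by
  have h1 : P n (ContinuousLinearMap.adjoint (U σ hσ) v) = 0 := by
    ext i
    rw [P_apply, adjU_apply]
    split_ifs with h
    · rw [hv i h]; rfl
    · rfl
  rw [← inner_dl, ContinuousLinearMap.adjoint_inner_right, R_apply, inner_sub_left,
    ← ContinuousLinearMap.adjoint_inner_right (U σ hσ) (P n _) v, P_symm, h1, inner_zero_right,
    sub_zero, P_dl]
  split_ifs
  · rw [U_dl]
  · simp

end

theorem injP : Function.Injective (fun k : ℕ => (k : ℤ)) := fun _ _ h => by simpa using h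

theorem injM : Function.Injective (fun k : ℕ => -(k : ℤ)) := fun _ _ h => by simpa using h

theorem flip {A : L2 →L[ℂ] L2} (hA : Sym A) (n : ℕ) :
    W n * (P n * T injP A * P n) * W n = P n * T injM A * P n := by
  obtain ⟨a, ha⟩ := hA
  refine ext_dl fun k => ?_
  simp only [mul_apply_eq_comp, PW, WP]
  rw [W_dl, P_dl]
  split_ifs with hk
  · ext j
    rw [W_apply, P_apply]
    split_ifs with hj
    · rw [T_entry, T_entry, ha, ha]
      congr 1
      push_cast [Nat.cast_sub hk, Nat.cast_sub hj]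
      ring
    · rfl
  · simp

theorem flip_D {A : L2 →L[ℂ] L2} (h1 : Sym A) (h2 : Sym (ContinuousLinearMap.adjoint A))
    (h3 : Sym (ContinuousLinearMap.adjoint A * A)) (n : ℕ) :
    W n * D injP A n * W n = D injM A n := by
  rw [D, D, ← flip h1, ← flip h2, ← flip h3]
  ext1 x
  simp only [mul_apply_eq_comp, sub_apply, map_sub, WW, PP]

theorem PD (A : L2 →L[ℂ] L2) (n : ℕ) (x : H) : P n (D injP A n x) = D injP A n x := by
  simp only [D, mul_apply_eq_comp, sub_apply, map_sub, PP]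

/-- Compact operators kill bounded sequences that leave every initial segment. -/
theorem compact_tendsto {K : H →L[ℂ] H} (hK : IsCompactOperator K) (x : ℕ → H) (C : ℝ)
    (hC : ∀ k, ‖x k‖ ≤ C) (hx : ∀ m, ∀ᶠ k in atTop, P m (x k) = 0) :
    Tendsto (fun k => K (x k)) atTop (𝓝 0) := by
  have hw : ∀ v : H, Tendsto (fun k => ⟪v, x k⟫_ℂ) atTop (𝓝 0) := by
    intro v
    rw [NormedAddGroup.tendsto_nhds_zero]
    intro ε hε
    have hC0 : 0 ≤ C := (norm_nonneg _).trans (hC 0)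
    have h1 := tendsto_iff_norm_sub_tendsto_zero.1 (SC_P v)
    have h2 : ∀ᶠ m in atTop, ‖P m v - v‖ < ε / (C + 1) := by
      have := h1.eventually (gt_mem_nhds (show (0 : ℝ) < ε / (C + 1) by positivity))
      simpa using this
    obtain ⟨m, hm⟩ := h2.exists
    filter_upwards [hx m] with k hk
    have h3 : ⟪v, x k⟫_ℂ = -⟪P m v - v, x k⟫_ℂ := by
      rw [inner_sub_left, P_symm, hk, inner_zero_right]; ring
    rw [h3, norm_neg]
    refine (norm_inner_le_norm _ _).trans_lt ?_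
    calc ‖P m v - v‖ * ‖x k‖ ≤ ‖P m v - v‖ * (C + 1) := by
          gcongr; linarith [hC k]
      _ < ε := by rwa [lt_div_iff₀ (by positivity)] at hm
  have hc := hK.isCompact_closure_image_closedBall C
  refine tendsto_of_subseq_tendsto fun ns hns => ?_
  obtain ⟨y, -, φ, hφ, hy⟩ := hc.tendsto_subseq (x := fun i => K (x (ns i))) fun i =>
    subset_closure ⟨x (ns i), by simpa using hC _, rfl⟩
  refine ⟨φ, ?_⟩
  have h0 : y = 0 := by
    have h1 : Tendsto (fun i => ⟪y, K (x (ns (φ i)))⟫_ℂ) atTop (𝓝 ⟪y, y⟫_ℂ) :=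
      tendsto_const_nhds.inner hy
    have h2 : Tendsto (fun i => ⟪y, K (x (ns (φ i)))⟫_ℂ) atTop (𝓝 0) := by
      have := (hw (ContinuousLinearMap.adjoint K y)).comp (hns.comp hφ.tendsto_atTop)
      simpa only [ContinuousLinearMap.adjoint_inner_left, Function.comp_def] using this
    exact inner_self_eq_zero.1 (tendsto_nhds_unique h1 h2)
  rw [h0] at hy
  exact hy

end Pool.Agent.H164Z.Toep
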