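import Mathlib

/-!
# Multiplication operators on the circle and a bounded analytic symbol with blocks at all scales
-/

set_option autoImplicit false
open MeasureTheory Filter Topology AddCircle
open scoped ComplexConjugate InnerProductSpace

namespace Pool.Agent.H164Z.Toep

/-- Normalised Haar measure on the circle. -/
noncomputable abbrev mu : Measure (AddCircle (1 : ℝ)) := haarAddCircle

/-- Square integrable functions on the circle. -/
noncomputable abbrev L2 := Lp ℂ 2 mu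

/-- The monomials. -/
noncomputable abbrev e (i : ℤ) : L2 := fourierLp 2 i

/-- `A` has the matrix of a bounded symbol. -/
def Sym (A : L2 →L[ℂ] L2) : Prop :=
  ∃ a : Lp ℂ ⊤ (volume : Measure (AddCircle (1 : ℝ))),
    ∀ i j : ℤ, ⟪e i, A (e j)⟫_ℂ = fourierCoeff (⇑a : AddCircle (1 : ℝ) → ℂ) (i - j)

theorem vol_eq : (volume : Measure (AddCircle (1 : ℝ))) = mu := by
  rw [volume_eq_smul_haarAddCircle]; simp

theorem symOf {A : L2 →L[ℂ] L2} {c : AddCircle (1 : ℝ) → ℂ} (hc : MemLp c ⊤ mu)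
    (h : ∀ i j : ℤ, ⟪e i, A (e j)⟫_ℂ = fourierCoeff c (i - j)) : Sym A := by
  have hc' : MemLp c ⊤ (volume : Measure (AddCircle (1 : ℝ))) := memLp_haarAddCircle_iff.1 hc
  refine ⟨hc'.toLp, fun i j => ?_⟩
  rw [h]
  have h1 : (⇑hc'.toLp : AddCircle (1 : ℝ) → ℂ) =ᵐ[mu] c := by
    rw [← vol_eq]; exact hc'.coeFn_toLp
  rw [fourierCoeff_congr_ae h1]

/-- Multiplication by a bounded function. -/
noncomputable def mulOp (c : AddCircle (1 : ℝ) → ℂ) (hc : MemLp c ⊤ mu) : L2 →L[ℂ] L2 :=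
  (ContinuousLinearMap.mul ℂ ℂ).holderL mu ⊤ 2 2 hc.toLp

theorem coe_mulOp (c : AddCircle (1 : ℝ) → ℂ) (hc : MemLp c ⊤ mu) (f : L2) :
    (mulOp c hc f : AddCircle (1 : ℝ) → ℂ) =ᵐ[mu] fun x => c x * f x := by
  have h1 := (ContinuousLinearMap.mul ℂ ℂ).coeFn_holder (r := 2) hc.toLp f
  filter_upwards [h1, hc.coeFn_toLp] with x hx hx2
  simp only [mulOp, ContinuousLinearMap.holderL_apply_apply]
  rw [hx, hx2]
  rfl

theorem entry_mulOp (c : AddCircle (1 : ℝ) → ℂ) (hc : MemLp c ⊤ mu) (i j : ℤ) :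
    ⟪e i, mulOp c hc (e j)⟫_ℂ = fourierCoeff c (i - j) := by
  rw [L2.inner_def, fourierCoeff]
  apply integral_congr_ae
  filter_upwards [coe_mulOp c hc (e j), coeFn_fourierLp (T := 1) 2 i,
    coeFn_fourierLp (T := 1) 2 j] with x h1 h2 h3
  rw [h1, h2, h3, RCLike.inner_apply', ← fourier_neg, smul_eq_mul, neg_sub, sub_eq_add_neg,
    fourier_add]
  ring

theorem entry_mulOp2 (c : AddCircle (1 : ℝ) → ℂ) (hc : MemLp c ⊤ mu) (i j : ℤ) :
    ⟪mulOp c hc (e i), mulOp c hc (e j)⟫_ℂ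
      = fourierCoeff (fun x => conj (c x) * c x) (i - j) := by
  rw [L2.inner_def, fourierCoeff]
  apply integral_congr_ae
  filter_upwards [coe_mulOp c hc (e j), coe_mulOp c hc (e i), coeFn_fourierLp (T := 1) 2 i,
    coeFn_fourierLp (T := 1) 2 j] with x h1 h1' h2 h3
  rw [h1, h1', h2, h3, RCLike.inner_apply', map_mul, ← fourier_neg, smul_eq_mul, neg_sub,
    sub_eq_add_neg, fourier_add]
  ring

theorem coeff_conj (c : AddCircle (1 : ℝ) → ℂ) (m : ℤ) :
    fourierCoeff (fun x => conj (c x)) m = conj (fourierCoeff c (-m)) := by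
  rw [fourierCoeff, fourierCoeff, ← integral_conj]
  apply integral_congr_ae
  filter_upwards with x
  rw [neg_neg, smul_eq_mul, smul_eq_mul, map_mul, ← fourier_neg]

theorem memLp_conj {c : AddCircle (1 : ℝ) → ℂ} (hc : MemLp c ⊤ mu) :
    MemLp (fun x => conj (c x)) ⊤ mu := by
  refine MemLp.of_le hc (RCLike.continuous_conj.comp_aestronglyMeasurable hc.1) ?_
  filter_upwards with x
  simp

theorem sym_mulOp (c : AddCircle (1 : ℝ) → ℂ) (hc : MemLp c ⊤ mu) : Sym (mulOp c hc) :=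
  symOf hc (entry_mulOp c hc)

theorem sym_adj (c : AddCircle (1 : ℝ) → ℂ) (hc : MemLp c ⊤ mu) :
    Sym (ContinuousLinearMap.adjoint (mulOp c hc)) := by
  refine symOf (memLp_conj hc) fun i j => ?_
  rw [ContinuousLinearMap.adjoint_inner_right, ← inner_conj_symm, entry_mulOp, coeff_conj, neg_sub]

theorem sym_adj_mul (c : AddCircle (1 : ℝ) → ℂ) (hc : MemLp c ⊤ mu) :
    Sym (ContinuousLinearMap.adjoint (mulOp c hc) * mulOp c hc) := by
  have h2 : MemLp (fun x => conj (c x) * c x) ⊤ mu := by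
    have := MemLp.mul (r := ⊤) hc (memLp_conj hc)
    exact this
  refine symOf h2 fun i j => ?_
  rw [mul_apply_eq_comp, ContinuousLinearMap.adjoint_inner_right, entry_mulOp2]

/-! ### The symbol -/

/-- One block. -/
noncomputable def blk (k : ℕ) (x : AddCircle (1 : ℝ)) : ℂ :=
  ∑ i ∈ Finset.range (8 ^ k), ((8 : ℂ) ^ k)⁻¹ *
    (fourier ((3 * 8 ^ k + i : ℕ) : ℤ) x - fourier ((6 * 8 ^ k + i : ℕ) : ℤ) x)

theorem fourier_nat (n : ℕ) (x : AddCircle (1 : ℝ)) :
    fourier (n : ℤ) x = (fourier 1 x) ^ n := by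
  induction n with
  | zero => simp
  | succ n ih => rw [Nat.cast_succ, fourier_add, ih, pow_succ]

theorem norm_fourier (n : ℤ) (x : AddCircle (1 : ℝ)) : ‖fourier n x‖ = 1 := by
  rw [fourier_apply, Circle.norm_coe]

theorem blk_eq (k : ℕ) (x : AddCircle (1 : ℝ)) :
    blk k x = ((8 : ℂ) ^ k)⁻¹ * (fourier 1 x) ^ (3 * 8 ^ k) * (1 - (fourier 1 x) ^ (3 * 8 ^ k)) *
      ∑ i ∈ Finset.range (8 ^ k), (fourier 1 x) ^ i := by
  rw [blk, Finset.mul_sum]
  refine Finset.sum_congr rfl fun i _ => ?_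
  rw [fourier_nat, fourier_nat]
  have : 6 * 8 ^ k + i = 3 * 8 ^ k + 3 * 8 ^ k + i := by ring
  rw [this, pow_add, pow_add, pow_add]
  ring

theorem norm_geom_le (z : ℂ) (hz : ‖z‖ = 1) (n : ℕ) :
    ‖∑ i ∈ Finset.range n, z ^ i‖ ≤ n := by
  refine (norm_sum_le _ _).trans ?_
  simp [hz]

theorem norm_one_sub_pow (z : ℂ) (hz : ‖z‖ = 1) (n : ℕ) : ‖1 - z ^ n‖ ≤ n * ‖1 - z‖ := by
  rw [← mul_neg_geom_sum, norm_mul, mul_comm]
  exact mul_le_mul_of_nonneg_right (norm_geom_le z hz n) (norm_nonneg _)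

theorem norm_one_sub_pow' (z : ℂ) (hz : ‖z‖ = 1) (n : ℕ) : ‖1 - z ^ n‖ ≤ 2 := by
  refine (norm_sub_le _ _).trans ?_
  simp [hz]; norm_num

/-- The telescoping majorant. -/
noncomputable def gg (s : ℝ) : ℝ := s / (1 + s)

theorem norm_blk_le (k : ℕ) (x : AddCircle (1 : ℝ)) :
    ‖blk k x‖ ≤ 11 * (gg (8 ^ (k + 1) * ‖1 - fourier 1 x‖) - gg (8 ^ k * ‖1 - fourier 1 x‖)) := by
  set z : ℂ := fourier 1 x with hzdef
  have hz : ‖z‖ = 1 := norm_fourier 1 x
  set t : ℝ := ‖1 - z‖ with ht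
  have ht0 : 0 ≤ t := norm_nonneg _
  have hM : (0 : ℝ) < 8 ^ k := by positivity
  have hn : ‖blk k x‖ = (8 ^ k)⁻¹ * ‖1 - z ^ (3 * 8 ^ k)‖ *
      ‖∑ i ∈ Finset.range (8 ^ k), z ^ i‖ := by
    rw [blk_eq, norm_mul, norm_mul, norm_mul, norm_pow, hz, one_pow, mul_one, norm_inv, norm_pow,
      ← hzdef]
    simp
  have hS : ‖∑ i ∈ Finset.range (8 ^ k), z ^ i‖ ≤ 8 ^ k := by
    have := norm_geom_le z hz (8 ^ k)
    exact_mod_cast this
  have h0 : ‖blk k x‖ ≤ ‖1 - z ^ (3 * 8 ^ k)‖ := by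
    rw [hn]
    calc (8 ^ k)⁻¹ * ‖1 - z ^ (3 * 8 ^ k)‖ * ‖∑ i ∈ Finset.range (8 ^ k), z ^ i‖
        ≤ (8 ^ k)⁻¹ * ‖1 - z ^ (3 * 8 ^ k)‖ * 8 ^ k := by gcongr
      _ = ‖1 - z ^ (3 * 8 ^ k)‖ := by field_simp
  have h1 : ‖blk k x‖ ≤ 3 * (8 ^ k * t) := by
    refine h0.trans ((norm_one_sub_pow z hz _).trans ?_)
    push_cast
    rw [ht]; linarith
  have h2 : ‖blk k x‖ ≤ 2 := h0.trans (norm_one_sub_pow' z hz _)
  have h3 : ‖blk k x‖ * (8 ^ k * t) ≤ 4 := by
    have h4 : ‖∑ i ∈ Finset.range (8 ^ k), z ^ i‖ * t ≤ 2 := by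
      rw [ht, ← norm_mul, mul_comm, mul_neg_geom_sum]
      exact norm_one_sub_pow' z hz _
    have h5 := norm_one_sub_pow' z hz (3 * 8 ^ k)
    calc ‖blk k x‖ * (8 ^ k * t)
        = ‖1 - z ^ (3 * 8 ^ k)‖ * (‖∑ i ∈ Finset.range (8 ^ k), z ^ i‖ * t) := by
          rw [hn]; field_simp
      _ ≤ 2 * 2 := by gcongr
      _ = 4 := by norm_num
  set r := ‖blk k x‖ with hr
  have hr0 : 0 ≤ r := norm_nonneg _
  set s : ℝ := 8 ^ k * t with hs
  have hs0 : 0 ≤ s := by positivity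
  have h8 : (8 : ℝ) ^ (k + 1) * t = 8 * s := by rw [hs, pow_succ]; ring
  rw [h8, gg, gg]
  have h6 : 11 * (8 * s / (1 + 8 * s) - s / (1 + s)) = 77 * s / ((1 + 8 * s) * (1 + s)) := by
    field_simp; ring
  rw [h6, le_div_iff₀ (by positivity)]
  nlinarith [mul_le_mul_of_nonneg_right h2 hs0, mul_le_mul_of_nonneg_right h3 hs0]

theorem sum_norm_blk_le (K : ℕ) (x : AddCircle (1 : ℝ)) :
    ∑ k ∈ Finset.range K, ‖blk k x‖ ≤ 11 := by
  refine (Finset.sum_le_sum fun k _ => norm_blk_le k x).trans ?_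
  rw [← Finset.mul_sum, Finset.sum_range_sub (fun k => gg (8 ^ k * ‖1 - fourier 1 x‖))]
  have h1 : ∀ s : ℝ, 0 ≤ s → gg s ≤ 1 := fun s hs => by
    rw [gg, div_le_one (by positivity)]; linarith
  have h2 : ∀ s : ℝ, 0 ≤ s → 0 ≤ gg s := fun s hs => by
    rw [gg]; positivity
  have := h1 (8 ^ K * ‖1 - fourier 1 x‖) (by positivity)
  have := h2 (8 ^ 0 * ‖1 - fourier 1 x‖) (by positivity)
  linarith

theorem summable_blk (x : AddCircle (1 : ℝ)) : Summable fun k => ‖blk k x‖ :=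
  summable_of_sum_range_le (fun _ => norm_nonneg _) fun K => sum_norm_blk_le K x

theorem continuous_blk (k : ℕ) : Continuous (blk k) := by
  unfold blk
  fun_prop

/-- The symbol. -/
noncomputable def symb (x : AddCircle (1 : ℝ)) : ℂ := ∑' k, blk k x

theorem norm_symb_le (x : AddCircle (1 : ℝ)) : ‖symb x‖ ≤ 11 := by
  refine (norm_tsum_le_tsum_norm (summable_blk x)).trans ?_
  exact Real.tsum_le_of_sum_range_le (fun _ => norm_nonneg _) fun K => sum_norm_blk_le K x

theorem memLp_symb : MemLp symb ⊤ mu := by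
  refine memLp_top_of_bound ?_ 11 (Eventually.of_forall norm_symb_le)
  refine aestronglyMeasurable_of_tendsto_ae atTop
    (f := fun K x => ∑ k ∈ Finset.range K, blk k x) (fun K => ?_) ?_
  · exact (continuous_finsetSum _ fun k _ => continuous_blk k).aestronglyMeasurable
  · exact Eventually.of_forall fun x => (summable_blk x).of_norm.hasSum.tendsto_sum_nat

theorem integrable_cont {f : AddCircle (1 : ℝ) → ℂ} (hf : Continuous f) : Integrable f mu :=
  hf.integrable_of_hasCompactSupport (HasCompactSupport.of_compactSpace f)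

theorem hasSum_coeff (m : ℤ) :
    HasSum (fun k => fourierCoeff (blk k) m) (fourierCoeff symb m) := by
  have h1 : ∀ k, Integrable (fun x => fourier (-m) x • blk k x) mu := fun k =>
    (integrable_cont (continuous_blk k)).fourier_smul _
  have h2 : Summable fun k => ∫ x, ‖fourier (-m) x • blk k x‖ ∂mu := by
    refine summable_of_sum_range_le (c := 11) (fun k => integral_nonneg fun _ => norm_nonneg _)
      fun K => ?_
    rw [← integral_finsetSum _ fun k _ => (h1 k).norm]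
    have : ∫ _ : AddCircle (1 : ℝ), (11 : ℝ) ∂mu = 11 := by simp
    rw [← this]
    refine integral_mono (integrable_finsetSum _ fun k _ => (h1 k).norm) (integrable_const _)
      fun x => ?_
    simp only [norm_smul, norm_fourier, one_mul]
    exact sum_norm_blk_le K x
  have h3 := hasSum_integral_of_summable_integral_norm h1 h2
  have h4 : fourierCoeff symb m = ∫ x, ∑' k, fourier (-m) x • blk k x ∂mu := by
    rw [fourierCoeff]
    refine integral_congr_ae (Eventually.of_forall fun x => ?_)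
    simp only [symb, smul_eq_mul]
    rw [tsum_mul_left]
  rw [h4]
  exact h3

theorem coeff_blk (k : ℕ) (m : ℤ) :
    fourierCoeff (blk k) m = ((8 : ℂ) ^ k)⁻¹ *
      ((if 3 * 8 ^ k ≤ m ∧ m < 4 * 8 ^ k then 1 else 0) -
        (if 6 * 8 ^ k ≤ m ∧ m < 7 * 8 ^ k then 1 else 0)) := by
  have h1 : ∀ n : ℤ, Integrable (fun x : AddCircle (1 : ℝ) => fourier (-m) x • fourier n x) mu :=
    fun n => (integrable_cont (map_continuous (fourier n))).fourier_smul _
  have h2 : ∀ n : ℤ, ∫ x : AddCircle (1 : ℝ), fourier (-m) x • fourier n x ∂mu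
      = if m = n then 1 else 0 := fun n => by
    have := congrFun (fourierCoeff_fourier (T := 1) n) m
    rw [fourierCoeff, Pi.single_apply] at this
    exact this
  have h3 : ∀ a : ℕ, ∑ i ∈ Finset.range (8 ^ k), (if m = ((a * 8 ^ k + i : ℕ) : ℤ) then (1 : ℂ)
      else 0) = if a * 8 ^ k ≤ m ∧ m < (a + 1) * 8 ^ k then 1 else 0 := fun a => by
    split_ifs with h
    · rw [Finset.sum_eq_single (m - a * 8 ^ k).toNat]
      · rw [if_pos]
        push_cast
        rw [Int.toNat_of_nonneg (by omega)]; ring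
      · intro b _ hb
        rw [if_neg]
        intro hm
        apply hb
        rw [hm]; push_cast; simp
      · intro hb
        exfalso
        apply hb
        rw [Finset.mem_range]
        have : ((m - a * 8 ^ k).toNat : ℤ) < ((8 ^ k : ℕ) : ℤ) := by
          rw [Int.toNat_of_nonneg (by omega)]; push_cast; linarith [h.2]
        exact_mod_cast this
    · refine Finset.sum_eq_zero fun i hi => if_neg fun hm => h ?_
      rw [Finset.mem_range] at hi
      have hi' : (i : ℤ) < 8 ^ k := by exact_mod_cast hi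
      rw [hm]; push_cast
      constructor
      · have : (0 : ℤ) ≤ i := Int.natCast_nonneg i
        linarith
      · linarith
  have h4 : fourierCoeff (blk k) m = ∑ i ∈ Finset.range (8 ^ k), ((8 : ℂ) ^ k)⁻¹ *
      ((if m = ((3 * 8 ^ k + i : ℕ) : ℤ) then (1 : ℂ) else 0) -
        (if m = ((6 * 8 ^ k + i : ℕ) : ℤ) then (1 : ℂ) else 0)) := by
    rw [fourierCoeff]
    have : ∀ x : AddCircle (1 : ℝ), fourier (-m) x • blk k x =
        ∑ i ∈ Finset.range (8 ^ k), ((8 : ℂ) ^ k)⁻¹ *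
          (fourier (-m) x • fourier ((3 * 8 ^ k + i : ℕ) : ℤ) x -
            fourier (-m) x • fourier ((6 * 8 ^ k + i : ℕ) : ℤ) x) := fun x => by
      rw [blk, smul_eq_mul, Finset.mul_sum]
      refine Finset.sum_congr rfl fun i _ => ?_
      simp only [smul_eq_mul]; ring
    simp only [this]
    refine (integral_finsetSum _ fun i _ => ((h1 _).sub (h1 _)).const_mul _).trans ?_
    refine Finset.sum_congr rfl fun i _ => ?_
    simp only [Pi.sub_apply]
    rw [integral_const_mul, integral_sub (h1 _) (h1 _), h2, h2]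
  rw [h4, ← Finset.mul_sum, Finset.sum_sub_distrib, h3 3, h3 6]
  norm_num

theorem coeff_symb_neg (m : ℤ) (hm : m < 0) : fourierCoeff symb m = 0 := by
  have h : (fun k => fourierCoeff (blk k) m) = fun _ => 0 := by
    funext k
    have : (0 : ℤ) < 8 ^ k := by positivity
    rw [coeff_blk, if_neg (by omega), if_neg (by omega)]; simp
  have := hasSum_coeff m
  rw [h] at this
  exact this.unique hasSum_zero

theorem coeff_symb_window (k : ℕ) (m : ℤ) (h1 : 8 ^ k ≤ m) (h2 : m < 6 * 8 ^ k) :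
    fourierCoeff symb m = if 3 * 8 ^ k ≤ m ∧ m < 4 * 8 ^ k then ((8 : ℂ) ^ k)⁻¹ else 0 := by
  have h := hasSum_coeff m
  have h3 : HasSum (fun j => fourierCoeff (blk j) m) (fourierCoeff (blk k) m) := by
    refine hasSum_single k fun j hj => ?_
    have hpos : (0 : ℤ) < 8 ^ j := by positivity
    rcases lt_or_gt_of_ne hj with hlt | hgt
    · have : (8 : ℤ) ^ (j + 1) ≤ 8 ^ k := pow_le_pow_right₀ (by norm_num) hlt
      rw [pow_succ] at this
      rw [coeff_blk, if_neg (by omega), if_neg (by omega)]; simp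
    · have : (8 : ℤ) ^ (k + 1) ≤ 8 ^ j := pow_le_pow_right₀ (by norm_num) hgt
      rw [pow_succ] at this
      have hk : (0 : ℤ) < 8 ^ k := by positivity
      rw [coeff_blk, if_neg (by omega), if_neg (by omega)]; simp
  rw [h.unique h3, coeff_blk, if_neg (show ¬ (6 * 8 ^ k ≤ m ∧ m < 7 * 8 ^ k) by omega)]
  split_ifs <;> simp

end Pool.Agent.H164Z.Toep
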